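import Pool.Graph.R_pool_sql_team_seeded_2aa45f1a.Q193.LT.Defs
import Pool.Graph.R_seed8.Q193.LT.Pair

/-!
# One theory with long exact sequences: definitions
-/

set_option autoImplicit false

open CategoryTheory AlgebraicGeometry Pool.Agent.Y116.UV Pool.Agent.Q193.LT

universe w w'

namespace Pool.Agent.Helper3.GU

/-- The standard properties of one theory: isomorphisms, long exact sequences for a closed subscheme `Z`
of `X` and its complement `U` (covariant or contravariant), affine bundles with fibre `𝔸^{m-1}` (`τ` is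
the Tate twist), products with `𝔾_m`. -/
structure IsTheory {R : Type} [CommRing R] {ι : Type} {E : Type w'} [CommRing E]
    (N : ι → Sch R → ModuleCat.{w} E) (δ τ σ : ι ≃ ι) : Prop where
  iso : ∀ {X Y : Sch R}, FT True X → Nonempty (X ≅ Y) → ∀ j, Nonempty (N j X ≅ N j Y)
  les : ∀ {Z X U : Sch R} (i : Z ⟶ X) (j : U ⟶ X), FT True X → IsTriple i j →
    (∃ m : LesMaps N δ U X Z, m.IsExact) ∨ (∃ m : LesMaps N δ Z X U, m.IsExact)
  bundle : ∀ (B : Type) [CommRing B] [Algebra R B] [Algebra.FiniteType R B] (m : ℕ)
    (f : Fin m → B) (U : Sch R) (j : U ⟶ aff R B), IsOpenImmersion j.left →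
    Set.range j.left = {x : PrimeSpectrum B | ∃ l, f l ∉ x.asIdeal} →
    ∀ q, Nonempty (N q (aff R (Jou f)) ≅ N (((τ : Equiv.Perm ι) ^ (1 - m : ℤ)) q) U)
  torus : ∀ (B : Type) [CommRing B] [Algebra R B] [Algebra.FiniteType R B] (q : ι),
    ∃ (s : N q (aff R B) ⟶ N (σ q) (aff R (LaurentPolynomial B)))
      (r : N (σ q) (aff R (LaurentPolynomial B)) ⟶ N q (aff R B)), s ≫ r = 𝟙 _

/-- All modules of the theory are finitely generated. -/
def FinGen {R : Type} [CommRing R] {ι : Type} {E : Type w'} [CommRing E]
    (N : ι → Sch R → ModuleCat.{w} E) (X : Sch R) : Prop := ∀ j, Module.Finite E (N j X)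

/-- Smooth projective schemes generate: if all `N_j(Y)` are finitely generated for all smooth projective
schemes then they are finitely generated for all separated schemes of finite type. -/
def FinGenerated {k : Type} [Field k] {ι : Type} {E : Type w'} [CommRing E]
    (N : ι → Sch k → ModuleCat.{w} E) : Prop :=
  (∀ Y : Sch k, SmoothProj Y → FinGen N Y) → ∀ X : Sch k, FT True X → FinGen N X

end Pool.Agent.Helper3.GU
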