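import Pool.Agent.Helper3.GU.Cubic
import Pool.Agent.Helper3.GU.TDefs

/-!
# One theory with long exact sequences: finite generation

For a family of modules with long exact sequences for closed-open decompositions over a noetherian ring,
the schemes all of whose modules are finitely generated have the closure properties `Bnd`.
-/

set_option autoImplicit false

open CategoryTheory AlgebraicGeometry Pool.Agent.Y116.UV Pool.Agent.Z125.UN Pool.Agent.Q193.LT

universe w w'

namespace Pool.Agent.Helper3.GU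

section

variable {R : Type} [CommRing R] {ι : Type} {E : Type w'} [CommRing E]
  {N : ι → Sch R → ModuleCat.{w} E} {δ τ σ : ι ≃ ι}

lemma finite_iso {M M' : ModuleCat.{w} E} (e : Nonempty (M ≅ M')) (h : Module.Finite E M) :
    Module.Finite E M' := by
  obtain ⟨e⟩ := e
  exact Module.Finite.equiv e.toLinearEquiv

lemma finite_mid [IsNoetherianRing E] {M M' M'' : ModuleCat.{w} E} (f : M ⟶ M') (g : M' ⟶ M'')
    (h : ExactAt f g) (h1 : Module.Finite E M) (h2 : Module.Finite E M'') : Module.Finite E M' := by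
  have h3 : IsNoetherian E M'' := isNoetherian_of_isNoetherianRing_of_finite E M''
  have h4 : Module.Finite E (LinearMap.range g.hom) := inferInstance
  have h6 : LinearMap.ker g.hom = LinearMap.range f.hom := LinearMap.exact_iff.1 h
  have h5 : Module.Finite E (LinearMap.ker g.hom) := by
    rw [h6]
    infer_instance
  refine Module.finite_def.2 (Submodule.fg_of_fg_map_of_fg_inf_ker g.hom ?_ ?_)
  · rw [Submodule.map_top]
    exact Module.Finite.iff_fg.1 h4
  · rw [top_inf_eq]
    exact Module.Finite.iff_fg.1 h5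

lemma finite_factor {M M' : ModuleCat.{w} E} (s : M ⟶ M') (r : M' ⟶ M) (h : s ≫ r = 𝟙 _)
    (h1 : Module.Finite E M') : Module.Finite E M := by
  refine Module.Finite.of_surjective r.hom fun x => ⟨s.hom x, ?_⟩
  have h2 := congrArg (fun t => t.hom x) h
  exact h2

/-- Closure properties of the schemes with finitely generated modules. -/
theorem bnd_finGen [IsNoetherianRing E] (hN : IsTheory N δ τ σ) (h1 : FinGen N (aff R R)) :
    Bnd True (FinGen N) := by
  have hbun : ∀ (B : Type) [CommRing B] [Algebra R B] [Algebra.FiniteType R B] (m : ℕ)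
      (f : Fin m → B) (U : Sch R) (j : U ⟶ aff R B), IsOpenImmersion j.left →
      Set.range j.left = {x : PrimeSpectrum B | ∃ l, f l ∉ x.asIdeal} →
      (FinGen N U ↔ FinGen N (aff R (Jou f))) := by
    intro B _ _ _ m f U j hj hr
    constructor
    · intro h q
      obtain ⟨e⟩ := hN.bundle B m f U j hj hr q
      exact finite_iso ⟨e.symm⟩ (h _)
    · intro h q
      obtain ⟨q, rfl⟩ := ((τ : Equiv.Perm ι) ^ (1 - m : ℤ)).surjective q
      exact finite_iso (hN.bundle B m f U j hj hr q) (h q)
  have hL : ∀ {X Y Z : Sch R} {m : LesMaps N δ X Y Z}, m.IsExact → FinGen N X → FinGen N Z →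
      FinGen N Y := fun hm hX hZ j => finite_mid _ _ (hm.fg j) (hX j) (hZ j)
  have hR : ∀ {X Y Z : Sch R} {m : LesMaps N δ X Y Z}, m.IsExact → FinGen N X → FinGen N Y →
      FinGen N Z := fun hm hX hY j => finite_mid _ _ (hm.gh j) (hY j) (hX (δ j))
  have hA : ∀ {X Y Z : Sch R} {m : LesMaps N δ X Y Z}, m.IsExact → FinGen N Y → FinGen N Z →
      FinGen N X := fun hm hY hZ j => by
    obtain ⟨j, rfl⟩ := δ.surjective j
    exact finite_mid _ _ (hm.hf j) (hZ j) (hY _)
  exact
  { iso := fun hX e h j => finite_iso (hN.iso hX e j) (h j)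
    total := fun i j hX ht hZ hU => by
      rcases hN.les i j hX ht with ⟨m, h⟩ | ⟨m, h⟩
      · exact hL h hU hZ
      · exact hL h hZ hU
    opened := fun i j hX ht hZ hX' => by
      rcases hN.les i j hX ht with ⟨m, h⟩ | ⟨m, h⟩
      · exact hA h hX' hZ
      · exact hR h hZ hX'
    closed := fun i j hX ht hX' hU => by
      rcases hN.les i j hX ht with ⟨m, h⟩ | ⟨m, h⟩
      · exact hR h hU hX'
      · exact hA h hX' hU
    space := fun n => by
      have h2 := (hbun R (n + 1) (f1 R n) (aff R R) (𝟙 _) inferInstance (range_id n)).mp h1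
      intro q
      exact finite_iso (hN.iso (ft_aff True) ⟨(affIso (jouOne R n)).symm⟩ q) (h2 q)
    jouanolou := fun B _ _ _ m f U j hj hr h => (hbun B m f U j hj hr).mpr h
    torus := fun B _ _ _ h q => by
      obtain ⟨s, r, hs⟩ := hN.torus B q
      exact finite_factor s r hs (h _)
    bundle := fun B _ _ _ m f U j hj hr h => (hbun B m f U j hj hr).mp h }

end

/-! ### Conjunctions -/

section

variable {R : Type} [CommRing R] {sep : Prop} {P Q : Sch R → Prop}

/-- The conjunction of two properties with the closure properties. -/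
theorem bnd_and (hP : Bnd sep P) (hQ : Bnd sep Q) : Bnd sep fun X => P X ∧ Q X where
  iso hX e h := ⟨hP.iso hX e h.1, hQ.iso hX e h.2⟩
  total i j hX ht hZ hU := ⟨hP.total i j hX ht hZ.1 hU.1, hQ.total i j hX ht hZ.2 hU.2⟩
  opened i j hX ht hZ hX' := ⟨hP.opened i j hX ht hZ.1 hX'.1, hQ.opened i j hX ht hZ.2 hX'.2⟩
  closed i j hX ht hX' hU := ⟨hP.closed i j hX ht hX'.1 hU.1, hQ.closed i j hX ht hX'.2 hU.2⟩
  space n := ⟨hP.space n, hQ.space n⟩
  jouanolou B _ _ _ m f U j hj hr h :=
    ⟨hP.jouanolou B m f U j hj hr h.1, hQ.jouanolou B m f U j hj hr h.2⟩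
  torus B _ _ _ h := ⟨hP.torus B h.1, hQ.torus B h.2⟩
  bundle B _ _ _ m f U j hj hr h :=
    ⟨hP.bundle B m f U j hj hr h.1, hQ.bundle B m f U j hj hr h.2⟩

end

universe w1 w2

/-- Bijectivity of a comparison map together with finite generation of a third theory. -/
theorem cubic_fin {k : Type} [Field k] [PerfectField k] {ι ι' : Type} {E : Type w'} [CommRing E]
    {E' : Type w1} [CommRing E'] [IsNoetherianRing E'] {C : PairData.{w} k ι E}
    {N : ι' → Sch k → ModuleCat.{w2} E'} {δ τ σ : ι ≃ ι} {δ' τ' σ' : ι' ≃ ι'}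
    (hg : WeightGen C) (hC : IsPair C δ τ σ) (h1 : BijAll C (aff k k))
    (hg' : FinGenerated N) (hN : IsTheory N δ' τ' σ') (h1' : FinGen N (aff k k)) (hF : Frac k) :
    (Statements' fun X => FinGen N X ∧ BijAll C X).TFAE :=
  cubic_cons (mot_of_bnd (bnd_and (bnd_finGen hN h1') (bnd_pair hC h1))) hF fun h X hX =>
    ⟨hg' (fun Y hY => (h Y hY).1) X hX, (all_iff (bnd_pair hC h1)).mpr
      ((wg_all hg hC h1).mp fun Y hY => (h Y hY).2) X hX⟩

end Pool.Agent.Helper3.GU
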