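import Pool.Graph.R_seed8.Y116.UV.Defs

/-!
# Graph hypersurfaces: definitions
-/

set_option autoImplicit false

open CategoryTheory AlgebraicGeometry Pool.Agent.Y116.UV Matrix

namespace Pool.Agent.Helper3.GU

section

open Classical in
/-- The value of a function on the edges at the pair `i`, `j`, or zero if `i`, `j` is not an edge. -/
noncomputable def wt {V C : Type} [CommRing C] (G : SimpleGraph V) (x : G.edgeSet → C) (i j : V) :
    C :=
  if h : G.Adj i j then x ⟨s(i, j), h⟩ else 0

open Classical in
/-- The reduced weighted Laplacian of a graph with the vertices `0, …, n`: the row and the column of the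
vertex `0` are omitted. -/
noncomputable def laplacian {n : ℕ} {C : Type} [CommRing C] (G : SimpleGraph (Fin (n + 1)))
    (x : G.edgeSet → C) : Matrix (Fin n) (Fin n) C :=
  of fun i j => (if i = j then ∑ k, wt G x i.succ k else 0) - wt G x i.succ j.succ

/-- The Kirchhoff polynomial of a graph. -/
noncomputable def kirchhoff (R : Type) [CommRing R] {n : ℕ} (G : SimpleGraph (Fin (n + 1))) :
    MvPolynomial G.edgeSet R :=
  (laplacian G MvPolynomial.X).det

/-- The complement of the hypersurface of the Kirchhoff polynomial in the affine space. -/
noncomputable def graphS (R : Type) [CommRing R] {n : ℕ} (G : SimpleGraph (Fin (n + 1))) : Sch R :=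
  aff R (Localization.Away (kirchhoff R G))

/-- The hypersurface of the Kirchhoff polynomial in the affine space. -/
noncomputable def graphH (R : Type) [CommRing R] {n : ℕ} (G : SimpleGraph (Fin (n + 1))) : Sch R :=
  aff R (MvPolynomial G.edgeSet R ⧸ Ideal.span {kirchhoff R G})

end

section

open Classical

/-- Every vertex has at most three neighbours. -/
def Subcubic {n : ℕ} (G : SimpleGraph (Fin (n + 1))) : Prop := ∀ v, (G.neighborSet v).ncard ≤ 3

/-- The complement of the hypersurface of the Kirchhoff polynomial in the torus. -/
noncomputable def graphT (R : Type) [CommRing R] {n : ℕ} (G : SimpleGraph (Fin (n + 1))) : Sch R :=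
  aff R (Localization.Away (kirchhoff R G * ∏ e, MvPolynomial.X e))

/-- The incidence matrix of the graph, oriented such that the edges go from the smaller vertex to the
larger one; the vertex `0` is omitted. -/
noncomputable def incidence (C : Type) [CommRing C] {n : ℕ} (G : SimpleGraph (Fin (n + 1))) :
    Matrix G.edgeSet (Fin n) C :=
  of fun e v => (if e.1.inf = v.succ then 1 else 0) - (if e.1.sup = v.succ then 1 else 0)

/-- The first Symanzik polynomial of a graph: the determinant of the expanded Laplacian matrix. -/
noncomputable def symanzik (R : Type) [CommRing R] {n : ℕ} (G : SimpleGraph (Fin (n + 1))) :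
    MvPolynomial G.edgeSet R :=
  (fromBlocks (diagonal MvPolynomial.X) (incidence _ G) (-(incidence _ G)ᵀ) 0).det

/-- The complement of the hypersurface of the first Symanzik polynomial in the torus. -/
noncomputable def feynmanT (R : Type) [CommRing R] {n : ℕ} (G : SimpleGraph (Fin (n + 1))) : Sch R :=
  aff R (Localization.Away (symanzik R G * ∏ e, MvPolynomial.X e))

end

end Pool.Agent.Helper3.GU
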