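import Pool.Agent.Helper3.GU.Bil
import Pool.Agent.Helper3.GU.GDefs
import Pool.Graph.R_seed8.Y116.UV.Graph

/-!
# Graph hypersurfaces decide every motivic property

The Kirchhoff polynomial of a graph is the determinant of its reduced weighted Laplacian; by the matrix
tree theorem it is the sum over the spanning trees of the products of the variables of their edges. If a
property of schemes of finite type is closed under closed-open decompositions and under the usual
affine bundles, then it is true for all schemes of finite type as soon as it is true for the complements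
of the hypersurfaces of the Kirchhoff polynomials.
-/

set_option autoImplicit false

open CategoryTheory AlgebraicGeometry Pool.Agent.Y116.UV Pool.Agent.Q282.UK Matrix

namespace Pool.Agent.Helper3.GU

lemma wt_symm {V C : Type} [CommRing C] (G : SimpleGraph V) (x : G.edgeSet → C) (i j : V) :
    wt G x i j = wt G x j i := by
  rw [wt, wt]
  by_cases h : G.Adj i j
  · rw [dif_pos h, dif_pos h.symm]
    congr 1
    exact Subtype.ext Sym2.eq_swap
  · rw [dif_neg h, dif_neg fun h2 => h h2.symm]

lemma wt_self {V C : Type} [CommRing C] (G : SimpleGraph V) (x : G.edgeSet → C) (i : V) :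
    wt G x i i = 0 := by
  rw [wt, dif_neg (G.loopless.irrefl i)]

lemma wt_map {V C D : Type} [CommRing C] [CommRing D] (f : C →+* D) (G : SimpleGraph V)
    (x : G.edgeSet → C) (i j : V) : wt G (fun e => f (x e)) i j = f (wt G x i j) := by
  rw [wt, wt]
  split_ifs
  · rfl
  · rw [map_zero]

lemma laplacian_map {n : ℕ} {C D : Type} [CommRing C] [CommRing D] (f : C →+* D)
    (G : SimpleGraph (Fin (n + 1))) (x : G.edgeSet → C) :
    laplacian G (fun e => f (x e)) = (laplacian G x).map f := by
  ext i j
  simp only [laplacian, of_apply, map_apply, map_sub, wt_map]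
  congr 1
  split_ifs
  · rw [map_sum]
  · rw [map_zero]

/-- the Kirchhoff polynomial as a function -/
noncomputable def kF {n : ℕ} (G : SimpleGraph (Fin (n + 1))) : NF (PT.aff G.edgeSet) where
  fn p := (laplacian G p.2).det
  nat f p := by
    change (laplacian G (fun e => f (p.2 e))).det = _
    rw [laplacian_map, det_map]

/-- the complement of the graph hypersurface -/
noncomputable def KF {n : ℕ} (G : SimpleGraph (Fin (n + 1))) : PF := (PT.aff G.edgeSet).unit (kF G)

variable {R : Type} [CommRing R] {sep : Prop} {P : Sch R → Prop}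

lemma finite_edge {n : ℕ} (G : SimpleGraph (Fin (n + 1))) : Finite G.edgeSet := inferInstance

lemma ft_edge {n : ℕ} (G : SimpleGraph (Fin (n + 1))) :
    Algebra.FiniteType R (MvPolynomial G.edgeSet R) := by
  have := Fintype.ofFinite G.edgeSet
  infer_instance

lemma holds_KF {n : ℕ} (G : SimpleGraph (Fin (n + 1))) (h : P (graphS R G)) : Holds P (KF G) := by
  have h1 := (rep_PT (R := R)).aff G.edgeSet
  have := ft_edge (R := R) G
  exact ⟨_, inferInstance, inferInstance, ft_loc _ _, _, h1.unit (kF G) rfl, h⟩

/-- The cone over a graph: a new vertex `0` that is adjacent to all the vertices. -/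
def cone {n : ℕ} (Γ : SimpleGraph (Fin n)) : SimpleGraph (Fin (n + 1)) where
  Adj i j := i ≠ j ∧ ∀ a b, i = a.succ → j = b.succ → Γ.Adj a b
  symm := ⟨fun _ _ h => ⟨h.1.symm, fun a b h1 h2 => (h.2 b a h2 h1).symm⟩⟩
  loopless := ⟨fun _ h => h.1 rfl⟩

lemma cone_zero {n : ℕ} (Γ : SimpleGraph (Fin n)) (a : Fin n) : (cone Γ).Adj 0 a.succ :=
  ⟨(Fin.succ_ne_zero a).symm, fun b _ h => absurd h (Fin.succ_ne_zero b).symm⟩

lemma cone_succ {n : ℕ} (Γ : SimpleGraph (Fin n)) (a b : Fin n) :
    (cone Γ).Adj a.succ b.succ ↔ Γ.Adj a b := by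
  constructor
  · rintro ⟨-, h⟩
    exact h a b rfl rfl
  · intro h
    refine ⟨fun h2 => h.ne (Fin.succ_injective _ h2), fun a' b' h1 h2 => ?_⟩
    rw [← Fin.succ_injective _ h1, ← Fin.succ_injective _ h2]
    exact h

section

variable {n : ℕ} {C : Type} [CommRing C]

/-- the weights of the edges of the cone -/
def cw (M : Matrix (Fin n) (Fin n) C) (i j : Fin (n + 1)) : C :=
  Fin.cases (motive := fun _ => C) (Fin.cases (motive := fun _ => C) 0 (fun b => ∑ c, M b c) j)
    (fun a => Fin.cases (motive := fun _ => C) (∑ c, M a c) (fun b => -M a b) j) i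

lemma cw_symm (M : Matrix (Fin n) (Fin n) C) (h : ∀ a b, M a b = M b a) (i j : Fin (n + 1)) :
    cw M i j = cw M j i := by
  refine Fin.cases ?_ (fun a => ?_) i <;> refine Fin.cases ?_ (fun b => ?_) j
  · rfl
  · rfl
  · rfl
  · change -M a b = -M b a
    rw [h]

/-- the weights of the edges of the cone -/
def cx (Γ : SimpleGraph (Fin n)) (M : Matrix (Fin n) (Fin n) C) (h : ∀ a b, M a b = M b a) :
    (cone Γ).edgeSet → C :=
  fun e => Sym2.lift ⟨cw M, cw_symm M h⟩ e.1

lemma wt_zero (Γ : SimpleGraph (Fin n)) (M : Matrix (Fin n) (Fin n) C) (h : ∀ a b, M a b = M b a)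
    (a : Fin n) : wt (cone Γ) (cx Γ M h) a.succ 0 = ∑ c, M a c := by
  rw [wt, dif_pos (cone_zero Γ a).symm]
  rfl

lemma wt_succ (Γ : SimpleGraph (Fin n)) (M : Matrix (Fin n) (Fin n) C) (h : ∀ a b, M a b = M b a)
    (hM : ∀ a b, a ≠ b → ¬ Γ.Adj a b → M a b = 0) (a b : Fin n) (hab : a ≠ b) :
    wt (cone Γ) (cx Γ M h) a.succ b.succ = -M a b := by
  rw [wt]
  by_cases h1 : Γ.Adj a b
  · rw [dif_pos ((cone_succ Γ a b).2 h1)]
    rfl
  · rw [dif_neg fun h2 => h1 ((cone_succ Γ a b).1 h2), hM a b hab h1, neg_zero]

lemma laplacian_cx (Γ : SimpleGraph (Fin n)) (M : Matrix (Fin n) (Fin n) C)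
    (h : ∀ a b, M a b = M b a) (hM : ∀ a b, a ≠ b → ¬ Γ.Adj a b → M a b = 0) :
    laplacian (cone Γ) (cx Γ M h) = M := by
  classical
  ext i j
  rw [laplacian, of_apply]
  by_cases hij : i = j
  · subst hij
    rw [if_pos rfl, wt_self, sub_zero, Fin.sum_univ_succ, wt_zero]
    have h1 : ∑ k : Fin n, wt (cone Γ) (cx Γ M h) i.succ k.succ = M i i - ∑ c, M i c := by
      rw [eq_sub_iff_add_eq, ← Finset.sum_add_distrib, Finset.sum_eq_single i]
      · rw [wt_self, zero_add]
      · intro k _ hk
        rw [wt_succ Γ M h hM i k hk.symm]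
        ring
      · intro h2
        exact absurd (Finset.mem_univ _) h2
    rw [h1]
    ring
  · rw [if_neg hij, wt_succ Γ M h hM i j hij]
    ring

lemma laplacian_symm (G : SimpleGraph (Fin (n + 1))) (x : G.edgeSet → C) (i j : Fin n) :
    laplacian G x i j = laplacian G x j i := by
  classical
  rw [laplacian, of_apply, of_apply, wt_symm]
  congr 1
  by_cases h : i = j
  · subst h
    rfl
  · rw [if_neg h, if_neg (Ne.symm h)]

lemma laplacian_sum (G : SimpleGraph (Fin (n + 1))) (x : G.edgeSet → C) (i : Fin n) :
    ∑ j, laplacian G x i j = wt G x i.succ 0 := by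
  classical
  simp only [laplacian, of_apply]
  rw [Finset.sum_sub_distrib, Finset.sum_ite_eq, if_pos (Finset.mem_univ _), Fin.sum_univ_succ]
  ring

lemma cx_laplacian (Γ : SimpleGraph (Fin n)) (x : (cone Γ).edgeSet → C) :
    cx Γ (laplacian (cone Γ) x) (laplacian_symm _ x) = x := by
  funext e
  obtain ⟨e, he⟩ := e
  induction e using Sym2.inductionOn with
  | _ i j =>
    change cw (laplacian (cone Γ) x) i j = _
    have h0 : ∀ a : Fin n, wt (cone Γ) x a.succ 0 = x ⟨s(a.succ, 0), (cone_zero Γ a).symm⟩ := by
      intro a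
      rw [wt, dif_pos (cone_zero Γ a).symm]
    revert he
    refine Fin.cases ?_ (fun a => ?_) i <;> refine Fin.cases ?_ (fun b => ?_) j
    · intro he
      exact absurd he ((cone Γ).loopless.irrefl 0)
    · intro he
      change ∑ c, laplacian (cone Γ) x b c = _
      rw [laplacian_sum, h0]
      congr 1
      exact Subtype.ext Sym2.eq_swap
    · intro he
      change ∑ c, laplacian (cone Γ) x a c = _
      rw [laplacian_sum, h0]
    · intro he
      have h1 : (cone Γ).Adj a.succ b.succ := he
      have hab : a ≠ b := fun h => h1.1 (congrArg Fin.succ h)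
      change -laplacian (cone Γ) x a b = _
      rw [laplacian, of_apply, if_neg hab, wt, dif_pos h1]
      ring

end

/-- the graph of a pattern -/
def gr {V : Type} {n : ℕ} (q : Pat V PEmpty) (e : V ≃ Fin n) : SimpleGraph (Fin n) where
  Adj a b := a ≠ b ∧ q.adj (e.symm a) (e.symm b) ∧ q.adj (e.symm b) (e.symm a)
  symm := ⟨fun _ _ h => ⟨h.1.symm, h.2.2, h.2.1⟩⟩
  loopless := ⟨fun _ h => h.1 rfl⟩

section

variable {V : Type} [Fintype V] [DecidableEq V] {n : ℕ} (q : Pat V PEmpty) (e : V ≃ Fin n)

lemma gr_zero {C : Type} [CommRing C] (x : (TT q).pts C) (a b : Fin n) (hab : a ≠ b)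
    (h : ¬ (gr q e).Adj a b) : x.1.1.submatrix e.symm e.symm a b = 0 := by
  have h1 : e.symm a ≠ e.symm b := fun h2 => hab (e.symm.injective h2)
  by_cases h2 : q.adj (e.symm a) (e.symm b)
  · have h3 : ¬ q.adj (e.symm b) (e.symm a) := fun h3 => h ⟨hab, h2, h3⟩
    change x.1.1 (e.symm a) (e.symm b) = 0
    rw [x.2.symm]
    exact x.2.zero _ _ h1.symm h3
  · exact x.2.zero _ _ h1 h2

lemma lap_gr {C : Type} [CommRing C] (t : (TT q).pts C)
    (h : ∀ a b, t.1.1.submatrix e.symm e.symm a b = t.1.1.submatrix e.symm e.symm b a) :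
    laplacian (cone (gr q e)) (cx (gr q e) (t.1.1.submatrix e.symm e.symm) h) =
      t.1.1.submatrix e.symm e.symm :=
  laplacian_cx _ _ _ (gr_zero q e t)

lemma bwd_unit {C : Type} [CommRing C] (t : (TT q).pts C) (ht : IsUnit t.1.1.det)
    (h : ∀ a b, t.1.1.submatrix e.symm e.symm a b = t.1.1.submatrix e.symm e.symm b a) :
    IsUnit (laplacian (cone (gr q e)) (cx (gr q e) (t.1.1.submatrix e.symm e.symm) h)).det := by
  rw [lap_gr, det_submatrix_equiv_self]
  exact ht

/-- symmetric matrices with prescribed zeros are Laplacians -/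
noncomputable def grIso : PIso (KF (cone (gr q e))) ((TT q).unit (matT q).det) where
  fwd x := ⟨⟨((laplacian (cone (gr q e)) x.1.2).submatrix e e, fun k => k.elim),
    fun a b => laplacian_symm _ _ _ _, fun a b h1 h2 => by
      have h3 : e a ≠ e b := fun h => h1 (e.injective h)
      have h4 : ¬ (gr q e).Adj (e a) (e b) := by
        rintro ⟨-, h, -⟩
        rw [e.symm_apply_apply, e.symm_apply_apply] at h
        exact h2 h
      change laplacian (cone (gr q e)) x.1.2 (e a) (e b) = 0
      rw [laplacian, of_apply, if_neg h3, wt, dif_neg fun h => h4 ((cone_succ _ _ _).1 h), sub_zero],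
    fun k => k.elim, fun k => k.elim⟩, by
      change IsUnit ((laplacian (cone (gr q e)) x.1.2).submatrix e e).det
      rw [det_submatrix_equiv_self]
      exact x.2⟩
  bwd y := ⟨((), cx (gr q e) (y.1.1.1.submatrix e.symm e.symm) fun a b => y.1.2.symm _ _),
    bwd_unit q e y.1 y.2 fun a b => y.1.2.symm _ _⟩
  left x := by
    apply Subtype.ext
    apply Prod.ext
    · rfl
    · have h := cx_laplacian (gr q e) x.1.2
      have h2 : ((laplacian (cone (gr q e)) x.1.2).submatrix e e).submatrix e.symm e.symm =
          laplacian (cone (gr q e)) x.1.2 := by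
        ext a b
        simp
      have h3 : ∀ (M' : Matrix (Fin n) (Fin n) _) (h' : ∀ a b, M' a b = M' b a),
          M' = laplacian (cone (gr q e)) x.1.2 → cx (gr q e) M' h' = x.1.2 := by
        rintro _ _ rfl
        exact h
      refine h3 _ (fun a b => ?_) h2
      rw [h2]
      exact laplacian_symm _ _ _ _
  right y := by
    apply Subtype.ext
    apply Subtype.ext
    apply Prod.ext
    · refine (congrArg (fun N => N.submatrix e e) (lap_gr q e y.1 fun a b =>
        y.1.2.symm _ _)).trans ?_
      ext a b
      simp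
    · funext k
      exact k.elim
  nat f x := by
    apply Subtype.ext
    apply Subtype.ext
    apply Prod.ext
    · change (laplacian (cone (gr q e)) (fun a => f (x.1.2 a))).submatrix e e = _
      rw [laplacian_map]
      rfl
    · funext k
      exact k.elim

end

/-- The hypothesis for graphs implies the hypothesis for sparse symmetric matrices. -/
theorem base_of_graphs (h : ∀ (n : ℕ) (Γ : SimpleGraph (Fin n)), P (graphS R (cone Γ))) :
    Base P := by
  intro V _ _ q
  exact (holds_KF _ (h _ (gr q (Fintype.equivFin V)))).congr (grIso q _)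

/-! ### The systems of bilinear equations -/

lemma IsRep.zeros' {F : PF} {B : Type} [CommRing B] [Algebra R B] {b : F.pts B}
    (h : IsRep R F B b) {κ : Type} (g : κ → NF F) (w : κ → B)
    (hw : (fun k => (g k).fn b) = w) :
    ∃ q, IsRep R (F.zeros g) (B ⧸ Ideal.span (Set.range w)) q := by
  subst hw
  exact ⟨_, h.zeros g⟩

open Classical in
/-- the bilinear systems -/
lemma bil_of_holds (hP : Mot sep P) {a b c : ℕ} (T : Fin a → Fin b → Fin c → R)
    (hT : ∀ i j l, T i j l ∈ ({0, 1} : Set R)) (h : Holds P (BF fun i j l => T i j l = 1)) :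
    P (bilS T) := by
  let F : PF := PT.aff (Fin a ⊕ Fin b)
  let g : Fin c → NF F := fun l =>
    ⟨fun p => ∑ i, ∑ j, if T i j l = 1 then p.2 (Sum.inl i) * p.2 (Sum.inr j) else 0, fun f p => by
      simp only [map_sum]
      apply Finset.sum_congr rfl
      intro i _
      apply Finset.sum_congr rfl
      intro j _
      change (if _ then f _ * f _ else 0) = f (if _ then _ else 0)
      split_ifs
      · rw [map_mul]
      · rw [map_zero]⟩
  have h1 := (rep_PT (R := R)).aff (Fin a ⊕ Fin b)
  obtain ⟨q, hq⟩ := h1.zeros' g (bform T) (by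
    funext l
    rw [bform]
    change (∑ i, ∑ j, if T i j l = 1 then (MvPolynomial.X (Sum.inl i) *
      MvPolynomial.X (Sum.inr j) : MvPolynomial (Fin a ⊕ Fin b) R) else 0) = _
    apply Finset.sum_congr rfl
    intro i _
    apply Finset.sum_congr rfl
    intro j _
    by_cases h2 : T i j l = 1
    · rw [if_pos h2, h2, map_one, one_mul]
    · rw [if_neg h2]
      rcases hT i j l with h3 | h3
      · rw [h3, map_zero, zero_mul, zero_mul]
      · exact absurd h3 h2)
  let e : PIso (F.zeros g) (BF fun i j l => T i j l = 1) :=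
    ⟨fun p => ⟨(fun i => p.1.2 (Sum.inl i), fun j => p.1.2 (Sum.inr j)), fun l => p.2 l⟩,
      fun y => ⟨((), Sum.elim y.1.1 y.1.2), fun l => y.2 l⟩, fun p => by
        apply Subtype.ext
        apply Prod.ext
        · rfl
        · funext k
          rcases k with k | k <;> rfl, fun _ => rfl, fun _ _ => rfl⟩
  exact h.of_rep hP (hq.congr e)

/-- **Graph hypersurfaces decide every motivic property.** Let `R` be a ring such that all algebras of
finite type have presentations with coefficients `0` and `1` (for example `ℤ`, `ℚ`, `𝔽_p`), and let `P`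
be a property of the schemes of finite type over `R` which is closed under closed-open decompositions
(two out of three), true for the affine spaces, descends along the affine bundles of Jouanolou and from
`X × 𝔾_m` to `X`, and passes from `X` to `X × 𝔸¹`. If `P` is true for the complements of the
hypersurfaces of the Kirchhoff polynomials of all cones over graphs, then it is true for all (separated)
schemes of finite type over `R`. -/
theorem graph_universal (hP : Mot sep P) (hR : Presents ({0, 1} : Set R))
    (h : ∀ (n : ℕ) (Γ : SimpleGraph (Fin n)), P (graphS R (cone Γ))) (X : Sch R)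
    (hX : FT sep X) : P X := by
  classical
  have hC : Clo sep P := ⟨hP.iso, hP.total, hP.opened, hP.torus⟩
  refine clo_universal hC (S := {0, 1}) (by simp) (by simp) ?_ hR X hX
  intro a b c T hT
  exact bil_of_holds hP T hT (holds_BF _ hP (base_of_graphs h))

end Pool.Agent.Helper3.GU
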