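import Pool.Agent.Helper3.GU.Cubic

/-!
# Finite prime fields
-/

set_option autoImplicit false

open CategoryTheory AlgebraicGeometry Pool.Agent.Y116.UV Pool.Agent.Z125.UN Pool.Agent.Q193.LT

namespace Pool.Agent.Helper3.GU

/-- In a field with a prime number of elements every element is an integer. -/
lemma frac_of_card {k : Type} [Field k] (hk : (Nat.card k).Prime) : Frac k := by
  apply frac_of_surj
  have : Finite k := Nat.finite_of_card_ne_zero hk.ne_zero
  have := Fintype.ofFinite k
  have hp : Fact (Nat.card k).Prime := ⟨hk⟩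
  have hch : CharP k (Nat.card k) := charP_of_card_eq_prime (by rw [Nat.card_eq_fintype_card])
  have h1 : Function.Bijective (ZMod.castHom (dvd_refl (Nat.card k)) k) :=
    (Fintype.bijective_iff_injective_and_card _).2
      ⟨(ZMod.castHom (dvd_refl (Nat.card k)) k).injective, by
        rw [ZMod.card, Nat.card_eq_fintype_card]⟩
  intro x
  obtain ⟨y, rfl⟩ := h1.2 x
  exact ⟨y.cast, by simp⟩

/-- One more statement in front. -/
theorem cons_all {R : Type} [CommRing R] {sep : Prop} {P : Sch R → Prop} {Q : Prop}
    (h : (Statements sep P).TFAE) (hQ : Q ↔ ∀ X : Sch R, FT sep X → P X) :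
    (Q :: Statements sep P).TFAE := by
  rw [Statements] at h ⊢
  rw [List.tfae_cons_cons]
  exact ⟨hQ, h⟩

/-- Another form of the first statement. -/
theorem cons_congr {k : Type} [Field k] {P : Sch k → Prop} {Q : Prop} (h : (Statements' P).TFAE)
    (hQ : Q ↔ ∀ Y : Sch k, SmoothProj Y → P Y) : (Q :: Statements True P).TFAE := by
  rw [Statements', Statements, List.tfae_cons_cons] at h
  exact cons_all (by rw [Statements]; exact h.2) (hQ.trans h.1)

end Pool.Agent.Helper3.GU
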