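import Pool.Agent.Helper3.GU.Main
import Pool.Graph.R_pool_sql_team_seeded_2aa45f1a.Q193.LT.Cyc

/-!
# Applications of the universality of graph hypersurfaces

The closure properties `Bnd` of the library imply the closure properties `Mot`; the equivalences for all
schemes, smooth projective schemes, complements of graph hypersurfaces and graph hypersurfaces.
-/

set_option autoImplicit false

open CategoryTheory AlgebraicGeometry Pool.Agent.Y116.UV Pool.Agent.Q282.UK Pool.Agent.Z125.UN
  Pool.Agent.Q193.LT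

universe w w' v u

namespace Pool.Agent.Helper3.GU

section

variable {R : Type} [CommRing R] {sep : Prop} {P : Sch R → Prop}

/-- The closure properties of the library. -/
theorem mot_of_bnd (hP : Bnd sep P) : Mot sep P where
  toUni := hP.toUni
  line A _ _ _ h := by
    have h1 := hP.bundle A 2 (f1 A 1) (Pool.Agent.Y116.UV.aff R A) (𝟙 _)
      (inferInstanceAs (IsOpenImmersion (𝟙 (Pool.Agent.Y116.UV.aff R A).left)))
      (range_one A 1) h
    have := ft_jou (R := R) A (f1 A 1)
    have := ft_mv (R := R) A 1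
    have h2 : P (Pool.Agent.Y116.UV.aff R (MvPolynomial (Fin 1) A)) :=
      iso_alg hP.toUni ((jouOne A 1).restrictScalars R) h1
    exact iso_alg hP.toUni ((MvPolynomial.uniqueAlgEquiv A (Fin 1)).restrictScalars R) h2

/-- The affine space with coordinates in a finite type. -/
lemma space_of (hP : Mot sep P) (κ : Type) [Finite κ] :
    P (Pool.Agent.Y116.UV.aff R (MvPolynomial κ R)) := by
  obtain ⟨n, ⟨e⟩⟩ := Finite.exists_equiv_fin κ
  have h := hP.space n
  exact iso_alg hP.toUni (MvPolynomial.renameEquiv R e.symm) h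

/-- A graph hypersurface and its complement. -/
theorem graphH_iff (hP : Mot sep P) {n : ℕ} (G : SimpleGraph (Fin (n + 1))) :
    P (graphH R G) ↔ P (graphS R G) := by
  have := ft_edge (R := R) G
  have h := triple_away (R := R) (kirchhoff R G)
  constructor
  · intro h1
    exact hP.opened _ _ (ft_aff sep) h h1 (space_of hP _)
  · intro h1
    exact hP.closed _ _ (ft_aff sep) h (space_of hP _) h1

lemma ft_graphS {n : ℕ} (G : SimpleGraph (Fin (n + 1))) : FT sep (graphS R G) := by
  have := ft_edge (R := R) G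
  have := ft_loc (R := R) (MvPolynomial G.edgeSet R) (kirchhoff R G)
  exact ft_aff sep

/-- **Graph hypersurfaces are universal.** -/
theorem graph_tfae (hP : Mot sep P) (hR : Presents ({0, 1} : Set R)) :
    List.TFAE [∀ X : Sch R, FT sep X → P X,
      ∀ (n : ℕ) (G : SimpleGraph (Fin (n + 1))), P (graphS R G),
      ∀ (n : ℕ) (G : SimpleGraph (Fin (n + 1))), P (graphH R G),
      ∀ (n : ℕ) (Γ : SimpleGraph (Fin n)), P (graphS R (cone Γ)),
      ∀ (n : ℕ) (Γ : SimpleGraph (Fin n)), P (graphH R (cone Γ))] := by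
  tfae_have 1 → 2 := fun h n G => h _ (ft_graphS G)
  tfae_have 2 ↔ 3 := by
    constructor
    · intro h n G
      exact (graphH_iff hP G).2 (h n G)
    · intro h n G
      exact (graphH_iff hP G).1 (h n G)
  tfae_have 2 → 4 := fun h n Γ => h n (cone Γ)
  tfae_have 4 ↔ 5 := by
    constructor
    · intro h n G
      exact (graphH_iff hP _).2 (h n G)
    · intro h n G
      exact (graphH_iff hP _).1 (h n G)
  tfae_have 4 → 1 := fun h X hX => graph_universal hP hR h X hX
  tfae_finish

end

/-! ### Smooth projective schemes over the prime fields -/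

section

variable {k : Type} [Field k] {P : Sch k → Prop}

/-- The five statements on all separated schemes of finite type and on graphs are equivalent to the one
for smooth projective schemes, if these generate. -/
theorem tfae_cons (hP : Mot True P) (hF : Frac k)
    (hg : (∀ Y : Sch k, SmoothProj Y → P Y) → ∀ X : Sch k, FT True X → P X) :
    List.TFAE [∀ Y : Sch k, SmoothProj Y → P Y, ∀ X : Sch k, FT True X → P X,
      ∀ (n : ℕ) (G : SimpleGraph (Fin (n + 1))), P (graphS k G),
      ∀ (n : ℕ) (G : SimpleGraph (Fin (n + 1))), P (graphH k G),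
      ∀ (n : ℕ) (Γ : SimpleGraph (Fin n)), P (graphS k (cone Γ)),
      ∀ (n : ℕ) (Γ : SimpleGraph (Fin n)), P (graphH k (cone Γ))] := by
  have h := graph_tfae hP (presents_frac hF)
  rw [List.tfae_cons_cons]
  exact ⟨⟨hg, fun h Y hY => h Y hY.ft⟩, h⟩

/-- With resolution of singularities. -/
theorem tfae_hironaka [PerfectField k] (hk : Hironaka k) (hP : Bnd True P) (hF : Frac k) :
    List.TFAE [∀ Y : Sch k, SmoothProj Y → P Y, ∀ X : Sch k, FT True X → P X,
      ∀ (n : ℕ) (G : SimpleGraph (Fin (n + 1))), P (graphS k G),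
      ∀ (n : ℕ) (G : SimpleGraph (Fin (n + 1))), P (graphH k G),
      ∀ (n : ℕ) (Γ : SimpleGraph (Fin n)), P (graphS k (cone Γ)),
      ∀ (n : ℕ) (Γ : SimpleGraph (Fin n)), P (graphH k (cone Γ))] :=
  tfae_cons (mot_of_bnd hP) hF fun h => (all_iff hP).mpr ((sp_all_iff hk hP).mp h)

end

section

variable {k : Type} [Field k] [PerfectField k] {ι : Type} {E : Type w'} [CommRing E]
  {C : PairData.{w} k ι E} {δ τ σ : ι ≃ ι}

/-- Comparison maps of two theories with weight complexes. -/
theorem tfae_pair (hg : WeightGen C) (hC : IsPair C δ τ σ) (h1 : BijAll C (aff k k)) (hF : Frac k) :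
    List.TFAE [∀ Y : Sch k, SmoothProj Y → BijAll C Y, ∀ X : Sch k, FT True X → BijAll C X,
      ∀ (n : ℕ) (G : SimpleGraph (Fin (n + 1))), BijAll C (graphS k G),
      ∀ (n : ℕ) (G : SimpleGraph (Fin (n + 1))), BijAll C (graphH k G),
      ∀ (n : ℕ) (Γ : SimpleGraph (Fin n)), BijAll C (graphS k (cone Γ)),
      ∀ (n : ℕ) (Γ : SimpleGraph (Fin n)), BijAll C (graphH k (cone Γ))] :=
  tfae_cons (mot_of_bnd (bnd_pair hC h1)) hF fun h =>
    (all_iff (bnd_pair hC h1)).mpr ((wg_all hg hC h1).mp h)

end

section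

variable {k : Type} [Field k] [PerfectField k] {A : Type u} [Category.{v} A] [Abelian A]
  {D : CompactData k A} {S : A → Prop}

/-- Serre classes of the cohomology with compact supports. -/
theorem tfae_serre (hD : IsCompact D) (hg : Generated D) (hS : IsTateSerre D S)
    (h1 : ∀ i, S (D.H i (aff k k))) (hF : Frac k) :
    List.TFAE [∀ Y : Sch k, SmoothProj Y → ∀ i, S (D.H i Y), ∀ X : Sch k, FT True X → ∀ i, S (D.H i X),
      ∀ (n : ℕ) (G : SimpleGraph (Fin (n + 1))), ∀ i, S (D.H i (graphS k G)),
      ∀ (n : ℕ) (G : SimpleGraph (Fin (n + 1))), ∀ i, S (D.H i (graphH k G)),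
      ∀ (n : ℕ) (Γ : SimpleGraph (Fin n)), ∀ i, S (D.H i (graphS k (cone Γ))),
      ∀ (n : ℕ) (Γ : SimpleGraph (Fin n)), ∀ i, S (D.H i (graphH k (cone Γ)))] :=
  tfae_cons (mot_of_bnd (bnd_compact hD hS h1)) hF fun h =>
    (all_iff (bnd_compact hD hS h1)).mpr ((proj_all_iff hD hg hS h1).mp h)

end

end Pool.Agent.Helper3.GU
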