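import Pool.Agent.Helper3.GU.Enc

/-!
# The configuration of a system of bilinear equations
-/

set_option autoImplicit false

open CategoryTheory AlgebraicGeometry Pool.Agent.Y116.UV Pool.Agent.Q282.UK Matrix

namespace Pool.Agent.Helper3.GU

section

variable {F C : Type} [DecidableEq F] [CommRing C]

/-- the vector with the entries `1` at `a` and `x` at `b` -/
def vec2 (a b : F) (x : C) : F → C := fun f => if f = a then 1 else if f = b then x else 0

/-- the vector with the entries `1` at `a`, `x` at `b` and `y` at `c` -/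
def vec3 (a b c : F) (x y : C) : F → C := fun f =>
  if f = a then 1 else if f = b then x else if f = c then y else 0

lemma vec2_a (a b : F) (x : C) : vec2 a b x a = 1 := if_pos rfl

lemma vec2_b (a b : F) (x : C) (h : a ≠ b) : vec2 a b x b = x := by
  rw [vec2, if_neg h.symm, if_pos rfl]

lemma vec2_o (a b : F) (x : C) (f : F) (h : ¬ (f = a ∨ f = b)) : vec2 a b x f = 0 := by
  rw [not_or] at h
  rw [vec2, if_neg h.1, if_neg h.2]

lemma vec2_map {D : Type} [CommRing D] (φ : C →+* D) (a b : F) (x : C) (f : F) :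
    vec2 a b (φ x) f = φ (vec2 a b x f) := by
  rw [vec2, vec2]
  split_ifs
  · rw [map_one]
  · rfl
  · rw [map_zero]

lemma vec3_a (a b c : F) (x y : C) : vec3 a b c x y a = 1 := if_pos rfl

lemma vec3_b (a b c : F) (x y : C) (h : a ≠ b) : vec3 a b c x y b = x := by
  rw [vec3, if_neg h.symm, if_pos rfl]

lemma vec3_c (a b c : F) (x y : C) (h : a ≠ c) (h' : b ≠ c) : vec3 a b c x y c = y := by
  rw [vec3, if_neg h.symm, if_neg h'.symm, if_pos rfl]

lemma vec3_o (a b c : F) (x y : C) (f : F) (h : ¬ (f = a ∨ f = b ∨ f = c)) :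
    vec3 a b c x y f = 0 := by
  rw [not_or, not_or] at h
  rw [vec3, if_neg h.1, if_neg h.2.1, if_neg h.2.2]

lemma vec3_map {D : Type} [CommRing D] (φ : C →+* D) (a b c : F) (x y : C) (f : F) :
    vec3 a b c (φ x) (φ y) f = φ (vec3 a b c x y f) := by
  rw [vec3, vec3]
  split_ifs
  · rw [map_one]
  · rfl
  · rfl
  · rw [map_zero]

omit [DecidableEq F] in
lemma dot2 [Fintype F] (v w : F → C) (a b : F) (hab : a ≠ b)
    (hv : ∀ f, ¬ (f = a ∨ f = b) → v f = 0) : v ⬝ᵥ w = v a * w a + v b * w b := by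
  rw [dotProduct]
  apply Fintype.sum_eq_add a b hab
  rintro f ⟨h1, h2⟩
  rw [hv f (by simp [h1, h2]), zero_mul]

lemma dot_vec2 [Fintype F] (w : F → C) (a b : F) (x : C) (hab : a ≠ b) :
    vec2 a b x ⬝ᵥ w = w a + x * w b := by
  rw [dot2 _ w a b hab (vec2_o a b x), vec2_a, vec2_b a b x hab, one_mul]

lemma eq_vec2 (v : F → C) (a b : F) (x : C) (hab : a ≠ b)
    (hv : ∀ f, ¬ (f = a ∨ f = b) → v f = 0) (hx : v b = v a * x) (f : F) :
    v f = v a * vec2 a b x f := by
  by_cases h1 : f = a
  · subst h1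
    rw [vec2_a, mul_one]
  · by_cases h2 : f = b
    · subst h2
      rw [vec2_b a f x hab, hx]
    · rw [vec2_o a b x f (by simp [h1, h2]), hv f (by simp [h1, h2]), mul_zero]

lemma eq_vec3 (v : F → C) (a b c : F) (x y : C) (hab : a ≠ b) (hac : a ≠ c) (hbc : b ≠ c)
    (hv : ∀ f, ¬ (f = a ∨ f = b ∨ f = c) → v f = 0) (hx : v b = v a * x) (hy : v c = v a * y)
    (f : F) : v f = v a * vec3 a b c x y f := by
  by_cases h1 : f = a
  · subst h1
    rw [vec3_a, mul_one]
  · by_cases h2 : f = b
    · subst h2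
      rw [vec3_b a f c x y hab, hx]
    · by_cases h3 : f = c
      · subst h3
        rw [vec3_c a b f x y hac hbc, hy]
      · rw [vec3_o a b c x y f (by simp [h1, h2, h3]), hv f (by simp [h1, h2, h3]), mul_zero]

end

/-- The index set of the coordinates. -/
abbrev Fr (I J L : Type) : Type := Bool ⊕ (I ⊕ (J ⊕ (I × J × L)))

section

variable {I J L : Type}

/-- the coordinate `*` -/
def st : Fr I J L := Sum.inl false

/-- the second special coordinate -/
def bu : Fr I J L := Sum.inl true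

/-- the coordinates of `x` -/
def fx (i : I) : Fr I J L := Sum.inr (Sum.inl i)

/-- the coordinates of `y` -/
def fy (j : J) : Fr I J L := Sum.inr (Sum.inr (Sum.inl j))

/-- the coordinates of the products -/
def fq (t : I × J × L) : Fr I J L := Sum.inr (Sum.inr (Sum.inr t))

variable (I J L) in
/-- the second place of the first columns -/
def pb (k : (I × J × L) ⊕ (I × J × L)) : Fr I J L := Sum.elim (fun t => fx t.1) (fun t => fy t.2.1) k

variable (I J L) in
/-- the first place of the first columns -/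
def pa (k : (I × J × L) ⊕ (I × J × L)) : Fr I J L := Sum.elim fq fq k

lemma pab (k : (I × J × L) ⊕ (I × J × L)) : pa I J L k ≠ pb I J L k := by
  rcases k with k | k <;> simp [pa, pb, fq, fx, fy]

/-- the identity -/
def pid (F : PF) : PMap F F := ⟨fun x => x, fun _ _ => rfl⟩

variable [Fintype I] [Fintype J] [Fintype L] [DecidableEq I] [DecidableEq J] [DecidableEq L]

variable (I J L) in
/-- the columns `e_q - e_x` and `e_q - e_y` -/
def a2 : AddData (cf1 (Fr I J L)).swap PT ((I × J × L) ⊕ (I × J × L)) where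
  π := pid PT
  r _ k := vec2 (pa I J L k) (pb I J L k) (-1)
  hr φ _ k f := by
    rw [← vec2_map, map_neg, map_one]
  S k f := f = pa I J L k ∨ f = pb I J L k
  E _ _ := True
  u := pa I J L
  ρ _ _ := ()
  supp _ k f h := vec2_o _ _ _ f h
  one _ k := vec2_a _ _ _
  inc {C} _ x k l _ := by
    rw [dot_vec2 _ _ _ _ (pab k)]
    change (1 : C) + -1 * 1 = 0
    ring
  proj _ _ _ := rfl
  eq {C} _ x v h k f := by
    refine eq_vec2 (v k) _ _ _ (pab k) (h.s k) ?_ f
    have h1 := h.inc k () trivial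
    rw [dot2 (v k) _ _ _ (pab k) (h.s k)] at h1
    change v k (pa I J L k) * 1 + v k (pb I J L k) * 1 = 0 at h1
    linear_combination h1
  sec _ _ := rfl

variable (I J L) in
/-- the configuration after the first step -/
def c2 : Cf (Fr I J L) := (cf1 (Fr I J L)).addCol (a2 I J L).π (a2 I J L).r (a2 I J L).hr

lemma qy (t : I × J × L) : (fq t : Fr I J L) ≠ fy t.2.1 := by simp [fq, fy]

variable (I J L) in
/-- the rows `e_q + e_y` -/
def a3 : AddData (c2 I J L) PT (I × J × L) where
  π := pid PT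
  r _ t := vec2 (fq t) (fy t.2.1) 1
  hr φ _ k f := by
    rw [← vec2_map, map_one]
  S t f := f = fq t ∨ f = fy t.2.1
  E t l := l = Sum.inr (Sum.inr t)
  u := fq
  ρ _ _ := ()
  supp _ k f h := vec2_o _ _ _ f h
  one _ k := vec2_a _ _ _
  inc {C} _ x k l h := by
    subst h
    rw [dot_vec2 _ _ _ _ (qy k)]
    change vec2 (fq k) (fy k.2.1) (-1 : C) (fq k) + 1 * vec2 (fq k) (fy k.2.1) (-1 : C) (fy k.2.1) = 0
    rw [vec2_a, vec2_b _ _ _ (qy k)]
    ring
  proj _ _ _ := rfl
  eq {C} _ x v h k f := by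
    refine eq_vec2 (v k) _ _ _ (qy k) (h.s k) ?_ f
    have h1 := h.inc k _ rfl
    rw [dot2 (v k) _ _ _ (qy k) (h.s k)] at h1
    change v k (fq k) * vec2 (fq k) (fy k.2.1) (-1 : C) (fq k) +
      v k (fy k.2.1) * vec2 (fq k) (fy k.2.1) (-1 : C) (fy k.2.1) = 0 at h1
    rw [vec2_a, vec2_b _ _ _ (qy k)] at h1
    linear_combination -h1
  sec _ _ := rfl

lemma ys (j : J) : (fy j : Fr I J L) ≠ st := by simp [fy, st]

variable (I J L) in
/-- the rows `e_y + y e_*` -/
noncomputable def a4 : AddData (a3 I J L).cf (PT.aff J) J where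
  π := ⟨fun x => x.1, fun _ _ => rfl⟩
  r x j := vec2 (fy j) st (x.2 j)
  hr φ x k f := vec2_map φ _ _ _ _
  S j f := f = fy j ∨ f = st
  E _ _ := False
  u := fy
  ρ _ v := ((), fun j => Ring.inverse (v j (fy j)) * v j st)
  supp _ k f h := vec2_o _ _ _ f h
  one _ k := vec2_a _ _ _
  inc _ k l h := h.elim
  proj _ _ _ := rfl
  eq {C} _ x v h k f := by
    refine eq_vec2 (v k) _ _ _ (ys k) (h.s k) ?_ f
    rw [← mul_assoc, Ring.mul_inverse_cancel _ (h.unit k), one_mul]
  sec {C} _ x t := by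
    apply Prod.ext
    · rfl
    · funext j
      change Ring.inverse ((t j : C) * vec2 (fy j) st (x.2 j) (fy j : Fr I J L)) *
        ((t j : C) * vec2 (fy j) st (x.2 j) (st : Fr I J L)) = x.2 j
      rw [vec2_a, vec2_b _ _ _ (ys j), mul_one, ← mul_assoc,
        Ring.inverse_mul_cancel _ (Units.isUnit _), one_mul]

lemma sy (j : J) : (st : Fr I J L) ≠ fy j := (ys j).symm

lemma sq (t : I × J × L) : (st : Fr I J L) ≠ fq t := by simp [fq, st]

lemma qs (t : I × J × L) : (fq t : Fr I J L) ≠ st := (sq t).symm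

lemma yq (j : J) (t : I × J × L) : (fy j : Fr I J L) ≠ fq t := by simp [fq, fy]

variable (I J L) in
/-- the columns `e_* - y e_y + y e_q` -/
def a5 : AddData (a4 I J L).cf.swap (PT.aff J) (I × J × L) where
  π := pid _
  r x t := vec3 st (fy t.2.1) (fq t) (-(x.2 t.2.1)) (x.2 t.2.1)
  hr φ x k f := by
    rw [← vec3_map, map_neg]
    rfl
  S t f := f = st ∨ f = fy t.2.1 ∨ f = fq t
  E t l := l = Sum.inr t.2.1 ∨ l = Sum.inl (Sum.inr t)
  u _ := st
  ρ x _ := x
  supp _ k f h := vec3_o _ _ _ _ _ f h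
  one _ k := vec3_a _ _ _ _ _
  inc {C} _ x k l h := by
    rw [dotProduct_comm]
    rcases h with rfl | rfl
    · change vec2 (fy k.2.1) st (x.2 k.2.1) ⬝ᵥ _ = 0
      rw [dot_vec2 _ _ _ _ (ys k.2.1), vec3_a, vec3_b _ _ _ _ _ (sy k.2.1)]
      ring
    · change vec2 (fq k) (fy k.2.1) (1 : C) ⬝ᵥ _ = 0
      rw [dot_vec2 _ _ _ _ (qy k), vec3_c _ _ _ _ _ (sq k) (yq _ k), vec3_b _ _ _ _ _ (sy k.2.1)]
      ring
  proj _ _ _ := rfl
  eq {C} _ x v h k f := by
    have h1 : v k (fy k.2.1) + x.2 k.2.1 * v k st = 0 := by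
      have h2 := h.inc k _ (Or.inl rfl)
      rw [dotProduct_comm] at h2
      change vec2 (fy k.2.1) st (x.2 k.2.1) ⬝ᵥ _ = 0 at h2
      rw [dot_vec2 _ _ _ _ (ys k.2.1)] at h2
      exact h2
    have h3 : v k (fq k) + 1 * v k (fy k.2.1) = 0 := by
      have h2 := h.inc k _ (Or.inr rfl)
      rw [dotProduct_comm] at h2
      change vec2 (fq k) (fy k.2.1) (1 : C) ⬝ᵥ _ = 0 at h2
      rw [dot_vec2 _ _ _ _ (qy k)] at h2
      exact h2
    refine eq_vec3 (v k) _ _ _ _ _ (sy _) (sq k) (yq _ k) (h.s k) ?_ ?_ f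
    · linear_combination h1
    · linear_combination h3 - h1
  sec _ _ := rfl

variable (I J L) in
/-- the configuration after four steps -/
noncomputable def c5 : Cf (Fr I J L) :=
  (a4 I J L).cf.addCol (a5 I J L).π (a5 I J L).r (a5 I J L).hr

variable (I J L) in
/-- the rows `e_q - y e_*` -/
def a6 : AddData (c5 I J L) (PT.aff J) (I × J × L) where
  π := pid _
  r x t := vec2 (fq t) st (-(x.2 t.2.1))
  hr φ x k f := by
    rw [← vec2_map, map_neg]
    rfl
  S t f := f = fq t ∨ f = st
  E t l := l = Sum.inr t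
  u := fq
  ρ x _ := x
  supp _ k f h := vec2_o _ _ _ f h
  one _ k := vec2_a _ _ _
  inc {C} _ x k l h := by
    subst h
    rw [dot_vec2 _ _ _ _ (qs k)]
    change vec3 st (fy k.2.1) (fq k) (-(x.2 k.2.1)) (x.2 k.2.1) (fq k) + -(x.2 k.2.1) *
      vec3 st (fy k.2.1) (fq k) (-(x.2 k.2.1)) (x.2 k.2.1) st = 0
    rw [vec3_a, vec3_c _ _ _ _ _ (sq k) (yq _ k)]
    ring
  proj _ _ _ := rfl
  eq {C} _ x v h k f := by
    refine eq_vec2 (v k) _ _ _ (qs k) (h.s k) ?_ f
    have h1 := h.inc k _ rfl
    rw [dot2 (v k) _ _ _ (qs k) (h.s k)] at h1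
    change v k (fq k) * vec3 st (fy k.2.1) (fq k) (-(x.2 k.2.1)) (x.2 k.2.1) (fq k) +
      v k st * vec3 st (fy k.2.1) (fq k) (-(x.2 k.2.1)) (x.2 k.2.1) st = 0 at h1
    rw [vec3_a, vec3_c _ _ _ _ _ (sq k) (yq _ k)] at h1
    linear_combination h1
  sec _ _ := rfl

variable (T : I → J → L → Prop) [∀ i j l, Decidable (T i j l)]

/-- the column `Y_l` -/
def yv {C : Type} [CommRing C] (y : J → C) (l : L) : Fr I J L → C :=
  Sum.elim (fun b => if b = false then 1 else 0) (Sum.elim (fun _ => 0) (Sum.elim (fun _ => 0)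
    (fun t => if t.2.2 = l ∧ T t.1 t.2.1 t.2.2 then y t.2.1 else 0)))

omit [Fintype I] [Fintype J] [Fintype L] [DecidableEq I] [DecidableEq J] in
lemma yv_st {C : Type} [CommRing C] (y : J → C) (l : L) : yv T y l st = 1 := by
  simp [yv, st]

/-- the columns `Y_l` -/
def a7 : AddData (a6 I J L).cf.swap (PT.aff J) L where
  π := pid _
  r x l := yv T x.2 l
  hr φ x l f := by
    rcases f with f | f | f | f
    · change (if f = false then 1 else 0) = φ (if f = false then 1 else 0)
      split_ifs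
      · rw [map_one]
      · rw [map_zero]
    · exact (map_zero φ).symm
    · exact (map_zero φ).symm
    · change (if _ then φ _ else 0) = φ (if _ then _ else 0)
      split_ifs
      · rfl
      · rw [map_zero]
  S l f := f = st ∨ ∃ t : I × J × L, t.2.2 = l ∧ T t.1 t.2.1 t.2.2 ∧ f = fq t
  E l p := ∃ t : I × J × L, t.2.2 = l ∧ T t.1 t.2.1 t.2.2 ∧ p = Sum.inr t
  u _ := st
  ρ x _ := x
  supp x l f h := by
    rw [not_or] at h
    rcases f with f | f | f | f
    · have h1 : f ≠ false := fun h2 => h.1 (congrArg Sum.inl h2)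
      exact if_neg h1
    · rfl
    · rfl
    · have h1 : ¬ (f.2.2 = l ∧ T f.1 f.2.1 f.2.2) := fun h2 => h.2 ⟨f, h2.1, h2.2, rfl⟩
      exact if_neg h1
  one _ _ := yv_st T _ _
  inc {C} _ x l p h := by
    obtain ⟨t, h1, h2, rfl⟩ := h
    rw [dotProduct_comm]
    change vec2 (fq t) st (-(x.2 t.2.1)) ⬝ᵥ _ = 0
    rw [dot_vec2 _ _ _ _ (qs t)]
    have h3 : yv T x.2 l (fq t) = x.2 t.2.1 := if_pos ⟨h1, h2⟩
    have h4 : yv T x.2 l st = 1 := yv_st T _ _
    rw [h3, h4]
    ring
  proj _ _ _ := rfl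
  eq {C} _ x v h l f := by
    rcases f with f | f | f | f
    · rcases f with _ | _
      · change v l st = v l st * 1
        rw [mul_one]
      · change _ = _ * (0 : C)
        rw [mul_zero]
        apply h.s l
        rintro (h1 | ⟨t, -, -, h1⟩)
        · exact absurd (Sum.inl_injective h1) (by simp)
        · exact absurd h1 (by simp [fq])
    · change _ = _ * (0 : C)
      rw [mul_zero]
      apply h.s l
      rintro (h1 | ⟨t, -, -, h1⟩)
      · exact absurd h1 (by simp [st])
      · exact absurd h1 (by simp [fq])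
    · change _ = _ * (0 : C)
      rw [mul_zero]
      apply h.s l
      rintro (h1 | ⟨t, -, -, h1⟩)
      · exact absurd h1 (by simp [st])
      · exact absurd h1 (by simp [fq])
    · change v l (fq f) = v l st * (if f.2.2 = l ∧ T f.1 f.2.1 f.2.2 then x.2 f.2.1 else 0)
      split_ifs with h1
      · have h2 := h.inc l (Sum.inr f) ⟨f, h1.1, h1.2, rfl⟩
        rw [dotProduct_comm] at h2
        change vec2 (fq f) st (-(x.2 f.2.1)) ⬝ᵥ _ = 0 at h2
        rw [dot_vec2 _ _ _ _ (qs f)] at h2
        linear_combination h2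
      · rw [mul_zero]
        apply h.s l
        rintro (h2 | ⟨t, h3, h4, h2⟩)
        · exact absurd h2 (by simp [st, fq])
        · have h5 : f = t := by
            have := Sum.inr_injective (Sum.inr_injective (Sum.inr_injective h2))
            exact this
          subst h5
          exact h1 ⟨h3, h4⟩
  sec _ _ := rfl

/-- the configuration after six steps -/
noncomputable def c7 : Cf (Fr I J L) :=
  (a6 I J L).cf.addCol (a7 T).π (a7 T).r (a7 T).hr

/-- the row `X` -/
def xv {C : Type} [CommRing C] (x : I → C) : Fr I J L → C :=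
  Sum.elim (fun b => if b = true then 1 else 0) (Sum.elim x (Sum.elim (fun _ => 0)
    (fun t => x t.1)))

omit [Fintype I] [Fintype J] [Fintype L] [DecidableEq I] [DecidableEq J] [DecidableEq L] in
lemma xv_bu {C : Type} [CommRing C] (x : I → C) : (xv x : Fr I J L → C) bu = 1 := by
  simp [xv, bu]

/-- the row `X` -/
noncomputable def a8 : AddData (c7 T) ((PT.aff J).aff I) Unit where
  π := ⟨fun x => x.1, fun _ _ => rfl⟩
  r x _ := xv x.2
  hr φ x _ f := by
    rcases f with f | f | f | f
    · change (if f = true then 1 else 0) = φ (if f = true then 1 else 0)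
      split_ifs
      · rw [map_one]
      · rw [map_zero]
    · rfl
    · exact (map_zero φ).symm
    · rfl
  S _ f := f = bu ∨ (∃ i, f = fx i) ∨ ∃ t, f = fq t
  E _ k := ∃ t, k = Sum.inl (Sum.inl (Sum.inr (Sum.inl t)))
  u _ := bu
  ρ x v := (x, fun i => Ring.inverse (v () bu) * v () (fx i))
  supp x _ f h := by
    rw [not_or, not_or] at h
    rcases f with f | f | f | f
    · have h1 : f ≠ true := fun h2 => h.1 (congrArg Sum.inl h2)
      exact if_neg h1
    · exact absurd ⟨f, rfl⟩ h.2.1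
    · rfl
    · exact absurd ⟨f, rfl⟩ h.2.2
  one _ _ := xv_bu _
  inc {C} _ x _ k h := by
    obtain ⟨t, rfl⟩ := h
    rw [dotProduct_comm]
    change vec2 (fq t) (fx t.1) (-1 : C) ⬝ᵥ _ = 0
    rw [dot_vec2 _ _ _ _ (by simp [fq, fx])]
    change x.2 t.1 + -1 * x.2 t.1 = 0
    ring
  proj _ _ _ := rfl
  eq {C} _ x v h _ f := by
    have hu : v () bu * Ring.inverse (v () bu) = 1 := Ring.mul_inverse_cancel _ (h.unit ())
    have hx : ∀ i, v () (fx i) = v () bu * (Ring.inverse (v () bu) * v () (fx i)) := by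
      intro i
      rw [← mul_assoc, hu, one_mul]
    rcases f with f | f | f | f
    · rcases f with _ | _
      · change _ = _ * (0 : C)
        rw [mul_zero]
        apply h.s ()
        rintro (h1 | ⟨t, h1⟩ | ⟨t, h1⟩)
        · exact absurd (Sum.inl_injective h1) (by simp)
        · exact absurd h1 (by simp [fx])
        · exact absurd h1 (by simp [fq])
      · change v () bu = v () bu * 1
        rw [mul_one]
    · exact hx f
    · change _ = _ * (0 : C)
      rw [mul_zero]
      apply h.s ()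
      rintro (h1 | ⟨t, h1⟩ | ⟨t, h1⟩)
      · exact absurd h1 (by simp [bu])
      · exact absurd h1 (by simp [fx])
      · exact absurd h1 (by simp [fq])
    · have h2 := h.inc () _ ⟨f, rfl⟩
      rw [dotProduct_comm] at h2
      change vec2 (fq f) (fx f.1) (-1 : C) ⬝ᵥ _ = 0 at h2
      rw [dot_vec2 _ _ _ _ (by simp [fq, fx])] at h2
      change v () (fq f) = v () bu * (Ring.inverse (v () bu) * v () (fx f.1))
      rw [← hx f.1]
      linear_combination h2
  sec {C} _ x t := by
    apply Prod.ext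
    · rfl
    · funext i
      change Ring.inverse ((t () : C) * 1) * ((t () : C) * x.2 i) = x.2 i
      rw [mul_one, ← mul_assoc, Ring.inverse_mul_cancel _ (Units.isUnit _), one_mul]

/-! ### The functor of a system of bilinear equations -/

/-- the solutions of the bilinear equations `∑_{T i j l} x_i y_j = 0` -/
def BF : PF where
  pts C _ := {p : (I → C) × (J → C) // ∀ l, ∑ i, ∑ j, (if T i j l then p.1 i * p.2 j else 0) = 0}
  map φ p := ⟨(fun i => φ (p.1.1 i), fun j => φ (p.1.2 j)), fun l => by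
    have h := congrArg φ (p.2 l)
    rw [map_zero] at h
    refine Eq.trans ?_ h
    simp only [map_sum]
    apply Finset.sum_congr rfl
    intro i _
    apply Finset.sum_congr rfl
    intro j _
    split_ifs
    · rw [map_mul]
    · rw [map_zero]⟩
  map_id _ := rfl
  map_comp _ _ _ := rfl

lemma xv_yv {C : Type} [CommRing C] (x : I → C) (y : J → C) (l : L) :
    (xv x : Fr I J L → C) ⬝ᵥ yv T y l = ∑ i, ∑ j, if T i j l then x i * y j else 0 := by
  rw [dotProduct, Fintype.sum_sum_type, Fintype.sum_sum_type, Fintype.sum_sum_type,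
    Fintype.sum_bool]
  simp only [xv, yv, Sum.elim_inl, Sum.elim_inr, mul_zero, zero_mul, Finset.sum_const_zero,
    zero_add, Fintype.sum_prod_type]
  simp only [if_true, Bool.false_eq_true, if_false, zero_mul, mul_zero, Bool.true_eq_false,
    add_zero, zero_add]
  apply Finset.sum_congr rfl
  intro i _
  apply Finset.sum_congr rfl
  intro j _
  rw [Finset.sum_eq_single l]
  · by_cases h : T i j l
    · rw [if_pos ⟨rfl, h⟩, if_pos h]
    · rw [if_neg fun h2 => h h2.2, if_neg h, mul_zero]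
  · intro l' _ hl
    rw [if_neg fun h2 => hl h2.1, mul_zero]
  · intro h
    exact absurd (Finset.mem_univ _) h

/-- the last incidences -/
def lastE : (a8 T).cf.P ⊕ PEmpty → (a8 T).cf.K ⊕ PEmpty → Prop :=
  fun p k => p = Sum.inl (Sum.inr ()) ∧ ∃ l, k = Sum.inl (Sum.inr l)

/-- the last bijection -/
def lastIso : PIso (EX (a8 T).cf (fun _ _ => False) (fun _ _ => False) (lastE T)) (BF T) where
  fwd x := ⟨(x.1.1.2, x.1.1.1.2), fun l => by
    rw [← xv_yv]
    exact x.2.inc (Sum.inl (Sum.inr ())) (Sum.inl (Sum.inr l)) ⟨rfl, l, rfl⟩⟩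
  bwd y := ⟨((((), y.1.2), y.1.1), (fun p => p.elim), fun p => p.elim), fun p => p.elim,
    fun p => p.elim, by
      rintro p k ⟨rfl, l, rfl⟩
      have h := y.2 l
      rw [← xv_yv] at h
      exact h⟩
  left x := by
    apply Subtype.ext
    apply Prod.ext
    · rfl
    · apply Prod.ext
      · funext p
        exact p.elim
      · funext p
        exact p.elim
  right _ := rfl
  nat _ _ := rfl

variable {R : Type} [CommRing R] {sep : Prop} {P : Sch R → Prop}

omit [∀ i j l, Decidable (T i j l)] in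
theorem holds_BF (hP : Mot sep P) (h0 : Base P) [∀ i j l, Decidable (T i j l)] :
    Holds P (BF T) := by
  have h1 := full_cf1 hP h0 (Fr I J L)
  have h2 : Full P (c2 I J L) := full_addCol hP h1 hasRep_PT (a2 I J L)
  have h3 := full_add hP h2 hasRep_PT (a3 I J L)
  have hJ : HasRep R (PT.aff J) := hasRep_PT.aff J
  have h4 := full_add hP h3 hJ (a4 I J L)
  have h5 : Full P (c5 I J L) := full_addCol hP h4 hJ (a5 I J L)
  have h6 := full_add hP h5 hJ (a6 I J L)
  have h7 : Full P (c7 T) := full_addCol hP h6 hJ (a7 T)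
  have h8 := full_add hP h7 (hJ.aff I) (a8 T)
  exact (h8 PEmpty PEmpty (fun _ _ => False) (fun _ _ => False) (lastE T)).congr (lastIso T)

end

end Pool.Agent.Helper3.GU
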