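import Mathlib

/-!
# Bordered determinants and symmetric matrices of corank one
-/

set_option autoImplicit false

open Matrix

namespace Pool.Agent.Helper3.GU

section

variable {V C : Type} [Fintype V] [DecidableEq V] [CommRing C]

/-- The bordered matrix. -/
def bd (A : Matrix V V C) (u w : V → C) (d : C) : Matrix (V ⊕ Unit) (V ⊕ Unit) C :=
  fromBlocks A (of fun i _ => u i) (of fun _ j => w j) (of fun _ _ => d)

lemma det_bd_mul (A : Matrix V V C) (u w : V → C) (d : C) :
    (bd A u w d).det * A.det = A.det * (d * A.det - w ⬝ᵥ (A.adjugate *ᵥ u)) := by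
  have h1 : bd A u w d * fromBlocks 1 (of fun i (_ : Unit) => -(A.adjugate *ᵥ u) i) 0
      (of fun (_ _ : Unit) => A.det) = fromBlocks A 0 (of fun (_ : Unit) j => w j)
        (of fun (_ _ : Unit) => d * A.det - w ⬝ᵥ (A.adjugate *ᵥ u)) := by
    rw [bd, fromBlocks_multiply]
    congr 1
    · rw [Matrix.mul_one, Matrix.mul_zero, add_zero]
    · ext i j
      have h2 : (A *ᵥ (A.adjugate *ᵥ u)) i = A.det * u i := by
        rw [mulVec_mulVec, mul_adjugate, smul_mulVec, one_mulVec]
        rfl
      have h3 : (A * of fun i (_ : Unit) => -(A.adjugate *ᵥ u) i) i j =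
          -(A *ᵥ (A.adjugate *ᵥ u)) i := by
        rw [mul_apply, mulVec, dotProduct, ← Finset.sum_neg_distrib]
        apply Finset.sum_congr rfl
        intro k _
        rw [of_apply, mul_neg]
      rw [Matrix.add_apply, h3, h2, mul_apply]
      simp
      ring
    · rw [Matrix.mul_one, Matrix.mul_zero, add_zero]
    · ext i j
      rw [Matrix.add_apply, mul_apply, mul_apply]
      simp [dotProduct]
      ring
  have h2 := congrArg det h1
  rw [det_mul, det_fromBlocks_zero₂₁, det_fromBlocks_zero₁₂, det_one, one_mul] at h2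
  simpa using h2

/-- **The determinant of a bordered matrix.** -/
theorem det_bd (A : Matrix V V C) (u w : V → C) (d : C) :
    (bd A u w d).det = d * A.det - w ⬝ᵥ (A.adjugate *ᵥ u) := by
  let ι : C →+* Polynomial C := Polynomial.C
  let φ : Polynomial C →+* C := Polynomial.evalRingHom 0
  have hφ : ∀ x, φ (ι x) = x := fun x => Polynomial.eval_C
  let A' : Matrix V V (Polynomial C) := (-A).charmatrix
  have h1 := det_bd_mul A' (ι ∘ u) (ι ∘ w) (ι d)
  have h2 : IsLeftRegular A'.det := ((-A).charpoly_monic).isRegular.left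
  rw [mul_comm] at h1
  have h3 := h2 h1
  have hA : A'.map φ = A := by
    ext i j
    change Polynomial.eval 0 ((-A).charmatrix i j) = A i j
    rw [charmatrix_apply]
    by_cases h : i = j
    · subst h
      simp
    · simp [h]
  have h4 := congrArg φ h3
  have h5 : (bd A' (ι ∘ u) (ι ∘ w) (ι d)).map φ = bd A u w d := by
    ext i j
    rcases i with i | i <;> rcases j with j | j
    · exact congrFun (congrFun hA i) j
    · exact hφ _
    · exact hφ _
    · exact hφ _
  rw [RingHom.map_det, map_sub, map_mul, hφ] at h4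
  have h6 : φ A'.det = A.det := by
    rw [RingHom.map_det]
    exact congrArg det hA
  have h7 : φ (ι ∘ w ⬝ᵥ (A'.adjugate *ᵥ (ι ∘ u))) = w ⬝ᵥ (A.adjugate *ᵥ u) := by
    have h8 : φ.mapMatrix A'.adjugate = A.adjugate := by
      rw [RingHom.map_adjugate]
      exact congrArg adjugate hA
    rw [RingHom.map_dotProduct]
    congr 1
    · funext i
      exact hφ _
    · funext i
      have h9 := RingHom.map_mulVec φ A'.adjugate (ι ∘ u) i
      rw [Function.comp_apply, h9]
      have h10 : (φ ∘ (ι ∘ u)) = u := funext fun k => hφ _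
      rw [h10]
      exact congrFun (congrArg (fun N => N *ᵥ u) h8) i
  rw [h6, h7] at h4
  rw [← h4]
  exact (congrArg det h5).symm

/-- the corner of the adjugate of a bordered matrix -/
lemma adjugate_bd (A : Matrix V V C) (u w : V → C) (d : C) :
    (bd A u w d).adjugate (Sum.inr ()) (Sum.inr ()) = A.det := by
  rw [adjugate_apply]
  have h : updateRow (bd A u w d) (Sum.inr ()) (Pi.single (Sum.inr ()) 1) = bd A u 0 1 := by
    ext i j
    rcases i with i | i
    · rw [updateRow_ne (by simp)]
      rcases j with j | j <;> rfl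
    · rw [updateRow_self]
      rcases j with j | j
      · rw [Pi.single_eq_of_ne (by simp)]
        rfl
      · rw [Pi.single_eq_same]
        rfl
  rw [h, det_bd, zero_dotProduct, sub_zero, one_mul]

/-- the determinant lemma for rank one perturbations -/
lemma det_add_vec (A : Matrix V V C) (u w : V → C) :
    (A + vecMulVec u w).det = A.det + w ⬝ᵥ (A.adjugate *ᵥ u) := by
  have h1 := det_bd A (-u) w 1
  rw [mulVec_neg, dotProduct_neg, sub_neg_eq_add, one_mul] at h1
  rw [← h1]
  have h2 : bd A (-u) w 1 = fromBlocks 1 (of fun i (_ : Unit) => -u i) 0 1 *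
      fromBlocks (A + vecMulVec u w) 0 (of fun (_ : Unit) j => w j) (1 : Matrix Unit Unit C) := by
    rw [bd, fromBlocks_multiply]
    congr 1
    · ext i j
      rw [Matrix.one_mul, Matrix.add_apply, Matrix.add_apply, mul_apply]
      simp [vecMulVec_apply]
    · ext i j
      rw [Matrix.add_apply, mul_apply, mul_apply]
      simp
    · ext i j
      rw [Matrix.add_apply, mul_apply, mul_apply]
      simp
    · ext i j
      rw [Matrix.add_apply, mul_apply, mul_apply]
      simp
  rw [h2, det_mul, det_fromBlocks_zero₂₁, det_fromBlocks_zero₁₂, det_one, det_one]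
  ring

/-- A matrix with determinant zero has an adjugate of rank one. -/
lemma adjugate_rank_one (A : Matrix V V C) (h : A.det = 0) (u w : V → C) (i j : V) :
    (A.adjugate *ᵥ u) i * (w ᵥ* A.adjugate) j = (w ⬝ᵥ (A.adjugate *ᵥ u)) * A.adjugate i j := by
  let ι : C →+* Polynomial C := Polynomial.C
  let φ : Polynomial C →+* C := Polynomial.evalRingHom 0
  have hφ : ∀ x, φ (ι x) = x := fun x => Polynomial.eval_C
  let A' : Matrix V V (Polynomial C) :=
    A.map ι + (Polynomial.X : Polynomial C) • vecMulVec (ι ∘ u) (ι ∘ w)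
  let G : Matrix V V (Polynomial C) := A.adjugate.map ι
  let d : C := w ⬝ᵥ (A.adjugate *ᵥ u)
  have hdet : A'.det = Polynomial.X * ι d := by
    have h1 : A' = A.map ι + vecMulVec ((Polynomial.X : Polynomial C) • (ι ∘ u)) (ι ∘ w) := by
      rw [smul_vecMulVec]
    rw [h1, det_add_vec]
    have h2 : (A.map ι).det = 0 := by
      have := RingHom.map_det ι A
      rw [h, map_zero] at this
      exact this.symm
    have h3 : (A.map ι).adjugate = G := (RingHom.map_adjugate ι A).symm
    rw [h2, h3, zero_add, mulVec_smul, dotProduct_smul, smul_eq_mul]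
    congr 1
    change _ = ι (w ⬝ᵥ (A.adjugate *ᵥ u))
    rw [RingHom.map_dotProduct]
    congr 1
    funext k
    exact (RingHom.map_mulVec ι A.adjugate u k).symm
  have hGA : G * A.map ι = 0 := by
    have h1 : G * A.map ι = (A.adjugate * A).map ι := (Matrix.map_mul).symm
    rw [h1, adjugate_mul, h, zero_smul]
    ext i j
    simp
  have h1 : G * A' * A'.adjugate = (Polynomial.X * ι d) • G := by
    rw [Matrix.mul_assoc, mul_adjugate, hdet, Matrix.mul_smul, Matrix.mul_one]
  have h2 : G * A' = (Polynomial.X : Polynomial C) • (G * vecMulVec (ι ∘ u) (ι ∘ w)) := by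
    change G * (A.map ι + Polynomial.X • vecMulVec (ι ∘ u) (ι ∘ w)) = _
    rw [Matrix.mul_add, hGA, zero_add, Matrix.mul_smul]
  rw [h2, Matrix.smul_mul, SemigroupAction.mul_smul] at h1
  have h3 : (G * vecMulVec (ι ∘ u) (ι ∘ w) * A'.adjugate) = ι d • G := by
    refine Matrix.ext fun i j => ?_
    have h4 := congrFun (congrFun h1 i) j
    rw [Matrix.smul_apply, Matrix.smul_apply, smul_eq_mul, smul_eq_mul] at h4
    exact Polynomial.isRegular_X.left h4
  have h4 : A'.map φ = A := by
    ext i j
    change Polynomial.eval 0 (A' i j) = A i j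
    change Polynomial.eval 0 (ι (A i j) + Polynomial.X * _) = A i j
    rw [Polynomial.eval_add, Polynomial.eval_mul, Polynomial.eval_X, zero_mul, add_zero]
    exact Polynomial.eval_C
  have h5 : G.map φ = A.adjugate := by
    ext i j
    exact hφ _
  have h6 : A'.adjugate.map φ = A.adjugate := by
    have := RingHom.map_adjugate φ A'
    exact this.trans (congrArg adjugate h4)
  have h7 := congrFun (congrFun (congrArg (fun N => Matrix.map N φ) h3) i) j
  rw [Matrix.map_mul, Matrix.map_mul, h5, h6] at h7
  have h8 : (vecMulVec (ι ∘ u) (ι ∘ w)).map φ = vecMulVec u w := by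
    ext i j
    change φ (ι (u i) * ι (w j)) = u i * w j
    rw [map_mul, hφ, hφ]
  rw [h8, mul_vecMulVec, vecMulVec_mul, vecMulVec_apply] at h7
  rw [h7]
  change φ (ι d * ι (A.adjugate i j)) = d * A.adjugate i j
  rw [map_mul, hφ, hφ]

end

end Pool.Agent.Helper3.GU
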