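import Pool.Agent.Helper3.GU.Jou
import Pool.Agent.Helper3.GU.Det

/-!
# From bordered determinants to kernel vectors
-/

set_option autoImplicit false

open CategoryTheory AlgebraicGeometry Pool.Agent.Y116.UV Pool.Agent.Q282.UK Matrix

namespace Pool.Agent.Helper3.GU

/-! ### Auxiliary lemmas -/

lemma rinv_map {C D : Type} [CommRing C] [CommRing D] (f : C →+* D) {x : C} (h : IsUnit x) :
    Ring.inverse (f x) = f (Ring.inverse x) := by
  have h1 : f x * f (Ring.inverse x) = 1 := by
    rw [← map_mul, Ring.mul_inverse_cancel x h, map_one]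
  have h2 : Ring.inverse (f x) * f x = 1 := Ring.inverse_mul_cancel _ (h.map f)
  calc Ring.inverse (f x) = Ring.inverse (f x) * (f x * f (Ring.inverse x)) := by rw [h1, mul_one]
    _ = f (Ring.inverse x) := by rw [← mul_assoc, h2, one_mul]

lemma rinv_unit {C : Type} [CommRing C] {x : C} (h : IsUnit x) : IsUnit (Ring.inverse x) :=
  IsUnit.of_mul_eq_one x (Ring.inverse_mul_cancel x h)

open Classical in
/-- extension by zero -/
noncomputable def ext0 {W C : Type} [CommRing C] (J : W → Prop) (v : {j // J j} → C) : W → C :=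
  fun j => if h : J j then v ⟨j, h⟩ else 0

section

variable {W C D : Type} [CommRing C] [CommRing D] {J : W → Prop}

lemma ext0_of (v : {j // J j} → C) (j : {j // J j}) : ext0 J v j.1 = v j := by
  rw [ext0, dif_pos j.2]

lemma ext0_not (v : {j // J j} → C) (j : W) (h : ¬ J j) : ext0 J v j = 0 := by
  rw [ext0, dif_neg h]

lemma ext0_res (v : W → C) (h : ∀ j, ¬ J j → v j = 0) :
    ext0 J (fun j : {j // J j} => v j.1) = v := by
  funext j
  by_cases hj : J j
  · rw [ext0, dif_pos hj]
  · rw [ext0, dif_neg hj, h j hj]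

lemma ext0_map (f : C →+* D) (v : {j // J j} → C) (j : W) :
    ext0 J (fun j => f (v j)) j = f (ext0 J v j) := by
  by_cases hj : J j
  · rw [ext0, dif_pos hj, ext0, dif_pos hj]
  · rw [ext0, dif_neg hj, ext0, dif_neg hj, map_zero]

lemma sum_ext0 [Fintype W] [Fintype {j // J j}] (a : W → C) (v : {j // J j} → C) :
    ∑ j : W, a j * ext0 J v j = ∑ j : {j // J j}, a j.1 * v j := by
  classical
  have h1 : ∑ j : {j // J j}, a j.1 * v j = ∑ j : {j // J j}, a j.1 * ext0 J v j.1 := by
    apply Finset.sum_congr rfl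
    intro j _
    rw [ext0_of]
  rw [h1, ← Finset.sum_filter_add_sum_filter_not Finset.univ J]
  have h2 : ∑ j ∈ Finset.univ.filter (fun j => ¬ J j), a j * ext0 J v j = 0 := by
    apply Finset.sum_eq_zero
    intro j hj
    rw [ext0_not v j (Finset.mem_filter.1 hj).2, mul_zero]
  rw [h2, add_zero]
  exact (Finset.sum_subtype _ (fun j => by simp) fun j => a j * ext0 J v j)

end

/-! ### Symmetric matrices -/

section

variable {W C : Type} [Fintype W] [DecidableEq W] [CommRing C]

/-- the quadratic form of the adjugate -/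
def qf (A : Matrix W W C) (v : W → C) : C := v ⬝ᵥ (A.adjugate *ᵥ v)

lemma adj_symm (A : Matrix W W C) (h : ∀ a b, A a b = A b a) (a b : W) :
    A.adjugate a b = A.adjugate b a := by
  have h1 : Aᵀ = A := by
    ext i j
    exact h j i
  have h2 := A.adjugate_transpose
  rw [h1] at h2
  exact congrFun (congrFun h2 b) a

lemma vecMul_adj (A : Matrix W W C) (h : ∀ a b, A a b = A b a) (v : W → C) :
    v ᵥ* A.adjugate = A.adjugate *ᵥ v := by
  funext j
  rw [vecMul, mulVec, dotProduct, dotProduct]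
  apply Finset.sum_congr rfl
  intro i _
  rw [adj_symm A h i j, mul_comm]

/-- The kernel vector of a symmetric matrix of corank one. -/
lemma kernel_vec (A : Matrix W W C) (h : ∀ a b, A a b = A b a) (h0 : A.det = 0) (v : W → C)
    (hd : IsUnit (qf A v)) (a b : W) :
    A.adjugate a b = qf A v * (Ring.inverse (qf A v) * (A.adjugate *ᵥ v) a) *
      (Ring.inverse (qf A v) * (A.adjugate *ᵥ v) b) := by
  have h1 := adjugate_rank_one A h0 v v a b
  rw [vecMul_adj A h] at h1
  have h2 : qf A v * Ring.inverse (qf A v) = 1 := Ring.mul_inverse_cancel _ hd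
  calc A.adjugate a b = (qf A v * Ring.inverse (qf A v)) * A.adjugate a b := by rw [h2, one_mul]
    _ = Ring.inverse (qf A v) * ((A.adjugate *ᵥ v) a * (A.adjugate *ᵥ v) b) := by
      rw [h1, qf]
      ring
    _ = (qf A v * Ring.inverse (qf A v)) * (Ring.inverse (qf A v) *
          ((A.adjugate *ᵥ v) a * (A.adjugate *ᵥ v) b)) := by rw [h2, one_mul]
    _ = _ := by ring

/-- if the adjugate is `δ g gᵀ` and `v g = 1` -/
lemma adj_mulVec (A : Matrix W W C) (g v : W → C) (δ : C)
    (h : ∀ a b, A.adjugate a b = δ * g a * g b) (hv : ∑ j, g j * v j = 1) (a : W) :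
    (A.adjugate *ᵥ v) a = δ * g a := by
  rw [mulVec, dotProduct]
  have h1 : ∀ b, A.adjugate a b * v b = (δ * g a) * (g b * v b) := by
    intro b
    rw [h]
    ring
  simp only [h1]
  rw [← Finset.mul_sum, hv, mul_one]

lemma qf_eq (A : Matrix W W C) (g v : W → C) (δ : C)
    (h : ∀ a b, A.adjugate a b = δ * g a * g b) (hv : ∑ j, g j * v j = 1) : qf A v = δ := by
  rw [qf, dotProduct]
  have h1 : ∀ b, v b * (A.adjugate *ᵥ v) b = δ * (g b * v b) := by
    intro b
    rw [adj_mulVec A g v δ h hv]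
    ring
  simp only [h1]
  rw [← Finset.mul_sum, hv, mul_one]

lemma qf_map {D : Type} [CommRing D] (f : C →+* D) (A : Matrix W W C) (v : W → C) :
    qf (A.map f) (fun j => f (v j)) = f (qf A v) := by
  have h1 : (A.map f).adjugate = A.adjugate.map f := (RingHom.map_adjugate f A).symm
  rw [qf, qf, RingHom.map_dotProduct, h1]
  congr 1
  funext k
  exact (RingHom.map_mulVec f A.adjugate v k).symm

lemma adj_map {D : Type} [CommRing D] (f : C →+* D) (A : Matrix W W C) (a b : W) :
    (A.map f).adjugate a b = f (A.adjugate a b) := by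
  have h1 : (A.map f).adjugate = A.adjugate.map f := (RingHom.map_adjugate f A).symm
  rw [h1]
  rfl

lemma mulVec_map {D : Type} [CommRing D] (f : C →+* D) (A : Matrix W W C) (v : W → C) (a : W) :
    ((A.map f).adjugate *ᵥ (fun j => f (v j))) a = f ((A.adjugate *ᵥ v) a) := by
  have h1 : (A.map f).adjugate = A.adjugate.map f := (RingHom.map_adjugate f A).symm
  rw [h1]
  exact (RingHom.map_mulVec f A.adjugate v a).symm

lemma det_map {D : Type} [CommRing D] (f : C →+* D) (A : Matrix W W C) :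
    (A.map f).det = f A.det := (RingHom.map_det f A).symm

lemma bd_map {D : Type} [CommRing D] (f : C →+* D) (A : Matrix W W C) (u w : W → C) (d : C) :
    bd (A.map f) (fun j => f (u j)) (fun j => f (w j)) (f d) = (bd A u w d).map f := by
  ext i j
  rcases i with i | i <;> rcases j with j | j <;> rfl

lemma det_bd_symm (A : Matrix W W C) (u : W → C) (d : C) :
    (bd A u u d).det = d * A.det - qf A u := det_bd A u u d

lemma det_bd_inv (A : Matrix W W C) (u : W → C) (l : C) (h : IsUnit A.det) :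
    (bd A u u (Ring.inverse A.det * (l + qf A u))).det = l := by
  rw [det_bd_symm, mul_comm, ← mul_assoc, Ring.mul_inverse_cancel _ h]
  ring

lemma inv_det_bd (A : Matrix W W C) (u : W → C) (d : C) (h : IsUnit A.det) :
    Ring.inverse A.det * ((bd A u u d).det + qf A u) = d := by
  rw [det_bd_symm, sub_add_cancel, mul_comm d, ← mul_assoc, Ring.inverse_mul_cancel _ h, one_mul]

end

/-! ### The functors -/

/-- A natural symmetric matrix on a functor. -/
structure NM (T : PF) (W : Type) where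
  /-- the matrix -/
  fn : ∀ {C : Type} [CommRing C], T.pts C → Matrix W W C
  nat : ∀ {C D : Type} [CommRing C] [CommRing D] (f : C →+* D) (p : T.pts C),
    fn (T.map f p) = (fn p).map f
  symm : ∀ {C : Type} [CommRing C] (p : T.pts C) (a b : W), fn p a b = fn p b a

variable {T : PF} {W : Type} [Fintype W] [DecidableEq W]

/-- The determinant. -/
def NM.det (M : NM T W) : NF T where
  fn p := (M.fn p).det
  nat f p := by rw [M.nat, det_map]

/-- The bordered matrices with border supported in `J` and invertible determinant. -/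
def Bord (M : NM T W) (J : W → Prop) : PF where
  pts C _ := {x : T.pts C × (W → C) × C // (∀ j, ¬ J j → x.2.1 j = 0) ∧
    IsUnit (bd (M.fn x.1) x.2.1 x.2.1 x.2.2).det}
  map f x := ⟨(T.map f x.1.1, fun j => f (x.1.2.1 j), f x.1.2.2), fun j hj => by
    change f _ = 0
    rw [x.2.1 j hj, map_zero], by
    have h := x.2.2.map f
    rw [← det_map, ← bd_map, ← M.nat] at h
    exact h⟩
  map_id x := Subtype.ext (Prod.ext (T.map_id _) rfl)
  map_comp f g x := Subtype.ext (Prod.ext (T.map_comp f g _) rfl)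

/-- The matrices with determinant zero and adjugate `δ g gᵀ`, `δ` invertible. -/
def FK (M : NM T W) : PF where
  pts C _ := {x : T.pts C × (W → C) × C // (M.fn x.1).det = 0 ∧
    (∀ a b, (M.fn x.1).adjugate a b = x.2.2 * x.2.1 a * x.2.1 b) ∧ IsUnit x.2.2}
  map f x := ⟨(T.map f x.1.1, fun j => f (x.1.2.1 j), f x.1.2.2), by
    change (M.fn (T.map f x.1.1)).det = 0
    rw [M.nat, det_map, x.2.1, map_zero], fun a b => by
    change (M.fn (T.map f x.1.1)).adjugate a b = f _ * f _ * f _
    rw [M.nat, adj_map, x.2.2.1, map_mul, map_mul], x.2.2.2.map f⟩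
  map_id x := Subtype.ext (Prod.ext (T.map_id _) rfl)
  map_comp f g x := Subtype.ext (Prod.ext (T.map_comp f g _) rfl)

/-- The coordinates of the kernel vector. -/
def coo (M : NM T W) (j : W) : NF (FK M) where
  fn x := x.1.2.1 j
  nat _ _ := rfl

/-- The matrices with determinant zero and adjugate `δ g gᵀ`, `δ` and `g i` invertible and `g j = 0` for
`j ∈ J`. -/
def Ker (M : NM T W) (J : W → Prop) (i : W) : PF where
  pts C _ := {x : T.pts C × (W → C) × C // ((M.fn x.1).det = 0 ∧
    (∀ a b, (M.fn x.1).adjugate a b = x.2.2 * x.2.1 a * x.2.1 b) ∧ IsUnit x.2.2) ∧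
      (∀ j, J j → x.2.1 j = 0) ∧ IsUnit (x.2.1 i)}
  map f x := ⟨(T.map f x.1.1, fun j => f (x.1.2.1 j), f x.1.2.2), ⟨by
    change (M.fn (T.map f x.1.1)).det = 0
    rw [M.nat, det_map, x.2.1.1, map_zero], fun a b => by
    change (M.fn (T.map f x.1.1)).adjugate a b = f _ * f _ * f _
    rw [M.nat, adj_map, x.2.1.2.1, map_mul, map_mul], x.2.1.2.2.map f⟩, fun j hj => by
    change f _ = 0
    rw [x.2.2.1 j hj, map_zero], x.2.2.2.map f⟩
  map_id x := Subtype.ext (Prod.ext (T.map_id _) rfl)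
  map_comp f g x := Subtype.ext (Prod.ext (T.map_comp f g _) rfl)

variable {R : Type} [CommRing R] {sep : Prop} {P : Sch R → Prop}

lemma hasRep_FK (hT : HasRep R T) (M : NM T W) : HasRep R (FK M) := by
  let F : PF := T.aff (W ⊕ Unit)
  let e : Unit ⊕ (W × W) → NF F := Sum.elim
    (fun _ => ⟨fun p => (M.fn p.1).det, fun f p => by
      change (M.fn (T.map f p.1)).det = _
      rw [M.nat, det_map]⟩)
    (fun ab => ⟨fun p => (M.fn p.1).adjugate ab.1 ab.2 - p.2 (Sum.inr ()) * p.2 (Sum.inl ab.1) *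
      p.2 (Sum.inl ab.2), fun f p => by
      change (M.fn (T.map f p.1)).adjugate ab.1 ab.2 - f _ * f _ * f _ = _
      rw [M.nat, adj_map, map_sub, map_mul, map_mul]⟩)
  let d : NF F := ⟨fun p => p.2 (Sum.inr ()), fun _ _ => rfl⟩
  have h1 := ((hT.aff (W ⊕ Unit)).zeros e).unit (resZeros e d)
  refine h1.congr ⟨fun p => ⟨(p.1.1.1, fun j => p.1.1.2 (Sum.inl j), p.1.1.2 (Sum.inr ())),
    p.1.2 (Sum.inl ()), fun a b => sub_eq_zero.1 (p.1.2 (Sum.inr (a, b))), p.2⟩,
    fun x => ⟨⟨(x.1.1, Sum.elim x.1.2.1 fun _ => x.1.2.2), ?_⟩, x.2.2.2⟩, ?_, fun _ => rfl,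
    fun _ _ => rfl⟩
  · rintro (_ | ⟨a, b⟩)
    · exact x.2.1
    · exact sub_eq_zero.2 (x.2.2.1 a b)
  · intro C _ p
    apply Subtype.ext
    apply Subtype.ext
    apply Prod.ext
    · rfl
    · funext j
      rcases j with j | j <;> rfl

lemma HasRep.jou {F : PF} (h : HasRep R F) {κ : Type} [Fintype κ] (g : κ → NF F) :
    HasRep R (F.jou g) := by
  let f : NF (F.aff κ) := ⟨fun p => ∑ l, (g l).fn p.1 * p.2 l - 1, fun f p => by
    change ∑ l, (g l).fn (F.map f p.1) * f (p.2 l) - 1 = _
    simp only [(g _).nat, ← map_mul, ← map_sum, map_sub, map_one]⟩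
  exact ((h.aff κ).zero f).congr
    ⟨fun p => ⟨p.1, sub_eq_zero.1 p.2⟩, fun p => ⟨p.1, sub_eq_zero.2 p.2⟩, fun _ => rfl,
      fun _ => rfl, fun _ _ => rfl⟩

/-- the determinant of the inner matrix on the bordered matrices -/
def dB (M : NM T W) (J : W → Prop) : NF (Bord M J) where
  fn x := (M.fn x.1.1).det
  nat f x := by
    change (M.fn (T.map f x.1.1)).det = _
    rw [M.nat, det_map]

/-- the bordered matrices with invertible inner determinant -/
noncomputable def bordUnit (M : NM T W) (J : W → Prop) :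
    PIso (((T.unit M.det).aff {j // J j}).tor PUnit) ((Bord M J).unit (dB M J)) where
  fwd {C} _ p := ⟨⟨(p.1.1.1, ext0 J p.1.2, Ring.inverse (M.fn p.1.1.1).det *
      ((p.2 ⟨⟩ : Cˣ) + qf (M.fn p.1.1.1) (ext0 J p.1.2))), fun j hj => ext0_not _ j hj, by
    change IsUnit (bd (M.fn p.1.1.1) _ _ _).det
    rw [det_bd_inv _ _ _ p.1.1.2]
    exact (p.2 ⟨⟩).isUnit⟩, p.1.1.2⟩
  bwd x := ((⟨x.1.1.1, x.2⟩, fun j => x.1.1.2.1 j.1), fun _ => x.1.2.2.unit)
  left {C} _ p := by
    apply Prod.ext
    · apply Prod.ext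
      · rfl
      · funext j
        exact ext0_of _ j
    · funext _
      apply Units.ext
      exact det_bd_inv _ _ _ p.1.1.2
  right {C} _ x := by
    apply Subtype.ext
    apply Subtype.ext
    have h1 : ext0 J (fun j : {j // J j} => x.1.1.2.1 j.1) = x.1.1.2.1 :=
      ext0_res _ x.1.2.1
    apply Prod.ext
    · rfl
    · apply Prod.ext
      · exact h1
      · change Ring.inverse (M.fn x.1.1.1).det * ((bd (M.fn x.1.1.1) x.1.1.2.1 x.1.1.2.1 _).det +
          qf (M.fn x.1.1.1) (ext0 J (fun j : {j // J j} => x.1.1.2.1 j.1))) = x.1.1.2.2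
        rw [h1]
        exact inv_det_bd _ _ _ x.2
  nat {C D} _ _ f p := by
    apply Subtype.ext
    apply Subtype.ext
    have h1 : ext0 J (fun j => f (p.1.2 j)) = fun j => f (ext0 J p.1.2 j) :=
      funext fun j => ext0_map f _ j
    apply Prod.ext
    · rfl
    · apply Prod.ext
      · exact h1
      · change Ring.inverse (M.fn (T.map f p.1.1.1)).det * (f (p.2 ⟨⟩ : Cˣ) +
          qf (M.fn (T.map f p.1.1.1)) (ext0 J (fun j => f (p.1.2 j)))) = f _
        have hu : IsUnit (M.fn p.1.1.1).det := p.1.1.2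
        rw [h1, M.nat, det_map, rinv_map f hu, qf_map, map_mul, map_add]

/-- the ring-theoretic content of the next bijection -/
lemma kernel_sum {C : Type} [CommRing C] (A : Matrix W W C) (v : W → C) (hd : IsUnit (qf A v)) :
    ∑ j, (Ring.inverse (qf A v) * (A.adjugate *ᵥ v) j) * v j = 1 := by
  have h1 : ∀ j, (Ring.inverse (qf A v) * (A.adjugate *ᵥ v) j) * v j =
      Ring.inverse (qf A v) * (v j * (A.adjugate *ᵥ v) j) := fun j => by ring
  simp only [h1]
  rw [← Finset.mul_sum]
  exact Ring.inverse_mul_cancel _ hd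

lemma qf_unit {C : Type} [CommRing C] (A : Matrix W W C) (v : W → C) (c : C) (h0 : A.det = 0)
    (h : IsUnit (bd A v v c).det) : IsUnit (qf A v) := by
  rw [det_bd_symm, h0, mul_zero, zero_sub, IsUnit.neg_iff] at h
  exact h

open Classical in
/-- the bordered matrices with inner determinant zero -/
noncomputable def bordZero (M : NM T W) (J : W → Prop) :
    PIso ((Bord M J).zero (dB M J)) (((FK M).jou (fun j : {j // J j} => coo M j.1)).aff PUnit) where
  fwd {C} _ x := (⟨(⟨(x.1.1.1, fun j => Ring.inverse (qf (M.fn x.1.1.1) x.1.1.2.1) *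
      ((M.fn x.1.1.1).adjugate *ᵥ x.1.1.2.1) j, qf (M.fn x.1.1.1) x.1.1.2.1), x.2,
        kernel_vec _ (M.symm _) x.2 _ (qf_unit _ _ _ x.2 x.1.2.2), qf_unit _ _ _ x.2 x.1.2.2⟩,
      fun j => x.1.1.2.1 j.1), by
        have h1 := kernel_sum (M.fn x.1.1.1) x.1.1.2.1 (qf_unit _ _ _ x.2 x.1.2.2)
        have h2 : ext0 J (fun j : {j // J j} => x.1.1.2.1 j.1) = x.1.1.2.1 :=
          ext0_res _ x.1.2.1
        have h3 := sum_ext0 (J := J) (fun j => Ring.inverse (qf (M.fn x.1.1.1) x.1.1.2.1) *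
          ((M.fn x.1.1.1).adjugate *ᵥ x.1.1.2.1) j) (fun j : {j // J j} => x.1.1.2.1 j.1)
        rw [h2] at h3
        exact h3.symm.trans h1⟩, fun _ => x.1.1.2.2)
  bwd {C} _ y := ⟨⟨(y.1.1.1.1.1, ext0 J y.1.1.2, y.2 ⟨⟩), fun j hj => ext0_not _ j hj, by
    have h1 : ∑ j, y.1.1.1.1.2.1 j * ext0 J y.1.1.2 j = 1 := by
      rw [sum_ext0]
      exact y.1.2
    change IsUnit (bd (M.fn y.1.1.1.1.1) _ _ _).det
    rw [det_bd_symm, y.1.1.1.2.1, mul_zero, zero_sub, IsUnit.neg_iff,
      qf_eq _ _ _ _ y.1.1.1.2.2.1 h1]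
    exact y.1.1.1.2.2.2⟩, y.1.1.1.2.1⟩
  left {C} _ x := by
    apply Subtype.ext
    apply Subtype.ext
    exact Prod.ext rfl (Prod.ext (ext0_res _ x.1.2.1) rfl)
  right {C} _ y := by
    have h1 : ∑ j, y.1.1.1.1.2.1 j * ext0 J y.1.1.2 j = 1 := by
      rw [sum_ext0]
      exact y.1.2
    have h2 := qf_eq _ _ _ _ y.1.1.1.2.2.1 h1
    apply Prod.ext
    · apply Subtype.ext
      apply Prod.ext
      · apply Subtype.ext
        apply Prod.ext
        · rfl
        · apply Prod.ext
          · funext j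
            change Ring.inverse (qf (M.fn y.1.1.1.1.1) (ext0 J y.1.1.2)) *
              ((M.fn y.1.1.1.1.1).adjugate *ᵥ (ext0 J y.1.1.2)) j = _
            rw [h2, adj_mulVec _ _ _ _ y.1.1.1.2.2.1 h1, ← mul_assoc,
              Ring.inverse_mul_cancel _ y.1.1.1.2.2.2, one_mul]
          · exact h2
      · funext j
        exact ext0_of _ j
    · rfl
  nat {C D} _ _ f x := by
    have hu : IsUnit (qf (M.fn x.1.1.1) x.1.1.2.1) := qf_unit _ _ _ x.2 x.1.2.2
    apply Prod.ext
    · apply Subtype.ext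
      apply Prod.ext
      · apply Subtype.ext
        apply Prod.ext
        · rfl
        · apply Prod.ext
          · funext j
            change Ring.inverse (qf (M.fn (T.map f x.1.1.1)) (fun j => f (x.1.1.2.1 j))) *
              ((M.fn (T.map f x.1.1.1)).adjugate *ᵥ (fun j => f (x.1.1.2.1 j))) j = f (_ * _)
            rw [M.nat, qf_map, mulVec_map, rinv_map f hu, map_mul]
          · change qf (M.fn (T.map f x.1.1.1)) (fun j => f (x.1.1.2.1 j)) = f _
            rw [M.nat, qf_map]
      · rfl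
    · rfl

lemma hasRep_jouFK (hT : HasRep R T) (M : NM T W) {κ : Type} [Fintype κ] (f : κ → W) :
    HasRep R ((FK M).jou (fun j => coo M (f j))) :=
  (hasRep_FK hT M).jou _

open Classical in
/-- from the bordered matrices to the affine bundle -/
lemma holds_jouFK (hP : Mot sep P) (hT : HasRep R T) (M : NM T W) (J : W → Prop)
    (h1 : Holds P (T.unit M.det)) (h2 : Holds P (Bord M J)) :
    Holds P ((FK M).jou (fun j : {j // J j} => coo M j.1)) := by
  have h3 : Holds P ((Bord M J).unit (dB M J)) :=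
    ((h1.aff hP {j // J j}).tor hP PUnit).congr (bordUnit M J)
  have h4 := (h2.closed hP (dB M J) h3).congr (bordZero M J)
  exact h4.of_aff hP ((hasRep_FK hT M).jou _)

/-- **From bordered determinants to kernel vectors.** -/
theorem holds_ker (hP : Mot sep P) (hT : HasRep R T) (M : NM T W) (J J' : W → Prop) (i : W)
    (hJ : ∀ j, J' j ↔ J j ∨ j = i) (h1 : Holds P (T.unit M.det)) (h2 : Holds P (Bord M J))
    (h3 : Holds P (Bord M J')) : Holds P (Ker M J i) := by
  classical
  have h4 := holds_jouFK hP hT M J h1 h2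
  have h5 := holds_jouFK hP hT M J' h1 h3
  have h6 := jou_rule hP (hasRep_FK hT M) (fun j : {j // J j} => coo M j.1)
    (fun j : {j // J' j} => coo M j.1) (coo M i) (by
      ext x
      constructor
      · rintro ⟨⟨j, hj⟩, rfl⟩
        rcases (hJ j).1 hj with h | rfl
        · exact Or.inr ⟨⟨j, h⟩, rfl⟩
        · exact Or.inl rfl
      · rintro (rfl | ⟨⟨j, hj⟩, rfl⟩)
        · exact ⟨⟨i, (hJ i).2 (Or.inr rfl)⟩, rfl⟩
        · exact ⟨⟨j, (hJ j).2 (Or.inl hj)⟩, rfl⟩) h4 h5
  refine h6.congr ⟨fun x => ⟨x.1.1, x.1.2, fun j hj => x.2.1 ⟨j, hj⟩, x.2.2⟩,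
    fun y => ⟨⟨y.1, y.2.1⟩, fun j => y.2.2.1 j.1 j.2, y.2.2.2⟩, fun _ => rfl, fun _ => rfl,
    fun _ _ => rfl⟩

end Pool.Agent.Helper3.GU
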