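import Pool.Agent.Helper3.GU.Cut

/-!
# Configurations of rows and columns
-/

set_option autoImplicit false

open CategoryTheory AlgebraicGeometry Pool.Agent.Y116.UV Pool.Agent.Q282.UK Matrix

namespace Pool.Agent.Helper3.GU

/-- A family of row vectors and column vectors, with coordinates indexed by `F`, over a base `X`. -/
structure Cf (F : Type) : Type 1 where
  /-- the base -/
  X : PF
  /-- the index set of the rows -/
  P : Type
  /-- the index set of the columns -/
  K : Type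
  /-- the rows -/
  row : ∀ {C : Type} [CommRing C], X.pts C → P → F → C
  /-- the columns -/
  col : ∀ {C : Type} [CommRing C], X.pts C → K → F → C
  row_nat : ∀ {C D : Type} [CommRing C] [CommRing D] (φ : C →+* D) (x : X.pts C) (p : P) (f : F),
    row (X.map φ x) p f = φ (row x p f)
  col_nat : ∀ {C D : Type} [CommRing C] [CommRing D] (φ : C →+* D) (x : X.pts C) (k : K) (f : F),
    col (X.map φ x) k f = φ (col x k f)

variable {F : Type}

/-- All rows of the extended configuration. -/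
def Cf.rows (c : Cf F) {P' C : Type} [CommRing C] (x : c.X.pts C) (v : P' → F → C) :
    c.P ⊕ P' → F → C := Sum.elim (c.row x) v

/-- All columns of the extended configuration. -/
def Cf.cols (c : Cf F) {K' C : Type} [CommRing C] (x : c.X.pts C) (w : K' → F → C) :
    c.K ⊕ K' → F → C := Sum.elim (c.col x) w

lemma Cf.rows_nat (c : Cf F) {P' C D : Type} [CommRing C] [CommRing D] (φ : C →+* D)
    (x : c.X.pts C) (v : P' → F → C) (p : c.P ⊕ P') (f : F) :
    c.rows (c.X.map φ x) (fun p f => φ (v p f)) p f = φ (c.rows x v p f) := by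
  rcases p with p | p
  · exact c.row_nat φ x p f
  · rfl

lemma Cf.cols_nat (c : Cf F) {K' C D : Type} [CommRing C] [CommRing D] (φ : C →+* D)
    (x : c.X.pts C) (w : K' → F → C) (k : c.K ⊕ K') (f : F) :
    c.cols (c.X.map φ x) (fun p f => φ (w p f)) k f = φ (c.cols x w k f) := by
  rcases k with k | k
  · exact c.col_nat φ x k f
  · rfl

/-- New rows and columns with prescribed zeros and prescribed incidences. -/
structure Cf.Ok [Fintype F] (c : Cf F) {P' K' : Type} (S₁ : P' → F → Prop) (S₂ : K' → F → Prop)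
    (E : c.P ⊕ P' → c.K ⊕ K' → Prop) {C : Type} [CommRing C] (x : c.X.pts C) (v : P' → F → C)
    (w : K' → F → C) : Prop where
  s1 : ∀ p f, ¬ S₁ p f → v p f = 0
  s2 : ∀ k f, ¬ S₂ k f → w k f = 0
  inc : ∀ p k, E p k → c.rows x v p ⬝ᵥ c.cols x w k = 0

lemma Cf.Ok.map [Fintype F] {c : Cf F} {P' K' : Type} {S₁ : P' → F → Prop} {S₂ : K' → F → Prop}
    {E : c.P ⊕ P' → c.K ⊕ K' → Prop} {C D : Type} [CommRing C] [CommRing D] (φ : C →+* D)
    {x : c.X.pts C} {v : P' → F → C} {w : K' → F → C} (h : c.Ok S₁ S₂ E x v w) :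
    c.Ok S₁ S₂ E (c.X.map φ x) (fun p f => φ (v p f)) (fun k f => φ (w k f)) := by
  refine ⟨fun p f hp => by rw [h.s1 p f hp, map_zero], fun k f hk => by rw [h.s2 k f hk, map_zero],
    fun p k hpk => ?_⟩
  have h1 := congrArg φ (h.inc p k hpk)
  rw [map_zero, RingHom.map_dotProduct] at h1
  rw [← h1]
  congr 1
  · funext f
    exact c.rows_nat φ x v p f
  · funext f
    exact c.cols_nat φ x w k f

/-- The functor of the extensions of the configuration; the entries of the new rows in `U` are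
invertible. -/
def EXU [Fintype F] (c : Cf F) {P' K' : Type} (S₁ : P' → F → Prop) (S₂ : K' → F → Prop)
    (E : c.P ⊕ P' → c.K ⊕ K' → Prop) (U : Finset (P' × F)) : PF where
  pts C _ := {x : c.X.pts C × (P' → F → C) × (K' → F → C) // c.Ok S₁ S₂ E x.1 x.2.1 x.2.2 ∧
    ∀ a ∈ U, IsUnit (x.2.1 a.1 a.2)}
  map φ x := ⟨(c.X.map φ x.1.1, (fun p f => φ (x.1.2.1 p f)), fun k f => φ (x.1.2.2 k f)),
    x.2.1.map φ, fun a ha => (x.2.2 a ha).map φ⟩
  map_id x := Subtype.ext (Prod.ext (c.X.map_id _) rfl)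
  map_comp f g x := Subtype.ext (Prod.ext (c.X.map_comp f g _) rfl)

/-- The functor of the extensions of the configuration. -/
def EX [Fintype F] (c : Cf F) {P' K' : Type} (S₁ : P' → F → Prop) (S₂ : K' → F → Prop)
    (E : c.P ⊕ P' → c.K ⊕ K' → Prop) : PF where
  pts C _ := {x : c.X.pts C × (P' → F → C) × (K' → F → C) // c.Ok S₁ S₂ E x.1 x.2.1 x.2.2}
  map φ x := ⟨(c.X.map φ x.1.1, (fun p f => φ (x.1.2.1 p f)), fun k f => φ (x.1.2.2 k f)),
    x.2.map φ⟩
  map_id x := Subtype.ext (Prod.ext (c.X.map_id _) rfl)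
  map_comp f g x := Subtype.ext (Prod.ext (c.X.map_comp f g _) rfl)

variable {R : Type} [CommRing R] {sep : Prop} {P : Sch R → Prop}

/-- `P` holds for all extensions of the configuration. -/
def Full (P : Sch R → Prop) [Fintype F] (c : Cf F) : Prop :=
  ∀ (P' K' : Type) [Finite P'] [Finite K'] (S₁ : P' → F → Prop) (S₂ : K' → F → Prop)
    (E : c.P ⊕ P' → c.K ⊕ K' → Prop), Holds P (EX c S₁ S₂ E)

section

variable [Fintype F] [DecidableEq F]

lemma full_unit (hP : Mot sep P) {c : Cf F} (hc : Full P c) {P' K' : Type} [Finite P'] [Finite K']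
    (S₂ : K' → F → Prop) (E : c.P ⊕ P' → c.K ⊕ K' → Prop) (U : Finset (P' × F)) :
    ∀ S₁ : P' → F → Prop, Holds P (EXU c S₁ S₂ E U) := by
  classical
  induction U using Finset.induction_on with
  | empty =>
    intro S₁
    exact (hc P' K' S₁ S₂ E).congr ⟨fun x => ⟨x.1, x.2, fun a ha => absurd ha (by simp)⟩,
      fun x => ⟨x.1, x.2.1⟩, fun _ => rfl, fun _ => rfl, fun _ _ => rfl⟩
  | insert a U ha ih =>
    intro S₁
    let g : NF (EXU c S₁ S₂ E U) := ⟨fun x => x.1.2.1 a.1 a.2, fun _ _ => rfl⟩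
    have h1 : Holds P ((EXU c S₁ S₂ E U).zero g) := by
      refine (ih fun p f => S₁ p f ∧ (p, f) ≠ a).congr ⟨fun x => ⟨⟨x.1, ⟨fun p f h =>
        x.2.1.s1 p f fun h1 => h h1.1, x.2.1.s2, x.2.1.inc⟩, x.2.2⟩,
          x.2.1.s1 a.1 a.2 fun h1 => h1.2 rfl⟩, fun y => ⟨y.1.1, ⟨fun p f h => ?_, y.1.2.1.s2,
            y.1.2.1.inc⟩, y.1.2.2⟩, fun _ => rfl, fun _ => rfl, fun _ _ => rfl⟩
      by_cases h1 : (p, f) = a
      · subst h1
        exact y.2
      · exact y.1.2.1.s1 p f fun h2 => h ⟨h2, h1⟩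
    refine ((ih S₁).opened hP g h1).congr ⟨fun x => ⟨x.1.1, x.1.2.1, fun b hb => ?_⟩,
      fun y => ⟨⟨y.1, y.2.1, fun b hb => y.2.2 b (Finset.mem_insert_of_mem hb)⟩,
        y.2.2 a (Finset.mem_insert_self _ _)⟩, fun _ => rfl, fun _ => rfl, fun _ _ => rfl⟩
    rcases Finset.mem_insert.1 hb with rfl | hb
    · exact x.2
    · exact x.1.2.2 b hb

omit [DecidableEq F] in
lemma hasRep_EX {c : Cf F} (hX : HasRep R c.X) {P' K' : Type} [Finite P'] [Finite K']
    (S₁ : P' → F → Prop) (S₂ : K' → F → Prop) (E : c.P ⊕ P' → c.K ⊕ K' → Prop) :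
    HasRep R (EX c S₁ S₂ E) := by
  let G : PF := c.X.aff ((P' × F) ⊕ (K' × F))
  let v : ∀ {C : Type} [CommRing C], G.pts C → P' → F → C := fun p k b => p.2 (Sum.inl (k, b))
  let w : ∀ {C : Type} [CommRing C], G.pts C → K' → F → C := fun p k b => p.2 (Sum.inr (k, b))
  let e : ({p : P' × F // ¬ S₁ p.1 p.2} ⊕ {p : K' × F // ¬ S₂ p.1 p.2}) ⊕
      {p : (c.P ⊕ P') × (c.K ⊕ K') // E p.1 p.2} → NF G := Sum.elim
    (Sum.elim
      (fun p => ⟨fun x => v x p.1.1 p.1.2, fun f x => rfl⟩)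
      (fun p => ⟨fun x => w x p.1.1 p.1.2, fun f x => rfl⟩))
    (fun p => ⟨fun x => c.rows x.1 (v x) p.1.1 ⬝ᵥ c.cols x.1 (w x) p.1.2, fun φ x => by
      rw [RingHom.map_dotProduct]
      congr 1
      · funext f
        exact c.rows_nat φ x.1 (v x) p.1.1 f
      · funext f
        exact c.cols_nat φ x.1 (w x) p.1.2 f⟩)
  refine ((hX.aff ((P' × F) ⊕ (K' × F))).zeros e).congr
    ⟨fun x => ⟨(x.1.1, v x.1, w x.1), ?_, ?_, ?_⟩,
      fun y => ⟨(y.1.1, Sum.elim (fun p => y.1.2.1 p.1 p.2) fun p => y.1.2.2 p.1 p.2), ?_⟩, ?_,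
      fun _ => rfl, fun _ _ => rfl⟩
  · intro p f h
    exact x.2 (Sum.inl (Sum.inl ⟨(p, f), h⟩))
  · intro p f h
    exact x.2 (Sum.inl (Sum.inr ⟨(p, f), h⟩))
  · intro p k h
    exact x.2 (Sum.inr ⟨(p, k), h⟩)
  · rintro ((⟨⟨a, b⟩, h⟩ | ⟨⟨a, b⟩, h⟩) | ⟨⟨a, b⟩, h⟩)
    · exact y.2.s1 a b h
    · exact y.2.s2 a b h
    · exact y.2.inc a b h
  · intro C _ x
    apply Subtype.ext
    apply Prod.ext
    · rfl
    · funext j
      rcases j with j | j <;> rfl

/-! ### Exchanging rows and columns -/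

/-- Exchanging rows and columns. -/
def Cf.swap (c : Cf F) : Cf F where
  X := c.X
  P := c.K
  K := c.P
  row := c.col
  col := c.row
  row_nat := c.col_nat
  col_nat := c.row_nat

omit [DecidableEq F] in
lemma Full.swap {c : Cf F} (hc : Full P c) : Full P c.swap := by
  intro P' K' _ _ S₁ S₂ E
  refine (hc K' P' S₂ S₁ fun p k => E k p).congr
    ⟨fun x => ⟨(x.1.1, x.1.2.2, x.1.2.1), x.2.s2, x.2.s1, fun p k h => ?_⟩,
      fun x => ⟨(x.1.1, x.1.2.2, x.1.2.1), x.2.s2, x.2.s1, fun p k h => ?_⟩,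
      fun _ => rfl, fun _ => rfl, fun _ _ => rfl⟩
  · have h1 := x.2.inc k p h
    rw [dotProduct_comm] at h1
    exact h1
  · have h1 := x.2.inc k p h
    rw [dotProduct_comm] at h1
    exact h1

/-! ### Adding rows -/

/-- A natural map. -/
structure PMap (F G : PF) where
  /-- the map -/
  fn : ∀ {C : Type} [CommRing C], F.pts C → G.pts C
  nat : ∀ {C D : Type} [CommRing C] [CommRing D] (f : C →+* D) (p : F.pts C),
    fn (F.map f p) = G.map f (fn p)

/-- Base change and new rows. -/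
def Cf.addRow (c : Cf F) {X' : PF} (π : PMap X' c.X) {κ : Type}
    (r : ∀ {C : Type} [CommRing C], X'.pts C → κ → F → C)
    (hr : ∀ {C D : Type} [CommRing C] [CommRing D] (φ : C →+* D) (x : X'.pts C) (k : κ) (f : F),
      r (X'.map φ x) k f = φ (r x k f)) : Cf F where
  X := X'
  P := c.P ⊕ κ
  K := c.K
  row x := Sum.elim (c.row (π.fn x)) (r x)
  col x := c.col (π.fn x)
  row_nat φ x p f := by
    rcases p with p | p
    · change c.row (π.fn (X'.map φ x)) p f = _
      rw [π.nat]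
      exact c.row_nat φ _ p f
    · exact hr φ x p f
  col_nat φ x k f := by
    rw [π.nat]
    exact c.col_nat φ _ k f

/-- Base change and new columns. -/
def Cf.addCol (c : Cf F) {X' : PF} (π : PMap X' c.X) {κ : Type}
    (r : ∀ {C : Type} [CommRing C], X'.pts C → κ → F → C)
    (hr : ∀ {C D : Type} [CommRing C] [CommRing D] (φ : C →+* D) (x : X'.pts C) (k : κ) (f : F),
      r (X'.map φ x) k f = φ (r x k f)) : Cf F where
  X := X'
  P := c.P
  K := c.K ⊕ κ
  row x := c.row (π.fn x)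
  col x := Sum.elim (c.col (π.fn x)) (r x)
  row_nat φ x p f := by
    rw [π.nat]
    exact c.row_nat φ _ p f
  col_nat φ x k f := by
    rcases k with p | p
    · change c.col (π.fn (X'.map φ x)) p f = _
      rw [π.nat]
      exact c.col_nat φ _ p f
    · exact hr φ x p f

/-- The rows `v` are supported in `S`, incident with the columns in `E`, and the entry `u` is
invertible. -/
structure Valid (c : Cf F) {κ : Type} (S : κ → F → Prop) (E : κ → c.K → Prop) (u : κ → F)
    {C : Type} [CommRing C] (x : c.X.pts C) (v : κ → F → C) : Prop where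
  s : ∀ k f, ¬ S k f → v k f = 0
  inc : ∀ k l, E k l → v k ⬝ᵥ c.col x l = 0
  unit : ∀ k, IsUnit (v k (u k))

omit [DecidableEq F] in
lemma Valid.map {c : Cf F} {κ : Type} {S : κ → F → Prop} {E : κ → c.K → Prop} {u : κ → F}
    {C D : Type} [CommRing C] [CommRing D] (φ : C →+* D) {x : c.X.pts C} {v : κ → F → C}
    (h : Valid c S E u x v) : Valid c S E u (c.X.map φ x) (fun k f => φ (v k f)) := by
  refine ⟨fun k f hf => by rw [h.s k f hf, map_zero], fun k l hl => ?_,
    fun k => (h.unit k).map φ⟩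
  have h1 := congrArg φ (h.inc k l hl)
  rw [map_zero, RingHom.map_dotProduct] at h1
  rw [← h1]
  congr 1
  funext f
  exact c.col_nat φ x l f

/-- The data for adding rows which are determined up to invertible factors by their supports and their
incidences. -/
structure AddData (c : Cf F) (X' : PF) (κ : Type) where
  /-- the projection of the new base -/
  π : PMap X' c.X
  /-- the new rows -/
  r : ∀ {C : Type} [CommRing C], X'.pts C → κ → F → C
  hr : ∀ {C D : Type} [CommRing C] [CommRing D] (φ : C →+* D) (x : X'.pts C) (k : κ) (f : F),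
      r (X'.map φ x) k f = φ (r x k f)
  /-- the supports -/
  S : κ → F → Prop
  /-- the incidences -/
  E : κ → c.K → Prop
  /-- the entries that are normalised -/
  u : κ → F
  /-- the point of the new base -/
  ρ : ∀ {C : Type} [CommRing C], c.X.pts C → (κ → F → C) → X'.pts C
  supp : ∀ {C : Type} [CommRing C] (x : X'.pts C) (k : κ) (f : F), ¬ S k f → r x k f = 0
  one : ∀ {C : Type} [CommRing C] (x : X'.pts C) (k : κ), r x k (u k) = 1
  inc : ∀ {C : Type} [CommRing C] (x : X'.pts C) (k : κ) (l : c.K), E k l →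
    r x k ⬝ᵥ c.col (π.fn x) l = 0
  proj : ∀ {C : Type} [CommRing C] (x : c.X.pts C) (v : κ → F → C), Valid c S E u x v →
    π.fn (ρ x v) = x
  eq : ∀ {C : Type} [CommRing C] (x : c.X.pts C) (v : κ → F → C), Valid c S E u x v →
    ∀ k f, v k f = v k (u k) * r (ρ x v) k f
  sec : ∀ {C : Type} [CommRing C] (x : X'.pts C) (t : κ → Cˣ),
    ρ (π.fn x) (fun k f => (t k : C) * r x k f) = x

/-- The new configuration. -/
def AddData.cf {c : Cf F} {X' : PF} {κ : Type} (a : AddData c X' κ) : Cf F :=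
  c.addRow a.π a.r a.hr

omit [DecidableEq F] in
lemma smul_dot {C : Type} [CommRing C] (t : C) (v w v' : F → C) (h : ∀ f, v' f = t * v f) :
    v' ⬝ᵥ w = t * (v ⬝ᵥ w) := by
  have h1 : v' = t • v := funext h
  rw [h1, smul_dotProduct, smul_eq_mul]

section

variable {c : Cf F} {X' : PF} {κ : Type} (a : AddData c X' κ) {P' K' : Type}
  (E : a.cf.P ⊕ P' → a.cf.K ⊕ K' → Prop)

/-- the incidences for the old configuration -/
def incE : c.P ⊕ (κ ⊕ P') → c.K ⊕ K' → Prop := Sum.elim
  (fun p k => E (Sum.inl (Sum.inl p)) k) (Sum.elim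
    (fun k l => E (Sum.inl (Sum.inr k)) l ∨ Sum.elim (fun l => a.E k l) (fun _ => False) l)
    (fun p k => E (Sum.inr p) k))

lemma valid_of {S₁ : P' → F → Prop} {S₂ : K' → F → Prop} {C : Type} [CommRing C]
    {x : c.X.pts C} {v : κ ⊕ P' → F → C} {w : K' → F → C}
    (h : c.Ok (Sum.elim a.S S₁) S₂ (incE a E) x v w) (hu : ∀ k, IsUnit (v (Sum.inl k) (a.u k))) :
    Valid c a.S a.E a.u x (fun k => v (Sum.inl k)) :=
  ⟨fun k f hf => h.s1 (Sum.inl k) f hf,
    fun k l hl => h.inc (Sum.inr (Sum.inl k)) (Sum.inl l) (Or.inr hl), hu⟩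

lemma ok_of {S₁ : P' → F → Prop} {S₂ : K' → F → Prop} {C : Type} [CommRing C]
    {x : c.X.pts C} {v : κ ⊕ P' → F → C} {w : K' → F → C}
    (h : c.Ok (Sum.elim a.S S₁) S₂ (incE a E) x v w) (hu : ∀ k, IsUnit (v (Sum.inl k) (a.u k))) :
    a.cf.Ok S₁ S₂ E (a.ρ x fun k => v (Sum.inl k)) (fun p => v (Sum.inr p)) w := by
  have hv := valid_of a E h hu
  have hπ := a.proj x _ hv
  refine ⟨fun p f hf => h.s1 (Sum.inr p) f hf, h.s2, ?_⟩
  have hcol : ∀ k, a.cf.cols (a.ρ x fun k => v (Sum.inl k)) w k = c.cols x w k := by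
    rintro (k | k)
    · change c.col (a.π.fn (a.ρ x fun k => v (Sum.inl k))) k = c.col x k
      rw [hπ]
    · rfl
  rintro ((p | p) | p) k hk
  · rw [hcol]
    have h1 := h.inc (Sum.inl p) k hk
    change c.row (a.π.fn (a.ρ x fun k => v (Sum.inl k))) p ⬝ᵥ _ = 0
    rw [hπ]
    exact h1
  · rw [hcol]
    have h1 := h.inc (Sum.inr (Sum.inl p)) k (Or.inl hk)
    have h2 := smul_dot (v (Sum.inl p) (a.u p)) (a.r (a.ρ x fun k => v (Sum.inl k)) p)
      (c.cols x w k) (v (Sum.inl p)) (a.eq x _ hv p)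
    change v (Sum.inl p) ⬝ᵥ _ = 0 at h1
    rw [h2] at h1
    exact (hu p).mul_right_eq_zero.1 h1
  · rw [hcol]
    exact h.inc (Sum.inr (Sum.inr p)) k hk

lemma ok_to {S₁ : P' → F → Prop} {S₂ : K' → F → Prop} {C : Type} [CommRing C]
    {x : X'.pts C} {v : P' → F → C} {w : K' → F → C} (t : κ → Cˣ)
    (h : a.cf.Ok S₁ S₂ E x v w) :
    c.Ok (Sum.elim a.S S₁) S₂ (incE a E) (a.π.fn x)
      (Sum.elim (fun k f => (t k : C) * a.r x k f) v) w := by
  have hcol : a.cf.cols x w = c.cols (a.π.fn x) w := by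
    funext k
    rcases k with k | k
    · rfl
    · rfl
  refine ⟨?_, h.s2, ?_⟩
  · rintro (p | p) f hf
    · change (t p : C) * a.r x p f = 0
      rw [a.supp x p f hf, mul_zero]
    · exact h.s1 p f hf
  · rintro (p | p | p) k hk
    · rw [← hcol]
      exact h.inc (Sum.inl (Sum.inl p)) k hk
    · change (fun f => (t p : C) * a.r x p f) ⬝ᵥ _ = 0
      rw [smul_dot (t p : C) (a.r x p) _ _ fun _ => rfl]
      rcases hk with hk | hk
      · have h1 := h.inc (Sum.inl (Sum.inr p)) k hk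
        rw [hcol] at h1
        change a.r x p ⬝ᵥ _ = 0 at h1
        rw [h1, mul_zero]
      · rcases k with k | k
        · change (t p : C) * (a.r x p ⬝ᵥ c.col (a.π.fn x) k) = 0
          rw [a.inc x p k hk, mul_zero]
        · exact hk.elim
    · rw [← hcol]
      exact h.inc (Sum.inr p) k hk

variable [DecidableEq κ] [DecidableEq P'] [Fintype κ]

/-- the normalised entries -/
def uSet : Finset ((κ ⊕ P') × F) := Finset.univ.image fun k : κ => (Sum.inl k, a.u k)

lemma mem_uSet (k : κ) : ((Sum.inl k, a.u k) : (κ ⊕ P') × F) ∈ uSet a :=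
  Finset.mem_image.2 ⟨k, Finset.mem_univ _, rfl⟩

/-- the bijection for adding rows -/
noncomputable def addIso (S₁ : P' → F → Prop) (S₂ : K' → F → Prop) :
    PIso (EXU c (Sum.elim a.S S₁) S₂ (incE a E) (uSet a)) ((EX a.cf S₁ S₂ E).tor κ) where
  fwd x := (⟨(a.ρ x.1.1 fun k => x.1.2.1 (Sum.inl k), (fun p => x.1.2.1 (Sum.inr p)), x.1.2.2),
    ok_of a E x.2.1 fun k => x.2.2 _ (mem_uSet a k)⟩, fun k => (x.2.2 _ (mem_uSet a k)).unit)
  bwd {C} _ y := ⟨(a.π.fn y.1.1.1, Sum.elim (fun k f => ((y.2 k : Cˣ) : C) * a.r y.1.1.1 k f)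
    y.1.1.2.1, y.1.1.2.2), ok_to a E y.2 y.1.2, fun b hb => by
      obtain ⟨k, -, rfl⟩ := Finset.mem_image.1 hb
      change IsUnit (((y.2 k : Cˣ) : C) * a.r y.1.1.1 k (a.u k))
      have h : a.r y.1.1.1 k (a.u k) = 1 := a.one _ k
      rw [h, mul_one]
      exact Units.isUnit _⟩
  left x := by
    have hv := valid_of a E x.2.1 fun k => x.2.2 _ (mem_uSet a k)
    apply Subtype.ext
    apply Prod.ext
    · exact a.proj _ _ hv
    · apply Prod.ext
      · funext p f
        rcases p with p | p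
        · exact (a.eq _ _ hv p f).symm
        · rfl
      · rfl
  right {C} _ y := by
    apply Prod.ext
    · apply Subtype.ext
      apply Prod.ext
      · exact a.sec _ _
      · rfl
    · funext k
      apply Units.ext
      change ((y.2 k : Cˣ) : C) * a.r y.1.1.1 k (a.u k) = _
      have h : a.r y.1.1.1 k (a.u k) = 1 := a.one _ k
      rw [h, mul_one]
  nat {C D} _ _ f x := by
    have hv := valid_of a E x.2.1 fun k => x.2.2 _ (mem_uSet a k)
    have h1 : a.ρ (c.X.map f x.1.1) (fun k g => f (x.1.2.1 (Sum.inl k) g)) =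
        X'.map f (a.ρ x.1.1 fun k => x.1.2.1 (Sum.inl k)) := by
      have h2 := a.sec (X'.map f (a.ρ x.1.1 fun k => x.1.2.1 (Sum.inl k)))
        (fun k => ((x.2.2 _ (mem_uSet a k)).map f).unit)
      rw [← h2]
      congr 1
      · rw [a.π.nat, a.proj _ _ hv]
      · funext k g
        change f (x.1.2.1 (Sum.inl k) g) = f (x.1.2.1 (Sum.inl k) (a.u k)) * a.r _ k g
        rw [a.hr, ← map_mul, ← a.eq _ _ hv k g]
    apply Prod.ext
    · apply Subtype.ext
      apply Prod.ext
      · exact h1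
      · rfl
    · funext k
      exact Units.ext rfl

end

/-- **Adding rows** which are determined up to invertible factors. -/
theorem full_add (hP : Mot sep P) {c : Cf F} (hc : Full P c) {X' : PF} (hX : HasRep R X')
    {κ : Type} [Finite κ] (a : AddData c X' κ) : Full P a.cf := by
  classical
  intro P' K' _ _ S₁ S₂ E
  have := Fintype.ofFinite κ
  have h1 := full_unit hP hc S₂ (incE a E) (uSet a) (Sum.elim a.S S₁)
  exact (h1.congr (addIso a E S₁ S₂)).of_tor hP (hasRep_EX (c := a.cf) hX _ _ _)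

/-- **Adding columns** which are determined up to invertible factors. -/
theorem full_addCol (hP : Mot sep P) {c : Cf F} (hc : Full P c) {X' : PF} (hX : HasRep R X')
    {κ : Type} [Finite κ] (a : AddData c.swap X' κ) : Full P (c.addCol a.π a.r a.hr) :=
  (full_add hP hc.swap hX a).swap

end

end Pool.Agent.Helper3.GU
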