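import Pool.Agent.Helper3.GU.Simple

/-!
# Graphs with vertices of degree at most three are universal

The equivalences for all schemes, for the complements of the graph hypersurfaces of simple graphs with
vertices of degree at most three in the affine space and in the torus, and for the two graph polynomials.
-/

set_option autoImplicit false

open CategoryTheory AlgebraicGeometry Pool.Agent.Y116.UV Pool.Agent.Q282.UK Pool.Agent.Z125.UN
  Pool.Agent.Q193.LT Matrix

universe w w' v u

namespace Pool.Agent.Helper3.GU

section

variable {n : ℕ} (G : SimpleGraph (Fin (n + 1)))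

open Classical in
lemma symanzik_eq {C : Type} [CommRing C] (x : G.edgeSet → C) :
    fromBlocks (diagonal x) (incidence _ G) (-(incidence _ G)ᵀ) 0 = exm (sg G) (tg G) x := by
  have h : incidence C G = icm C (sg G) (tg G) := by
    ext e v
    change (if _ then _ else _) - (if _ then _ else _) = ei C (sg G e) (tg G e) v
    simp only [ei, sg, tg, fse_iff]
  rw [h, exm]

end

variable {R : Type} [CommRing R] {sep : Prop} {P : Sch R → Prop}

section

variable {n : ℕ} (G : SimpleGraph (Fin (n + 1)))

/-- the graph hypersurface in the two descriptions -/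
noncomputable def kfIso [Fintype G.edgeSet] [DecidableEq G.edgeSet] : PIso (KF G) (KS (sg G) (tg G) ∅) where
  fwd x := ⟨x.1.2, fun e he => absurd he (by simp), by
    rw [lapm_sg]
    exact x.2⟩
  bwd y := ⟨((), y.1), by
    have h := y.2.2
    rw [lapm_sg] at h
    exact h⟩
  left _ := rfl
  right _ := rfl
  nat _ _ := rfl

/-- the functor of the complement in the torus -/
noncomputable def tF [Fintype G.edgeSet] : NF (PT.aff G.edgeSet) where
  fn p := (laplacian G p.2).det * ∏ e, p.2 e
  nat f p := by
    change (laplacian G (fun e => f (p.2 e))).det * ∏ e, f (p.2 e) = _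
    rw [laplacian_map, det_map, map_mul, map_prod]

/-- the functor of the complement in the torus -/
noncomputable def tfIso [Fintype G.edgeSet] [DecidableEq G.edgeSet] :
    PIso ((PT.aff G.edgeSet).unit (tF G)) (KS (sg G) (tg G) Finset.univ) where
  fwd x := ⟨x.1.2, fun e _ => by
    have h : IsUnit (∏ e, x.1.2 e) := isUnit_of_mul_isUnit_right x.2
    exact IsUnit.prod_univ_iff.1 h e, by
    rw [lapm_sg]
    exact isUnit_of_mul_isUnit_left x.2⟩
  bwd y := ⟨((), y.1), by
    have h := y.2.2
    rw [lapm_sg] at h
    exact h.mul (IsUnit.prod_univ_iff.2 fun e => y.2.1 e (Finset.mem_univ e))⟩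
  left _ := rfl
  right _ := rfl
  nat _ _ := rfl

/-- the functor of the complement of the hypersurface of the first Symanzik polynomial in the torus -/
noncomputable def yF [Fintype G.edgeSet] [DecidableEq G.edgeSet] : NF (PT.aff G.edgeSet) where
  fn p := (exm (sg G) (tg G) p.2).det * ∏ e, p.2 e
  nat f p := by
    change (exm (sg G) (tg G) (fun e => f (p.2 e))).det * ∏ e, f (p.2 e) = _
    rw [exm_map, det_map, map_mul, map_prod]

/-- the functor of the complement of the hypersurface of the first Symanzik polynomial in the torus -/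
noncomputable def yfIso [Fintype G.edgeSet] [DecidableEq G.edgeSet] :
    PIso ((PT.aff G.edgeSet).unit (yF G)) (SF (sg G) (tg G) Finset.univ) where
  fwd x := ⟨x.1.2, fun e _ => by
    have h : IsUnit (∏ e, x.1.2 e) := isUnit_of_mul_isUnit_right x.2
    exact IsUnit.prod_univ_iff.1 h e, isUnit_of_mul_isUnit_left x.2⟩
  bwd y := ⟨((), y.1), y.2.2.mul (IsUnit.prod_univ_iff.2 fun e => y.2.1 e (Finset.mem_univ e))⟩
  left _ := rfl
  right _ := rfl
  nat _ _ := rfl

open Classical in
lemma holds_graphT (h : P (graphT R G)) : Holds P (KS (sg G) (tg G) Finset.univ) := by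
  have h1 := (rep_PT (R := R)).aff G.edgeSet
  have := ft_edge (R := R) G
  have h2 : Holds P ((PT.aff G.edgeSet).unit (tF G)) :=
    ⟨_, inferInstance, inferInstance, ft_loc _ _, _, h1.unit (tF G) rfl, h⟩
  exact h2.congr (tfIso G)

open Classical in
lemma holds_feynmanT (h : P (feynmanT R G)) : Holds P (KS (sg G) (tg G) Finset.univ) := by
  have h1 := (rep_PT (R := R)).aff G.edgeSet
  have := ft_edge (R := R) G
  have h3 : (exm (sg G) (tg G) (MvPolynomial.X : G.edgeSet → MvPolynomial G.edgeSet R)).det *
      ∏ e, MvPolynomial.X e = symanzik R G * ∏ e, MvPolynomial.X e := by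
    rw [symanzik, symanzik_eq]
  have h2 : Holds P ((PT.aff G.edgeSet).unit (yF G)) :=
    ⟨_, inferInstance, inferInstance, ft_loc _ _, _, h1.unit (yF G) h3, h⟩
  exact (h2.congr (yfIso G)).congr (crem _ _)

end

/-! ### Restricted classes of multigraphs -/

section

variable {E V : Type} [DecidableEq V] [Fintype E] [DecidableEq E]

omit [DecidableEq V] [Fintype E] [DecidableEq E] in
lemma simple_del {s t : E → Option V} (h : IsSimple s t) (e : E) :
    IsSimple (fun f : {f // f ≠ e} => s f.1) (fun f => t f.1) :=
  ⟨fun f => h.loop f.1, fun f g hfg => h.par f.1 g.1 fun h1 => hfg (Subtype.ext h1),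
    fun f g hfg => h.anti f.1 g.1 fun h1 => hfg (Subtype.ext h1)⟩

lemma dgr_del (s t : E → Option V) (e : E) (q : Option V) :
    dgr (fun f : {f // f ≠ e} => s f.1) (fun f => t f.1) q ≤ dgr s t q := by
  rw [dgr, dgr, Fintype.sum_eq_add_sum_subtype_ne _ e]
  omega

end

/-- From the torus to the affine space for simple graphs with vertices of degree at most three. -/
theorem holds_KS3 (hP : Mot sep P)
    (h : ∀ (E V : Type) [Fintype E] [DecidableEq E] [Fintype V] [DecidableEq V]
      (s t : E → Option V), IsSimple s t → (∀ q, dgr s t q ≤ 3) →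
        Holds P (KS s t Finset.univ)) (n : ℕ) :
    ∀ (E V : Type) [Fintype E] [DecidableEq E] [Fintype V] [DecidableEq V]
      (s t : E → Option V) (U : Finset E), IsSimple s t → (∀ q, dgr s t q ≤ 3) → Uᶜ.card = n →
        Holds P (KS s t U) := by
  induction n with
  | zero =>
    intro E V _ _ _ _ s t U hs hd hU
    rw [Finset.card_eq_zero, Finset.compl_eq_empty_iff] at hU
    subst hU
    exact h E V s t hs hd
  | succ n ih =>
    intro E V _ _ _ _ s t U hs hd hU
    obtain ⟨e, U', he, hU', hn⟩ := Finset.card_eq_succ.1 hU
    have heU : e ∉ U := by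
      have h1 : e ∈ Uᶜ := hU' ▸ Finset.mem_insert_self e U'
      exact Finset.mem_compl.1 h1
    have h2 : (insert e U)ᶜ = U' := by
      rw [Finset.compl_insert, ← hU', Finset.erase_insert he]
    refine Holds.total hP (hasRep_KS' s t U) (xK s t U e) ?_ ?_
    · refine (ih _ _ (fun f : {f // f ≠ e} => s f.1) (fun f => t f.1)
        (U.subtype fun f => f ≠ e) (simple_del hs e) (fun q => (dgr_del s t e q).trans (hd q))
          ?_).congr (deleteIso s t U e heU).symm
      have h3 := Fintype.card_congr (Equiv.optionSubtypeNe e)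
      rw [Fintype.card_option] at h3
      have h4 : (U.subtype fun f => f ≠ e).card = U.card := by
        rw [Finset.card_subtype, Finset.filter_true_of_mem]
        intro f hf h3
        exact heU (h3 ▸ hf)
      rw [Finset.card_compl] at hU ⊢
      rw [h4]
      omega
    · refine (ih E V s t (insert e U) hs hd (by rw [h2, hn])).congr (PIso.symm
        ⟨fun x => ⟨x.1.1, fun f hf => ?_, x.1.2.2⟩,
        fun y => ⟨⟨y.1, fun f hf => y.2.1 f (Finset.mem_insert_of_mem hf), y.2.2⟩,
          y.2.1 e (Finset.mem_insert_self e U)⟩, fun _ => rfl, fun _ => rfl, fun _ _ => rfl⟩)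
      rcases Finset.mem_insert.1 hf with rfl | hf
      · exact x.2
      · exact x.1.2.1 f hf

lemma simple_E {V : Type} [Fintype V] [DecidableEq V] {n : ℕ} (q : Pat V PEmpty) (e : V ≃ Fin n) :
    IsSimple (sE q e) (tE q e) := by
  refine ⟨?_, ?_, ?_⟩
  · rintro (p | a) h
    · have h1 : p.1.1 = p.1.2 := Option.some_injective _ h
      have h2 := p.2.1
      rw [h1] at h2
      exact lt_irrefl _ h2
    · simp [sE, tE] at h
  · rintro (p | a) (p' | a') hne ⟨h1, h2⟩
    · have h3 : p.1.1 = p'.1.1 := Option.some_injective _ h1
      have h4 : p.1.2 = p'.1.2 := Option.some_injective _ h2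
      exact hne (congrArg Sum.inl (Subtype.ext (Prod.ext h3 h4)))
    · simp [tE] at h2
    · simp [tE] at h2
    · have h3 : a = a' := Option.some_injective _ h1
      exact hne (congrArg Sum.inr h3)
  · rintro (p | a) (p' | a') hne ⟨h1, h2⟩
    · have h3 : p.1.1 = p'.1.2 := Option.some_injective _ h1
      have h4 : p.1.2 = p'.1.1 := Option.some_injective _ h2
      have h5 := p.2.1
      rw [h3, h4] at h5
      exact lt_asymm h5 p'.2.1
    · simp [sE, tE] at h1
    · simp [sE, tE] at h2
    · simp [sE, tE] at h1

/-- The universality from simple multigraphs with vertices of degree at most three. -/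
theorem base_of_KS3 (hP : Mot sep P)
    (h : ∀ (E V : Type) [Fintype E] [DecidableEq E] [Fintype V] [DecidableEq V]
      (s t : E → Option V), IsSimple s t → (∀ q, dgr s t q ≤ 3) → Holds P (KS s t ∅)) : Base P := by
  classical
  intro V _ _ q
  exact (holds_deg hP h _ _ _ _ _ (simple_E q (Fintype.equivFin V)) rfl).congr
    (lapIso q (Fintype.equivFin V))

/-- The sparse symmetric matrices determine everything. -/
theorem universal_of_base (hP : Mot sep P) (hR : Presents ({0, 1} : Set R)) (h : Base P) (X : Sch R)
    (hX : FT sep X) : P X := by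
  classical
  have hC : Clo sep P := ⟨hP.iso, hP.total, hP.opened, hP.torus⟩
  refine clo_universal hC (S := {0, 1}) (by simp) (by simp) ?_ hR X hX
  intro a b c T hT
  exact bil_of_holds hP T hT (holds_BF _ hP h)

lemma subcubic_grf {E V : Type} [DecidableEq V] [Fintype E] [DecidableEq E] [Fintype V] {n : ℕ}
    (eV : V ≃ Fin n) {s t : E → Option V} (h : IsSimple s t) (hd : ∀ q, dgr s t q ≤ 3) :
    Subcubic (grf (vE eV) s t) := by
  classical
  intro v
  obtain ⟨q, rfl⟩ := (vE eV).surjective v
  have h1 := (degree_grf eV h q).trans (hd q)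
  rw [Set.ncard_eq_toFinset_card']
  exact h1

/-- **Affine space.** -/
theorem universal_S (hP : Mot sep P) (hR : Presents ({0, 1} : Set R))
    (h : ∀ (n : ℕ) (G : SimpleGraph (Fin (n + 1))), Subcubic G → P (graphS R G)) (X : Sch R)
    (hX : FT sep X) : P X := by
  classical
  refine universal_of_base hP hR (base_of_KS3 hP ?_) X hX
  intro E V _ _ _ _ s t hs hd
  let eV := Fintype.equivFin V
  have h1 := holds_KF _ (h _ _ (subcubic_grf eV hs hd))
  exact (h1.congr (kfIso _)).congr (grfIso eV hs ∅ ∅ (by simp))

/-- **Torus.** -/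
theorem universal_K (hP : Mot sep P) (hR : Presents ({0, 1} : Set R))
    (h : ∀ (n : ℕ) (G : SimpleGraph (Fin (n + 1))), Subcubic G → ∀ [Fintype G.edgeSet]
      [DecidableEq G.edgeSet], Holds P (KS (sg G) (tg G) Finset.univ)) (X : Sch R)
    (hX : FT sep X) : P X := by
  classical
  refine universal_of_base hP hR (base_of_KS3 hP ?_) X hX
  intro E V _ _ _ _ s t hs hd
  refine holds_KS3 hP ?_ _ E V s t ∅ hs hd rfl
  intro E V _ _ _ _ s t hs hd
  let eV := Fintype.equivFin V
  exact (h _ _ (subcubic_grf eV hs hd)).congr (grfIso eV hs Finset.univ Finset.univ (by simp))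

lemma ft_graphH {n : ℕ} (G : SimpleGraph (Fin (n + 1))) : FT sep (graphH R G) := by
  have := ft_edge (R := R) G
  exact ft_aff sep

open Classical in
lemma ft_graphT {n : ℕ} (G : SimpleGraph (Fin (n + 1))) : FT sep (graphT R G) := by
  have := ft_edge (R := R) G
  have := ft_loc (R := R) (MvPolynomial G.edgeSet R) (kirchhoff R G * ∏ e, MvPolynomial.X e)
  exact ft_aff sep

open Classical in
lemma ft_feynmanT {n : ℕ} (G : SimpleGraph (Fin (n + 1))) : FT sep (feynmanT R G) := by
  have := ft_edge (R := R) G
  have := ft_loc (R := R) (MvPolynomial G.edgeSet R) (symanzik R G * ∏ e, MvPolynomial.X e)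
  exact ft_aff sep

lemma inst_irrel {E : Type} (f : Fintype E → DecidableEq E → Prop) (i1 i1' : Fintype E)
    (i2 i2' : DecidableEq E) (h : f i1 i2) : f i1' i2' := by
  rw [Subsingleton.elim i1' i1, Subsingleton.elim i2' i2]
  exact h

lemma universal_T (hP : Mot sep P) (hR : Presents ({0, 1} : Set R))
    (h : ∀ (n : ℕ) (G : SimpleGraph (Fin (n + 1))), Subcubic G → P (graphT R G)) (X : Sch R)
    (hX : FT sep X) : P X := by
  refine universal_K hP hR ?_ X hX
  intro n G hG i1 i2
  exact inst_irrel (fun (_ : Fintype G.edgeSet) (_ : DecidableEq G.edgeSet) =>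
    Holds P (KS (sg G) (tg G) Finset.univ)) _ _ _ _ (holds_graphT G (h n G hG))

lemma universal_Y (hP : Mot sep P) (hR : Presents ({0, 1} : Set R))
    (h : ∀ (n : ℕ) (G : SimpleGraph (Fin (n + 1))), Subcubic G → P (feynmanT R G)) (X : Sch R)
    (hX : FT sep X) : P X := by
  refine universal_K hP hR ?_ X hX
  intro n G hG i1 i2
  exact inst_irrel (fun (_ : Fintype G.edgeSet) (_ : DecidableEq G.edgeSet) =>
    Holds P (KS (sg G) (tg G) Finset.univ)) _ _ _ _ (holds_feynmanT G (h n G hG))

/-- The statements: all schemes of finite type (separated if `sep` is true); the complements in the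
affine space of the hypersurfaces of the Kirchhoff polynomials of the graphs with at most three edges at
each vertex; these hypersurfaces; the complements in the torus of these hypersurfaces; the complements
in the torus of the hypersurfaces of the first Symanzik polynomials of these graphs. -/
def Statements (sep : Prop) (P : Sch R → Prop) : List Prop :=
  [∀ X : Sch R, FT sep X → P X,
    ∀ (n : ℕ) (G : SimpleGraph (Fin (n + 1))), Subcubic G → P (graphS R G),
    ∀ (n : ℕ) (G : SimpleGraph (Fin (n + 1))), Subcubic G → P (graphH R G),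
    ∀ (n : ℕ) (G : SimpleGraph (Fin (n + 1))), Subcubic G → P (graphT R G),
    ∀ (n : ℕ) (G : SimpleGraph (Fin (n + 1))), Subcubic G → P (feynmanT R G)]

/-- **Graphs with at most three edges at each vertex are universal.** Let `R` be a ring such that all
algebras of finite type have presentations with coefficients `0` and `1` (for example `ℤ`, `ℚ`, `𝔽_p`),
and let `P` be a property of the schemes of finite type over `R` with the closure properties `Mot`. -/
theorem cubic_tfae (hP : Mot sep P) (hR : Presents ({0, 1} : Set R)) :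
    (Statements sep P).TFAE := by
  rw [Statements]
  tfae_have 1 → 2 := fun h n G _ => h _ (ft_graphS G)
  tfae_have 1 → 4 := fun h n G _ => h _ (ft_graphT G)
  tfae_have 1 → 5 := fun h n G _ => h _ (ft_feynmanT G)
  tfae_have 2 ↔ 3 := by
    constructor
    · intro h n G hG
      exact (graphH_iff hP G).2 (h n G hG)
    · intro h n G hG
      exact (graphH_iff hP G).1 (h n G hG)
  tfae_have 2 → 1 := fun h X hX => universal_S hP hR h X hX
  tfae_have 4 → 1 := fun h X hX => universal_T hP hR h X hX
  tfae_have 5 → 1 := fun h X hX => universal_Y hP hR h X hX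
  tfae_finish

/-! ### Smooth projective schemes over the prime fields -/

section

variable {k : Type} [Field k] {P : Sch k → Prop}

/-- The statements for smooth projective schemes, all separated schemes of finite type, and graphs. -/
def Statements' (P : Sch k → Prop) : List Prop :=
  (∀ Y : Sch k, SmoothProj Y → P Y) :: Statements True P

/-- If smooth projective schemes generate then the six statements are equivalent. -/
theorem cubic_cons (hP : Mot True P) (hF : Frac k)
    (hg : (∀ Y : Sch k, SmoothProj Y → P Y) → ∀ X : Sch k, FT True X → P X) :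
    (Statements' P).TFAE := by
  have h := cubic_tfae hP (presents_frac hF)
  rw [Statements', Statements, List.tfae_cons_cons]
  exact ⟨⟨hg, fun h Y hY => h Y hY.ft⟩, h⟩

/-- With resolution of singularities. -/
theorem cubic_hironaka [PerfectField k] (hk : Hironaka k) (hP : Bnd True P) (hF : Frac k) :
    (Statements' P).TFAE :=
  cubic_cons (mot_of_bnd hP) hF fun h => (all_iff hP).mpr ((sp_all_iff hk hP).mp h)

end

section

variable {k : Type} [Field k] [PerfectField k] {ι : Type} {E : Type w'} [CommRing E]
  {C : PairData.{w} k ι E} {δ τ σ : ι ≃ ι}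

/-- Comparison maps of two theories with weight complexes. -/
theorem cubic_pair (hg : WeightGen C) (hC : IsPair C δ τ σ) (h1 : BijAll C (aff k k)) (hF : Frac k) :
    (Statements' (BijAll C)).TFAE :=
  cubic_cons (mot_of_bnd (bnd_pair hC h1)) hF fun h =>
    (all_iff (bnd_pair hC h1)).mpr ((wg_all hg hC h1).mp h)

end

section

variable {k : Type} [Field k] [PerfectField k] {A : Type u} [Category.{v} A] [Abelian A]
  {D : CompactData k A} {S : A → Prop}

/-- Serre classes of the cohomology with compact supports. -/
theorem cubic_serre (hD : IsCompact D) (hg : Generated D) (hS : IsTateSerre D S)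
    (h1 : ∀ i, S (D.H i (aff k k))) (hF : Frac k) :
    (Statements' fun X => ∀ i, S (D.H i X)).TFAE :=
  cubic_cons (mot_of_bnd (bnd_compact hD hS h1)) hF fun h =>
    (all_iff (bnd_compact hD hS h1)).mpr ((proj_all_iff hD hg hS h1).mp h)

end

end Pool.Agent.Helper3.GU
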