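import Pool.Agent.Helper3.GU.Gam

/-!
# Removing the condition on the determinant
-/

set_option autoImplicit false

open CategoryTheory AlgebraicGeometry Pool.Agent.Y116.UV Pool.Agent.Q282.UK Matrix

namespace Pool.Agent.Helper3.GU

section

variable {V C : Type} [Fintype V] [DecidableEq V] [CommRing C]

/-- The matrix with the rows and columns in `D` replaced by those of the identity matrix; its
determinant is the principal minor of the complement of `D`. -/
def cut (D : Finset V) (M : Matrix V V C) : Matrix V V C :=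
  of fun a b => if a ∈ D ∨ b ∈ D then (if a = b then 1 else 0) else M a b

/-- Adding `t` to a diagonal entry. -/
def dg (M : Matrix V V C) (j : V) (t : C) : Matrix V V C :=
  of fun a b => M a b + if a = j ∧ b = j then t else 0

omit [Fintype V] in
lemma cut_map {D : Type} [CommRing D] (f : C →+* D) (S : Finset V) (M : Matrix V V C) :
    cut S (M.map f) = (cut S M).map f := by
  ext a b
  change (if a ∈ S ∨ b ∈ S then (if a = b then 1 else 0) else f (M a b)) =
    f (if a ∈ S ∨ b ∈ S then (if a = b then 1 else 0) else M a b)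
  split_ifs
  · rw [map_one]
  · rw [map_zero]
  · rfl

omit [Fintype V] in
lemma cut_empty (M : Matrix V V C) : cut ∅ M = M := by
  ext a b
  simp [cut]

omit [Fintype V] in
lemma cut_univ [Fintype V] (M : Matrix V V C) : cut Finset.univ M = 1 := by
  ext a b
  simp [cut, one_apply]

omit [Fintype V] in
lemma cut_cut (D : Finset V) (j : V) (M : Matrix V V C) :
    cut {j} (cut D M) = cut (insert j D) M := by
  ext a b
  simp only [cut, of_apply, Finset.mem_singleton, Finset.mem_insert]
  by_cases h1 : a = j ∨ b = j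
  · have h2 : (a = j ∨ a ∈ D) ∨ b = j ∨ b ∈ D := by tauto
    rw [if_pos h1, if_pos h2]
  · rw [if_neg h1]
    push Not at h1
    by_cases h3 : a ∈ D ∨ b ∈ D
    · have h2 : (a = j ∨ a ∈ D) ∨ b = j ∨ b ∈ D := by tauto
      rw [if_pos h3, if_pos h2]
    · have h2 : ¬ ((a = j ∨ a ∈ D) ∨ b = j ∨ b ∈ D) := by tauto
      rw [if_neg h3, if_neg h2]

/-- a principal minor -/
lemma adj_cut (A : Matrix V V C) (j : V) : A.adjugate j j = (cut {j} A).det := by
  have h1 : A.adjugate j j = (updateRow A j (Pi.single j 1)).det := adjugate_apply A j j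
  set N := updateRow A j (Pi.single j 1) with hN
  have h2 : N.adjugate j j = N.det := by
    rw [adjugate_apply]
    congr 1
    ext a b
    by_cases ha : a = j
    · subst ha
      rw [updateRow_self, hN, updateRow_self]
    · rw [updateRow_ne ha]
  have h3 : N.adjugate j j = (updateCol N j (Pi.single j 1)).det := by
    have h := congrFun (congrFun (adjugate_transpose N) j) j
    rw [transpose_apply] at h
    rw [h, adjugate_apply, updateRow_transpose, det_transpose]
  have h4 : updateCol N j (Pi.single j 1) = cut {j} A := by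
    ext a b
    simp only [cut, of_apply, Finset.mem_singleton]
    by_cases hb : b = j
    · subst hb
      rw [updateCol_self]
      by_cases ha : a = b
      · subst ha
        simp
      · simp [ha]
    · rw [updateCol_ne hb, hN]
      by_cases ha : a = j
      · subst ha
        rw [updateRow_self]
        have h5 : a ≠ b := fun h => hb h.symm
        simp [hb, h5]
      · rw [updateRow_ne ha]
        simp [ha, hb]
  rw [h1, ← h2, h3, h4]

lemma single_qf (A : Matrix V V C) (j : V) (x : C) :
    (Pi.single j x : V → C) ⬝ᵥ (A.adjugate *ᵥ Pi.single j x) = x * x * A.adjugate j j := by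
  rw [single_dotProduct, mulVec_single]
  simp
  ring

/-- the determinant with one more vertex that is adjacent only to `j` -/
lemma det_cut_bd (D : Finset V) (j : V) (hj : j ∉ D) (M : Matrix V V C) (x c : C) :
    (cut (D.map ⟨Sum.inl, Sum.inl_injective⟩) (bd M (Pi.single j x) (Pi.single j x) c)).det =
      c * (cut D M).det - x * x * (cut (insert j D) M).det := by
  have h1 : cut (D.map ⟨Sum.inl, Sum.inl_injective⟩) (bd M (Pi.single j x) (Pi.single j x) c) =
      bd (cut D M) (Pi.single j x) (Pi.single j x) c := by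
    ext a b
    rcases a with a | a <;> rcases b with b | b
    · simp [cut, bd]
    · by_cases ha : a ∈ D
      · have h2 : a ≠ j := fun h => hj (h ▸ ha)
        simp [cut, bd, ha, h2]
      · simp [cut, bd, ha]
    · by_cases hb : b ∈ D
      · have h2 : b ≠ j := fun h => hj (h ▸ hb)
        simp [cut, bd, hb, h2]
      · simp [cut, bd, hb]
    · simp [cut, bd]
  rw [h1, det_bd, single_qf, adj_cut, cut_cut]

/-- the determinant after a change of a diagonal entry -/
lemma det_cut_dg (D : Finset V) (j : V) (hj : j ∉ D) (M : Matrix V V C) (t : C) :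
    (cut D (dg M j t)).det = (cut D M).det + t * (cut (insert j D) M).det := by
  have h1 : cut D (dg M j t) = cut D M + vecMulVec (t • Pi.single j 1) (Pi.single j 1) := by
    ext a b
    rw [Matrix.add_apply, vecMulVec_apply]
    simp only [cut, dg, of_apply, Pi.smul_apply, smul_eq_mul]
    by_cases h2 : a ∈ D ∨ b ∈ D
    · rw [if_pos h2, if_pos h2]
      rcases h2 with h2 | h2
      · have h3 : a ≠ j := fun h => hj (h ▸ h2)
        rw [Pi.single_eq_of_ne h3]
        ring
      · have h3 : b ≠ j := fun h => hj (h ▸ h2)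
        rw [Pi.single_eq_of_ne h3]
        ring
    · rw [if_neg h2, if_neg h2]
      congr 1
      by_cases ha : a = j
      · by_cases hb : b = j
        · rw [if_pos ⟨ha, hb⟩, ha, hb, Pi.single_eq_same]
          ring
        · rw [if_neg fun h => hb h.2, Pi.single_eq_of_ne hb, mul_zero]
      · rw [if_neg fun h => ha h.1, Pi.single_eq_of_ne ha]
        ring
  rw [h1, det_add_vec, mulVec_smul, dotProduct_smul, smul_eq_mul]
  congr 2
  have h2 := single_qf (cut D M) j 1
  rw [one_mul, one_mul] at h2
  rw [h2, adj_cut, cut_cut]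

omit [Fintype V] in
lemma dg_map {D : Type} [CommRing D] (f : C →+* D) (M : Matrix V V C) (j : V) (t : C) :
    dg (M.map f) j (f t) = (dg M j t).map f := by
  ext a b
  simp only [dg, of_apply, map_apply, map_add]
  congr 1
  split_ifs
  · rfl
  · rw [map_zero]

omit [Fintype V] in
lemma dg_dg (M : Matrix V V C) (j : V) (t : C) : dg (dg M j t) j (-t) = M := by
  ext a b
  simp only [dg, of_apply]
  split_ifs <;> ring

end

/-- The condition that no row is in the support of a vector that is incident with it. -/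
def Pat.Nice {V K : Type} (q : Pat V K) : Prop := ∀ k v, q.E k v → ¬ q.S k v

variable {V K : Type} [Fintype V] [DecidableEq V]

lemma ok_dg {q : Pat V K} (hq : q.Nice) {C : Type} [CommRing C] {M : Matrix V V C} {g : K → V → C}
    (h : q.Ok M g) (j : V) (t : C) : q.Ok (dg M j t) g := by
  refine ⟨fun a b => ?_, fun a b h1 h2 => ?_, h.supp, fun k v hv => ?_⟩
  · simp only [dg, of_apply]
    rw [h.symm a b]
    congr 1
    by_cases h1 : a = j ∧ b = j
    · rw [if_pos h1, if_pos ⟨h1.2, h1.1⟩]
    · rw [if_neg h1, if_neg fun h2 => h1 ⟨h2.2, h2.1⟩]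
  · simp only [dg, of_apply]
    rw [h.zero a b h1 h2, zero_add, if_neg]
    rintro ⟨rfl, rfl⟩
    exact h1 rfl
  · have h1 : (dg M j t *ᵥ g k) v = (M *ᵥ g k) v + if v = j then t * g k j else 0 := by
      rw [mulVec, dotProduct, mulVec, dotProduct]
      have h2 : ∀ b, dg M j t v b * g k b = M v b * g k b +
          (if b = j then (if v = j then t * g k j else 0) else 0) := by
        intro b
        simp only [dg, of_apply]
        by_cases hb : b = j
        · subst hb
          by_cases hv' : v = b
          · rw [if_pos ⟨hv', rfl⟩, if_pos rfl, if_pos hv']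
            ring
          · rw [if_neg fun h => hv' h.1, if_pos rfl, if_neg hv']
            ring
        · rw [if_neg fun h => hb h.2, if_neg hb]
          ring
      simp only [h2]
      rw [Finset.sum_add_distrib, Finset.sum_ite_eq' Finset.univ j, if_pos (Finset.mem_univ _)]
    rw [h1, h.inc k v hv, zero_add]
    split_ifs with h2
    · subst h2
      rw [h.supp k v (hq k v hv), mul_zero]
    · rfl

/-- the principal minor -/
def cutF (q : Pat V K) (D : Finset V) : NF (TT q) where
  fn x := (cut D x.1.1).det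
  nat f x := by
    change (cut D (x.1.1.map f)).det = _
    rw [cut_map, det_map]

/-- the points `(M, g)`, `x`, `c` with `c m_D - x² m_{D + j}` invertible, `m_D` the principal minor -/
def YY (q : Pat V K) (D : Finset V) (j : V) : PF where
  pts C _ := {x : (TT q).pts C × C × C //
    IsUnit (x.2.2 * (cut D x.1.1.1).det - x.2.1 * x.2.1 * (cut (insert j D) x.1.1.1).det)}
  map f x := ⟨((TT q).map f x.1.1, f x.1.2.1, f x.1.2.2), by
    have h := x.2.map f
    rw [map_sub, map_mul, map_mul, map_mul, ← det_map, ← det_map, ← cut_map, ← cut_map] at h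
    exact h⟩
  map_id _ := rfl
  map_comp _ _ _ := rfl

/-- the coordinate `x` -/
def xY (q : Pat V K) (D : Finset V) (j : V) : NF (YY q D j) := ⟨fun x => x.1.2.1, fun _ _ => rfl⟩

/-- the coordinate `c` -/
def cY (q : Pat V K) (D : Finset V) (j : V) : NF ((YY q D j).unit (xY q D j)) :=
  ⟨fun x => x.1.1.2.2, fun _ _ => rfl⟩

lemma bd_of_single {C : Type} [CommRing C] (q : Pat V K) (j : V) (J : V → Prop)
    (hJ : ∀ a, J a → a = j) (x : (TT (q.extend J)).pts C) :
    bd (x.1.1.submatrix Sum.inl Sum.inl) (Pi.single j (x.1.1 (Sum.inl j) (Sum.inr ())))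
      (Pi.single j (x.1.1 (Sum.inl j) (Sum.inr ()))) (x.1.1 (Sum.inr ()) (Sum.inr ())) = x.1.1 := by
  have h : (Pi.single j (x.1.1 (Sum.inl j) (Sum.inr ())) : V → C) =
      fun a => x.1.1 (Sum.inl a) (Sum.inr ()) := by
    funext a
    by_cases ha : a = j
    · subst ha
      rw [Pi.single_eq_same]
    · rw [Pi.single_eq_of_ne ha]
      exact (x.2.zero (Sum.inl a) (Sum.inr ()) (by simp) fun h => ha (hJ a h)).symm
  rw [h]
  exact (bd_eq x.1.1 x.2.symm).symm

/-- one more vertex that is adjacent to `j` -/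
def oneIso (q : Pat V K) (D : Finset V) (j : V) (hj : j ∉ D) :
    PIso ((TT (q.extend fun a => a = j)).unit (cutF _ (D.map ⟨Sum.inl, Sum.inl_injective⟩)))
      (YY q D j) where
  fwd x := ⟨(((extIso q _).fwd x.1).1.1, x.1.1.1 (Sum.inl j) (Sum.inr ()),
    x.1.1.1 (Sum.inr ()) (Sum.inr ())), by
      have h := x.2
      change IsUnit (cut _ x.1.1.1).det at h
      rw [← bd_of_single q j _ (fun a h => h) x.1, det_cut_bd D j hj] at h
      exact h⟩
  bwd {C} _ y := ⟨⟨(bd y.1.1.1.1 (Pi.single j y.1.2.1) (Pi.single j y.1.2.1) y.1.2.2,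
    fun k => Sum.elim (y.1.1.1.2 k) fun _ => 0), (ok_bd q _ _ _ _ _).2 ⟨y.1.1.2, fun v hv =>
      Pi.single_eq_of_ne hv _⟩⟩, by
      change IsUnit (cut _ (bd _ _ _ _)).det
      rw [det_cut_bd D j hj]
      exact y.2⟩
  left x := by
    apply Subtype.ext
    apply Subtype.ext
    apply Prod.ext
    · exact bd_of_single q j _ (fun a h => h) x.1
    · funext k v
      rcases v with v | v
      · rfl
      · exact (x.1.2.supp k (Sum.inr v) (fun h => h)).symm
  right {C} _ y := by
    apply Subtype.ext
    apply Prod.ext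
    · rfl
    · apply Prod.ext
      · exact Pi.single_eq_same (M := fun _ : V => C) j y.1.2.1
      · rfl
  nat _ _ := rfl

/-- one more vertex that is isolated -/
def zeroIso (q : Pat V K) (D : Finset V) (j : V) (hj : j ∉ D) :
    PIso ((TT (q.extend fun _ => False)).unit (cutF _ (D.map ⟨Sum.inl, Sum.inl_injective⟩)))
      ((YY q D j).zero (xY q D j)) where
  fwd x := ⟨⟨(((extIso q _).fwd x.1).1.1, x.1.1.1 (Sum.inl j) (Sum.inr ()),
    x.1.1.1 (Sum.inr ()) (Sum.inr ())), by
      have h := x.2
      change IsUnit (cut _ x.1.1.1).det at h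
      rw [← bd_of_single q j _ (fun a h => h.elim) x.1, det_cut_bd D j hj] at h
      exact h⟩, x.1.2.zero (Sum.inl j) (Sum.inr ()) (by simp) fun h => h⟩
  bwd {C} _ y := ⟨⟨(bd y.1.1.1.1.1 (Pi.single j y.1.1.2.1) (Pi.single j y.1.1.2.1) y.1.1.2.2,
    fun k => Sum.elim (y.1.1.1.1.2 k) fun _ => 0), (ok_bd q _ _ _ _ _).2 ⟨y.1.1.1.2, fun v _ => by
      have h : y.1.1.2.1 = 0 := y.2
      rw [h, Pi.single_zero]
      rfl⟩⟩, by
      change IsUnit (cut _ (bd _ _ _ _)).det
      rw [det_cut_bd D j hj]
      exact y.1.2⟩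
  left x := by
    apply Subtype.ext
    apply Subtype.ext
    apply Prod.ext
    · exact bd_of_single q j _ (fun a h => h.elim) x.1
    · funext k v
      rcases v with v | v
      · rfl
      · exact (x.1.2.supp k (Sum.inr v) (fun h => h)).symm
  right {C} _ y := by
    apply Subtype.ext
    apply Subtype.ext
    apply Prod.ext
    · rfl
    · apply Prod.ext
      · exact Pi.single_eq_same (M := fun _ : V => C) j y.1.1.2.1
      · rfl
  nat _ _ := rfl

/-- the part with `x` invertible and `c = 0` -/
noncomputable def cZero (q : Pat V K) (D : Finset V) (j : V) :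
    PIso (((YY q D j).unit (xY q D j)).zero (cY q D j))
      (((TT q).unit (cutF q (insert j D))).tor PUnit) where
  fwd x := (⟨x.1.1.1.1, by
    have h := x.1.1.2
    have hc : x.1.1.1.2.2 = 0 := x.2
    have h2 : x.1.1.1.2.2 * (cut D x.1.1.1.1.1.1).det - x.1.1.1.2.1 * x.1.1.1.2.1 *
        (cut (insert j D) x.1.1.1.1.1.1).det = -(x.1.1.1.2.1 * x.1.1.1.2.1) *
          (cut (insert j D) x.1.1.1.1.1.1).det := by
      rw [hc]
      ring
    rw [h2] at h
    exact isUnit_of_mul_isUnit_right h⟩, fun _ => x.1.2.unit)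
  bwd {C} _ y := ⟨⟨⟨(y.1.1, ((y.2 ⟨⟩ : Cˣ) : C), 0), by
    have h2 : (0 : C) * (cut D y.1.1.1.1).det - ((y.2 ⟨⟩ : Cˣ) : C) * ((y.2 ⟨⟩ : Cˣ) : C) *
        (cut (insert j D) y.1.1.1.1).det = -(((y.2 ⟨⟩ : Cˣ) : C) * ((y.2 ⟨⟩ : Cˣ) : C) *
          (cut (insert j D) y.1.1.1.1).det) := by ring
    change IsUnit ((0 : C) * _ - _)
    rw [h2]
    exact (((Units.isUnit _).mul (Units.isUnit _)).mul y.1.2).neg⟩, Units.isUnit _⟩, rfl⟩
  left x := by
    apply Subtype.ext
    apply Subtype.ext
    apply Subtype.ext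
    apply Prod.ext
    · rfl
    · apply Prod.ext
      · rfl
      · exact (x.2 : x.1.1.1.2.2 = 0).symm
  right y := by
    apply Prod.ext
    · rfl
    · funext _
      exact Units.ext rfl
  nat _ _ := by
    apply Prod.ext
    · rfl
    · funext _
      exact Units.ext rfl

lemma unit_calc {C : Type} [CommRing C] (x c a b : C) (hc : IsUnit c) :
    c * a - x * x * b = c * (a + -(Ring.inverse c * (x * x)) * b) := by
  have h : c * Ring.inverse c = 1 := Ring.mul_inverse_cancel _ hc
  linear_combination (x * x * b) * h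

/-- the part with `x` and `c` invertible -/
noncomputable def cUnit (q : Pat V K) (hq : q.Nice) (D : Finset V) (j : V) (hj : j ∉ D) :
    PIso (((YY q D j).unit (xY q D j)).unit (cY q D j))
      ((((TT q).unit (cutF q D)).tor PUnit).tor PUnit) where
  fwd x := ((⟨⟨(dg x.1.1.1.1.1.1 j (-(Ring.inverse x.1.1.1.2.2 * (x.1.1.1.2.1 * x.1.1.1.2.1))),
    x.1.1.1.1.1.2), ok_dg hq x.1.1.1.1.2 j _⟩, by
    have h := x.1.1.2
    have hu : IsUnit x.1.1.1.2.2 := x.2
    rw [unit_calc _ _ _ _ hu] at h
    change IsUnit (cut D (dg _ _ _)).det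
    rw [det_cut_dg D j hj]
    exact isUnit_of_mul_isUnit_right h⟩, fun _ => x.1.2.unit), fun _ => x.2.unit)
  bwd {C} _ y := ⟨⟨⟨(⟨(dg y.1.1.1.1.1 j (Ring.inverse ((y.2 ⟨⟩ : Cˣ) : C) *
      (((y.1.2 ⟨⟩ : Cˣ) : C) * ((y.1.2 ⟨⟩ : Cˣ) : C))), y.1.1.1.1.2), ok_dg hq y.1.1.1.2 j _⟩,
      ((y.1.2 ⟨⟩ : Cˣ) : C), ((y.2 ⟨⟩ : Cˣ) : C)), by
    change IsUnit (((y.2 ⟨⟩ : Cˣ) : C) * (cut D (dg y.1.1.1.1.1 j (Ring.inverse ((y.2 ⟨⟩ : Cˣ) : C) *
      (((y.1.2 ⟨⟩ : Cˣ) : C) * ((y.1.2 ⟨⟩ : Cˣ) : C))))).det - _ * _ *
        (cut (insert j D) (dg y.1.1.1.1.1 j (Ring.inverse ((y.2 ⟨⟩ : Cˣ) : C) *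
      (((y.1.2 ⟨⟩ : Cˣ) : C) * ((y.1.2 ⟨⟩ : Cˣ) : C))))).det)
    rw [unit_calc _ _ _ _ (Units.isUnit _), ← det_cut_dg D j hj, dg_dg]
    exact (Units.isUnit _).mul y.1.1.2⟩, Units.isUnit _⟩, Units.isUnit _⟩
  left x := by
    apply Subtype.ext
    apply Subtype.ext
    apply Subtype.ext
    apply Prod.ext
    · apply Subtype.ext
      apply Prod.ext
      · have h := dg_dg x.1.1.1.1.1.1 j (-(Ring.inverse x.1.1.1.2.2 *
          (x.1.1.1.2.1 * x.1.1.1.2.1)))
        rw [neg_neg] at h
        exact h
      · rfl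
    · rfl
  right y := by
    apply Prod.ext
    · apply Prod.ext
      · apply Subtype.ext
        apply Subtype.ext
        apply Prod.ext
        · exact dg_dg _ _ _
        · rfl
      · funext _
        exact Units.ext rfl
    · funext _
      exact Units.ext rfl
  nat {C D} _ _ f x := by
    apply Prod.ext
    · apply Prod.ext
      · apply Subtype.ext
        apply Subtype.ext
        apply Prod.ext
        · have hu : IsUnit x.1.1.1.2.2 := x.2
          change dg (x.1.1.1.1.1.1.map f) j (-(Ring.inverse (f x.1.1.1.2.2) *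
            (f x.1.1.1.2.1 * f x.1.1.1.2.1))) = (dg _ _ _).map f
          rw [rinv_map f hu, ← map_mul, ← map_mul, ← map_neg, dg_map]
        · rfl
      · funext _
        exact Units.ext rfl
    · funext _
      exact Units.ext rfl

variable {R : Type} [CommRing R] {sep : Prop} {P : Sch R → Prop}

/-- **Removing the condition on the determinant.** -/
theorem holds_cut [Finite K] (hP : Mot sep P)
    (h0 : ∀ (V : Type) [Fintype V] [DecidableEq V] (q : Pat V K),
      Holds P ((TT q).unit (matT q).det)) (n : ℕ) :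
    ∀ (V : Type) [Fintype V] [DecidableEq V] (q : Pat V K), q.Nice → ∀ D : Finset V, D.card = n →
      Holds P ((TT q).unit (cutF q D)) := by
  induction n with
  | zero =>
    intro V _ _ q _ D hD
    rw [Finset.card_eq_zero] at hD
    subst hD
    exact (h0 V q).congr ⟨fun x => ⟨x.1, by
        change IsUnit (cut ∅ x.1.1.1).det
        rw [cut_empty]
        exact x.2⟩, fun x => ⟨x.1, by
        have h := x.2
        change IsUnit (cut ∅ x.1.1.1).det at h
        rw [cut_empty] at h
        exact h⟩, fun _ => rfl, fun _ => rfl, fun _ _ => rfl⟩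
  | succ n ih =>
    intro V _ _ q hq D' hD
    obtain ⟨j, D, hj, rfl, hn⟩ := Finset.card_eq_succ.1 hD
    have hn' : (D.map ⟨Sum.inl, Sum.inl_injective⟩ : Finset (V ⊕ Unit)).card = n := by
      rw [Finset.card_map, hn]
    have hN : ∀ J : V → Prop, (q.extend J).Nice := by
      rintro J k (v | v) h1 h2
      · exact hq k v h1 h2
      · exact h1
    have h1 := (ih _ (q.extend fun a => a = j) (hN _) _ hn').congr (oneIso q D j hj)
    have h2 := (ih _ (q.extend fun _ => False) (hN _) _ hn').congr (zeroIso q D j hj)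
    have h3 := h1.opened hP (xY q D j) h2
    have h4 : Holds P (((YY q D j).unit (xY q D j)).unit (cY q D j)) :=
      (((ih V q hq D hn).tor hP PUnit).tor hP PUnit).congr (cUnit q hq D j hj).symm
    have h5 := (h3.closed hP _ h4).congr (cZero q D j)
    exact h5.of_tor hP ((hasRep_TT q).unit _)

/-- **Sparse symmetric matrices and sparse vectors with incidences.** -/
theorem holds_TT [Finite K] (hP : Mot sep P)
    (h0 : ∀ (V : Type) [Fintype V] [DecidableEq V] (q : Pat V PEmpty),
      Holds P ((TT q).unit (matT q).det)) (q : Pat V K) (hq : q.Nice) : Holds P (TT q) := by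
  have h := holds_cut hP (holds_det hP h0 K) (Fintype.card V) V q hq Finset.univ Finset.card_univ
  refine h.congr ⟨fun x => x.1, fun x => ⟨x, ?_⟩, fun _ => rfl, fun _ => rfl, fun _ _ => rfl⟩
  change IsUnit (cut Finset.univ x.1.1).det
  rw [cut_univ, det_one]
  exact isUnit_one

end Pool.Agent.Helper3.GU
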