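import Pool.Agent.Helper3.GU.Lead

/-!
# Graphs with vertices of degree at most three
-/

set_option autoImplicit false

open CategoryTheory AlgebraicGeometry Pool.Agent.Y116.UV Pool.Agent.Q282.UK Matrix

namespace Pool.Agent.Helper3.GU

section

variable {E V C : Type} [DecidableEq V] [DecidableEq E] [Fintype E] [Fintype V] [CommRing C]

/-- the first ends after a vertex was split -/
def sG (s' : E → Option (Option V)) : Option E → Option (Option V)
  | none => some none
  | some e => s' e

/-- the second ends after the vertex `p` was split -/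
def tG (p : Option V) (t' : E → Option (Option V)) : Option E → Option (Option V)
  | none => p.map some
  | some e => t' e

/-- the vertices -/
def psi (V : Type) : V ⊕ Unit ≃ Option V where
  toFun := Sum.elim some fun _ => none
  invFun := fun v => v.elim (Sum.inr ()) Sum.inl
  left_inv := by rintro (v | v) <;> rfl
  right_inv := by rintro (_ | v) <;> rfl

/-- the change of coordinates -/
def TT' (p : Option V) : Matrix (V ⊕ Unit) (V ⊕ Unit) C :=
  fromBlocks 1 (of fun v _ => if p = some v then 1 else 0) 0 1

lemma det_TT' (p : Option V) : (TT' p : Matrix (V ⊕ Unit) (V ⊕ Unit) C).det = 1 := by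
  rw [TT', det_fromBlocks_zero₂₁, det_one, det_one, mul_one]

lemma ei_self (p : Option V) (v : V) : ei C p p v = 0 := by
  rw [ei, sub_self]

lemma cm_up (p : Option V) : cm p (p.map some) = p := by
  rcases p with _ | p <;> rfl

/-- the incidence matrix in the new coordinates -/
lemma icm_T (s' t' : E → Option (Option V)) (p : Option V) :
    (icm C s' t').submatrix id (psi V) * (TT' p : Matrix (V ⊕ Unit) (V ⊕ Unit) C)ᵀ =
      of fun e => Sum.elim (fun v => ei C (cm p (s' e)) (cm p (t' e)) v)
        fun _ => ei C (s' e) (t' e) none := by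
  ext e i
  rw [mul_apply, Fintype.sum_sum_type]
  rcases i with v | i
  · have h1 : ∑ w : V, (icm C s' t').submatrix id (psi V) e (Sum.inl w) *
        (TT' p : Matrix (V ⊕ Unit) (V ⊕ Unit) C)ᵀ (Sum.inl w) (Sum.inl v) =
          ei C (s' e) (t' e) (some v) := by
      rw [Finset.sum_eq_single v]
      · change ei C (s' e) (t' e) (some v) * (1 : Matrix V V C) v v = _
        rw [one_apply_eq, mul_one]
      · intro w _ hw
        change ei C (s' e) (t' e) (some w) * (1 : Matrix V V C) v w = _
        rw [one_apply_ne hw.symm, mul_zero]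
      · intro h
        exact absurd (Finset.mem_univ _) h
    rw [h1]
    change ei C (s' e) (t' e) (some v) + ∑ _ : Unit, ei C (s' e) (t' e) none *
      (if p = some v then 1 else 0) = ei C (cm p (s' e)) (cm p (t' e)) v
    rw [ei_cm]
    simp
  · have h1 : ∑ w : V, (icm C s' t').submatrix id (psi V) e (Sum.inl w) *
        (TT' p : Matrix (V ⊕ Unit) (V ⊕ Unit) C)ᵀ (Sum.inl w) (Sum.inr i) = 0 := by
      apply Finset.sum_eq_zero
      intro w _
      exact mul_zero _
    rw [h1, zero_add]
    change ∑ j : Unit, ei C (s' e) (t' e) none * (1 : Matrix Unit Unit C) i j = _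
    simp

/-- the border -/
def bH (s' t' : E → Option (Option V)) (p : Option V) (y : E → C) (v : V) : C :=
  ∑ f, ei C (cm p (s' f)) (cm p (t' f)) v * y f * ei C (s' f) (t' f) none

/-- the corner -/
def dH (s' t' : E → Option (Option V)) (y : E → C) : C :=
  ∑ f, ei C (s' f) (t' f) none * y f * ei C (s' f) (t' f) none

lemma det_split0 (s' t' : E → Option (Option V)) (p : Option V) (y : E → C) :
    (lapm s' t' y).det = (bd (lapm (fun e => cm p (s' e)) (fun e => cm p (t' e)) y)
      (bH s' t' p y) (bH s' t' p y) (dH s' t' y)).det := by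
  have h1 : ((TT' p : Matrix (V ⊕ Unit) (V ⊕ Unit) C) * ((lapm s' t' y).submatrix (psi V) (psi V)) *
      (TT' p : Matrix (V ⊕ Unit) (V ⊕ Unit) C)ᵀ) = bd (lapm (fun e => cm p (s' e))
        (fun e => cm p (t' e)) y) (bH s' t' p y) (bH s' t' p y) (dH s' t' y) := by
    have h2 : (lapm s' t' y).submatrix (psi V) (psi V) =
        ((icm C s' t').submatrix id (psi V))ᵀ * diagonal y * (icm C s' t').submatrix id (psi V) := by
      rfl
    rw [h2]
    have h3 : (TT' p : Matrix (V ⊕ Unit) (V ⊕ Unit) C) * (((icm C s' t').submatrix id (psi V))ᵀ *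
        diagonal y * (icm C s' t').submatrix id (psi V)) *
        (TT' p : Matrix (V ⊕ Unit) (V ⊕ Unit) C)ᵀ =
        ((icm C s' t').submatrix id (psi V) * (TT' p : Matrix (V ⊕ Unit) (V ⊕ Unit) C)ᵀ)ᵀ *
          diagonal y * ((icm C s' t').submatrix id (psi V) *
            (TT' p : Matrix (V ⊕ Unit) (V ⊕ Unit) C)ᵀ) := by
      rw [transpose_mul, transpose_transpose]
      simp only [Matrix.mul_assoc]
    rw [h3, icm_T]
    ext i j
    rw [mul_apply]
    simp only [mul_diagonal]
    rcases i with i | i <;> rcases j with j | j
    · exact (lapm_apply _ _ _ _ _).symm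
    · rfl
    · change ∑ e, ei C (s' e) (t' e) none * y e * ei C (cm p (s' e)) (cm p (t' e)) j =
        ∑ e, ei C (cm p (s' e)) (cm p (t' e)) j * y e * ei C (s' e) (t' e) none
      apply Finset.sum_congr rfl
      intro e _
      ring
    · rfl
  rw [← h1, det_mul, det_mul, det_transpose, det_TT', one_mul, mul_one, det_submatrix_equiv_self]

omit [Fintype V] in
lemma lapm_option (s t : Option E → Option V) (x : Option E → C) (v w : V) :
    lapm s t x v w = ei C (s none) (t none) v * x none * ei C (s none) (t none) w +
      lapm (fun e => s (some e)) (fun e => t (some e)) (fun e => x (some e)) v w := by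
  rw [lapm_apply, lapm_apply, Fintype.sum_option]

/-- **Contraction and deletion of an edge.** -/
theorem det_split (s' t' : E → Option (Option V)) (p : Option V) (x : Option E → C) :
    (lapm (sG s') (tG p t') x).det = x none *
      (lapm (fun e => cm p (s' e)) (fun e => cm p (t' e)) fun e => x (some e)).det +
      (lapm s' t' fun e => x (some e)).det := by
  have h0 : ei C (some none) (p.map some) none = 1 := by
    rcases p with _ | p <;> simp [ei]
  have h1 : lapm (fun e => cm p (sG s' e)) (fun e => cm p (tG p t' e)) x =
      lapm (fun e => cm p (s' e)) (fun e => cm p (t' e)) fun e => x (some e) := by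
    ext v w
    rw [lapm_option]
    change ei C p (cm p (p.map some)) v * _ * _ + _ = _
    rw [cm_up, ei_self, zero_mul, zero_mul, zero_add]
    rfl
  have h2 : bH (sG s') (tG p t') p x = bH s' t' p fun e => x (some e) := by
    funext v
    rw [bH, bH, Fintype.sum_option]
    change ei C p (cm p (p.map some)) v * _ * _ + _ = _
    rw [cm_up, ei_self, zero_mul, zero_mul, zero_add]
    rfl
  have h3 : dH (sG s') (tG p t') x = x none + dH s' t' fun e => x (some e) := by
    rw [dH, dH, Fintype.sum_option]
    change ei C (some none) (p.map some) none * _ * ei C (some none) (p.map some) none + _ = _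
    rw [h0, one_mul, mul_one]
    rfl
  rw [det_split0 (sG s') (tG p t') p x, det_split0 s' t' p, h1, h2, h3, det_bd, det_bd]
  ring

/-! ### Subdivision of an edge -/

omit [Fintype V] in
lemma lapm_swap (s t : E → Option V) (x : E → C) : lapm t s x = lapm s t x := by
  ext v w
  rw [lapm_apply, lapm_apply]
  apply Finset.sum_congr rfl
  intro e _
  rw [ei, ei, ei, ei]
  ring

omit [DecidableEq V] [Fintype V] [DecidableEq E] [Fintype E] in
lemma cm_up' (p : Option V) (q : Option V) : cm p (q.map some) = q := by
  rcases q with _ | q <;> rfl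

/-- the first ends after the new edge was subdivided -/
def sS (s' : E → Option (Option V)) : Option E → Option (Option (Option V)) :=
  fun e => (sG s' e).map some

/-- the second ends after the new edge was subdivided -/
def tS (t' : E → Option (Option V)) : Option E → Option (Option (Option V)) :=
  sG fun e => (t' e).map some

lemma det_leaf (s' t' : E → Option (Option V)) (x : Option E → C) :
    (lapm (sS s') (tS t') x).det = x none * (lapm s' t' fun e => x (some e)).det := by
  have h := det_split (fun e => (t' e).map some) (fun e => (s' e).map some) (some none) x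
  have h1 : tG (some none) (fun e => (s' e).map some) = sS s' := by
    funext e
    rcases e with _ | e <;> rfl
  have h2 : (lapm (fun e => (t' e).map some) (fun e => (s' e).map some)
      fun e => x (some e)).det = 0 := by
    apply det_eq_zero_of_row_eq_zero none
    intro j
    rw [lapm_apply]
    apply Finset.sum_eq_zero
    intro e _
    have h3 : ei C ((t' e).map some) ((s' e).map some) none = 0 := by
      rcases t' e with _ | a <;> rcases s' e with _ | b <;> simp [ei]
    rw [h3, zero_mul, zero_mul]
  simp only [cm_up'] at h
  rw [h1, h2, add_zero, lapm_swap, lapm_swap s' t'] at h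
  exact h

/-- **Subdivision of an edge.** -/
theorem det_sub (s' t' : E → Option (Option V)) (p : Option V) (x : Option (Option E) → C) :
    (lapm (sG (sS s')) (tG (p.map some) (tS t')) x).det =
      x none * x (some none) * (lapm (fun e => cm p (s' e)) (fun e => cm p (t' e))
        fun e => x (some (some e))).det +
      (x none + x (some none)) * (lapm s' t' fun e => x (some (some e))).det := by
  have h := det_split (sS s') (tS t') (p.map some) x
  have h1 : (fun e => cm (p.map some) (sS s' e)) = sG s' := by
    funext e
    exact cm_up' _ _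
  have h2 : (fun e => cm (p.map some) (tS t' e)) = tG p t' := by
    funext e
    rcases e with _ | e
    · rfl
    · exact cm_up' _ _
  rw [h1, h2, det_split s' t' p fun e => x (some e), det_leaf] at h
  rw [h]
  ring

end

/-! ### Splitting a vertex -/

section

variable {E V : Type} [DecidableEq V] [DecidableEq E] [Fintype E] [Fintype V]
  {R : Type} [CommRing R] {sep : Prop} {P : Sch R → Prop}

/-- the determinant of the Laplacian as a function -/
def dF (s t : E → Option V) : NF (PT.aff E) where
  fn y := (lapm s t y.2).det
  nat f y := by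
    change (lapm s t fun e => f (y.2 e)).det = _
    rw [lapm_map, det_map]

/-- the Kirchhoff polynomial -/
def ksIso (s t : E → Option V) : PIso (KS s t ∅) ((PT.aff E).unit (dF s t)) where
  fwd x := ⟨((), x.1), x.2.2⟩
  bwd y := ⟨y.1.2, fun e he => absurd he (by simp), y.2⟩
  left _ := rfl
  right _ := rfl
  nat _ _ := rfl

/-- one more coordinate -/
def optCoord {C : Type} (x : C) (y : E → C) : Option E → C
  | none => x
  | some e => y e

/-- **Splitting a vertex.** -/
theorem holds_split (hP : Mot sep P) (s' t' : E → Option (Option V)) (p : Option V)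
    (h1 : Holds P (KS (sG s') (tG p t') ∅)) (h2 : Holds P (KS s' t' ∅))
    (h3 : Holds P (KS (sG (sS s')) (tG (p.map some) (tS t')) ∅)) :
    Holds P (KS (fun e => cm p (s' e)) (fun e => cm p (t' e)) ∅) := by
  have hF : HasRep R (PT.aff E) := hasRep_PT.aff E
  refine Holds.congr ?_ (ksIso _ _).symm
  refine holds_lead hP hF _ (dF s' t') ?_ (h2.congr (ksIso _ _)) ?_
  · refine h1.congr ⟨fun x => ⟨(((), fun e => x.1 (some e)), fun _ => x.1 none), ?_⟩,
      fun y => ⟨optCoord (y.1.2 ⟨⟩) y.1.1.2, fun e he => absurd he (by simp), ?_⟩, ?_, fun _ => rfl,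
      fun _ _ => rfl⟩
    · have h := x.2.2
      rw [det_split] at h
      exact h
    · rw [det_split]
      exact y.2
    · intro C _ x
      apply Subtype.ext
      funext e
      rcases e with _ | e <;> rfl
  · refine h3.congr ⟨fun x => ⟨((((), fun e => x.1 (some (some e))), fun _ => x.1 (some none)),
      fun _ => x.1 none), ?_⟩,
      fun y => ⟨optCoord (y.1.2 ⟨⟩) (optCoord (y.1.1.2 ⟨⟩) y.1.1.1.2),
        fun e he => absurd he (by simp), ?_⟩, ?_, fun _ => rfl, fun _ _ => rfl⟩
    · have h := x.2.2
      rw [det_sub] at h
      exact h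
    · rw [det_sub]
      exact y.2
    · intro C _ x
      apply Subtype.ext
      funext e
      rcases e with _ | _ | e <;> rfl

end

/-! ### Degrees -/

section

variable {E V : Type} [DecidableEq V] [Fintype E]

/-- The degree of a vertex. -/
def dgr (s t : E → Option V) (q : Option V) : ℕ :=
  ∑ e, ((if s e = q then 1 else 0) + (if t e = q then 1 else 0))

omit [DecidableEq V] [Fintype E] in
/-- There are no loops and no multiple edges. -/
structure IsSimple (s t : E → Option V) : Prop where
  loop : ∀ e, s e ≠ t e
  par : ∀ e f, e ≠ f → ¬ (s e = s f ∧ t e = t f)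
  anti : ∀ e f, e ≠ f → ¬ (s e = t f ∧ t e = s f)

/-- The excess. -/
def exc [Fintype V] (s t : E → Option V) : ℕ := ∑ q, (dgr s t q - 3)

lemma dgr_sG (s' t' : E → Option (Option V)) (p : Option V) (q : Option (Option V)) :
    dgr (sG s') (tG p t') q = (if some none = q then 1 else 0) + (if p.map some = q then 1 else 0) +
      dgr s' t' q := by
  rw [dgr, Fintype.sum_option]
  rfl

lemma sum_vert [Fintype V] (g : Option (Option V) → ℕ) :
    ∑ q, g q = g (some none) + ∑ q : Option V, g (q.map some) := by
  rw [Fintype.sum_option, Fintype.sum_option, Fintype.sum_option]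
  change g none + (g (some none) + _) = g (some none) + (g none + _)
  rw [← add_assoc, ← add_assoc, add_comm (g none)]
  rfl

omit [DecidableEq V] [Fintype E] in
lemma up_ne (a : Option V) : a.map some ≠ (some none : Option (Option V)) := by
  rcases a with _ | a <;> simp

omit [DecidableEq V] [Fintype E] in
lemma up_inj (a b : Option V) : (a.map some : Option (Option V)) = b.map some ↔ a = b := by
  rcases a with _ | a <;> rcases b with _ | b <;> simp

variable [DecidableEq E]

/-- the ends of the edges in `J` at `p` are moved to the new vertex -/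
def mv (p : Option V) (J : Finset E) (s : E → Option V) (e : E) : Option (Option V) :=
  if s e = p ∧ e ∈ J then some none else (s e).map some

lemma cm_mv (p : Option V) (J : Finset E) (s : E → Option V) (e : E) : cm p (mv p J s e) = s e := by
  rw [mv]
  split_ifs with h
  · exact h.1.symm
  · exact cm_up' _ _

lemma dgr_mv_new (p : Option V) (J : Finset E) (s t : E → Option V) :
    dgr (mv p J s) (mv p J t) (some none) =
      ∑ e, ((if s e = p ∧ e ∈ J then 1 else 0) + (if t e = p ∧ e ∈ J then 1 else 0)) := by
  rw [dgr]
  apply Finset.sum_congr rfl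
  intro e _
  have h : ∀ u : E → Option V, (if mv p J u e = some none then 1 else 0 : ℕ) =
      if u e = p ∧ e ∈ J then 1 else 0 := by
    intro u
    rw [mv]
    by_cases h : u e = p ∧ e ∈ J
    · rw [if_pos h, if_pos h, if_pos rfl]
    · rw [if_neg h, if_neg h, if_neg (up_ne _)]
  rw [h, h]

lemma dgr_mv_ne (p : Option V) (J : Finset E) (s t : E → Option V) (q : Option V) (hq : q ≠ p) :
    dgr (mv p J s) (mv p J t) (q.map some) = dgr s t q := by
  rw [dgr, dgr]
  apply Finset.sum_congr rfl
  intro e _
  have h : ∀ u : E → Option V, (if mv p J u e = q.map some then 1 else 0 : ℕ) =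
      if u e = q then 1 else 0 := by
    intro u
    rw [mv]
    by_cases h : u e = p ∧ e ∈ J
    · rw [if_pos h, if_neg (up_ne _).symm, if_neg]
      intro h2
      exact hq (h2.symm.trans h.1)
    · rw [if_neg h]
      by_cases h2 : u e = q
      · rw [if_pos h2, if_pos ((up_inj _ _).2 h2)]
      · rw [if_neg h2, if_neg fun h3 => h2 ((up_inj _ _).1 h3)]
  rw [h, h]

lemma dgr_mv_eq (p : Option V) (J : Finset E) (s t : E → Option V) :
    dgr (mv p J s) (mv p J t) (p.map some) + dgr (mv p J s) (mv p J t) (some none) =
      dgr s t p := by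
  rw [dgr_mv_new, dgr, dgr, ← Finset.sum_add_distrib]
  apply Finset.sum_congr rfl
  intro e _
  have h : ∀ u : E → Option V, (if mv p J u e = p.map some then 1 else 0 : ℕ) +
      (if u e = p ∧ e ∈ J then 1 else 0) = if u e = p then 1 else 0 := by
    intro u
    rw [mv]
    by_cases h : u e = p ∧ e ∈ J
    · rw [if_pos h, if_pos h, if_neg (up_ne _).symm, if_pos h.1]
    · rw [if_neg h, if_neg h]
      by_cases h2 : u e = p
      · rw [if_pos h2, if_pos ((up_inj _ _).2 h2)]
      · rw [if_neg h2, if_neg fun h3 => h2 ((up_inj _ _).1 h3)]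
  have h1 := h s
  have h2 := h t
  omega

/-- two edges at a vertex of degree at least two -/
lemma exists_J {s t : E → Option V} (hs : IsSimple s t) (p : Option V) (hp : 2 ≤ dgr s t p) :
    ∃ J : Finset E, dgr (mv p J s) (mv p J t) (some none) = 2 := by
  have h1 : dgr s t p = (Finset.univ.filter fun e => s e = p ∨ t e = p).card := by
    rw [dgr, Finset.card_filter]
    apply Finset.sum_congr rfl
    intro e _
    by_cases h2 : s e = p
    · have h3 : t e ≠ p := fun h => hs.loop e (h2.trans h.symm)
      rw [if_pos h2, if_neg h3, if_pos (Or.inl h2)]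
    · by_cases h3 : t e = p
      · rw [if_neg h2, if_pos h3, if_pos (Or.inr h3)]
      · rw [if_neg h2, if_neg h3, if_neg (by tauto)]
  rw [h1] at hp
  obtain ⟨J, hJ, hc⟩ := Finset.exists_subset_card_eq hp
  refine ⟨J, ?_⟩
  rw [dgr_mv_new, ← hc, Finset.card_eq_sum_ones]
  rw [← Finset.sum_filter_add_sum_filter_not Finset.univ (fun e => e ∈ J)]
  have h2 : ∑ e ∈ Finset.univ.filter (fun e => ¬ e ∈ J),
      ((if s e = p ∧ e ∈ J then 1 else 0) + (if t e = p ∧ e ∈ J then 1 else 0)) = 0 := by
    apply Finset.sum_eq_zero
    intro e he
    have h3 := (Finset.mem_filter.1 he).2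
    simp [h3]
  have h3 : Finset.univ.filter (fun e => e ∈ J) = J := by
    ext e
    simp
  rw [h2, add_zero, h3]
  apply Finset.sum_congr rfl
  intro e he
  have h4 := (Finset.mem_filter.1 (hJ he)).2
  rcases h4 with h4 | h4
  · have h5 : t e ≠ p := fun h => hs.loop e (h4.trans h.symm)
    simp [h4, h5, he]
  · have h5 : s e ≠ p := fun h => hs.loop e (h.trans h4.symm)
    simp [h4, h5, he]

omit [Fintype E] [DecidableEq V] [DecidableEq E] in
lemma simple_of_cm {s' t' : E → Option (Option V)} {p : Option V}
    (h : IsSimple (fun e => cm p (s' e)) (fun e => cm p (t' e))) : IsSimple s' t' :=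
  ⟨fun e h1 => h.loop e (congrArg (cm p) h1), fun e f hf h1 => h.par e f hf
    ⟨congrArg (cm p) h1.1, congrArg (cm p) h1.2⟩, fun e f hf h1 => h.anti e f hf
    ⟨congrArg (cm p) h1.1, congrArg (cm p) h1.2⟩⟩

omit [Fintype E] [DecidableEq V] [DecidableEq E] in
lemma simple_sG {s' t' : E → Option (Option V)} {p : Option V}
    (h : IsSimple (fun e => cm p (s' e)) (fun e => cm p (t' e))) :
    IsSimple (sG s') (tG p t') := by
  refine ⟨?_, ?_, ?_⟩
  · rintro (_ | e)
    · exact (up_ne p).symm
    · exact fun h1 => h.loop e (congrArg (cm p) h1)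
  · rintro (_ | e) (_ | f) hf ⟨h1, h2⟩
    · exact hf rfl
    · have h3 := congrArg (cm p) h1
      have h4 := congrArg (cm p) h2
      change p = cm p (s' f) at h3
      change cm p (p.map some) = cm p (t' f) at h4
      rw [cm_up'] at h4
      exact h.loop f (h3.symm.trans h4)
    · have h3 := congrArg (cm p) h1
      have h4 := congrArg (cm p) h2
      change cm p (s' e) = p at h3
      change cm p (t' e) = cm p (p.map some) at h4
      rw [cm_up'] at h4
      exact h.loop e (h3.trans h4.symm)
    · exact h.par e f (fun h3 => hf (congrArg some h3)) ⟨congrArg (cm p) h1, congrArg (cm p) h2⟩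
  · rintro (_ | e) (_ | f) hf ⟨h1, h2⟩
    · exact hf rfl
    · have h3 := congrArg (cm p) h1
      have h4 := congrArg (cm p) h2
      change p = cm p (t' f) at h3
      change cm p (p.map some) = cm p (s' f) at h4
      rw [cm_up'] at h4
      exact h.loop f (h4.symm.trans h3)
    · have h3 := congrArg (cm p) h1
      have h4 := congrArg (cm p) h2
      change cm p (s' e) = cm p (p.map some) at h3
      change cm p (t' e) = p at h4
      rw [cm_up'] at h3
      exact h.loop e (h3.trans h4.symm)
    · exact h.anti e f (fun h3 => hf (congrArg some h3)) ⟨congrArg (cm p) h1, congrArg (cm p) h2⟩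

end

section

variable {R : Type} [CommRing R] {sep : Prop} {P : Sch R → Prop}

lemma ite_up {V : Type} [DecidableEq V] (a b : Option V) :
    (if (a.map some : Option (Option V)) = b.map some then 1 else 0 : ℕ) =
      if a = b then 1 else 0 := by
  by_cases h : a = b
  · rw [if_pos h, if_pos ((up_inj _ _).2 h)]
  · rw [if_neg h, if_neg fun h3 => h ((up_inj _ _).1 h3)]

lemma dgr_sS {E V : Type} [DecidableEq V] [Fintype E] (s' t' : E → Option (Option V))
    (q : Option (Option V)) : dgr (sS s') (tS t') (q.map some) =
      (if some none = q then 1 else 0) + dgr s' t' q := by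
  rw [dgr, Fintype.sum_option, dgr]
  congr 1
  · change (if (some none : Option (Option V)).map some = q.map some then 1 else 0) +
      (if some none = q.map some then 1 else 0) = _
    rw [ite_up, if_neg (up_ne q).symm, add_zero]
  · apply Finset.sum_congr rfl
    intro e _
    change (if (s' e).map some = q.map some then 1 else 0) +
      (if (t' e).map some = q.map some then 1 else 0) = _
    rw [ite_up, ite_up]

lemma dgr_sS' {E V : Type} [DecidableEq V] [Fintype E] (s' t' : E → Option (Option V)) :
    dgr (sS s') (tS t') (some none) = 1 := by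
  rw [dgr, Fintype.sum_option]
  change (if (some none : Option (Option V)).map some = some none then 1 else 0) +
      (if (some none : Option (Option (Option V))) = some none then 1 else 0) + _ = 1
  rw [if_neg (up_ne _), if_pos rfl, Finset.sum_eq_zero]
  · rfl
  · intro e _
    change (if (s' e).map some = some none then 1 else 0) +
      (if (t' e).map some = some none then 1 else 0) = 0
    rw [if_neg (up_ne _), if_neg (up_ne _), add_zero]

lemma exc_sub {E V : Type} [DecidableEq V] [Fintype E] [Fintype V] (s' t' : E → Option (Option V))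
    (p : Option V) : exc (sG (sS s')) (tG (p.map some) (tS t')) = exc (sG s') (tG p t') := by
  rw [exc, sum_vert, dgr_sG, dgr_sS', if_pos rfl, if_neg (up_ne _), exc]
  change 0 + _ = _
  rw [zero_add]
  apply Finset.sum_congr rfl
  intro q _
  rw [dgr_sG, dgr_sG, dgr_sS, if_neg (up_ne q).symm, ite_up]
  congr 1
  ring

lemma exc_sG {E V : Type} [DecidableEq V] [Fintype E] [DecidableEq E] [Fintype V]
    (s t : E → Option V) (p : Option V) (J : Finset E)
    (hJ : dgr (mv p J s) (mv p J t) (some none) = 2) (hp : 3 < dgr s t p) :
    exc (sG (mv p J s)) (tG p (mv p J t)) < exc s t := by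
  have hE := dgr_mv_eq p J s t
  rw [exc, sum_vert, dgr_sG, hJ, if_pos rfl, if_neg (up_ne _), exc]
  change 0 + _ < _
  rw [zero_add]
  apply Finset.sum_lt_sum
  · intro q _
    rw [dgr_sG, if_neg (up_ne q).symm, ite_up]
    by_cases hq : q = p
    · subst hq
      rw [if_pos rfl]
      omega
    · rw [if_neg (Ne.symm hq), dgr_mv_ne p J s t q hq]
      omega
  · refine ⟨p, Finset.mem_univ _, ?_⟩
    rw [dgr_sG, if_neg (up_ne p).symm, ite_up, if_pos rfl]
    omega

lemma exc_mv {E V : Type} [DecidableEq V] [Fintype E] [DecidableEq E] [Fintype V]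
    (s t : E → Option V) (p : Option V) (J : Finset E)
    (hJ : dgr (mv p J s) (mv p J t) (some none) = 2) (hp : 3 < dgr s t p) :
    exc (mv p J s) (mv p J t) < exc s t := by
  have hE := dgr_mv_eq p J s t
  rw [exc, sum_vert, hJ, exc]
  change 0 + _ < _
  rw [zero_add]
  apply Finset.sum_lt_sum
  · intro q _
    by_cases hq : q = p
    · subst hq
      omega
    · rw [dgr_mv_ne p J s t q hq]
  · refine ⟨p, Finset.mem_univ _, ?_⟩
    omega

/-- **Vertices of degree at most three.** -/
theorem holds_deg (hP : Mot sep P)
    (h : ∀ (E V : Type) [Fintype E] [DecidableEq E] [Fintype V] [DecidableEq V]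
      (s t : E → Option V), IsSimple s t → (∀ q, dgr s t q ≤ 3) → Holds P (KS s t ∅)) (n : ℕ) :
    ∀ (E V : Type) [Fintype E] [DecidableEq E] [Fintype V] [DecidableEq V]
      (s t : E → Option V), IsSimple s t → exc s t = n → Holds P (KS s t ∅) := by
  induction n using Nat.strong_induction_on with
  | _ n ih =>
    intro E V _ _ _ _ s t hs hn
    by_cases hd : ∀ q, dgr s t q ≤ 3
    · exact h E V s t hs hd
    · push Not at hd
      obtain ⟨p, hp⟩ := hd
      obtain ⟨J, hJ⟩ := exists_J hs p (by omega)
      have hcs : (fun e => cm p (mv p J s e)) = s := funext fun e => cm_mv p J s e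
      have hct : (fun e => cm p (mv p J t e)) = t := funext fun e => cm_mv p J t e
      have hs' : IsSimple (fun e => cm p (mv p J s e)) fun e => cm p (mv p J t e) := by
        rw [hcs, hct]
        exact hs
      have h1 := exc_sG s t p J hJ hp
      have h2 := exc_mv s t p J hJ hp
      have key := holds_split (P := P) hP (mv p J s) (mv p J t) p
        (ih _ (by omega) _ _ _ _ (simple_sG hs') rfl)
        (ih _ (by omega) _ _ _ _ (simple_of_cm hs') rfl) ?_
      · rw [hcs, hct] at key
        exact key
      · have h3 : IsSimple (sG (sS (mv p J s))) (tG (p.map some) (tS (mv p J t))) := by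
          have h4 : (fun e => cm (p.map some) (sS (mv p J s) e)) = sG (mv p J s) :=
            funext fun e => cm_up' _ _
          have h5 : (fun e => cm (p.map some) (tS (mv p J t) e)) = tG p (mv p J t) := by
            funext e
            rcases e with _ | e
            · rfl
            · exact cm_up' _ _
          apply simple_sG
          rw [h4, h5]
          exact simple_sG hs'
        refine ih _ ?_ _ _ _ _ h3 rfl
        rw [exc_sub]
        omega

end

end Pool.Agent.Helper3.GU
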