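import Pool.Agent.Helper3.GU.Cf

/-!
# Systems of bilinear equations as configurations
-/

set_option autoImplicit false

open CategoryTheory AlgebraicGeometry Pool.Agent.Y116.UV Pool.Agent.Q282.UK Matrix

namespace Pool.Agent.Helper3.GU

/-! ### The empty configuration -/

/-- The empty configuration. -/
def cf0 (F : Type) : Cf F where
  X := PT
  P := PEmpty
  K := PEmpty
  row _ p := p.elim
  col _ p := p.elim
  row_nat _ _ p := p.elim
  col_nat _ _ p := p.elim

/-- The configuration that consists of the row `(1, …, 1)`. -/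
def cf1 (F : Type) : Cf F where
  X := PT
  P := Unit
  K := PEmpty
  row _ _ _ := 1
  col _ p := p.elim
  row_nat φ _ _ _ := (map_one φ).symm
  col_nat _ _ p := p.elim

/-- The pattern of a pair of sparse families of rows and columns. -/
def patB {P' K' F : Type} (S₁ : P' → F → Prop) (S₂ : K' → F → Prop)
    (E : (cf0 F).P ⊕ P' → (cf0 F).K ⊕ K' → Prop) : Pat (P' ⊕ F) K' where
  adj a b := Sum.elim (fun p => Sum.elim (fun _ => False) (fun f => S₁ p f) b)
    (fun f => Sum.elim (fun p => S₁ p f) (fun _ => False) b) a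
  S k := Sum.elim (fun _ => False) (S₂ k)
  E k := Sum.elim (fun p => E (Sum.inr p) (Sum.inr k)) fun _ => False

section

variable {P' K' F C : Type} [Fintype P'] [Fintype F] [DecidableEq P'] [DecidableEq F] [CommRing C]

/-- the symmetric matrix -/
def blk (v : P' → F → C) (d : P' ⊕ F → C) : Matrix (P' ⊕ F) (P' ⊕ F) C :=
  of fun a b => Sum.elim (fun p => Sum.elim (fun p' => if p = p' then d (Sum.inl p) else 0)
    (fun f => v p f) b) (fun f => Sum.elim (fun p => v p f)
      (fun f' => if f = f' then d (Sum.inr f) else 0) b) a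

omit [Fintype P'] [Fintype F] in
lemma blk_ne (v : P' → F → C) (d : P' ⊕ F → C) :
    (∀ a b, a ≠ b → blk v d (Sum.inl a) (Sum.inl b) = 0) ∧
      (∀ a b, a ≠ b → blk v d (Sum.inr a) (Sum.inr b) = 0) :=
  ⟨fun _ _ h => if_neg h, fun _ _ h => if_neg h⟩

omit [Fintype P'] [Fintype F] in
lemma blk_eq (v : P' → F → C) (d : P' ⊕ F → C) (a : P' ⊕ F) : blk v d a a = d a := by
  rcases a with a | a
  · exact if_pos rfl
  · exact if_pos rfl

omit [Fintype P'] [Fintype F] in
lemma blk_symm (v : P' → F → C) (d : P' ⊕ F → C) (a b : P' ⊕ F) : blk v d a b = blk v d b a := by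
  rcases a with a | a <;> rcases b with b | b
  · by_cases h : a = b
    · rw [h]
    · rw [(blk_ne v d).1 _ _ h, (blk_ne v d).1 _ _ (Ne.symm h)]
  · rfl
  · rfl
  · by_cases h : a = b
    · rw [h]
    · rw [(blk_ne v d).2 _ _ h, (blk_ne v d).2 _ _ (Ne.symm h)]

lemma blk_mulVec (v : P' → F → C) (d : P' ⊕ F → C) (w : F → C) (p : P') :
    (blk v d *ᵥ Sum.elim (fun _ => 0) w) (Sum.inl p) = v p ⬝ᵥ w := by
  rw [mulVec, dotProduct, Fintype.sum_sum_type, dotProduct]
  simp [blk]

end

/-- the bijection for the empty configuration -/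
def iso0 {P' K' F : Type} [Fintype P'] [Fintype F] [DecidableEq P'] [DecidableEq F]
    (S₁ : P' → F → Prop) (S₂ : K' → F → Prop)
    (E : (cf0 F).P ⊕ P' → (cf0 F).K ⊕ K' → Prop) :
    PIso (TT (patB S₁ S₂ E)) ((EX (cf0 F) S₁ S₂ E).aff (P' ⊕ F)) where
  fwd x := (⟨((), (fun p f => x.1.1 (Sum.inl p) (Sum.inr f)), fun k f => x.1.2 k (Sum.inr f)),
    fun p f h => x.2.zero (Sum.inl p) (Sum.inr f) (by simp) h,
    fun k f h => x.2.supp k (Sum.inr f) h, by
      rintro (p | p) (k | k) h
      · exact p.elim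
      · exact p.elim
      · exact k.elim
      · have h1 := x.2.inc k (Sum.inl p) h
        rw [mulVec, dotProduct, Fintype.sum_sum_type] at h1
        have h2 : ∑ p', x.1.1 (Sum.inl p) (Sum.inl p') * x.1.2 k (Sum.inl p') = 0 := by
          apply Finset.sum_eq_zero
          intro p' _
          rw [x.2.supp k (Sum.inl p') (fun h => h), mul_zero]
        rw [h2, zero_add] at h1
        exact h1⟩, fun a => x.1.1 a a)
  bwd y := ⟨(blk y.1.1.2.1 y.2, fun k => Sum.elim (fun _ => 0) (y.1.1.2.2 k)), blk_symm _ _, by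
    rintro (a | a) (b | b) h1 h2
    · exact (blk_ne _ _).1 _ _ fun h => h1 (congrArg Sum.inl h)
    · exact y.1.2.s1 a b h2
    · exact y.1.2.s1 b a h2
    · exact (blk_ne _ _).2 _ _ fun h => h1 (congrArg Sum.inr h), by
    rintro k (a | a) h
    · rfl
    · exact y.1.2.s2 k a h, by
    rintro k (a | a) h
    · rw [blk_mulVec]
      exact y.1.2.inc (Sum.inr a) (Sum.inr k) h
    · exact h.elim⟩
  left x := by
    apply Subtype.ext
    apply Prod.ext
    · ext a b
      rcases a with a | a <;> rcases b with b | b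
      · by_cases h : a = b
        · subst h
          exact blk_eq _ _ _
        · have h1 := x.2.zero (Sum.inl a) (Sum.inl b) (fun h2 => h (Sum.inl_injective h2))
            (fun h => h)
          exact ((blk_ne _ _).1 _ _ h).trans h1.symm
      · rfl
      · exact x.2.symm _ _
      · by_cases h : a = b
        · subst h
          exact blk_eq _ _ _
        · have h1 := x.2.zero (Sum.inr a) (Sum.inr b) (fun h2 => h (Sum.inr_injective h2))
            (fun h => h)
          exact ((blk_ne _ _).2 _ _ h).trans h1.symm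
    · funext k a
      rcases a with a | a
      · exact (x.2.supp k (Sum.inl a) (fun h => h)).symm
      · rfl
  right y := by
    apply Prod.ext
    · rfl
    · funext a
      exact blk_eq _ _ a
  nat _ _ := rfl

variable {R : Type} [CommRing R] {sep : Prop} {P : Sch R → Prop}

/-- The hypothesis: `P` is true for the sparse symmetric matrices with invertible determinant. -/
def Base (P : Sch R → Prop) : Prop :=
  ∀ (V : Type) [Fintype V] [DecidableEq V] (q : Pat V PEmpty), Holds P ((TT q).unit (matT q).det)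

lemma full_cf0 (hP : Mot sep P) (h0 : Base P) (F : Type) [Fintype F] : Full P (cf0 F) := by
  classical
  intro P' K' _ _ S₁ S₂ E
  have := Fintype.ofFinite P'
  have hn : (patB S₁ S₂ E).Nice := by
    rintro k (a | a) h1 h2
    · exact h2
    · exact h1
  exact ((holds_TT hP h0 (patB S₁ S₂ E) hn).congr (iso0 S₁ S₂ E)).of_aff hP
    (hasRep_EX (c := cf0 F) hasRep_PT _ _ _)

/-- the incidences before the normalisation -/
def gE {P' K' F : Type} (E : (cf1 F).P ⊕ P' → (cf1 F).K ⊕ K' → Prop) :
    (cf0 F).P ⊕ (Unit ⊕ P') → (cf0 F).K ⊕ K' → Prop :=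
  Sum.elim (fun p => p.elim) (Sum.elim (fun _ k => E (Sum.inl ()) k) fun p k => E (Sum.inr p) k)

/-- the normalised entries -/
def gU (P' F : Type) [Fintype F] [DecidableEq P'] [DecidableEq F] : Finset ((Unit ⊕ P') × F) :=
  Finset.univ.image fun f : F => (Sum.inl (), f)

lemma mem_gU {P' F : Type} [Fintype F] [DecidableEq P'] [DecidableEq F] (f : F) :
    ((Sum.inl (), f) : (Unit ⊕ P') × F) ∈ gU P' F :=
  Finset.mem_image.2 ⟨f, Finset.mem_univ _, rfl⟩

lemma dot_scale {F C : Type} [Fintype F] [CommRing C] (t : F → Cˣ) (v w : F → C) :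
    (fun f => v f * (t f : C)) ⬝ᵥ (fun f => w f * ((t f)⁻¹ : Cˣ)) = v ⬝ᵥ w := by
  rw [dotProduct, dotProduct]
  apply Finset.sum_congr rfl
  intro f _
  have h := (t f).mul_inv
  linear_combination (v f * w f) * h

lemma mul_unit_inv {C : Type} [CommRing C] (a : C) (u : Cˣ) (h : IsUnit (u : C)) :
    a * (u : C) * ((h.unit⁻¹ : Cˣ) : C) = a := by
  have h1 : h.unit = u := Units.ext rfl
  rw [h1, mul_assoc, Units.mul_inv, mul_one]

lemma mul_inv_unit {C : Type} [CommRing C] (a : C) (u : Cˣ) (h : IsUnit (u : C)) :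
    a * ((u⁻¹ : Cˣ) : C) * (h.unit : C) = a := by
  have h1 : h.unit = u := Units.ext rfl
  rw [h1, mul_assoc, Units.inv_mul, mul_one]

lemma unit_inv_map {C D : Type} [CommRing C] [CommRing D] (φ : C →+* D) {x : C} (h : IsUnit x)
    (h' : IsUnit (φ x)) : ((h'.unit⁻¹ : Dˣ) : D) = φ ((h.unit⁻¹ : Cˣ) : C) := by
  rw [← Ring.inverse_unit h'.unit, ← Ring.inverse_unit h.unit]
  exact rinv_map φ h

/-- the normalisation of the first row -/
noncomputable def gIso {P' K' F : Type} [Fintype F] [DecidableEq P'] [DecidableEq F]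
    (S₁ : P' → F → Prop) (S₂ : K' → F → Prop) (E : (cf1 F).P ⊕ P' → (cf1 F).K ⊕ K' → Prop) :
    PIso (EXU (cf0 F) (Sum.elim (fun _ _ => True) S₁) S₂ (gE E) (gU P' F))
      ((EX (cf1 F) S₁ S₂ E).tor F) where
  fwd {C} _ x := (⟨((), (fun p f => x.1.2.1 (Sum.inr p) f * (((x.2.2 _ (mem_gU f)).unit⁻¹ : Cˣ) : C)),
    fun k f => x.1.2.2 k f * ((x.2.2 _ (mem_gU f)).unit : C)), fun p f h => by
      change x.1.2.1 (Sum.inr p) f * _ = 0
      rw [x.2.1.s1 (Sum.inr p) f h, zero_mul], fun k f h => by
      change x.1.2.2 k f * _ = 0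
      rw [x.2.1.s2 k f h, zero_mul], by
      rintro (p | p) (k | k) h
      · exact k.elim
      · have h1 := x.2.1.inc (Sum.inr (Sum.inl ())) (Sum.inr k) h
        refine Eq.trans ?_ h1
        change (fun _ => (1 : C)) ⬝ᵥ (fun f => x.1.2.2 k f * x.1.2.1 (Sum.inl ()) f) =
          x.1.2.1 (Sum.inl ()) ⬝ᵥ x.1.2.2 k
        rw [dotProduct, dotProduct]
        apply Finset.sum_congr rfl
        intro f _
        ring
      · exact k.elim
      · have h1 := x.2.1.inc (Sum.inr (Sum.inr p)) (Sum.inr k) h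
        refine Eq.trans ?_ h1
        have h2 := dot_scale (fun f => (x.2.2 _ (mem_gU f)).unit) (x.1.2.2 k) (x.1.2.1 (Sum.inr p))
        rw [dotProduct_comm] at h2
        rw [dotProduct_comm (x.1.2.2 k)] at h2
        exact h2⟩,
    fun f => (x.2.2 _ (mem_gU f)).unit)
  bwd {C} _ y := ⟨((), Sum.elim (fun _ f => ((y.2 f : Cˣ) : C))
      (fun p f => y.1.1.2.1 p f * ((y.2 f : Cˣ) : C)),
    fun k f => y.1.1.2.2 k f * (((y.2 f)⁻¹ : Cˣ) : C)), ⟨by
      rintro (p | p) f h
      · exact absurd trivial h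
      · change y.1.1.2.1 p f * _ = 0
        rw [y.1.2.s1 p f h, zero_mul], fun k f h => by
      change y.1.1.2.2 k f * _ = 0
      rw [y.1.2.s2 k f h, zero_mul], by
      rintro (p | p | p) (k | k) h
      · exact p.elim
      · exact p.elim
      · exact k.elim
      · have h1 := y.1.2.inc (Sum.inl ()) (Sum.inr k) h
        refine Eq.trans ?_ h1
        change (fun f => ((y.2 f : Cˣ) : C)) ⬝ᵥ (fun f => y.1.1.2.2 k f * (((y.2 f)⁻¹ : Cˣ) : C)) =
          (fun _ => (1 : C)) ⬝ᵥ y.1.1.2.2 k
        have h2 := dot_scale y.2 (fun _ => (1 : C)) (y.1.1.2.2 k)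
        simp only [one_mul] at h2
        exact h2
      · exact k.elim
      · have h1 := y.1.2.inc (Sum.inr p) (Sum.inr k) h
        refine Eq.trans ?_ h1
        exact dot_scale y.2 (y.1.1.2.1 p) (y.1.1.2.2 k)⟩, fun b hb => by
      obtain ⟨f, -, rfl⟩ := Finset.mem_image.1 hb
      exact Units.isUnit _⟩
  left {C} _ x := by
    apply Subtype.ext
    apply Prod.ext
    · rfl
    · apply Prod.ext
      · funext p f
        rcases p with p | p
        · rfl
        · change x.1.2.1 (Sum.inr p) f * (((x.2.2 _ (mem_gU f)).unit⁻¹ : Cˣ) : C) *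
            ((x.2.2 _ (mem_gU f)).unit : C) = _
          rw [mul_assoc, Units.inv_mul, mul_one]
      · funext k f
        change x.1.2.2 k f * ((x.2.2 _ (mem_gU f)).unit : C) *
          (((x.2.2 _ (mem_gU f)).unit⁻¹ : Cˣ) : C) = _
        rw [mul_assoc, Units.mul_inv, mul_one]
  right {C} _ y := by
    apply Prod.ext
    · apply Subtype.ext
      apply Prod.ext
      · rfl
      · apply Prod.ext
        · funext p f
          exact mul_unit_inv _ _ _
        · funext k f
          exact mul_inv_unit _ _ _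
    · funext f
      exact Units.ext rfl
  nat {C D} _ _ φ x := by
    apply Prod.ext
    · apply Subtype.ext
      apply Prod.ext
      · rfl
      · apply Prod.ext
        · funext p f
          change φ (x.1.2.1 (Sum.inr p) f) * _ = φ (x.1.2.1 (Sum.inr p) f * _)
          rw [map_mul]
          congr 1
          exact unit_inv_map φ (x.2.2 _ (mem_gU f)) _
        · funext k f
          exact (map_mul φ _ _).symm
    · funext f
      exact Units.ext rfl

lemma full_cf1 (hP : Mot sep P) (h0 : Base P) (F : Type) [Fintype F] : Full P (cf1 F) := by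
  classical
  intro P' K' _ _ S₁ S₂ E
  have h1 := full_unit hP (full_cf0 hP h0 F) S₂ (gE E) (gU P' F) (Sum.elim (fun _ _ => True) S₁)
  exact (h1.congr (gIso S₁ S₂ E)).of_tor hP (hasRep_EX (c := cf1 F) hasRep_PT _ _ _)

end Pool.Agent.Helper3.GU
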