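import Pool.Agent.Helper3.GU.Pat

/-!
# Symmetric matrices with invertible determinant and sparse vectors
-/

set_option autoImplicit false

open CategoryTheory AlgebraicGeometry Pool.Agent.Y116.UV Pool.Agent.Q282.UK Matrix

namespace Pool.Agent.Helper3.GU

variable {V K : Type} [Fintype V] [DecidableEq V]

/-- extended patterns with invertible determinant and bordered matrices -/
def extDet (q : Pat V K) (J : V → Prop) :
    PIso ((TT (q.extend J)).unit (matT (q.extend J)).det) (Bord (matT q) J) where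
  fwd x := ⟨(((extIso q J).fwd x.1).1.1, (fun v => x.1.1.1 (Sum.inl v) (Sum.inr ())),
    x.1.1.1 (Sum.inr ()) (Sum.inr ())), fun v hv => x.1.2.zero (Sum.inl v) (Sum.inr ()) (by simp) hv,
    by
      have h := x.2
      change IsUnit (x.1.1.1).det at h
      rw [bd_eq x.1.1.1 x.1.2.symm] at h
      exact h⟩
  bwd y := ⟨(extIso q J).bwd ⟨(y.1.1, Sum.elim y.1.2.1 fun _ => y.1.2.2), fun v hv => y.2.1 v hv⟩,
    y.2.2⟩
  left x := by
    apply Subtype.ext
    apply Subtype.ext
    apply Prod.ext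
    · exact (bd_eq x.1.1.1 x.1.2.symm).symm
    · funext k v
      rcases v with v | v
      · rfl
      · exact (x.1.2.supp k (Sum.inr v) (fun h => h)).symm
  right y := by
    apply Subtype.ext
    rfl
  nat _ _ := rfl

/-- forget the vector `none` -/
def Pat.some' (q : Pat V (Option K)) : Pat V K where
  adj := q.adj
  S k := q.S (some k)
  E k := q.E (some k)

omit [DecidableEq V] in
lemma sub_mulVec {C : Type} [CommRing C] (A : Matrix (V ⊕ Unit) (V ⊕ Unit) C)
    (y : V ⊕ Unit → C) (v : V) : (A *ᵥ y) (Sum.inl v) =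
      (A.submatrix Sum.inl Sum.inl *ᵥ fun b => y (Sum.inl b)) v +
        A (Sum.inl v) (Sum.inr ()) * y (Sum.inr ()) := by
  rw [mulVec, dotProduct, Fintype.sum_sum_type, mulVec, dotProduct]
  congr 1
  simp

/-- the pattern of the extended matrices -/
def Pat.one (q : Pat V (Option K)) : Pat (V ⊕ Unit) K := q.some'.extend fun a => ¬ q.E none a

/-- the coordinates that vanish -/
def Pat.off (q : Pat V (Option K)) : V ⊕ Unit → Prop := Sum.elim (fun a => ¬ q.S none a) fun _ => False

lemma ker_ok (q : Pat V (Option K)) {C : Type} [CommRing C]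
    (x : (Ker (matT q.one) q.off (Sum.inr ())).pts C) :
    q.Ok (x.1.1.1.1.submatrix Sum.inl Sum.inl)
      (fun k v => k.elim (-(Ring.inverse (x.1.2.1 (Sum.inr ())) * x.1.2.1 (Sum.inl v)))
        fun k => x.1.1.1.2 k (Sum.inl v)) := by
  have hok := x.1.1.2
  have hz := ker_mul x.1.1.1.1 x.1.2.1 x.1.2.2 (Sum.inr ()) x.2.1.1 x.2.1.2.1 x.2.1.2.2 x.2.2.2
  refine ⟨fun a b => hok.symm _ _, fun a b h1 h2 => hok.zero (Sum.inl a) (Sum.inl b)
    (fun h3 => h1 (Sum.inl_injective h3)) h2, ?_, ?_⟩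
  · rintro (_ | k) v hv
    · have h1 : x.1.2.1 (Sum.inl v) = 0 := x.2.2.1 (Sum.inl v) hv
      change -(Ring.inverse (x.1.2.1 (Sum.inr ())) * x.1.2.1 (Sum.inl v)) = 0
      rw [h1, mul_zero, neg_zero]
    · exact hok.supp k (Sum.inl v) hv
  · rintro (_ | k) v hv
    · have h1 := hz (Sum.inl v)
      rw [sub_mulVec] at h1
      have h2 : x.1.1.1.1 (Sum.inl v) (Sum.inr ()) = 0 :=
        hok.zero (Sum.inl v) (Sum.inr ()) (by simp) (fun h => h hv)
      rw [h2, zero_mul, add_zero] at h1
      change (x.1.1.1.1.submatrix Sum.inl Sum.inl *ᵥ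
        fun v => -(Ring.inverse (x.1.2.1 (Sum.inr ())) * x.1.2.1 (Sum.inl v))) v = 0
      rw [mulVec_neg_mul, h1, mul_zero]
    · have h1 := hok.inc k (Sum.inl v) hv
      rw [sub_mulVec, hok.supp k (Sum.inr ()) (fun h => h), mul_zero, add_zero] at h1
      exact h1

lemma ker_det (q : Pat V (Option K)) {C : Type} [CommRing C]
    (x : (Ker (matT q.one) q.off (Sum.inr ())).pts C) :
    (x.1.1.1.1.submatrix Sum.inl Sum.inl).det =
      x.1.2.2 * x.1.2.1 (Sum.inr ()) * x.1.2.1 (Sum.inr ()) := by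
  have h1 := x.2.1.2.1 (Sum.inr ()) (Sum.inr ())
  change (x.1.1.1.1).adjugate (Sum.inr ()) (Sum.inr ()) = _ at h1
  rw [bd_eq x.1.1.1.1 x.1.1.2.symm, adjugate_bd] at h1
  exact h1

lemma bwd_ok (q : Pat V (Option K)) {C : Type} [CommRing C]
    (y : (((TT q).unit (matT q).det).tor PUnit).pts C) :
    q.one.Ok (kb y.1.1.1.1 (y.1.1.1.2 none))
      (fun k => Sum.elim (y.1.1.1.2 (some k)) fun _ => 0) := by
  have hok := y.1.1.2
  refine (ok_bd q.some' _ _ _ _ _).2 ⟨⟨hok.symm, hok.zero, fun k => hok.supp (some k),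
    fun k => hok.inc (some k)⟩, fun v hv => hok.inc none v ?_⟩
  exact not_not.1 hv

/-- the bijection for the induction step -/
noncomputable def kerIso (q : Pat V (Option K)) :
    PIso (Ker (matT q.one) q.off (Sum.inr ())) (((TT q).unit (matT q).det).tor PUnit) where
  fwd x := (⟨⟨(x.1.1.1.1.submatrix Sum.inl Sum.inl,
    fun k v => k.elim (-(Ring.inverse (x.1.2.1 (Sum.inr ())) * x.1.2.1 (Sum.inl v)))
        fun k => x.1.1.1.2 k (Sum.inl v)), ker_ok q x⟩, by
    change IsUnit (x.1.1.1.1.submatrix Sum.inl Sum.inl).det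
    rw [ker_det q x]
    exact (x.2.1.2.2.mul x.2.2.2).mul x.2.2.2⟩, fun _ => x.2.2.2.unit)
  bwd {C} _ y := ⟨(⟨(kb y.1.1.1.1 (y.1.1.1.2 none),
      fun k => Sum.elim (y.1.1.1.2 (some k)) fun _ => 0), bwd_ok q y⟩,
      fun a => (y.2 ⟨⟩ : Cˣ) * kv (y.1.1.1.2 none) a,
      (y.1.1.1.1).det * (((y.2 ⟨⟩)⁻¹ : Cˣ) * ((y.2 ⟨⟩)⁻¹ : Cˣ))),
    ⟨det_kb _ y.1.1.2.symm _, fun a b => by
      change (kb y.1.1.1.1 (y.1.1.1.2 none)).adjugate a b = _
      rw [adj_kb _ y.1.1.2.symm y.1.2]
      have h := Units.inv_mul (y.2 ⟨⟩)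
      linear_combination (-(y.1.1.1.1).det * kv (y.1.1.1.2 none) a * kv (y.1.1.1.2 none) b *
        ((((y.2 ⟨⟩)⁻¹ : Cˣ) : C) * (y.2 ⟨⟩ : Cˣ) + 1)) * h,
      y.1.2.mul (Units.isUnit _ |>.mul (Units.isUnit _))⟩, by
      rintro (a | a) ha
      · change _ * -(y.1.1.1.2 none a) = 0
        rw [y.1.1.2.supp none a ha, neg_zero, mul_zero]
      · exact ha.elim, by
      change IsUnit (((y.2 ⟨⟩ : Cˣ) : C) * 1)
      rw [mul_one]
      exact Units.isUnit _⟩
  left {C} _ x := by
    have hok := x.1.1.2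
    have hz := ker_mul x.1.1.1.1 x.1.2.1 x.1.2.2 (Sum.inr ()) x.2.1.1 x.2.1.2.1 x.2.1.2.2 x.2.2.2
    have hl : x.1.2.1 (Sum.inr ()) * Ring.inverse (x.1.2.1 (Sum.inr ())) = 1 :=
      Ring.mul_inverse_cancel _ x.2.2.2
    apply Subtype.ext
    apply Prod.ext
    · apply Subtype.ext
      apply Prod.ext
      · exact eq_kb _ hok.symm _ x.2.2.2 hz
      · funext k v
        rcases v with v | v
        · rfl
        · exact (hok.supp k (Sum.inr v) (fun h => h)).symm
    · apply Prod.ext
      · funext a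
        rcases a with a | a
        · change x.1.2.1 (Sum.inr ()) *
            -(-(Ring.inverse (x.1.2.1 (Sum.inr ())) * x.1.2.1 (Sum.inl a))) = x.1.2.1 (Sum.inl a)
          linear_combination (x.1.2.1 (Sum.inl a)) * hl
        · exact mul_one _
      · change (x.1.1.1.1.submatrix Sum.inl Sum.inl).det *
          ((((x.2.2.2.unit)⁻¹ : Cˣ) : C) * (((x.2.2.2.unit)⁻¹ : Cˣ) : C)) = x.1.2.2
        rw [ker_det q x]
        have h : x.1.2.1 (Sum.inr ()) * (((x.2.2.2.unit)⁻¹ : Cˣ) : C) = 1 :=
          x.2.2.2.unit.mul_inv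
        linear_combination (x.1.2.2 * (x.1.2.1 (Sum.inr ()) * (((x.2.2.2.unit)⁻¹ : Cˣ) : C) + 1)) * h
  right {C} _ y := by
    apply Prod.ext
    · apply Subtype.ext
      apply Subtype.ext
      apply Prod.ext
      · rfl
      · funext k v
        rcases k with _ | k
        · change -(Ring.inverse (((y.2 ⟨⟩ : Cˣ) : C) * 1) *
            (((y.2 ⟨⟩ : Cˣ) : C) * -(y.1.1.1.2 none v))) = y.1.1.1.2 none v
          rw [mul_one, Ring.inverse_unit]
          have h := Units.inv_mul (y.2 ⟨⟩)
          linear_combination (y.1.1.1.2 none v) * h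
        · rfl
    · funext _
      apply Units.ext
      exact mul_one _
  nat {C D} _ _ f x := by
    apply Prod.ext
    · apply Subtype.ext
      apply Subtype.ext
      apply Prod.ext
      · rfl
      · funext k v
        rcases k with _ | k
        · change -(Ring.inverse (f (x.1.2.1 (Sum.inr ()))) * f (x.1.2.1 (Sum.inl v))) =
            f (-(Ring.inverse (x.1.2.1 (Sum.inr ())) * x.1.2.1 (Sum.inl v)))
          rw [rinv_map f x.2.2.2, map_neg, map_mul]
        · rfl
    · funext _
      exact Units.ext rfl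

variable {R : Type} [CommRing R] {sep : Prop} {P : Sch R → Prop}

/-- Renaming the vectors. -/
def patK {K' : Type} (e : K ≃ K') (q : Pat V K') : PIso
    ((TT (⟨q.adj, fun k => q.S (e k), fun k => q.E (e k)⟩ : Pat V K)).unit (matT _).det)
    ((TT q).unit (matT q).det) where
  fwd x := ⟨⟨(x.1.1.1, fun k => x.1.1.2 (e.symm k)), ⟨x.1.2.symm, x.1.2.zero, fun k v h =>
    x.1.2.supp (e.symm k) v (by
      change ¬ q.S (e (e.symm k)) v
      rwa [e.apply_symm_apply]), fun k v h => x.1.2.inc (e.symm k) v (by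
      change q.E (e (e.symm k)) v
      rwa [e.apply_symm_apply])⟩⟩, x.2⟩
  bwd y := ⟨⟨(y.1.1.1, fun k => y.1.1.2 (e k)), ⟨y.1.2.symm, y.1.2.zero, fun k v h =>
    y.1.2.supp (e k) v h, fun k v h => y.1.2.inc (e k) v h⟩⟩, y.2⟩
  left x := by
    apply Subtype.ext
    apply Subtype.ext
    apply Prod.ext
    · rfl
    · funext k
      exact congrArg x.1.1.2 (e.symm_apply_apply k)
  right y := by
    apply Subtype.ext
    apply Subtype.ext
    apply Prod.ext
    · rfl
    · funext k
      exact congrArg y.1.1.2 (e.apply_symm_apply k)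
  nat _ _ := rfl

/-- **Sparse symmetric matrices with invertible determinant and sparse vectors with incidences.** If `P`
is true for the sparse symmetric matrices with invertible determinant, it is true for the pairs of such
a matrix and a family of vectors with prescribed zeros and incidences. -/
theorem holds_det (hP : Mot sep P)
    (h0 : ∀ (V : Type) [Fintype V] [DecidableEq V] (q : Pat V PEmpty),
      Holds P ((TT q).unit (matT q).det)) (K : Type) [Finite K] :
    ∀ (V : Type) [Fintype V] [DecidableEq V] (q : Pat V K), Holds P ((TT q).unit (matT q).det) := by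
  induction K using Finite.induction_empty_option with
  | of_equiv e ih =>
    intro V _ _ q
    exact (ih V _).congr (patK e q)
  | h_empty => exact h0
  | @h_option K _ ih =>
    intro V _ _ q
    have h1 := ih (V ⊕ Unit) q.one
    have h2 : Holds P (Bord (matT q.one) q.off) := (ih _ (q.one.extend q.off)).congr (extDet _ _)
    have h3 : Holds P (Bord (matT q.one) fun j => q.off j ∨ j = Sum.inr ()) :=
      (ih _ (q.one.extend fun j => q.off j ∨ j = Sum.inr ())).congr (extDet _ _)
    have h4 := holds_ker hP (hasRep_TT q.one) (matT q.one) q.off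
      (fun j => q.off j ∨ j = Sum.inr ()) (Sum.inr ()) (fun _ => Iff.rfl) h1 h2 h3
    exact (h4.congr (kerIso q)).of_tor hP ((hasRep_TT q).unit _)

end Pool.Agent.Helper3.GU
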