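import Pool.Agent.Helper3.GU.Rules

/-!
# Jouanolou's device relative to an open subscheme
-/

set_option autoImplicit false

open CategoryTheory AlgebraicGeometry Pool.Agent.Y116.UV Pool.Agent.Q282.UK

namespace Pool.Agent.Helper3.GU

variable {R : Type} [CommRing R] {sep : Prop} {P : Sch R → Prop}

lemma compact_ne {A : Type} [CommRing A] {m : ℕ} (f : Fin m → A) :
    IsCompact {x : PrimeSpectrum A | ∃ l, f l ∉ x.asIdeal} := by
  have h : {x : PrimeSpectrum A | ∃ l, f l ∉ x.asIdeal} =
      ⋃ l, (PrimeSpectrum.basicOpen (f l) : Set (PrimeSpectrum A)) := by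
    ext x
    simp only [Set.mem_ofPred_eq, Set.mem_iUnion]
    rfl
  rw [h]
  exact isCompact_iUnion fun l => PrimeSpectrum.isCompact_basicOpen (f l)

/-- The algebra of functions on `f = 0`, `g ≠ 0`. -/
abbrev LocQ {A : Type} [CommRing A] {m : ℕ} (f : Fin m → A) (g : A) : Type :=
  Localization.Away (Ideal.Quotient.mk (Ideal.span (Set.range f)) g)

section

variable {A : Type} [CommRing A] [Algebra R A] {m m' : ℕ} (f : Fin m → A) (f' : Fin m' → A) (g : A)

/-- the inclusion of `f = 0`, `g ≠ 0` in `Spec A` -/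
noncomputable def locMap : Pool.Agent.Y116.UV.aff R (LocQ f g) ⟶ Pool.Agent.Y116.UV.aff R A :=
  affMap (IsScalarTower.toAlgHom R (A ⧸ Ideal.span (Set.range f)) (LocQ f g)) ≫
    affMap (Ideal.Quotient.mkₐ R (Ideal.span (Set.range f)))

instance : IsPreimmersion (locMap (R := R) f g).left := by
  have h1 : IsOpenImmersion (affMap (IsScalarTower.toAlgHom R (A ⧸ Ideal.span (Set.range f))
      (LocQ f g))).left :=
    Scheme.isOpenImmersion_SpecMap_localizationAway (R := .of (A ⧸ Ideal.span (Set.range f)))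
      (Ideal.Quotient.mk (Ideal.span (Set.range f)) g)
  have h2 : IsClosedImmersion (affMap (R := R)
      (Ideal.Quotient.mkₐ R (Ideal.span (Set.range f)))).left :=
    closed_affMap _ (Ideal.Quotient.mkₐ_surjective R _)
  change IsPreimmersion ((affMap (IsScalarTower.toAlgHom R (A ⧸ Ideal.span (Set.range f))
      (LocQ f g))).left ≫ (affMap (Ideal.Quotient.mkₐ R (Ideal.span (Set.range f)))).left)
  infer_instance

lemma range_locMap : Set.range (locMap (R := R) f g).left =
    {x : PrimeSpectrum A | (∀ l, f l ∈ x.asIdeal) ∧ g ∉ x.asIdeal} := by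
  have h1 : Set.range (affMap (IsScalarTower.toAlgHom R (A ⧸ Ideal.span (Set.range f))
      (LocQ f g))).left = (PrimeSpectrum.basicOpen
        (Ideal.Quotient.mk (Ideal.span (Set.range f)) g) :
          Set (PrimeSpectrum (A ⧸ Ideal.span (Set.range f)))) :=
    PrimeSpectrum.localization_away_comap_range _ _
  have h2 : Set.range (locMap (R := R) f g).left =
      (affMap (R := R) (Ideal.Quotient.mkₐ R (Ideal.span (Set.range f)))).left ''
        (Set.range (affMap (IsScalarTower.toAlgHom R (A ⧸ Ideal.span (Set.range f))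
          (LocQ f g))).left) := by
    rw [← Set.range_comp]
    rfl
  rw [h2, h1]
  ext x
  constructor
  · rintro ⟨y, hy, rfl⟩
    refine ⟨fun l => ?_, hy⟩
    change Ideal.Quotient.mk (Ideal.span (Set.range f)) (f l) ∈ y.asIdeal
    have h6 : Ideal.Quotient.mk (Ideal.span (Set.range f)) (f l) = 0 :=
      Ideal.Quotient.eq_zero_iff_mem.2 (Ideal.subset_span (Set.mem_range_self l))
    rw [h6]
    exact y.asIdeal.zero_mem
  · rintro ⟨h3, h4⟩
    have h5 : x ∈ Set.range (affMap (R := R)
        (Ideal.Quotient.mkₐ R (Ideal.span (Set.range f)))).left := by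
      rw [range_affMap _ (Ideal.Quotient.mkₐ_surjective R _)]
      intro a ha
      rw [Ideal.Quotient.mkₐ_eq_mk, Ideal.Quotient.eq_zero_iff_mem] at ha
      refine (Ideal.span_le.mpr ?_ : Ideal.span (Set.range f) ≤ x.asIdeal) ha
      rintro _ ⟨l, rfl⟩
      exact h3 l
    obtain ⟨y, rfl⟩ := h5
    exact Set.mem_image_of_mem _ h4

variable (hr : Set.range f' = insert g (Set.range f))

include hr

lemma ne_iff (x : PrimeSpectrum A) :
    (∃ l, f' l ∉ x.asIdeal) ↔ (∃ l, f l ∉ x.asIdeal) ∨ g ∉ x.asIdeal := by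
  constructor
  · rintro ⟨l, hl⟩
    have h : f' l ∈ insert g (Set.range f) := by
      rw [← hr]
      exact ⟨l, rfl⟩
    rcases h with h | ⟨k, hk⟩
    · right
      rwa [← h]
    · left
      exact ⟨k, by rwa [hk]⟩
  · have h2 : ∀ a ∈ insert g (Set.range f), a ∉ x.asIdeal → ∃ l, f' l ∉ x.asIdeal := by
      intro a ha hx
      rw [← hr] at ha
      obtain ⟨l, rfl⟩ := ha
      exact ⟨l, hx⟩
    rintro (⟨l, hl⟩ | hg)
    · exact h2 _ (Or.inr ⟨l, rfl⟩) hl
    · exact h2 _ (Or.inl rfl) hg

lemma range_sub : Set.range (locMap (R := R) f g).left ⊆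
    Set.range (opnMap (Pool.Agent.Y116.UV.aff R A) (neOpen R f')).left := by
  rw [range_locMap, range_opnMap]
  rintro x ⟨-, h⟩
  exact (ne_iff f f' g hr x).2 (Or.inr h)

/-- the inclusion of `f = 0`, `g ≠ 0` in the complement of `f = g = 0` -/
noncomputable def locIn : Pool.Agent.Y116.UV.aff R (LocQ f g) ⟶
    opn (Pool.Agent.Y116.UV.aff R A) (neOpen R f') :=
  Over.homMk (IsOpenImmersion.lift (opnMap (Pool.Agent.Y116.UV.aff R A) (neOpen R f')).left
    (locMap (R := R) f g).left (range_sub f f' g hr)) (by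
      rw [← Over.w (opnMap (Pool.Agent.Y116.UV.aff R A) (neOpen R f')), ← Category.assoc,
        IsOpenImmersion.lift_fac]
      exact Over.w (locMap (R := R) f g))

lemma locIn_fac : (locIn (R := R) f f' g hr).left ≫
    (opnMap (Pool.Agent.Y116.UV.aff R A) (neOpen R f')).left = (locMap (R := R) f g).left :=
  IsOpenImmersion.lift_fac _ _ _

lemma le_ne : neOpen R f ≤ neOpen R f' := by
  intro x hx
  exact (ne_iff f f' g hr x).2 (Or.inl hx)

lemma range_locIn : Set.range (locIn (R := R) f f' g hr).left =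
    (neOpen R f').ι ⁻¹' ((neOpen R f : Set (Pool.Agent.Y116.UV.aff R A).left)ᶜ) := by
  ext x
  constructor
  · rintro ⟨y, rfl⟩
    have h1 : (neOpen R f').ι ((locIn (R := R) f f' g hr).left y) =
        (locMap (R := R) f g).left y := by
      rw [← locIn_fac f f' g hr]
      rfl
    have h2 : (locMap (R := R) f g).left y ∈ Set.range (locMap (R := R) f g).left := ⟨y, rfl⟩
    rw [range_locMap] at h2
    change ¬ ((neOpen R f').ι ((locIn (R := R) f f' g hr).left y) ∈ neOpen R f)
    rw [h1]
    rintro ⟨l, hl⟩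
    exact hl (h2.1 l)
  · intro hx
    have h1 : (neOpen R f').ι x ∈ {x : PrimeSpectrum A | ∃ l, f' l ∉ x.asIdeal} := x.2
    have h2 : (neOpen R f').ι x ∈ Set.range (locMap (R := R) f g).left := by
      rw [range_locMap]
      have h3 : ∀ l, f l ∈ PrimeSpectrum.asIdeal ((neOpen R f').ι x) := by
        intro l
        by_contra h
        exact hx ⟨l, h⟩
      refine ⟨h3, ?_⟩
      rcases (ne_iff f f' g hr _).1 h1 with ⟨l, hl⟩ | h
      · exact absurd (h3 l) hl
      · exact h
    obtain ⟨y, hy⟩ := h2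
    refine ⟨y, ?_⟩
    apply (neOpen R f').ι.isOpenEmbedding.injective
    rw [← hy, ← locIn_fac f f' g hr]
    rfl

lemma triple_loc : IsTriple (locIn (R := R) f f' g hr)
    (opnLe (Pool.Agent.Y116.UV.aff R A) (le_ne f f' g hr)) where
  closed := by
    have h1 : IsPreimmersion ((locIn (R := R) f f' g hr).left ≫
        (opnMap (Pool.Agent.Y116.UV.aff R A) (neOpen R f')).left) := by
      rw [locIn_fac]
      infer_instance
    have h2 : IsPreimmersion (locIn (R := R) f f' g hr).left :=
      IsPreimmersion.of_comp _ (opnMap (Pool.Agent.Y116.UV.aff R A) (neOpen R f')).left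
    apply IsClosedImmersion.of_isPreimmersion
    rw [range_locIn]
    exact (neOpen R f).2.isClosed_compl.preimage (neOpen R f').ι.continuous
  opened := inferInstance
  compl := by
    rw [range_locIn, range_opnLe]
    rfl

/-- If the affine bundles of Jouanolou over the complements of `f = 0` and of `f = g = 0` have the
property `P`, then the locally closed subscheme `f = 0`, `g ≠ 0` has the property `P`. -/
theorem jou_scheme [Algebra.FiniteType R A] (hP : Mot sep P)
    (h : P (Pool.Agent.Y116.UV.aff R (Jou f))) (h' : P (Pool.Agent.Y116.UV.aff R (Jou f'))) :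
    P (Pool.Agent.Y116.UV.aff R (LocQ f g)) := by
  have hU : P (opn (Pool.Agent.Y116.UV.aff R A) (neOpen R f)) :=
    hP.jouanolou A m f _ (opnMap _ _) inferInstance (range_opnMap _ _) h
  have hX : P (opn (Pool.Agent.Y116.UV.aff R A) (neOpen R f')) :=
    hP.jouanolou A m' f' _ (opnMap _ _) inferInstance (range_opnMap _ _) h'
  exact hP.closed _ _ (ft_opn (ft_aff sep) _ (compact_ne f')) (triple_loc f f' g hr) hX hU

end

/-! ### The rule in terms of functors -/

variable {F : PF}

lemma IsRep.jou {B : Type} [CommRing B] [Algebra R B] {b : F.pts B} (h : IsRep R F B b)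
    {m : ℕ} (g : Fin m → NF F) : ∃ q : (F.jou g).pts (Jou fun l => (g l).fn b),
      IsRep R (F.jou g) (Jou fun l => (g l).fn b) q := by
  let f : NF (F.aff (Fin m)) := ⟨fun p => ∑ l, (g l).fn p.1 * p.2 l - 1, fun f p => by
    change ∑ l, (g l).fn (F.map f p.1) * f (p.2 l) - 1 = _
    simp only [(g _).nat, ← map_mul, ← map_sum, map_sub, map_one]⟩
  have h3 : f.fn ((F.map MvPolynomial.C b, MvPolynomial.X) :
      (F.aff (Fin m)).pts (MvPolynomial (Fin m) B)) =
      ∑ l, MvPolynomial.C ((g l).fn b) * MvPolynomial.X l - 1 := by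
    change ∑ l, (g l).fn (F.map MvPolynomial.C b) * MvPolynomial.X l - 1 = _
    simp only [(g _).nat]
  have h1 := (h.aff (Fin m)).zero f h3
  let e : PIso ((F.aff (Fin m)).zero f) (F.jou g) :=
    ⟨fun p => ⟨p.1, sub_eq_zero.1 p.2⟩, fun p => ⟨p.1, sub_eq_zero.2 p.2⟩, fun _ => rfl,
      fun _ => rfl, fun _ _ => rfl⟩
  exact ⟨_, h1.congr e⟩

/-- Renaming the coordinates of the affine bundle. -/
def jouCongr (F : PF) {κ κ' : Type} [Fintype κ] [Fintype κ'] (e : κ' ≃ κ) (g : κ → NF F) :
    PIso (F.jou g) (F.jou (g ∘ e)) where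
  fwd p := ⟨(p.1.1, p.1.2 ∘ e), by
    have h : ∑ l, (g l).fn p.1.1 * p.1.2 l = 1 := p.2
    rw [← e.sum_comp] at h
    exact h⟩
  bwd p := ⟨(p.1.1, p.1.2 ∘ e.symm), by
    have h : ∑ l, (g (e l)).fn p.1.1 * p.1.2 l = 1 := p.2
    rw [← e.symm.sum_comp] at h
    change ∑ l, (g (e (e.symm l))).fn p.1.1 * p.1.2 (e.symm l) = 1 at h
    simp only [e.apply_symm_apply] at h
    exact h⟩
  left p := Subtype.ext (Prod.ext rfl (funext fun k => congrArg p.1.2 (e.apply_symm_apply k)))
  right p := Subtype.ext (Prod.ext rfl (funext fun k => congrArg p.1.2 (e.symm_apply_apply k)))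
  nat _ _ := rfl

/-- The restriction of a function. -/
def resZeros {κ : Type} (f : κ → NF F) (g : NF F) : NF (F.zeros f) where
  fn p := g.fn p.1
  nat φ p := g.nat φ p.1

/-- Two ways to describe `f = 0`, `g ≠ 0`. -/
def zuIso {κ : Type} (f : κ → NF F) (g : NF F) :
    PIso ((F.zeros f).unit (resZeros f g)) (F.zu f g) where
  fwd p := ⟨p.1.1, p.1.2, p.2⟩
  bwd p := ⟨⟨p.1, p.2.1⟩, p.2.2⟩
  left _ := rfl
  right _ := rfl
  nat _ _ := rfl

/-- Renaming the equations. -/
def zuCongr {κ κ' : Type} (e : κ' ≃ κ) (f : κ → NF F) (g : NF F) :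
    PIso (F.zu (f ∘ e) g) (F.zu f g) where
  fwd p := ⟨p.1, fun k => by
    have h := p.2.1 (e.symm k)
    rwa [Function.comp_apply, e.apply_symm_apply] at h, p.2.2⟩
  bwd p := ⟨p.1, fun k => p.2.1 (e k), p.2.2⟩
  left _ := rfl
  right _ := rfl
  nat _ _ := rfl

lemma IsRep.zu {B : Type} [CommRing B] [Algebra R B] {b : F.pts B} (h : IsRep R F B b)
    {m : ℕ} (f : Fin m → NF F) (g : NF F) : ∃ q : (F.zu f g).pts (LocQ (fun l => (f l).fn b)
      (g.fn b)), IsRep R (F.zu f g) (LocQ (fun l => (f l).fn b) (g.fn b)) q :=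
  ⟨_, ((h.zeros f).unit (resZeros f g) (g.nat _ b)).congr (zuIso f g)⟩

/-- **The rule of Jouanolou.** From the affine bundles over the complements of `f = 0` and of
`f = g = 0` to the locally closed subscheme `f = 0`, `g ≠ 0`. -/
theorem jou_rule (hP : Mot sep P) (hF : HasRep R F) {κ κ' : Type} [Fintype κ] [Fintype κ']
    (f : κ → NF F) (f' : κ' → NF F) (g : NF F) (hr : Set.range f' = insert g (Set.range f))
    (h : Holds P (F.jou f)) (h' : Holds P (F.jou f')) :
    Holds P (F.zu f g) := by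
  obtain ⟨B, i1, i2, i3, b, hb⟩ := hF
  let e := (Fintype.equivFin κ).symm
  let e' := (Fintype.equivFin κ').symm
  have hm : Set.range (fun l => (f' (e' l)).fn b) =
      insert (g.fn b) (Set.range fun l => (f (e l)).fn b) := by
    have h1 : Set.range (fun l => (f' (e' l)).fn b) = (fun u : NF F => u.fn b) '' Set.range f' := by
      rw [← Set.range_comp, ← e'.surjective.range_comp ((fun u : NF F => u.fn b) ∘ f')]
      rfl
    have h2 : Set.range (fun l => (f (e l)).fn b) = (fun u : NF F => u.fn b) '' Set.range f := by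
      rw [← Set.range_comp, ← e.surjective.range_comp ((fun u : NF F => u.fn b) ∘ f)]
      rfl
    rw [h1, h2, hr, Set.image_insert_eq]
  obtain ⟨q, hq⟩ := hb.jou (f ∘ e)
  obtain ⟨q', hq'⟩ := hb.jou (f' ∘ e')
  have h1 := (h.congr (jouCongr F e f)).of_rep hP hq
  have h2 := (h'.congr (jouCongr F e' f')).of_rep hP hq'
  have h3 := jou_scheme (fun l => (f (e l)).fn b) (fun l => (f' (e' l)).fn b) (g.fn b) hm hP h1 h2
  obtain ⟨q2, h4⟩ := hb.zu (f ∘ e) g
  exact ⟨_, inferInstance, inferInstance, ft_loc _ _, _, h4.congr (zuCongr e f g), h3⟩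

end Pool.Agent.Helper3.GU
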