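import Pool.Agent.Helper3.GU.SDefs

/-!
# Objects of a category of motives that come from a finite list of graphs: definitions
-/

set_option autoImplicit false

open CategoryTheory AlgebraicGeometry Pool.Agent.Y116.UV Pool.Agent.Q193.LT

universe v u

namespace Pool.Agent.Helper3.GU

/-- The objects `H^i_c(X)` for the point `X = Spec k` and for the schemes `X = F n G` attached to the
simple graphs `G` of the list `L`. -/
def OfList {k : Type} [Field k] {A : Type u} [Category.{v} A] (D : CompactData k A)
    (L : List (Σ n : ℕ, SimpleGraph (Fin (n + 1))))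
    (F : ∀ n : ℕ, SimpleGraph (Fin (n + 1)) → Sch k) (N : A) : Prop :=
  (∃ i : ℤ, N = D.H i (aff k k)) ∨ ∃ G ∈ L, ∃ i : ℤ, N = D.H i (F G.1 G.2)

/-- The objects `H^i_c(X)` for one scheme `X`. -/
def OfScheme {k : Type} [Field k] {A : Type u} [Category.{v} A] (D : CompactData k A)
    (X : Sch k) (N : A) : Prop := ∃ i : ℤ, N = D.H i X

end Pool.Agent.Helper3.GU
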