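import Pool.Agent.Helper3.GU.Sym

/-!
# The leading coefficient of a linear polynomial

If the property is true where `x A + B`, `B`, `x y A + (x + y) B` are invertible then it is true where
`A` is invertible.
-/

set_option autoImplicit false

open CategoryTheory AlgebraicGeometry Pool.Agent.Y116.UV Pool.Agent.Q282.UK Matrix

namespace Pool.Agent.Helper3.GU

/-- The function `x A + B`. -/
def lnF {F : PF} (A B : NF F) : NF (F.aff PUnit) where
  fn p := p.2 ⟨⟩ * A.fn p.1 + B.fn p.1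
  nat f p := by
    change f (p.2 ⟨⟩) * A.fn (F.map f p.1) + B.fn (F.map f p.1) = _
    rw [A.nat, B.nat, map_add, map_mul]

/-- The function `x B`. -/
def mlF {F : PF} (B : NF F) : NF (F.aff PUnit) where
  fn p := p.2 ⟨⟩ * B.fn p.1
  nat f p := by
    change f (p.2 ⟨⟩) * B.fn (F.map f p.1) = _
    rw [B.nat, map_mul]

/-- The function `A` on the set where `x A + B` is invertible. -/
def onL {F : PF} (A B : NF F) : NF ((F.aff PUnit).unit (lnF A B)) where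
  fn p := A.fn p.1.1
  nat f p := A.nat f p.1.1

/-- The function `A` on the set where `B` is invertible. -/
def onB {F : PF} (A B : NF F) : NF (F.unit B) where
  fn p := A.fn p.1
  nat f p := A.nat f p.1

/-- the part where `A` is invertible -/
noncomputable def linUnit {F : PF} (A B : NF F) :
    PIso (((F.aff PUnit).unit (lnF A B)).unit (onL A B)) ((F.unit A).tor PUnit) where
  fwd p := (⟨p.1.1.1, p.2⟩, fun _ => p.1.2.unit)
  bwd {C} _ y := ⟨⟨(y.1.1, fun _ => Ring.inverse (A.fn y.1.1) * ((y.2 ⟨⟩ : Cˣ) - B.fn y.1.1)), by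
    change IsUnit (Ring.inverse (A.fn y.1.1) * ((y.2 ⟨⟩ : Cˣ) - B.fn y.1.1) * A.fn y.1.1 + B.fn y.1.1)
    have h : Ring.inverse (A.fn y.1.1) * A.fn y.1.1 = 1 := Ring.inverse_mul_cancel _ y.1.2
    have h2 : Ring.inverse (A.fn y.1.1) * ((y.2 ⟨⟩ : Cˣ) - B.fn y.1.1) * A.fn y.1.1 + B.fn y.1.1 =
        (y.2 ⟨⟩ : Cˣ) := by
      linear_combination (((y.2 ⟨⟩ : Cˣ) : C) - B.fn y.1.1) * h
    rw [h2]
    exact Units.isUnit _⟩, y.1.2⟩
  left {C} _ p := by
    apply Subtype.ext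
    apply Subtype.ext
    apply Prod.ext
    · rfl
    · funext _
      change Ring.inverse (A.fn p.1.1.1) * ((p.1.1.2 ⟨⟩ * A.fn p.1.1.1 + B.fn p.1.1.1) -
        B.fn p.1.1.1) = p.1.1.2 ⟨⟩
      have h : Ring.inverse (A.fn p.1.1.1) * A.fn p.1.1.1 = 1 := Ring.inverse_mul_cancel _ p.2
      linear_combination (p.1.1.2 ⟨⟩) * h
  right {C} _ y := by
    apply Prod.ext
    · rfl
    · funext _
      apply Units.ext
      change Ring.inverse (A.fn y.1.1) * ((y.2 ⟨⟩ : Cˣ) - B.fn y.1.1) * A.fn y.1.1 + B.fn y.1.1 =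
        (y.2 ⟨⟩ : Cˣ)
      have h : Ring.inverse (A.fn y.1.1) * A.fn y.1.1 = 1 := Ring.inverse_mul_cancel _ y.1.2
      linear_combination (((y.2 ⟨⟩ : Cˣ) : C) - B.fn y.1.1) * h
  nat f p := by
    apply Prod.ext
    · rfl
    · funext _
      apply Units.ext
      exact (lnF A B).nat f p.1.1

/-- the part where `A` vanishes -/
def linZero {F : PF} (A B : NF F) :
    PIso (((F.aff PUnit).unit (lnF A B)).zero (onL A B)) (((F.unit B).zero (onB A B)).aff PUnit) where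
  fwd p := (⟨⟨p.1.1.1, by
    have h := p.1.2
    have h0 : A.fn p.1.1.1 = 0 := p.2
    change IsUnit (p.1.1.2 ⟨⟩ * A.fn p.1.1.1 + B.fn p.1.1.1) at h
    rw [h0, mul_zero, zero_add] at h
    exact h⟩, p.2⟩, p.1.1.2)
  bwd y := ⟨⟨(y.1.1.1, y.2), by
    have h0 : A.fn y.1.1.1 = 0 := y.1.2
    change IsUnit (y.2 ⟨⟩ * A.fn y.1.1.1 + B.fn y.1.1.1)
    rw [h0, mul_zero, zero_add]
    exact y.1.1.2⟩, y.1.2⟩
  left _ := rfl
  right _ := rfl
  nat _ _ := rfl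

/-- the part of the line where `x B` is invertible and `x A + B = 0` -/
noncomputable def bothIso {F : PF} (A B : NF F) :
    PIso (((F.aff PUnit).unit (mlF B)).zero (onB (lnF A B) (mlF B))) ((F.unit B).unit (onB A B)) where
  fwd {C} _ p := ⟨⟨p.1.1.1, isUnit_of_mul_isUnit_right p.1.2⟩, by
    have h0 : p.1.1.2 ⟨⟩ * A.fn p.1.1.1 + B.fn p.1.1.1 = 0 := p.2
    have h1 : IsUnit (p.1.1.2 ⟨⟩ * B.fn p.1.1.1) := p.1.2
    have h2 : IsUnit (B.fn p.1.1.1) := isUnit_of_mul_isUnit_right h1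
    have h3 : p.1.1.2 ⟨⟩ * A.fn p.1.1.1 = -B.fn p.1.1.1 := by linear_combination h0
    have h4 : IsUnit (p.1.1.2 ⟨⟩ * A.fn p.1.1.1) := by
      rw [h3]
      exact h2.neg
    exact isUnit_of_mul_isUnit_right h4⟩
  bwd {C} _ y := ⟨⟨(y.1.1, fun _ => -(Ring.inverse (A.fn y.1.1) * B.fn y.1.1)),
    ((rinv_unit y.2).mul y.1.2).neg.mul y.1.2⟩, by
      change -(Ring.inverse (A.fn y.1.1) * B.fn y.1.1) * A.fn y.1.1 + B.fn y.1.1 = 0
      have h : Ring.inverse (A.fn y.1.1) * A.fn y.1.1 = 1 := Ring.inverse_mul_cancel _ y.2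
      linear_combination (-(B.fn y.1.1)) * h⟩
  left {C} _ p := by
    have h0 : p.1.1.2 ⟨⟩ * A.fn p.1.1.1 + B.fn p.1.1.1 = 0 := p.2
    have h1 : IsUnit (p.1.1.2 ⟨⟩ * B.fn p.1.1.1) := p.1.2
    have h2 : IsUnit (B.fn p.1.1.1) := isUnit_of_mul_isUnit_right h1
    have h3 : p.1.1.2 ⟨⟩ * A.fn p.1.1.1 = -B.fn p.1.1.1 := by linear_combination h0
    have h4 : IsUnit (p.1.1.2 ⟨⟩ * A.fn p.1.1.1) := by
      rw [h3]
      exact h2.neg
    have h5 : IsUnit (A.fn p.1.1.1) := isUnit_of_mul_isUnit_right h4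
    have h : Ring.inverse (A.fn p.1.1.1) * A.fn p.1.1.1 = 1 := Ring.inverse_mul_cancel _ h5
    apply Subtype.ext
    apply Subtype.ext
    apply Prod.ext
    · rfl
    · funext _
      change -(Ring.inverse (A.fn p.1.1.1) * B.fn p.1.1.1) = p.1.1.2 ⟨⟩
      linear_combination (p.1.1.2 ⟨⟩) * h - (Ring.inverse (A.fn p.1.1.1)) * h0
  right _ := rfl
  nat _ _ := rfl

/-- The function `x y A + (x + y) B`. -/
def plF {F : PF} (A B : NF F) : NF ((F.aff PUnit).aff PUnit) where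
  fn p := p.2 ⟨⟩ * p.1.2 ⟨⟩ * A.fn p.1.1 + (p.2 ⟨⟩ + p.1.2 ⟨⟩) * B.fn p.1.1
  nat f p := by
    change f (p.2 ⟨⟩) * f (p.1.2 ⟨⟩) * A.fn (F.map f p.1.1) + (f (p.2 ⟨⟩) + f (p.1.2 ⟨⟩)) *
      B.fn (F.map f p.1.1) = _
    rw [A.nat, B.nat, map_add, map_mul, map_mul, map_mul, map_add]

variable {R : Type} [CommRing R] {sep : Prop} {P : Sch R → Prop}

/-- **The leading coefficient.** -/
theorem holds_lead (hP : Mot sep P) {F : PF} (hF : HasRep R F) (A B : NF F)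
    (h1 : Holds P ((F.aff PUnit).unit (lnF A B))) (h2 : Holds P (F.unit B))
    (h3 : Holds P (((F.aff PUnit).aff PUnit).unit (plF A B))) : Holds P (F.unit A) := by
  have h4 : Holds P (((F.aff PUnit).aff PUnit).unit (lnF (lnF A B) (mlF B))) := by
    refine h3.congr ⟨fun p => ⟨p.1, ?_⟩, fun p => ⟨p.1, ?_⟩, fun _ => rfl, fun _ => rfl,
      fun _ _ => rfl⟩
    · have h := p.2
      change IsUnit (p.1.2 ⟨⟩ * (p.1.1.2 ⟨⟩ * A.fn p.1.1.1 + B.fn p.1.1.1) +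
        p.1.1.2 ⟨⟩ * B.fn p.1.1.1)
      change IsUnit (p.1.2 ⟨⟩ * p.1.1.2 ⟨⟩ * A.fn p.1.1.1 + (p.1.2 ⟨⟩ + p.1.1.2 ⟨⟩) *
        B.fn p.1.1.1) at h
      convert h using 1
      ring
    · have h := p.2
      change IsUnit (p.1.2 ⟨⟩ * (p.1.1.2 ⟨⟩ * A.fn p.1.1.1 + B.fn p.1.1.1) +
        p.1.1.2 ⟨⟩ * B.fn p.1.1.1) at h
      change IsUnit (p.1.2 ⟨⟩ * p.1.1.2 ⟨⟩ * A.fn p.1.1.1 + (p.1.2 ⟨⟩ + p.1.1.2 ⟨⟩) *
        B.fn p.1.1.1)
      convert h using 1
      ring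
  have h5 : Holds P ((((F.aff PUnit).aff PUnit).unit (lnF (lnF A B) (mlF B))).unit
      (onL (lnF A B) (mlF B))) := (h1.tor hP PUnit).congr (linUnit (lnF A B) (mlF B)).symm
  have h6 := (h4.closed hP _ h5).congr (linZero (lnF A B) (mlF B))
  have h7 := (h6.of_aff hP ((hF.aff PUnit).unit (mlF B) |>.zero _)).congr (bothIso A B)
  have h8 := h2.closed hP (onB A B) h7
  have h9 := (h8.aff hP PUnit).congr (linZero A B).symm
  have h10 := (h1.opened hP _ h9).congr (linUnit A B)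
  exact h10.of_tor hP (hF.unit A)

end Pool.Agent.Helper3.GU
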