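import Pool.Agent.Helper3.GU.Fin

/-!
# Finitely many graphs for each scheme

For each scheme of finite type there is a finite list of graphs such that every property with the closure
properties that holds for the graph hypersurfaces of the list holds for the scheme.
-/

set_option autoImplicit false

open CategoryTheory AlgebraicGeometry Pool.Agent.Y116.UV Pool.Agent.Z125.UN Pool.Agent.Q193.LT

namespace Pool.Agent.Helper3.GU

/-- A finite list of graphs `G` with the vertices `0, …, n` (for some `n`) and at most three neighbours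
of each vertex. -/
def IsList (L : List (Σ n : ℕ, SimpleGraph (Fin (n + 1)))) : Prop := ∀ G ∈ L, Subcubic G.2

variable {R : Type} [CommRing R] {sep : Prop}

/-- The schemes that are decided by finitely many schemes of a family. -/
def Star (sep : Prop) (F : ∀ n : ℕ, SimpleGraph (Fin (n + 1)) → Sch R) (X : Sch R) : Prop :=
  ∃ L : List (Σ n : ℕ, SimpleGraph (Fin (n + 1))), IsList L ∧
    ∀ P : Sch R → Prop, Mot sep P → (∀ G ∈ L, P (F G.1 G.2)) → P X

variable {F : ∀ n : ℕ, SimpleGraph (Fin (n + 1)) → Sch R}

lemma Star.map {X Y : Sch R} (h : Star sep F X) (hXY : ∀ P : Sch R → Prop, Mot sep P → P X → P Y) :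
    Star sep F Y := by
  obtain ⟨L, hL, h⟩ := h
  exact ⟨L, hL, fun P hP hG => hXY P hP (h P hP hG)⟩

lemma Star.map₂ {X Y Z : Sch R} (hX : Star sep F X) (hY : Star sep F Y)
    (h : ∀ P : Sch R → Prop, Mot sep P → P X → P Y → P Z) : Star sep F Z := by
  obtain ⟨L, hL, hX⟩ := hX
  obtain ⟨L', hL', hY⟩ := hY
  refine ⟨L ++ L', fun G hG => ?_, fun P hP hG => h P hP (hX P hP fun G h1 => hG G ?_)
    (hY P hP fun G h1 => hG G ?_)⟩
  · rcases List.mem_append.1 hG with hG | hG
    · exact hL G hG
    · exact hL' G hG
  · exact List.mem_append.2 (Or.inl h1)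
  · exact List.mem_append.2 (Or.inr h1)

theorem mot_star : Mot sep (Star sep F) where
  iso hX e h := h.map fun _ hP => hP.iso hX e
  total i j hX ht hZ hU := hZ.map₂ hU fun _ hP => hP.total i j hX ht
  opened i j hX ht hZ hX' := hZ.map₂ hX' fun _ hP => hP.opened i j hX ht
  closed i j hX ht hX' hU := hX'.map₂ hU fun _ hP => hP.closed i j hX ht
  space n := ⟨[], fun G hG => absurd hG (by simp), fun _ hP _ => hP.space n⟩
  jouanolou B _ _ _ m f U j hj hr h := h.map fun _ hP => hP.jouanolou B m f U j hj hr
  torus B _ _ _ h := h.map fun _ hP => hP.torus B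
  line B _ _ _ h := h.map fun _ hP => hP.line B

lemma star_self {n : ℕ} {G : SimpleGraph (Fin (n + 1))} (hG : Subcubic G) :
    Star sep F (F n G) :=
  ⟨[⟨n, G⟩], fun G' h => by rw [List.mem_singleton.1 h]; exact hG,
    fun _ _ h => h ⟨n, G⟩ (List.mem_singleton.2 rfl)⟩

/-- **Finitely many graphs.** Let `R` be a ring such that all algebras of finite type have presentations
with coefficients `0` and `1`. For each scheme `X` of finite type over `R` there is a finite list `L` of
graphs with at most three neighbours of each vertex such that every property with the closure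
properties `Mot` that holds for the schemes of one of the four kinds attached to the graphs in `L` holds
for `X`. -/
theorem finite_list (hR : Presents ({0, 1} : Set R)) (X : Sch R) (hX : FT sep X) :
    ∃ L : List (Σ n : ℕ, SimpleGraph (Fin (n + 1))), IsList L ∧
      ∀ P : Sch R → Prop, Mot sep P →
        ((∀ G ∈ L, P (graphS R G.2)) ∨ (∀ G ∈ L, P (graphH R G.2)) ∨
          (∀ G ∈ L, P (graphT R G.2)) ∨ ∀ G ∈ L, P (feynmanT R G.2)) → P X := by
  have h1 : Star sep (fun _ G => graphS R G) X :=
    universal_S mot_star hR (fun n G hG => star_self (F := fun _ G => graphS R G) hG) X hX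
  have h3 : Star sep (fun _ G => graphT R G) X :=
    universal_T mot_star hR (fun n G hG => star_self (F := fun _ G => graphT R G) hG) X hX
  have h4 : Star sep (fun _ G => feynmanT R G) X :=
    universal_Y mot_star hR (fun n G hG => star_self (F := fun _ G => feynmanT R G) hG) X hX
  obtain ⟨L1, hL1, h1⟩ := h1
  obtain ⟨L3, hL3, h3⟩ := h3
  obtain ⟨L4, hL4, h4⟩ := h4
  refine ⟨L1 ++ (L3 ++ L4), fun G hG => ?_, fun P hP h => ?_⟩
  · rcases List.mem_append.1 hG with hG | hG
    · exact hL1 G hG
    · rcases List.mem_append.1 hG with hG | hG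
      · exact hL3 G hG
      · exact hL4 G hG
  · rcases h with h | h | h | h
    · exact h1 P hP fun G hG => h G (List.mem_append.2 (Or.inl hG))
    · exact h1 P hP fun G hG => (graphH_iff hP G.2).1 (h G (List.mem_append.2 (Or.inl hG)))
    · exact h3 P hP fun G hG =>
        h G (List.mem_append.2 (Or.inr (List.mem_append.2 (Or.inl hG))))
    · exact h4 P hP fun G hG =>
        h G (List.mem_append.2 (Or.inr (List.mem_append.2 (Or.inr hG))))

end Pool.Agent.Helper3.GU
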