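import Pool.Agent.Helper3.GU.Lst

/-!
# Statements about one variety and finitely many graphs
-/

set_option autoImplicit false

open CategoryTheory AlgebraicGeometry Pool.Agent.Y116.UV Pool.Agent.Z125.UN Pool.Agent.Q193.LT

universe w w'

namespace Pool.Agent.Helper3.GU

variable {R : Type} [CommRing R] {sep : Prop}

/-- The six statements about a statement `Q`, a property `P` of schemes and a finite list of graphs. -/
def ListStatements (Q : Prop) (P : Sch R → Prop)
    (L : List (Σ n : ℕ, SimpleGraph (Fin (n + 1)))) : List Prop :=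
  [Q, ∀ X : Sch R, FT True X → P X, ∀ G ∈ L, P (graphS R G.2), ∀ G ∈ L, P (graphH R G.2),
    ∀ G ∈ L, P (graphT R G.2), ∀ G ∈ L, P (feynmanT R G.2)]

/-- **One variety and finitely many graphs.** For each scheme `S` of finite type over `R` there is a
finite list of graphs such that, for all properties `P` with the closure properties and all statements `Q`
which follow from `P(S)` and imply `P(X)` for all `X`, the six statements are equivalent. -/
theorem list_tfae (hR : Presents ({0, 1} : Set R)) (S : Sch R) (hS : FT True S) :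
    ∃ L : List (Σ n : ℕ, SimpleGraph (Fin (n + 1))), IsList L ∧
      ∀ (P : Sch R → Prop), Mot True P → ∀ Q : Prop, (P S → Q) → (Q → ∀ X, FT True X → P X) →
        (ListStatements Q P L).TFAE := by
  obtain ⟨L, hL, h⟩ := finite_list hR S hS
  refine ⟨L, hL, fun P hP Q h1 h2 => ?_⟩
  unfold ListStatements
  tfae_have 1 → 2 := h2
  tfae_have 2 → 3 := fun h G _ => h _ (ft_aff True)
  tfae_have 3 ↔ 4 := ⟨fun h G hG => (graphH_iff hP G.2).2 (h G hG),
    fun h G hG => (graphH_iff hP G.2).1 (h G hG)⟩
  tfae_have 2 → 5 := fun h G _ => h _ (ft_aff True)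
  tfae_have 2 → 6 := fun h G _ => h _ (ft_aff True)
  tfae_have 3 → 1 := fun h' => h1 (h P hP (Or.inl h'))
  tfae_have 5 → 1 := fun h' => h1 (h P hP (Or.inr (Or.inr (Or.inl h'))))
  tfae_have 6 → 1 := fun h' => h1 (h P hP (Or.inr (Or.inr (Or.inr h'))))
  tfae_finish

/-- The version for comparison maps over prime fields. -/
theorem list_pair {k : Type} [Field k] [PerfectField k] (hF : Frac k) (S : Sch k)
    (hS : SmoothProj S) :
    ∃ L : List (Σ n : ℕ, SimpleGraph (Fin (n + 1))), IsList L ∧
      ∀ {ι : Type} {E : Type w'} [CommRing E] (C : PairData.{w} k ι E) {δ τ σ : ι ≃ ι},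
        WeightGen C → IsPair C δ τ σ → BijAll C (aff k k) →
        ∀ Q : Prop, (BijAll C S → Q) → (Q → ∀ Y, SmoothProj Y → BijAll C Y) →
        (ListStatements Q (BijAll C) L).TFAE := by
  obtain ⟨L, hL, h⟩ := list_tfae (presents_frac hF) S hS.ft
  exact ⟨L, hL, fun {ι E} _ C {δ τ σ} hg hC h1 Q hQ1 hQ2 => h (BijAll C) (mot_of_bnd (bnd_pair hC h1)) Q hQ1
    fun hQ => (all_iff (bnd_pair hC h1)).mpr ((wg_all hg hC h1).mp (hQ2 hQ))⟩

end Pool.Agent.Helper3.GU
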