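import Pool.Agent.Helper3.GU.Bord

/-!
# Symmetric matrices with prescribed zeros and vectors with prescribed zeros and incidences
-/

set_option autoImplicit false

open CategoryTheory AlgebraicGeometry Pool.Agent.Y116.UV Pool.Agent.Q282.UK Matrix

namespace Pool.Agent.Helper3.GU

/-! ### Linear algebra -/

section

variable {V C : Type} [Fintype V] [DecidableEq V] [CommRing C]

lemma ker_mul (A : Matrix V V C) (g : V → C) (δ : C) (i : V) (h0 : A.det = 0)
    (h : ∀ a b, A.adjugate a b = δ * g a * g b) (hδ : IsUnit δ) (hi : IsUnit (g i)) (a : V) :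
    (A *ᵥ g) a = 0 := by
  have h1 : (A * A.adjugate) a i = 0 := by
    rw [mul_adjugate, h0, zero_smul]
    rfl
  have h2 : (A * A.adjugate) a i = (A *ᵥ g) a * (δ * g i) := by
    rw [mul_apply, mulVec, dotProduct, Finset.sum_mul]
    apply Finset.sum_congr rfl
    intro b _
    rw [h]
    ring
  rw [h2] at h1
  exact (hδ.mul hi).mul_left_eq_zero.1 h1

lemma mulVec_inj (M : Matrix V V C) (h : IsUnit M.det) (y : V → C) (hy : ∀ v, (M *ᵥ y) v = 0)
    (v : V) : y v = 0 := by
  have h1 : M *ᵥ y = 0 := funext hy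
  have h2 : M.adjugate *ᵥ (M *ᵥ y) = M.det • y := by
    rw [mulVec_mulVec, adjugate_mul, smul_mulVec, one_mulVec]
  rw [h1, mulVec_zero] at h2
  have h3 := congrFun h2.symm v
  rw [Pi.smul_apply, smul_eq_mul] at h3
  exact h.mul_right_eq_zero.1 h3

lemma bd_mulVec_inl (M : Matrix V V C) (u w : V → C) (c : C) (y : V ⊕ Unit → C) (v : V) :
    (bd M u w c *ᵥ y) (Sum.inl v) = (M *ᵥ fun b => y (Sum.inl b)) v + u v * y (Sum.inr ()) := by
  rw [mulVec, dotProduct, Fintype.sum_sum_type, mulVec, dotProduct]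
  congr 1
  simp [bd]

lemma bd_mulVec_inr (M : Matrix V V C) (u w : V → C) (c : C) (y : V ⊕ Unit → C) :
    (bd M u w c *ᵥ y) (Sum.inr ()) = (w ⬝ᵥ fun b => y (Sum.inl b)) + c * y (Sum.inr ()) := by
  rw [mulVec, dotProduct, Fintype.sum_sum_type, dotProduct]
  congr 1
  simp [bd]

lemma bd_symm (M : Matrix V V C) (h : ∀ a b, M a b = M b a) (u : V → C) (c : C)
    (a b : V ⊕ Unit) : bd M u u c a b = bd M u u c b a := by
  rcases a with a | a <;> rcases b with b | b
  · exact h a b
  · rfl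
  · rfl
  · rfl

lemma mulVec_add_mul (M : Matrix V V C) (x y : V → C) (t : C) (v : V) :
    (M *ᵥ fun b => x b + y b * t) v = (M *ᵥ x) v + (M *ᵥ y) v * t := by
  rw [mulVec, dotProduct, mulVec, dotProduct, mulVec, dotProduct, Finset.sum_mul,
    ← Finset.sum_add_distrib]
  apply Finset.sum_congr rfl
  intro b _
  ring

lemma mulVec_neg_mul (M : Matrix V V C) (x : V → C) (t : C) (v : V) :
    (M *ᵥ fun b => -(t * x b)) v = -t * (M *ᵥ x) v := by
  rw [mulVec, dotProduct, mulVec, dotProduct, Finset.mul_sum]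
  apply Finset.sum_congr rfl
  intro b _
  ring

/-- the generator of the kernel -/
def kv (γ : V → C) : V ⊕ Unit → C := Sum.elim (fun a => -γ a) fun _ => 1

/-- the bordered matrix with the kernel vector `(-γ, 1)` -/
def kb (M : Matrix V V C) (γ : V → C) : Matrix (V ⊕ Unit) (V ⊕ Unit) C :=
  bd M (M *ᵥ γ) (M *ᵥ γ) (γ ⬝ᵥ (M *ᵥ γ))

lemma det_kb (M : Matrix V V C) (h : ∀ a b, M a b = M b a) (γ : V → C) : (kb M γ).det = 0 := by
  rw [kb, det_bd, mulVec_mulVec, adjugate_mul, smul_mulVec, one_mulVec, dotProduct_smul,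
    smul_eq_mul, dotProduct_comm γ, mul_comm]
  exact sub_self _

lemma adj_kb (M : Matrix V V C) (h : ∀ a b, M a b = M b a) (hM : IsUnit M.det) (γ : V → C)
    (a b : V ⊕ Unit) : (kb M γ).adjugate a b = M.det * kv γ a * kv γ b := by
  have hs : ∀ a b, (kb M γ) a b = (kb M γ) b a := bd_symm M h _ _
  have h0 : (kb M γ).det = 0 := det_kb M h γ
  have h1 : ∀ a x, (kb M γ).adjugate a x = kv γ a * (kb M γ).adjugate (Sum.inr ()) x := by
    intro a x
    rcases a with a | a
    · have h2 : ∀ v, (M *ᵥ fun b => (kb M γ).adjugate (Sum.inl b) x +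
          γ b * (kb M γ).adjugate (Sum.inr ()) x) v = 0 := by
        intro v
        have h3 : (kb M γ * (kb M γ).adjugate) (Sum.inl v) x = 0 := by
          rw [mul_adjugate, h0, zero_smul]
          rfl
        have h4 : (kb M γ * (kb M γ).adjugate) (Sum.inl v) x =
            (kb M γ *ᵥ fun b => (kb M γ).adjugate b x) (Sum.inl v) := rfl
        rw [h4, kb, bd_mulVec_inl] at h3
        rw [mulVec_add_mul]
        exact h3
      have h3 := mulVec_inj M hM _ h2 a
      change (kb M γ).adjugate (Sum.inl a) x = -γ a * (kb M γ).adjugate (Sum.inr ()) x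
      linear_combination h3
    · change _ = 1 * _
      rw [one_mul]
  rw [h1, adj_symm _ hs, h1]
  have h2 : (kb M γ).adjugate (Sum.inr ()) (Sum.inr ()) = M.det := adjugate_bd M _ _ _
  rw [h2]
  ring

omit [Fintype V] [DecidableEq V] [CommRing C] in
lemma bd_eq (A : Matrix (V ⊕ Unit) (V ⊕ Unit) C) (h : ∀ a b, A a b = A b a) :
    A = bd (A.submatrix Sum.inl Sum.inl) (fun a => A (Sum.inl a) (Sum.inr ()))
      (fun a => A (Sum.inl a) (Sum.inr ())) (A (Sum.inr ()) (Sum.inr ())) := by
  ext a b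
  rcases a with a | a <;> rcases b with b | b
  · rfl
  · rfl
  · exact h _ _
  · rfl

/-- a symmetric bordered matrix with kernel vector `g` -/
lemma eq_kb (A : Matrix (V ⊕ Unit) (V ⊕ Unit) C) (h : ∀ a b, A a b = A b a)
    (g : V ⊕ Unit → C) (hg : IsUnit (g (Sum.inr ()))) (hA : ∀ a, (A *ᵥ g) a = 0) :
    kb (A.submatrix Sum.inl Sum.inl)
      (fun a => -(Ring.inverse (g (Sum.inr ())) * g (Sum.inl a))) = A := by
  have hl : g (Sum.inr ()) * Ring.inverse (g (Sum.inr ())) = 1 := Ring.mul_inverse_cancel _ hg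
  have h1 : ∀ a, (A.submatrix Sum.inl Sum.inl *ᵥ
      fun a => -(Ring.inverse (g (Sum.inr ())) * g (Sum.inl a))) a = A (Sum.inl a) (Sum.inr ()) := by
    intro a
    have h2 := hA (Sum.inl a)
    rw [bd_eq A h, bd_mulVec_inl] at h2
    rw [mulVec_neg_mul]
    change (A.submatrix Sum.inl Sum.inl *ᵥ fun b => g (Sum.inl b)) a +
      A (Sum.inl a) (Sum.inr ()) * g (Sum.inr ()) = 0 at h2
    linear_combination (-(Ring.inverse (g (Sum.inr ())))) * h2 + (A (Sum.inl a) (Sum.inr ())) * hl
  have h4 : (fun a => -(Ring.inverse (g (Sum.inr ())) * g (Sum.inl a))) ⬝ᵥ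
      (fun a => A (Sum.inl a) (Sum.inr ())) = A (Sum.inr ()) (Sum.inr ()) := by
    have h2 := hA (Sum.inr ())
    rw [bd_eq A h, bd_mulVec_inr] at h2
    change ((fun a => A (Sum.inl a) (Sum.inr ())) ⬝ᵥ fun b => g (Sum.inl b)) +
      A (Sum.inr ()) (Sum.inr ()) * g (Sum.inr ()) = 0 at h2
    have h3 : (fun a => -(Ring.inverse (g (Sum.inr ())) * g (Sum.inl a))) ⬝ᵥ
        (fun a => A (Sum.inl a) (Sum.inr ())) = -(Ring.inverse (g (Sum.inr ()))) *
        ((fun a => A (Sum.inl a) (Sum.inr ())) ⬝ᵥ fun b => g (Sum.inl b)) := by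
      rw [dotProduct, dotProduct, Finset.mul_sum]
      apply Finset.sum_congr rfl
      intro b _
      ring
    rw [h3]
    linear_combination (-(Ring.inverse (g (Sum.inr ())))) * h2 + (A (Sum.inr ()) (Sum.inr ())) * hl
  rw [kb, funext h1, h4]
  exact (bd_eq A h).symm

end

/-! ### The functors -/

/-- Prescribed zeros of a symmetric matrix, prescribed zeros of vectors, and incidences. -/
structure Pat (V K : Type) where
  /-- the places off the diagonal where the matrix is arbitrary -/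
  adj : V → V → Prop
  /-- the supports of the vectors -/
  S : K → V → Prop
  /-- the incidences -/
  E : K → V → Prop

/-- The matrix is symmetric, its entries off the diagonal are zero outside `q.adj`, the vectors are
supported in `q.S`, and the products of the vector `k` with the rows in `q.E k` are zero. -/
structure Pat.Ok {V K C : Type} [Fintype V] [CommRing C] (q : Pat V K) (M : Matrix V V C)
    (g : K → V → C) : Prop where
  symm : ∀ a b, M a b = M b a
  zero : ∀ a b, a ≠ b → ¬ q.adj a b → M a b = 0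
  supp : ∀ k v, ¬ q.S k v → g k v = 0
  inc : ∀ k v, q.E k v → (M *ᵥ g k) v = 0

/-- The functor of the pairs `(M, g)`. -/
def TT {V K : Type} [Fintype V] (q : Pat V K) : PF where
  pts C _ := {x : Matrix V V C × (K → V → C) // q.Ok x.1 x.2}
  map f x := ⟨(x.1.1.map f, fun k v => f (x.1.2 k v)), ⟨fun a b => by
      change f _ = f _
      rw [x.2.symm], fun a b h1 h2 => by
      change f _ = 0
      rw [x.2.zero a b h1 h2, map_zero], fun k v h => by
      change f _ = 0
      rw [x.2.supp k v h, map_zero], fun k v h => by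
      have h1 := RingHom.map_mulVec f x.1.1 (x.1.2 k) v
      rw [x.2.inc k v h, map_zero] at h1
      exact h1.symm⟩⟩
  map_id _ := rfl
  map_comp _ _ _ := rfl

/-- The matrix. -/
def matT {V K : Type} [Fintype V] (q : Pat V K) : NM (TT q) V where
  fn x := x.1.1
  nat _ _ := rfl
  symm x := x.2.symm

/-- The point. -/
def PT : PF where
  pts _ _ := Unit
  map _ _ := ()
  map_id _ := rfl
  map_comp _ _ _ := rfl

variable {R : Type} [CommRing R] {sep : Prop} {P : Sch R → Prop}

lemma rep_PT : IsRep R PT R () := by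
  intro C _ _ p
  exact ⟨Algebra.ofId R C, rfl, fun ψ _ => Subsingleton.elim _ _⟩

lemma hasRep_PT : HasRep R PT := ⟨R, inferInstance, inferInstance, inferInstance, (), rep_PT⟩

lemma hasRep_TT {V K : Type} [Fintype V] [Finite K] (q : Pat V K) : HasRep R (TT q) := by
  let F : PF := PT.aff ((V × V) ⊕ (K × V))
  let m : ∀ {C : Type} [CommRing C], F.pts C → Matrix V V C := fun p a b => p.2 (Sum.inl (a, b))
  let v : ∀ {C : Type} [CommRing C], F.pts C → K → V → C := fun p k b => p.2 (Sum.inr (k, b))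
  let e : ((V × V) ⊕ {p : V × V // p.1 ≠ p.2 ∧ ¬ q.adj p.1 p.2}) ⊕
      ({p : K × V // ¬ q.S p.1 p.2} ⊕ {p : K × V // q.E p.1 p.2}) → NF F := Sum.elim
    (Sum.elim
      (fun p => ⟨fun x => m x p.1 p.2 - m x p.2 p.1, fun f x => (map_sub f _ _).symm⟩)
      (fun p => ⟨fun x => m x p.1.1 p.1.2, fun f x => rfl⟩))
    (Sum.elim
      (fun p => ⟨fun x => v x p.1.1 p.1.2, fun f x => rfl⟩)
      (fun p => ⟨fun x => (m x *ᵥ v x p.1.1) p.1.2, fun f x =>
        (RingHom.map_mulVec f (m x) (v x p.1.1) p.1.2).symm⟩))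
  refine ((hasRep_PT.aff ((V × V) ⊕ (K × V))).zeros e).congr
    ⟨fun x => ⟨(m x.1, v x.1), ?_, ?_, ?_, ?_⟩,
      fun y => ⟨((), Sum.elim (fun p => y.1.1 p.1 p.2) fun p => y.1.2 p.1 p.2), ?_⟩, ?_,
      fun _ => rfl, fun _ _ => rfl⟩
  · intro a b
    exact sub_eq_zero.1 (x.2 (Sum.inl (Sum.inl (a, b))))
  · intro a b h1 h2
    exact x.2 (Sum.inl (Sum.inr ⟨(a, b), h1, h2⟩))
  · intro k b h
    exact x.2 (Sum.inr (Sum.inl ⟨(k, b), h⟩))
  · intro k b h
    exact x.2 (Sum.inr (Sum.inr ⟨(k, b), h⟩))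
  · rintro ((⟨a, b⟩ | ⟨⟨a, b⟩, h1, h2⟩) | (⟨⟨k, b⟩, h⟩ | ⟨⟨k, b⟩, h⟩))
    · exact sub_eq_zero.2 (y.2.symm a b)
    · exact y.2.zero a b h1 h2
    · exact y.2.supp k b h
    · exact y.2.inc k b h
  · intro C _ x
    apply Subtype.ext
    apply Prod.ext
    · rfl
    · funext j
      rcases j with j | j <;> rfl

/-- One more vertex, which is adjacent to the vertices in `J`. -/
def Pat.extend {V K : Type} (q : Pat V K) (J : V → Prop) : Pat (V ⊕ Unit) K where
  adj a b := Sum.elim (fun a => Sum.elim (fun b => q.adj a b) (fun _ => J a) b)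
    (fun _ => Sum.elim (fun b => J b) (fun _ => True) b) a
  S k := Sum.elim (q.S k) fun _ => False
  E k := Sum.elim (q.E k) fun _ => False

section

variable {V K : Type} [Fintype V]

lemma ok_bd (q : Pat V K) (J : V → Prop) {C : Type} [CommRing C] (M : Matrix V V C)
    (g : K → V → C) (u : V → C) (c : C) :
    (q.extend J).Ok (bd M u u c) (fun k => Sum.elim (g k) fun _ => 0) ↔
      q.Ok M g ∧ ∀ v, ¬ J v → u v = 0 := by
  constructor
  · intro h
    refine ⟨⟨fun a b => h.symm (Sum.inl a) (Sum.inl b), fun a b h1 h2 =>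
      h.zero (Sum.inl a) (Sum.inl b) (fun h3 => h1 (Sum.inl_injective h3)) h2,
      fun k v h1 => h.supp k (Sum.inl v) h1, fun k v h1 => ?_⟩, fun v hv =>
      h.zero (Sum.inl v) (Sum.inr ()) (by simp) hv⟩
    have h2 := h.inc k (Sum.inl v) h1
    classical
    rw [bd_mulVec_inl] at h2
    simpa using h2
  · rintro ⟨h, hu⟩
    refine ⟨?_, ?_, ?_, ?_⟩
    · classical
      exact bd_symm M h.symm u c
    · rintro (a | a) (b | b) h1 h2
      · exact h.zero a b (fun h3 => h1 (congrArg Sum.inl h3)) h2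
      · exact hu a h2
      · exact hu b h2
      · exact absurd trivial h2
    · rintro k (v | v) h1
      · exact h.supp k v h1
      · rfl
    · rintro k (v | v) h1
      · classical
        rw [bd_mulVec_inl]
        have h2 := h.inc k v h1
        simpa using h2
      · exact h1.elim

/-- the pairs for the extended pattern -/
def extIso (q : Pat V K) (J : V → Prop) : PIso (TT (q.extend J))
    (((TT q).aff (V ⊕ Unit)).sub (fun x => ∀ v, ¬ J v → x.2 (Sum.inl v) = 0)
      (fun f x h v hv => by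
        change f _ = 0
        rw [h v hv, map_zero])) where
  fwd x := ⟨(⟨(x.1.1.submatrix Sum.inl Sum.inl, fun k v => x.1.2 k (Sum.inl v)), by
      have h1 : x.1.2 = fun k => Sum.elim (fun v => x.1.2 k (Sum.inl v)) fun _ => 0 := by
        funext k v
        rcases v with v | v
        · rfl
        · exact x.2.supp k (Sum.inr v) (fun h => h)
      have h2 := x.2
      classical
      rw [bd_eq x.1.1 x.2.symm, h1] at h2
      exact ((ok_bd q J _ _ _ _).1 h2).1⟩,
    Sum.elim (fun v => x.1.1 (Sum.inl v) (Sum.inr ())) fun _ => x.1.1 (Sum.inr ()) (Sum.inr ())),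
    fun v hv => x.2.zero (Sum.inl v) (Sum.inr ()) (by simp) hv⟩
  bwd y := ⟨(bd y.1.1.1.1 (fun v => y.1.2 (Sum.inl v)) (fun v => y.1.2 (Sum.inl v))
    (y.1.2 (Sum.inr ())), fun k => Sum.elim (y.1.1.1.2 k) fun _ => 0),
    (ok_bd q J _ _ _ _).2 ⟨y.1.1.2, y.2⟩⟩
  left x := by
    apply Subtype.ext
    apply Prod.ext
    · exact (bd_eq x.1.1 x.2.symm).symm
    · funext k v
      rcases v with v | v
      · rfl
      · exact (x.2.supp k (Sum.inr v) (fun h => h)).symm
  right y := by
    apply Subtype.ext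
    apply Prod.ext
    · rfl
    · funext v
      rcases v with v | v <;> rfl
  nat f x := by
    apply Subtype.ext
    apply Prod.ext
    · rfl
    · funext v
      rcases v with v | v <;> rfl

end

end Pool.Agent.Helper3.GU
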