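import Pool.Graph.R_seed8.Q282.UK.Bil

/-!
# Functors of points and the schemes that represent them

Functors from commutative rings to sets, the algebras of finite type that represent them over a ring
`R`, and the closure rules of a property of schemes in terms of functors.
-/

set_option autoImplicit false

open CategoryTheory AlgebraicGeometry Pool.Agent.Y116.UV Pool.Agent.Q282.UK

namespace Pool.Agent.Helper3.GU

/-- A functor from commutative rings to sets. -/
structure PF : Type 1 where
  /-- the points with values in a ring -/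
  pts : ∀ (C : Type) [CommRing C], Type
  /-- the map of points of a homomorphism -/
  map : ∀ {C D : Type} [CommRing C] [CommRing D], (C →+* D) → pts C → pts D
  map_id : ∀ {C : Type} [CommRing C] (p : pts C), map (RingHom.id C) p = p
  map_comp : ∀ {C D E : Type} [CommRing C] [CommRing D] [CommRing E] (f : C →+* D) (g : D →+* E)
    (p : pts C), map (g.comp f) p = map g (map f p)

/-- A natural function on a functor. -/
structure NF (F : PF) where
  /-- the function -/
  fn : ∀ {C : Type} [CommRing C], F.pts C → C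
  nat : ∀ {C D : Type} [CommRing C] [CommRing D] (f : C →+* D) (p : F.pts C),
    fn (F.map f p) = f (fn p)

/-- A natural bijection. -/
structure PIso (F G : PF) where
  /-- the map -/
  fwd : ∀ {C : Type} [CommRing C], F.pts C → G.pts C
  /-- the inverse map -/
  bwd : ∀ {C : Type} [CommRing C], G.pts C → F.pts C
  left : ∀ {C : Type} [CommRing C] (p : F.pts C), bwd (fwd p) = p
  right : ∀ {C : Type} [CommRing C] (q : G.pts C), fwd (bwd q) = q
  nat : ∀ {C D : Type} [CommRing C] [CommRing D] (f : C →+* D) (p : F.pts C),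
    fwd (F.map f p) = G.map f (fwd p)

/-- The inverse of a natural bijection. -/
def PIso.symm {F G : PF} (e : PIso F G) : PIso G F where
  fwd := e.bwd
  bwd := e.fwd
  left := e.right
  right := e.left
  nat f q := by
    have h := e.nat f (e.bwd q)
    rw [e.right] at h
    rw [← h, e.left]

/-- Composition of natural bijections. -/
def PIso.trans {F G H : PF} (e : PIso F G) (e' : PIso G H) : PIso F H where
  fwd p := e'.fwd (e.fwd p)
  bwd q := e.bwd (e'.bwd q)
  left p := by rw [e'.left, e.left]
  right q := by rw [e.right, e'.right]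
  nat f p := by rw [e.nat, e'.nat]

/-- The subfunctor of the points with a stable property. -/
def PF.sub (F : PF) (Q : ∀ {C : Type} [CommRing C], F.pts C → Prop)
    (hQ : ∀ {C D : Type} [CommRing C] [CommRing D] (f : C →+* D) (p : F.pts C),
      Q p → Q (F.map f p)) : PF where
  pts C _ := {p : F.pts C // Q p}
  map f p := ⟨F.map f p.1, hQ f p.1 p.2⟩
  map_id p := Subtype.ext (F.map_id p.1)
  map_comp f g p := Subtype.ext (F.map_comp f g p.1)

/-- The points where the functions `g k` vanish. -/
def PF.zeros (F : PF) {κ : Type} (g : κ → NF F) : PF :=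
  F.sub (fun p => ∀ k, (g k).fn p = 0) (fun f p h k => by rw [(g k).nat, h k, map_zero])

/-- The points where the function `g` vanishes. -/
def PF.zero (F : PF) (g : NF F) : PF :=
  F.sub (fun p => g.fn p = 0) (fun f p h => by rw [g.nat, h, map_zero])

/-- The points where the function `g` is invertible. -/
def PF.unit (F : PF) (g : NF F) : PF :=
  F.sub (fun p => IsUnit (g.fn p)) (fun f p h => by rw [g.nat]; exact h.map f)

/-- The points where the functions `f k` vanish and the function `g` is invertible. -/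
def PF.zu (F : PF) {κ : Type} (f : κ → NF F) (g : NF F) : PF :=
  F.sub (fun p => (∀ k, (f k).fn p = 0) ∧ IsUnit (g.fn p)) (fun φ p h =>
    ⟨fun k => by rw [(f k).nat, h.1 k, map_zero], by rw [g.nat]; exact h.2.map φ⟩)

/-- The product with an affine space. -/
def PF.aff (F : PF) (κ : Type) : PF where
  pts C _ := F.pts C × (κ → C)
  map f p := (F.map f p.1, f ∘ p.2)
  map_id p := Prod.ext (F.map_id p.1) rfl
  map_comp f g p := Prod.ext (F.map_comp f g p.1) rfl

/-- The product with a torus. -/
def PF.tor (F : PF) (κ : Type) : PF where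
  pts C _ := F.pts C × (κ → Cˣ)
  map f p := (F.map f p.1, fun k => Units.map (f : _ →* _) (p.2 k))
  map_id p := Prod.ext (F.map_id p.1) (funext fun k => Units.ext rfl)
  map_comp f g p := Prod.ext (F.map_comp f g p.1) (funext fun k => Units.ext rfl)

/-- The affine bundle `∑ f_l w_l = 1`. -/
def PF.jou (F : PF) {κ : Type} [Fintype κ] (g : κ → NF F) : PF :=
  (F.aff κ).sub (fun p => ∑ l, (g l).fn p.1 * p.2 l = 1) (fun f p h => by
    change ∑ l, (g l).fn (F.map f p.1) * f (p.2 l) = 1
    simp only [(g _).nat, ← map_mul, ← map_sum, h, map_one])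

/-- The restriction of a natural function to a subfunctor. -/
def NF.res {F : PF} (g : NF F) (Q : ∀ {C : Type} [CommRing C], F.pts C → Prop)
    (hQ : ∀ {C D : Type} [CommRing C] [CommRing D] (f : C →+* D) (p : F.pts C),
      Q p → Q (F.map f p)) : NF (F.sub Q hQ) where
  fn p := g.fn p.1
  nat f p := g.nat f p.1

/-- The algebra `B` represents the functor `F` over `R`. -/
def IsRep (R : Type) [CommRing R] (F : PF) (B : Type) [CommRing B] [Algebra R B] (b : F.pts B) :
    Prop :=
  ∀ (C : Type) [CommRing C] [Algebra R C] (p : F.pts C),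
    ∃! φ : B →ₐ[R] C, F.map (φ : B →+* C) b = p

section

variable {R : Type} [CommRing R] {F G : PF} {B B' : Type} [CommRing B] [Algebra R B]
  [CommRing B'] [Algebra R B']

lemma IsRep.iso {b : F.pts B} {b' : F.pts B'} (h : IsRep R F B b) (h' : IsRep R F B' b') :
    Nonempty (B ≃ₐ[R] B') := by
  obtain ⟨φ, hφ, -⟩ := h B' b'
  obtain ⟨ψ, hψ, -⟩ := h' B b
  have h1 : ψ.comp φ = AlgHom.id R B := by
    refine (h B b).unique ?_ (F.map_id b)
    change F.map ((ψ : B' →+* B).comp (φ : B →+* B')) b = b
    rw [F.map_comp, hφ, hψ]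
  have h2 : φ.comp ψ = AlgHom.id R B' := by
    refine (h' B' b').unique ?_ (F.map_id b')
    change F.map ((φ : B →+* B').comp (ψ : B' →+* B)) b' = b'
    rw [F.map_comp, hψ, hφ]
  exact ⟨AlgEquiv.ofAlgHom φ ψ h2 h1⟩

lemma IsRep.congr {b : F.pts B} (h : IsRep R F B b) (e : PIso F G) : IsRep R G B (e.fwd b) := by
  intro C _ _ q
  obtain ⟨φ, hφ, hu⟩ := h C (e.bwd q)
  refine ⟨φ, ?_, ?_⟩
  · change G.map _ (e.fwd b) = q
    rw [← e.nat, hφ, e.right]
  · intro ψ hψ
    apply hu
    rw [← hψ, ← e.nat, e.left]

lemma IsRep.zeros {b : F.pts B} (h : IsRep R F B b) {κ : Type} (g : κ → NF F) :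
    IsRep R (F.zeros g) (B ⧸ Ideal.span (Set.range fun k => (g k).fn b))
      ⟨F.map (Ideal.Quotient.mk _) b, fun k => by
        rw [(g k).nat]
        exact Ideal.Quotient.eq_zero_iff_mem.2 (Ideal.subset_span ⟨k, rfl⟩)⟩ := by
  intro C _ _ p
  obtain ⟨φ, hφ, hu⟩ := h C p.1
  refine ⟨Ideal.Quotient.liftₐ _ φ ?_, ?_, ?_⟩
  · intro a ha
    have h1 : Ideal.span (Set.range fun k => (g k).fn b) ≤ RingHom.ker φ := by
      rw [Ideal.span_le]
      rintro _ ⟨k, rfl⟩
      change (φ : B →+* C) ((g k).fn b) = 0
      rw [← (g k).nat, hφ]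
      exact p.2 k
    exact h1 ha
  · apply Subtype.ext
    change F.map _ (F.map _ b) = p.1
    rw [← F.map_comp]
    exact hφ
  · intro ψ hψ
    have h2 : F.map ((RingHomClass.toRingHom ψ).comp (Ideal.Quotient.mk _)) b = p.1 := by
      rw [F.map_comp]
      exact congrArg Subtype.val hψ
    apply Ideal.Quotient.algHom_ext
    have h3 := hu (ψ.comp (Ideal.Quotient.mkₐ R _)) h2
    rw [h3]
    rfl

lemma IsRep.zero {b : F.pts B} (h : IsRep R F B b) (g : NF F) {w : B} (hw : g.fn b = w) :
    IsRep R (F.zero g) (B ⧸ Ideal.span {w})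
      ⟨F.map (Ideal.Quotient.mk _) b, by
        change g.fn (F.map _ b) = 0
        rw [g.nat, hw]
        exact Ideal.Quotient.eq_zero_iff_mem.2 (Ideal.mem_span_singleton_self _)⟩ := by
  intro C _ _ p
  obtain ⟨φ, hφ, hu⟩ := h C p.1
  refine ⟨Ideal.Quotient.liftₐ _ φ ?_, ?_, ?_⟩
  · intro a ha
    have h1 : Ideal.span {w} ≤ RingHom.ker φ := by
      rw [Ideal.span_le, Set.singleton_subset_iff, ← hw]
      change (φ : B →+* C) (g.fn b) = 0
      rw [← g.nat, hφ]
      exact p.2
    exact h1 ha
  · apply Subtype.ext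
    change F.map _ (F.map _ b) = p.1
    rw [← F.map_comp]
    exact hφ
  · intro ψ hψ
    have h2 : F.map ((RingHomClass.toRingHom ψ).comp (Ideal.Quotient.mk _)) b = p.1 := by
      rw [F.map_comp]
      exact congrArg Subtype.val hψ
    apply Ideal.Quotient.algHom_ext
    have h3 := hu (ψ.comp (Ideal.Quotient.mkₐ R _)) h2
    rw [h3]
    rfl

lemma IsRep.unit {b : F.pts B} (h : IsRep R F B b) (g : NF F) {w : B} (hw : g.fn b = w) :
    IsRep R (F.unit g) (Localization.Away w)
      ⟨F.map (algebraMap B _) b, by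
        change IsUnit (g.fn (F.map _ b))
        rw [g.nat, hw]
        exact IsLocalization.map_units _ (⟨w, Submonoid.mem_powers w⟩ : Submonoid.powers w)⟩ := by
  intro C _ _ p
  obtain ⟨φ, hφ, hu⟩ := h C p.1
  have h1 : IsUnit (φ w) := by
    rw [← hw]
    change IsUnit ((φ : B →+* C) (g.fn b))
    rw [← g.nat, hφ]
    exact p.2
  have h0 : ∀ y : Submonoid.powers w, IsUnit (φ y) := by
    rintro ⟨_, n, rfl⟩
    rw [map_pow]
    exact h1.pow n
  refine ⟨IsLocalization.liftAlgHom (M := Submonoid.powers w) (f := φ) h0, ?_, ?_⟩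
  · apply Subtype.ext
    change F.map _ (F.map _ b) = p.1
    rw [← F.map_comp, ← hφ]
    congr 1
    ext x
    exact IsLocalization.lift_eq h0 x
  · intro ψ hψ
    have h2 : F.map ((RingHomClass.toRingHom ψ).comp (algebraMap B _)) b = p.1 := by
      rw [F.map_comp]
      exact congrArg Subtype.val hψ
    have h3 := hu (ψ.comp (IsScalarTower.toAlgHom R B (Localization.Away w))) h2
    apply AlgHom.coe_ringHom_injective
    apply IsLocalization.ringHom_ext (Submonoid.powers w)
    ext x
    change ψ (algebraMap B _ x) = IsLocalization.liftAlgHom (M := Submonoid.powers w) (f := φ) h0 (algebraMap B _ x)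
    have h4 : ψ (algebraMap B _ x) = φ x := AlgHom.congr_fun h3 x
    rw [h4]
    exact (IsLocalization.lift_eq h0 x).symm

end

end Pool.Agent.Helper3.GU
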