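import Pool.Agent.Helper3.GU.Rep
import Pool.Graph.R_seed8.Y116.UV.Space

/-!
# The closure rules in terms of functors of points
-/

set_option autoImplicit false

open CategoryTheory AlgebraicGeometry Pool.Agent.Y116.UV Pool.Agent.Q282.UK

namespace Pool.Agent.Helper3.GU

/-- The property `P` of schemes of finite type over `R` is closed under closed-open decompositions (two
out of three), true for the affine spaces, descends along the affine bundles of Jouanolou and from
`X × 𝔾_m` to `X`, and it passes from `X` to `X × 𝔸¹` (for affine `X`). -/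
structure Mot {R : Type} [CommRing R] (sep : Prop) (P : Sch R → Prop) : Prop extends Uni sep P where
  line : ∀ (A : Type) [CommRing A] [Algebra R A] [Algebra.FiniteType R A],
    P (Pool.Agent.Y116.UV.aff R A) → P (Pool.Agent.Y116.UV.aff R (Polynomial A))

/-- The functor is represented by an algebra of finite type. -/
def HasRep (R : Type) [CommRing R] (F : PF) : Prop :=
  ∃ (B : Type) (_ : CommRing B) (_ : Algebra R B) (_ : Algebra.FiniteType R B) (b : F.pts B),
    IsRep R F B b

/-- The functor is represented by an affine scheme of finite type with the property `P`. -/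
def Holds {R : Type} [CommRing R] (P : Sch R → Prop) (F : PF) : Prop :=
  ∃ (B : Type) (_ : CommRing B) (_ : Algebra R B) (_ : Algebra.FiniteType R B) (b : F.pts B),
    IsRep R F B b ∧ P (Pool.Agent.Y116.UV.aff R B)

section

variable {R : Type} [CommRing R] {sep : Prop} {P : Sch R → Prop} {F G : PF}

lemma Holds.hasRep (h : Holds P F) : HasRep R F := by
  obtain ⟨B, i1, i2, i3, b, h1, -⟩ := h
  exact ⟨B, i1, i2, i3, b, h1⟩

lemma HasRep.congr (h : HasRep R F) (e : PIso F G) : HasRep R G := by
  obtain ⟨B, i1, i2, i3, b, h1⟩ := h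
  exact ⟨B, i1, i2, i3, e.fwd b, h1.congr e⟩

lemma Holds.congr (h : Holds P F) (e : PIso F G) : Holds P G := by
  obtain ⟨B, i1, i2, i3, b, h1, h2⟩ := h
  exact ⟨B, i1, i2, i3, e.fwd b, h1.congr e, h2⟩

lemma IsRep.alg {B B' : Type} [CommRing B] [Algebra R B] [CommRing B'] [Algebra R B'] {b : F.pts B}
    (h : IsRep R F B b) (e : B ≃ₐ[R] B') : IsRep R F B' (F.map ((e : B →ₐ[R] B') : B →+* B') b) := by
  intro C _ _ p
  obtain ⟨φ, hφ, hu⟩ := h C p
  refine ⟨φ.comp (e.symm : B' →ₐ[R] B), ?_, ?_⟩
  · change F.map _ (F.map _ b) = p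
    rw [← F.map_comp, ← hφ]
    congr 1
    ext x
    exact congrArg φ (e.symm_apply_apply x)
  · intro ψ hψ
    have h1 := hu (ψ.comp (e : B →ₐ[R] B')) (by
      change F.map ((ψ : B' →+* C).comp ((e : B →ₐ[R] B') : B →+* B')) b = p
      rw [F.map_comp]
      exact hψ)
    rw [← h1]
    ext x
    exact (congrArg ψ (e.apply_symm_apply x)).symm

lemma Holds.of_rep (hP : Mot sep P) (h : Holds P F) {B : Type} [CommRing B] [Algebra R B]
    {b : F.pts B} (hB : IsRep R F B b) : P (Pool.Agent.Y116.UV.aff R B) := by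
  obtain ⟨B', i1, i2, i3, b', h1, h2⟩ := h
  obtain ⟨e⟩ := h1.iso hB
  exact iso_alg hP.toUni e h2

lemma HasRep.zeros (h : HasRep R F) {κ : Type} (g : κ → NF F) : HasRep R (F.zeros g) := by
  obtain ⟨B, i1, i2, i3, b, h1⟩ := h
  exact ⟨_, inferInstance, inferInstance, inferInstance, _, h1.zeros g⟩

lemma HasRep.zero (h : HasRep R F) (g : NF F) : HasRep R (F.zero g) := by
  obtain ⟨B, i1, i2, i3, b, h1⟩ := h
  exact ⟨_, inferInstance, inferInstance, inferInstance, _, h1.zero g rfl⟩

lemma ft_loc (B : Type) [CommRing B] [Algebra R B] [Algebra.FiniteType R B] (w : B) :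
    Algebra.FiniteType R (Localization.Away w) :=
  Algebra.FiniteType.trans (S := B) inferInstance inferInstance

lemma HasRep.unit (h : HasRep R F) (g : NF F) : HasRep R (F.unit g) := by
  obtain ⟨B, i1, i2, i3, b, h1⟩ := h
  exact ⟨_, inferInstance, inferInstance, ft_loc _ _, _, h1.unit g rfl⟩

/-- from the whole space and the closed part to the open part -/
lemma Holds.opened (hP : Mot sep P) (h : Holds P F) (g : NF F) (h0 : Holds P (F.zero g)) :
    Holds P (F.unit g) := by
  obtain ⟨B, i1, i2, i3, b, h1, h2⟩ := h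
  exact ⟨_, inferInstance, inferInstance, ft_loc _ _, _, h1.unit g rfl,
    hP.opened _ _ (ft_aff sep) (triple_away (g.fn b)) (h0.of_rep hP (h1.zero g rfl)) h2⟩

/-- from the whole space and the open part to the closed part -/
lemma Holds.closed (hP : Mot sep P) (h : Holds P F) (g : NF F) (h0 : Holds P (F.unit g)) :
    Holds P (F.zero g) := by
  obtain ⟨B, i1, i2, i3, b, h1, h2⟩ := h
  exact ⟨_, inferInstance, inferInstance, inferInstance, _, h1.zero g rfl,
    hP.closed _ _ (ft_aff sep) (triple_away (g.fn b)) h2 (h0.of_rep hP (h1.unit g rfl))⟩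

/-- from the closed part and the open part to the whole space -/
lemma Holds.total (hP : Mot sep P) (hF : HasRep R F) (g : NF F) (h0 : Holds P (F.zero g))
    (h1 : Holds P (F.unit g)) : Holds P F := by
  obtain ⟨B, i1, i2, i3, b, h2⟩ := hF
  exact ⟨B, i1, i2, i3, b, h2, hP.total _ _ (ft_aff sep) (triple_away (g.fn b))
    (h0.of_rep hP (h2.zero g rfl)) (h1.of_rep hP (h2.unit g rfl))⟩

/-! ### Products with affine spaces -/

lemma IsRep.aff {B : Type} [CommRing B] [Algebra R B] {b : F.pts B} (h : IsRep R F B b)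
    (κ : Type) : IsRep R (F.aff κ) (MvPolynomial κ B) (F.map MvPolynomial.C b, MvPolynomial.X) := by
  intro C _ _ p
  obtain ⟨φ, hφ, hu⟩ := h C p.1
  refine ⟨MvPolynomial.aevalTower φ p.2, ?_, ?_⟩
  · apply Prod.ext
    · change F.map _ (F.map _ b) = p.1
      rw [← F.map_comp, ← hφ]
      congr 1
      ext x
      exact MvPolynomial.aevalTower_C _ _ x
    · funext k
      exact MvPolynomial.aevalTower_X _ _ k
  · intro ψ hψ
    have h1 : F.map ((RingHomClass.toRingHom ψ).comp MvPolynomial.C) b = p.1 := by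
      rw [F.map_comp]
      exact congrArg Prod.fst hψ
    have h2 := hu (ψ.comp (IsScalarTower.toAlgHom R B (MvPolynomial κ B))) h1
    have h3 : ∀ k, ψ (MvPolynomial.X k) = p.2 k := fun k => congrFun (congrArg Prod.snd hψ) k
    apply AlgHom.coe_ringHom_injective
    apply MvPolynomial.ringHom_ext
    · intro x
      change ψ (MvPolynomial.C x) = MvPolynomial.aevalTower φ p.2 (MvPolynomial.C x)
      rw [MvPolynomial.aevalTower_C, ← h2]
      rfl
    · intro k
      change ψ (MvPolynomial.X k) = MvPolynomial.aevalTower φ p.2 (MvPolynomial.X k)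
      rw [MvPolynomial.aevalTower_X]
      exact h3 k

/-- Renaming the coordinates. -/
def affCongr (F : PF) {κ κ' : Type} (e : κ ≃ κ') : PIso (F.aff κ) (F.aff κ') where
  fwd p := (p.1, p.2 ∘ e.symm)
  bwd p := (p.1, p.2 ∘ e)
  left p := Prod.ext rfl (funext fun k => congrArg p.2 (e.symm_apply_apply k))
  right p := Prod.ext rfl (funext fun k => congrArg p.2 (e.apply_symm_apply k))
  nat _ _ := rfl

lemma HasRep.aff (h : HasRep R F) (κ : Type) [Finite κ] : HasRep R (F.aff κ) := by
  obtain ⟨B, i1, i2, i3, b, h1⟩ := h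
  have h2 : Algebra.FiniteType R (MvPolynomial κ B) := by
    have := Fintype.ofFinite κ
    exact Algebra.FiniteType.trans (S := B) inferInstance inferInstance
  exact ⟨_, inferInstance, inferInstance, h2, _, h1.aff κ⟩

lemma ft_mv (B : Type) [CommRing B] [Algebra R B] [Algebra.FiniteType R B] (n : ℕ) :
    Algebra.FiniteType R (MvPolynomial (Fin n) B) :=
  Algebra.FiniteType.trans (S := B) inferInstance inferInstance

lemma aff_up (hP : Mot sep P) (B : Type) [CommRing B] [Algebra R B] [Algebra.FiniteType R B]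
    (h : P (Pool.Agent.Y116.UV.aff R B)) (n : ℕ) :
    P (Pool.Agent.Y116.UV.aff R (MvPolynomial (Fin n) B)) := by
  induction n with
  | zero =>
    exact iso_alg hP.toUni ((MvPolynomial.isEmptyAlgEquiv B (Fin 0)).symm.restrictScalars R) h
  | succ n ih =>
    have := ft_mv (R := R) B n
    have h1 : Algebra.FiniteType R (Polynomial (MvPolynomial (Fin n) B)) :=
      Algebra.FiniteType.trans (S := MvPolynomial (Fin n) B) inferInstance inferInstance
    exact iso_alg hP.toUni ((MvPolynomial.finSuccEquiv B n).symm.restrictScalars R)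
      (hP.line _ ih)

lemma range_one (B : Type) [CommRing B] [Algebra R B] (n : ℕ) :
    Set.range (𝟙 (Pool.Agent.Y116.UV.aff R B) : Pool.Agent.Y116.UV.aff R B ⟶ _).left =
    {x : PrimeSpectrum B | ∃ l, f1 B n l ∉ x.asIdeal} := by
  have h1 : Set.range (𝟙 (Pool.Agent.Y116.UV.aff R B) :
    Pool.Agent.Y116.UV.aff R B ⟶ _).left = Set.univ := Set.range_id
  have h2 : {x : PrimeSpectrum B | ∃ l, f1 B n l ∉ x.asIdeal} = Set.univ := by
    rw [Set.eq_univ_iff_forall]
    intro x
    exact ⟨0, fun h => x.isPrime.ne_top ((Ideal.eq_top_iff_one _).mpr h)⟩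
  exact h1.trans h2.symm

lemma ft_jou (B : Type) [CommRing B] [Algebra R B] [Algebra.FiniteType R B] {m : ℕ}
    (f : Fin m → B) : Algebra.FiniteType R (Jou f) := by
  have := ft_mv (R := R) B m
  infer_instance

lemma aff_down (hP : Mot sep P) (B : Type) [CommRing B] [Algebra R B] [Algebra.FiniteType R B]
    (n : ℕ) (h : P (Pool.Agent.Y116.UV.aff R (MvPolynomial (Fin n) B))) :
    P (Pool.Agent.Y116.UV.aff R B) := by
  have := ft_mv (R := R) B n
  refine hP.jouanolou B (n + 1) (f1 B n) (Pool.Agent.Y116.UV.aff R B) (𝟙 _)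
    (inferInstanceAs (IsOpenImmersion (𝟙 (Pool.Agent.Y116.UV.aff R B).left)))
    (range_one B n) ?_
  exact iso_alg hP.toUni ((jouOne B n).symm.restrictScalars R) h

lemma Holds.aff (hP : Mot sep P) (h : Holds P F) (κ : Type) [Finite κ] : Holds P (F.aff κ) := by
  obtain ⟨n, ⟨e⟩⟩ := Finite.exists_equiv_fin κ
  obtain ⟨B, i1, i2, i3, b, h1, h2⟩ := h
  have h3 : Holds P (F.aff (Fin n)) :=
    ⟨_, inferInstance, inferInstance, ft_mv B n, _, h1.aff (Fin n), aff_up hP B h2 n⟩
  exact h3.congr (affCongr F e.symm)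

lemma Holds.of_aff (hP : Mot sep P) (hF : HasRep R F) {κ : Type} [Finite κ]
    (h : Holds P (F.aff κ)) : Holds P F := by
  obtain ⟨n, ⟨e⟩⟩ := Finite.exists_equiv_fin κ
  obtain ⟨B, i1, i2, i3, b, h1⟩ := hF
  have h3 : Holds P (F.aff (Fin n)) := h.congr (affCongr F e)
  exact ⟨B, i1, i2, i3, b, h1, aff_down hP B n (h3.of_rep hP (h1.aff (Fin n)))⟩

/-! ### Products with tori -/

/-- The torus as an open subfunctor of the affine line. -/
noncomputable def torUnit (F : PF) : PIso ((F.aff PUnit).unit
    (⟨fun p => p.2 ⟨⟩, fun _ _ => rfl⟩ : NF (F.aff PUnit))) (F.tor PUnit) where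
  fwd p := (p.1.1, fun _ => p.2.unit)
  bwd p := ⟨(p.1, fun k => (p.2 k : _)), (p.2 ⟨⟩).isUnit⟩
  left p := Subtype.ext (Prod.ext rfl (funext fun _ => rfl))
  right p := Prod.ext rfl (funext fun _ => Units.ext rfl)
  nat _ _ := Prod.ext rfl (funext fun _ => Units.ext rfl)

lemma holds_tor_one (hP : Mot sep P) (h : Holds P F) : Holds P (F.tor PUnit) := by
  refine Holds.congr ?_ (torUnit F)
  refine (h.aff hP PUnit).opened hP _ ?_
  refine h.congr ⟨fun p => ⟨(p, fun _ => 0), rfl⟩, fun p => p.1.1, fun _ => rfl, ?_, ?_⟩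
  · intro C _ q
    apply Subtype.ext
    exact Prod.ext rfl (funext fun _ => q.2.symm)
  · intro C D _ _ f p
    apply Subtype.ext
    exact Prod.ext rfl (funext fun _ => (map_zero f).symm)

lemma holds_of_tor_one (hP : Mot sep P) (hF : HasRep R F) (h : Holds P (F.tor PUnit)) :
    Holds P F := by
  obtain ⟨B, i1, i2, i3, b, h1⟩ := hF
  refine ⟨B, i1, i2, i3, b, h1, hP.torus B ?_⟩
  have h2 := h1.aff PUnit
  let e : MvPolynomial PUnit B ≃ₐ[R] Polynomial B :=
    (MvPolynomial.uniqueAlgEquiv B PUnit).restrictScalars R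
  have h3 := h2.alg e
  have hX : (⟨fun p => p.2 ⟨⟩, fun _ _ => rfl⟩ : NF (F.aff PUnit)).fn
      ((F.aff PUnit).map ((e : MvPolynomial PUnit B →ₐ[R] Polynomial B) :
        MvPolynomial PUnit B →+* Polynomial B)
        (F.map MvPolynomial.C b, MvPolynomial.X)) = (Polynomial.X : Polynomial B) := by
    change (MvPolynomial.uniqueAlgEquiv B PUnit) (MvPolynomial.X PUnit.unit) = Polynomial.X
    simp
  have h4 := h3.unit _ hX
  have hs : IsScalarTower R (Polynomial B) (LaurentPolynomial B) :=
    IsScalarTower.of_algebraMap_eq fun r => by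
      rw [LaurentPolynomial.algebraMap_eq_toLaurent, LaurentPolynomial.algebraMap_apply,
        Polynomial.algebraMap_apply, Polynomial.toLaurent_C]
  have h5 : Localization.Away (Polynomial.X : Polynomial B) ≃ₐ[R] LaurentPolynomial B :=
    (IsLocalization.algEquiv (Submonoid.powers (Polynomial.X : Polynomial B))
      (Localization.Away (Polynomial.X : Polynomial B)) (LaurentPolynomial B)).restrictScalars R
  exact h.of_rep hP ((h4.alg h5).congr (torUnit F))

/-- Renaming the coordinates of the torus. -/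
def torCongr (F : PF) {κ κ' : Type} (e : κ ≃ κ') : PIso (F.tor κ) (F.tor κ') where
  fwd p := (p.1, p.2 ∘ e.symm)
  bwd p := (p.1, p.2 ∘ e)
  left p := Prod.ext rfl (funext fun k => congrArg p.2 (e.symm_apply_apply k))
  right p := Prod.ext rfl (funext fun k => congrArg p.2 (e.apply_symm_apply k))
  nat _ _ := rfl

/-- The torus over the empty set. -/
def torEmpty (F : PF) : PIso F (F.tor PEmpty) where
  fwd p := (p, PEmpty.elim)
  bwd p := p.1
  left _ := rfl
  right p := Prod.ext rfl (funext fun k => k.elim)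
  nat _ _ := Prod.ext rfl (funext fun k => k.elim)

/-- The torus with one more coordinate. -/
def torOption (F : PF) (κ : Type) : PIso ((F.tor κ).tor PUnit) (F.tor (Option κ)) where
  fwd p := (p.1.1, fun k => k.elim (p.2 ⟨⟩) p.1.2)
  bwd p := ((p.1, fun k => p.2 (some k)), fun _ => p.2 none)
  left _ := rfl
  right p := Prod.ext rfl (funext fun k => by cases k <;> rfl)
  nat _ _ := Prod.ext rfl (funext fun k => by cases k <;> rfl)

lemma HasRep.tor_one (h : HasRep R F) : HasRep R (F.tor PUnit) :=
  ((h.aff PUnit).unit _).congr (torUnit F)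

lemma HasRep.tor (h : HasRep R F) (κ : Type) [Finite κ] : HasRep R (F.tor κ) := by
  induction κ using Finite.induction_empty_option with
  | of_equiv e ih => exact ih.congr (torCongr F e)
  | h_empty => exact h.congr (torEmpty F)
  | h_option ih => exact ih.tor_one.congr (torOption F _)

lemma Holds.tor (hP : Mot sep P) (h : Holds P F) (κ : Type) [Finite κ] : Holds P (F.tor κ) := by
  induction κ using Finite.induction_empty_option with
  | of_equiv e ih => exact ih.congr (torCongr F e)
  | h_empty => exact h.congr (torEmpty F)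
  | h_option ih => exact (holds_tor_one hP ih).congr (torOption F _)

lemma Holds.of_tor (hP : Mot sep P) (hF : HasRep R F) {κ : Type} [Finite κ]
    (h : Holds P (F.tor κ)) : Holds P F := by
  induction κ using Finite.induction_empty_option with
  | of_equiv e ih => exact ih (h.congr (torCongr F e.symm))
  | h_empty => exact h.congr (torEmpty F).symm
  | h_option ih => exact ih (holds_of_tor_one hP (hF.tor _) (h.congr (torOption F _).symm))

end

end Pool.Agent.Helper3.GU
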