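import Pool.Agent.Helper3.GU.Deg

/-!
# Simple graphs
-/

set_option autoImplicit false

open CategoryTheory AlgebraicGeometry Pool.Agent.Y116.UV Pool.Agent.Q282.UK Matrix

namespace Pool.Agent.Helper3.GU

section

variable {n : ℕ} (G : SimpleGraph (Fin (n + 1)))

/-- the smaller end of an edge -/
def sg (e : G.edgeSet) : Option (Fin n) := finSuccEquiv n e.1.inf

/-- the larger end of an edge -/
def tg (e : G.edgeSet) : Option (Fin n) := finSuccEquiv n e.1.sup

lemma sort_eq (e : Sym2 (Fin (n + 1))) : s(e.inf, e.sup) = e := Sym2.sortEquiv.left_inv e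

lemma sort_ne (e : G.edgeSet) : e.1.inf ≠ e.1.sup := by
  have h := e.2
  rw [← sort_eq e.1] at h
  exact G.ne_of_adj h

lemma fse_iff (a : Fin (n + 1)) (v : Fin n) : finSuccEquiv n a = some v ↔ a = v.succ := by
  rw [← finSuccEquiv_succ, (finSuccEquiv n).injective.eq_iff]

variable {C : Type} [CommRing C]

/-- the incidence numbers -/
def inc' (e : Sym2 (Fin (n + 1))) (v : Fin (n + 1)) : C :=
  (if e.inf = v then 1 else 0) - (if e.sup = v then 1 else 0)

lemma ei_inc (e : G.edgeSet) (v : Fin n) : ei C (sg G e) (tg G e) v = inc' e.1 v.succ := by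
  simp only [ei, inc', sg, tg, fse_iff]

lemma sym2_iff (e : Sym2 (Fin (n + 1))) (v w : Fin (n + 1)) :
    e = s(v, w) ↔ (e.inf = v ∧ e.sup = w) ∨ (e.inf = w ∧ e.sup = v) := by
  conv_lhs => rw [← sort_eq e]
  exact Sym2.eq_iff

/-- the indicator of the edge between `v` and `w` -/
def dl (C : Type) [CommRing C] (e : Sym2 (Fin (n + 1))) (v w : Fin (n + 1)) : C :=
  if (e.inf = v ∧ e.sup = w) ∨ (e.inf = w ∧ e.sup = v) then 1 else 0

lemma inc_mul (e : G.edgeSet) (v w : Fin (n + 1)) : (inc' e.1 v * inc' e.1 w : C) =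
    (if v = w then ∑ k, dl C e.1 v k else 0) - dl C e.1 v w := by
  have hab := sort_ne G e
  by_cases hvw : v = w
  · subst hvw
    have h1 : ∑ k, dl C e.1 v k =
        (if e.1.inf = v then 1 else 0) + (if e.1.sup = v then 1 else 0) := by
      have h2 : ∀ k, dl C e.1 v k =
          (if k = e.1.sup then (if e.1.inf = v then 1 else 0) else 0) +
          (if k = e.1.inf then (if e.1.sup = v then 1 else 0) else 0) := by
        intro k
        rw [dl]
        by_cases ha : e.1.inf = v
        · have hb : e.1.sup ≠ v := fun h => hab (ha.trans h.symm)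
          by_cases hk : e.1.sup = k
          · rw [if_pos (Or.inl ⟨ha, hk⟩), if_pos hk.symm, if_pos ha, if_neg hb, ite_self, add_zero]
          · rw [if_neg, if_neg (Ne.symm hk), if_neg hb, ite_self, add_zero]
            rintro (⟨-, h⟩ | ⟨-, h⟩)
            · exact hk h
            · exact hb h
        · by_cases hb : e.1.sup = v
          · by_cases hk : e.1.inf = k
            · rw [if_pos (Or.inr ⟨hk, hb⟩), if_neg ha, ite_self, if_pos hk.symm, if_pos hb, zero_add]
            · rw [if_neg, if_neg ha, ite_self, if_neg (Ne.symm hk), zero_add]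
              rintro (⟨h, -⟩ | ⟨h, -⟩)
              · exact ha h
              · exact hk h
          · rw [if_neg, if_neg ha, if_neg hb, ite_self, ite_self, add_zero]
            rintro (⟨h, -⟩ | ⟨-, h⟩)
            · exact ha h
            · exact hb h
      simp only [h2]
      rw [Finset.sum_add_distrib, Finset.sum_ite_eq' Finset.univ, Finset.sum_ite_eq' Finset.univ,
        if_pos (Finset.mem_univ _), if_pos (Finset.mem_univ _)]
    have h3 : dl C e.1 v v = 0 := by
      rw [dl, if_neg]
      rintro (⟨h, h'⟩ | ⟨h, h'⟩) <;> exact hab (h.trans h'.symm)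
    rw [if_pos rfl, h1, h3, inc']
    by_cases ha : e.1.inf = v
    · have hb : e.1.sup ≠ v := fun h => hab (ha.trans h.symm)
      rw [if_pos ha, if_neg hb]
      ring
    · rw [if_neg ha]
      split_ifs <;> ring
  · rw [if_neg hvw, dl, inc', inc']
    by_cases ha : e.1.inf = v
    · have hb : e.1.sup ≠ v := fun h => hab (ha.trans h.symm)
      have hc : e.1.inf ≠ w := fun h => hvw (ha.symm.trans h)
      rw [if_pos ha, if_neg hb, if_neg hc]
      by_cases hd : e.1.sup = w
      · rw [if_pos hd, if_pos (Or.inl ⟨ha, hd⟩)]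
        ring
      · rw [if_neg hd, if_neg]
        · ring
        · rintro (⟨-, h⟩ | ⟨h, -⟩)
          · exact hd h
          · exact hc h
    · rw [if_neg ha]
      by_cases hb : e.1.sup = v
      · have hd : e.1.sup ≠ w := fun h => hvw (hb.symm.trans h)
        rw [if_pos hb, if_neg hd]
        by_cases hc : e.1.inf = w
        · rw [if_pos hc, if_pos (Or.inr ⟨hc, hb⟩)]
          ring
        · rw [if_neg hc, if_neg]
          · ring
          · rintro (⟨h, -⟩ | ⟨h, -⟩)
            · exact ha h
            · exact hc h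
      · have h3 : ¬ ((e.1.inf = v ∧ e.1.sup = w) ∨ (e.1.inf = w ∧ e.1.sup = v)) := by
          rintro (⟨h, -⟩ | ⟨-, h⟩)
          · exact ha h
          · exact hb h
        rw [if_neg hb, if_neg h3]
        ring

lemma sum_wt [Fintype G.edgeSet] (x : G.edgeSet → C) (v w : Fin (n + 1)) :
    ∑ e : G.edgeSet, dl C e.1 v w * x e = wt G x v w := by
  rw [wt]
  split_ifs with h
  · rw [Finset.sum_eq_single ⟨s(v, w), h⟩]
    · rw [dl, if_pos ((sym2_iff _ _ _).1 rfl), one_mul]
    · intro e _ he
      rw [dl, if_neg fun h1 => he (Subtype.ext ((sym2_iff _ _ _).2 h1)), zero_mul]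
    · intro h1
      exact absurd (Finset.mem_univ _) h1
  · apply Finset.sum_eq_zero
    intro e _
    rw [dl, if_neg, zero_mul]
    intro h1
    have h2 := e.2
    rw [(sym2_iff _ _ _).2 h1] at h2
    exact h h2

/-- The Laplacian of a simple graph. -/
theorem lapm_sg [Fintype G.edgeSet] [DecidableEq G.edgeSet] (x : G.edgeSet → C) :
    lapm (sg G) (tg G) x = laplacian G x := by
  ext i j
  rw [lapm_apply, laplacian, of_apply]
  have h1 : ∀ e : G.edgeSet, ei C (sg G e) (tg G e) i * x e * ei C (sg G e) (tg G e) j =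
      ((if i.succ = j.succ then ∑ k, dl C e.1 i.succ k else 0) -
      dl C e.1 i.succ j.succ) * x e := by
    intro e
    rw [ei_inc, ei_inc, ← inc_mul]
    ring
  simp only [h1, sub_mul]
  rw [Finset.sum_sub_distrib, sum_wt]
  congr 1
  by_cases hij : i = j
  · subst hij
    simp only [if_pos]
    simp only [Finset.sum_mul]
    rw [Finset.sum_comm]
    apply Finset.sum_congr rfl
    intro k _
    exact sum_wt G x _ _
  · have h2 : i.succ ≠ j.succ := fun h => hij (Fin.succ_injective _ h)
    simp only [if_neg h2, if_neg hij, zero_mul, Finset.sum_const_zero]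

end

/-! ### From multigraphs without loops and multiple edges to simple graphs -/

section

variable {E V : Type} {n : ℕ} (ν : Option V ≃ Fin (n + 1)) (s t : E → Option V)

/-- the simple graph -/
def grf : SimpleGraph (Fin (n + 1)) where
  Adj a b := a ≠ b ∧ ∃ e, (ν (s e) = a ∧ ν (t e) = b) ∨ (ν (s e) = b ∧ ν (t e) = a)
  symm := ⟨fun _ _ h => ⟨h.1.symm, by
    obtain ⟨-, e, h⟩ := h
    exact ⟨e, h.symm⟩⟩⟩
  loopless := ⟨fun _ h => h.1 rfl⟩

variable {s t}

/-- the edges -/
def edF (h : IsSimple s t) (e : E) : (grf ν s t).edgeSet :=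
  ⟨s(ν (s e), ν (t e)), fun h1 => h.loop e (ν.injective h1), e, Or.inl ⟨rfl, rfl⟩⟩

lemma edF_bij (h : IsSimple s t) : Function.Bijective (edF ν h) := by
  constructor
  · intro e f hef
    by_contra hne
    have h1 : s(ν (s e), ν (t e)) = s(ν (s f), ν (t f)) := congrArg Subtype.val hef
    rcases Sym2.eq_iff.1 h1 with ⟨h2, h3⟩ | ⟨h2, h3⟩
    · exact h.par e f hne ⟨ν.injective h2, ν.injective h3⟩
    · exact h.anti e f hne ⟨ν.injective h2, ν.injective h3⟩
  · rintro ⟨e, he⟩
    induction e using Sym2.inductionOn with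
    | _ a b =>
      obtain ⟨-, e, h1 | h1⟩ : (grf ν s t).Adj a b := he
      · exact ⟨e, Subtype.ext (Sym2.eq_iff.2 (Or.inl h1))⟩
      · exact ⟨e, Subtype.ext (Sym2.eq_iff.2 (Or.inr h1))⟩

/-- the edges -/
noncomputable def edE (h : IsSimple s t) : E ≃ (grf ν s t).edgeSet :=
  Equiv.ofBijective _ (edF_bij ν h)

lemma edE_val (h : IsSimple s t) (e : E) : (edE ν h e).1 = s(ν (s e), ν (t e)) := rfl

end

section

variable {E V : Type} [DecidableEq V] {n : ℕ} (eV : V ≃ Fin n) {s t : E → Option V}

/-- the vertices -/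
def vE : Option V ≃ Fin (n + 1) := (Equiv.optionCongr eV).trans (finSuccEquiv n).symm

omit [DecidableEq V] in
lemma fse_vE (q : Option V) : finSuccEquiv n (vE eV q) = q.map eV := by
  rw [vE, Equiv.trans_apply, Equiv.apply_symm_apply]
  rfl

lemma ei_map_equiv {C : Type} [CommRing C] (a b : Option V) (i : Fin n) :
    ei C (a.map eV) (b.map eV) i = ei C a b (eV.symm i) := by
  have h : ∀ a : Option V, a.map eV = some i ↔ a = some (eV.symm i) := by
    intro a
    rcases a with _ | a
    · simp
    · simp [Equiv.eq_symm_apply]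
  simp only [ei, h]

lemma ei_edE {C : Type} [CommRing C] (h : IsSimple s t) (e : E) (i j : Fin n) :
    ei C (sg (grf (vE eV) s t) (edE (vE eV) h e)) (tg (grf (vE eV) s t) (edE (vE eV) h e)) i *
      ei C (sg (grf (vE eV) s t) (edE (vE eV) h e)) (tg (grf (vE eV) s t) (edE (vE eV) h e)) j =
    ei C (s e) (t e) (eV.symm i) * ei C (s e) (t e) (eV.symm j) := by
  have h1 : (edE (vE eV) h e).1 = s(vE eV (s e), vE eV (t e)) := rfl
  rcases le_total (vE eV (s e)) (vE eV (t e)) with hl | hl
  · have h2 : sg (grf (vE eV) s t) (edE (vE eV) h e) = (s e).map eV := by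
      rw [sg, h1, Sym2.inf_mk, inf_eq_left.2 hl, fse_vE]
    have h3 : tg (grf (vE eV) s t) (edE (vE eV) h e) = (t e).map eV := by
      rw [tg, h1, Sym2.sup_mk, sup_eq_right.2 hl, fse_vE]
    rw [h2, h3, ei_map_equiv, ei_map_equiv]
  · have h2 : sg (grf (vE eV) s t) (edE (vE eV) h e) = (t e).map eV := by
      rw [sg, h1, Sym2.inf_mk, inf_eq_right.2 hl, fse_vE]
    have h3 : tg (grf (vE eV) s t) (edE (vE eV) h e) = (s e).map eV := by
      rw [tg, h1, Sym2.sup_mk, sup_eq_left.2 hl, fse_vE]
    rw [h2, h3, ei_map_equiv, ei_map_equiv, ei, ei, ei, ei]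
    ring

variable [Fintype E] [DecidableEq E] [Fintype V]

omit [Fintype V] in
lemma lapm_grf {C : Type} [CommRing C] (h : IsSimple s t) [Fintype (grf (vE eV) s t).edgeSet]
    [DecidableEq (grf (vE eV) s t).edgeSet] (x : (grf (vE eV) s t).edgeSet → C) :
    lapm (sg (grf (vE eV) s t)) (tg (grf (vE eV) s t)) x =
      (lapm s t fun e => x (edE (vE eV) h e)).submatrix eV.symm eV.symm := by
  ext i j
  rw [lapm_apply, submatrix_apply, lapm_apply, ← Equiv.sum_comp (edE (vE eV) h)]
  apply Finset.sum_congr rfl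
  intro e _
  have h1 := ei_edE (C := C) eV h e i j
  linear_combination (x (edE (vE eV) h e)) * h1

/-- the bijection -/
noncomputable def grfIso (h : IsSimple s t) [Fintype (grf (vE eV) s t).edgeSet]
    [DecidableEq (grf (vE eV) s t).edgeSet] (U : Finset E)
    (U' : Finset (grf (vE eV) s t).edgeSet) (hU : ∀ e, edE (vE eV) h e ∈ U' ↔ e ∈ U) :
    PIso (KS (sg (grf (vE eV) s t)) (tg (grf (vE eV) s t)) U') (KS s t U) where
  fwd x := ⟨fun e => x.1 (edE (vE eV) h e), fun e he => x.2.1 _ ((hU e).2 he), by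
    have h1 := x.2.2
    rw [lapm_grf eV h, det_submatrix_equiv_self] at h1
    exact h1⟩
  bwd y := ⟨fun f => y.1 ((edE (vE eV) h).symm f), fun f hf => y.2.1 _ ((hU _).1 (by
    rw [Equiv.apply_symm_apply]
    exact hf)), by
    rw [lapm_grf eV h, det_submatrix_equiv_self]
    have h1 : (fun e => y.1 ((edE (vE eV) h).symm (edE (vE eV) h e))) = y.1 :=
      funext fun e => congrArg y.1 ((edE (vE eV) h).symm_apply_apply e)
    rw [h1]
    exact y.2.2⟩
  left x := Subtype.ext (funext fun f => congrArg x.1 ((edE (vE eV) h).apply_symm_apply f))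
  right y := Subtype.ext (funext fun e => congrArg y.1 ((edE (vE eV) h).symm_apply_apply e))
  nat _ _ := rfl

/-- the degrees -/
lemma degree_grf (h : IsSimple s t) (q : Option V)
    [Fintype ((grf (vE eV) s t).neighborSet (vE eV q))] :
    (grf (vE eV) s t).degree (vE eV q) ≤ dgr s t q := by
  classical
  let I : Finset E := Finset.univ.filter fun e => s e = q ∨ t e = q
  have h1 : (grf (vE eV) s t).neighborFinset (vE eV q) ⊆
      I.image fun e => if s e = q then vE eV (t e) else vE eV (s e) := by
    intro b hb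
    rw [SimpleGraph.mem_neighborFinset] at hb
    obtain ⟨-, e, h2 | h2⟩ := hb
    · have h3 : s e = q := (vE eV).injective h2.1
      exact Finset.mem_image.2 ⟨e, Finset.mem_filter.2 ⟨Finset.mem_univ _, Or.inl h3⟩, by
        rw [if_pos h3]
        exact h2.2⟩
    · have h3 : t e = q := (vE eV).injective h2.2
      have h4 : s e ≠ q := fun h5 => h.loop e (h5.trans h3.symm)
      exact Finset.mem_image.2 ⟨e, Finset.mem_filter.2 ⟨Finset.mem_univ _, Or.inr h3⟩, by
        rw [if_neg h4]
        exact h2.1⟩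
  have h2 : I.card ≤ dgr s t q := by
    rw [dgr, Finset.card_filter]
    apply Finset.sum_le_sum
    intro e _
    by_cases h3 : s e = q
    · rw [if_pos (Or.inl h3), if_pos h3]
      omega
    · by_cases h4 : t e = q
      · rw [if_pos (Or.inr h4), if_pos h4]
        omega
      · rw [if_neg (by tauto)]
        omega
  exact ((Finset.card_le_card h1).trans Finset.card_image_le).trans h2

end

end Pool.Agent.Helper3.GU
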