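import Pool.Agent.Helper3.GU.Cubic
import Pool.Agent.Helper3.GU.SDefs
import Pool.Graph.R_pool_sql_team_seeded_2aa45f1a.Q193.LT.Sums

/-!
# Finite direct sums of motives of graph hypersurfaces
-/

set_option autoImplicit false

open CategoryTheory CategoryTheory.Limits AlgebraicGeometry Pool.Agent.Y116.UV Pool.Agent.Z125.UN
  Pool.Agent.Q193.LT

universe v u

namespace Pool.Agent.Helper3.GU

variable {k : Type} [Field k] [PerfectField k] {A : Type u} [Category.{v} A] [Abelian A]
  {D : CompactData k A} (hD : IsCompact D) (hg : Generated D)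
  (hss : ∀ {X Y : A} (f : X ⟶ Y), Mono f → ∃ r : Y ⟶ X, f ≫ r = 𝟙 X)
  {P : A → Prop} (hP : ∀ {X Y : A} (i : X ⟶ Y) (r : Y ⟶ X), i ≫ r = 𝟙 X → P Y → P X)

include hD hg hss hP

/-- Smooth projective schemes and any family of schemes which determines the Tate-Serre classes. -/
theorem sums_family_iff (F : ∀ n : ℕ, SimpleGraph (Fin (n + 1)) → Sch k)
    (hF : ∀ S : A → Prop, IsTateSerre D S → (∀ i, S (D.H i (aff k k))) →
      ((∀ Y : Sch k, SmoothProj Y → ∀ i, S (D.H i Y)) ↔
        ∀ (n : ℕ) (G : SimpleGraph (Fin (n + 1))), Subcubic G → ∀ i, S (D.H i (F n G)))) :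
    SumsHave D (OfProjAll D) P ↔ SumsHave D (OfSubcubic D F) P := by
  constructor
  · refine sumsHave_of_gen hD hss hP fun N hN => ?_
    have h1 : ∀ Y : Sch k, SmoothProj Y → ∀ i, FactorOfSum D (OfProjAll D) (D.H i Y) :=
      fun Y hY i => FactorOfSum.self hD ⟨Y, i, hY, rfl⟩
    have h0 := point_factor hD hg hss 0 fun Y hY _ => h1 Y hY
    rcases hN with ⟨i, rfl⟩ | ⟨n, G, i, hG, rfl⟩
    · exact h0 i
    · exact (hF _ (gen_serre hD hss) h0).mp h1 n G hG i
  · refine sumsHave_of_gen hD hss hP fun N hN => ?_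
    obtain ⟨Y, i, hY, rfl⟩ := hN
    have h0 : ∀ i, FactorOfSum D (OfSubcubic D F) (D.H i (aff k k)) := fun i =>
      FactorOfSum.self hD (Or.inl ⟨i, rfl⟩)
    exact (hF _ (gen_serre hD hss) h0).mpr (fun n G hG i =>
      FactorOfSum.self hD (Or.inr ⟨n, G, i, hG, rfl⟩)) Y hY i

/-- Over a prime field: finite direct sums of motives of smooth projective schemes, and finite direct
sums of motives of graph hypersurfaces, for simple graphs with at most three edges at each vertex. -/
theorem sums_cubic (hk : Frac k) :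
    List.TFAE [SumsHave D (OfProjAll D) P,
      SumsHave D (OfSubcubic D fun _ G => graphS k G) P,
      SumsHave D (OfSubcubic D fun _ G => graphH k G) P,
      SumsHave D (OfSubcubic D fun _ G => graphT k G) P,
      SumsHave D (OfSubcubic D fun _ G => feynmanT k G) P] := by
  have h : ∀ S : A → Prop, IsTateSerre D S → (∀ i, S (D.H i (aff k k))) →
      (Statements' fun X => ∀ i, S (D.H i X)).TFAE := fun S hS h1 => cubic_serre hD hg hS h1 hk
  have h2 : SumsHave D (OfProjAll D) P ↔ SumsHave D (OfSubcubic D fun _ G => graphS k G) P :=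
    sums_family_iff hD hg hss hP _ fun S hS h1 => (h S hS h1).out 0 2
  have h3 : SumsHave D (OfProjAll D) P ↔ SumsHave D (OfSubcubic D fun _ G => graphH k G) P :=
    sums_family_iff hD hg hss hP _ fun S hS h1 => (h S hS h1).out 0 3
  have h4 : SumsHave D (OfProjAll D) P ↔ SumsHave D (OfSubcubic D fun _ G => graphT k G) P :=
    sums_family_iff hD hg hss hP _ fun S hS h1 => (h S hS h1).out 0 4
  have h5 : SumsHave D (OfProjAll D) P ↔ SumsHave D (OfSubcubic D fun _ G => feynmanT k G) P :=
    sums_family_iff hD hg hss hP _ fun S hS h1 => (h S hS h1).out 0 5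
  tfae_have 1 ↔ 2 := h2
  tfae_have 1 ↔ 3 := h3
  tfae_have 1 ↔ 4 := h4
  tfae_have 1 ↔ 5 := h5
  tfae_finish

end Pool.Agent.Helper3.GU
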