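import Pool.Agent.Helper3.GU.SumG
import Pool.Agent.Helper3.GU.LDefs
import Pool.Agent.Helper3.GU.Lst

/-!
# Finite direct sums of motives of graph hypersurfaces: finite lists of graphs
-/

set_option autoImplicit false

open CategoryTheory CategoryTheory.Limits AlgebraicGeometry Pool.Agent.Y116.UV Pool.Agent.Z125.UN
  Pool.Agent.Q193.LT

universe v u

namespace Pool.Agent.Helper3.GU

/-- **One variety and finitely many graphs.** For each scheme `X` there is a finite list `L` of graphs
with at most three edges at each vertex such that, for all categories of motives and all properties `P`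
that are inherited by direct factors, `P` for the finite sums of twists of motives of graph hypersurfaces
of graphs in `L` implies `P` for the finite sums of twists of the `H^i_c(X)`. -/
theorem list_sums {k : Type} [Field k] (hk : Frac k) (X : Sch k) (hX : FT True X) :
    ∃ L : List (Σ n : ℕ, SimpleGraph (Fin (n + 1))), IsList L ∧
      ∀ {A : Type u} [Category.{v} A] [Abelian A] {D : CompactData k A}, IsCompact D →
        (∀ {X Y : A} (f : X ⟶ Y), Mono f → ∃ r : Y ⟶ X, f ≫ r = 𝟙 X) →
        ∀ {P : A → Prop}, (∀ {X Y : A} (i : X ⟶ Y) (r : Y ⟶ X), i ≫ r = 𝟙 X → P Y → P X) →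
        (SumsHave D (OfList D L fun _ G => graphS k G) P ∨
          SumsHave D (OfList D L fun _ G => graphH k G) P ∨
          SumsHave D (OfList D L fun _ G => graphT k G) P ∨
          SumsHave D (OfList D L fun _ G => feynmanT k G) P) → SumsHave D (OfScheme D X) P := by
  obtain ⟨L, hL, h⟩ := finite_list (sep := True) (presents_frac hk) X hX
  refine ⟨L, hL, fun {A} _ _ {D} hD hss {P} hP hS => ?_⟩
  have key : ∀ F : ∀ n : ℕ, SimpleGraph (Fin (n + 1)) → Sch k,
      (∀ Q : Sch k → Prop, Mot True Q → (∀ G ∈ L, Q (F G.1 G.2)) → Q X) →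
      SumsHave D (OfList D L F) P → SumsHave D (OfScheme D X) P := by
    intro F hF hS
    refine sumsHave_of_gen hD hss hP (fun N hN => ?_) hS
    obtain ⟨i, rfl⟩ := hN
    have h0 : ∀ i, FactorOfSum D (OfList D L F) (D.H i (aff k k)) := fun i =>
      FactorOfSum.self hD (Or.inl ⟨i, rfl⟩)
    exact hF (fun Y => ∀ i, FactorOfSum D (OfList D L F) (D.H i Y))
      (mot_of_bnd (bnd_compact hD (gen_serre hD hss) h0))
      (fun G hG i => FactorOfSum.self hD (Or.inr ⟨G, hG, i, rfl⟩)) i
  rcases hS with hS | hS | hS | hS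
  · exact key _ (fun Q hQ h' => h Q hQ (Or.inl h')) hS
  · exact key _ (fun Q hQ h' => h Q hQ (Or.inr (Or.inl h'))) hS
  · exact key _ (fun Q hQ h' => h Q hQ (Or.inr (Or.inr (Or.inl h')))) hS
  · exact key _ (fun Q hQ h' => h Q hQ (Or.inr (Or.inr (Or.inr h')))) hS

end Pool.Agent.Helper3.GU
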