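import Pool.Agent.Helper3.GU.App

/-!
# The first Symanzik polynomials of multigraphs
-/

set_option autoImplicit false

open CategoryTheory AlgebraicGeometry Pool.Agent.Y116.UV Pool.Agent.Q282.UK Matrix

namespace Pool.Agent.Helper3.GU

section

variable {E V C D : Type} [DecidableEq V] [CommRing C] [CommRing D]

/-- The entry of the incidence matrix of an edge from `a` to `b` at the vertex `v`. -/
def ei (C : Type) [CommRing C] (a b : Option V) (v : V) : C :=
  (if a = some v then 1 else 0) - (if b = some v then 1 else 0)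

lemma ei_map (f : C →+* D) (a b : Option V) (v : V) : f (ei C a b v) = ei D a b v := by
  rw [ei, ei, map_sub]
  congr 1 <;> split_ifs <;> simp

/-- The incidence matrix of a multigraph. -/
def icm (C : Type) [CommRing C] (s t : E → Option V) : Matrix E V C :=
  of fun e v => ei C (s e) (t e) v

variable [DecidableEq E]

/-- The expanded Laplacian matrix. -/
def exm (s t : E → Option V) (x : E → C) : Matrix (E ⊕ V) (E ⊕ V) C :=
  fromBlocks (diagonal x) (icm C s t) (-(icm C s t)ᵀ) 0

lemma exm_map (f : C →+* D) (s t : E → Option V) (x : E → C) :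
    exm s t (fun e => f (x e)) = (exm s t x).map f := by
  ext i j
  rcases i with i | i <;> rcases j with j | j
  · change diagonal (fun e => f (x e)) i j = f (diagonal x i j)
    by_cases h : i = j
    · subst h
      rw [diagonal_apply_eq, diagonal_apply_eq]
    · rw [diagonal_apply_ne _ h, diagonal_apply_ne _ h, map_zero]
  · exact (ei_map f _ _ _).symm
  · change -(ei D _ _ _) = f (-(ei C _ _ _))
    rw [map_neg, ei_map]
  · exact (map_zero f).symm

variable [Fintype E]

/-- The weighted Laplacian of a multigraph. -/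
def lapm (s t : E → Option V) (x : E → C) : Matrix V V C :=
  (icm C s t)ᵀ * diagonal x * icm C s t

lemma lapm_apply (s t : E → Option V) (x : E → C) (v w : V) :
    lapm s t x v w = ∑ e, ei C (s e) (t e) v * x e * ei C (s e) (t e) w := by
  rw [lapm, mul_apply]
  apply Finset.sum_congr rfl
  intro e _
  rw [mul_diagonal]
  rfl

lemma lapm_map (f : C →+* D) (s t : E → Option V) (x : E → C) :
    lapm s t (fun e => f (x e)) = (lapm s t x).map f := by
  ext i j
  rw [lapm_apply, map_apply, lapm_apply, map_sum]
  apply Finset.sum_congr rfl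
  intro e _
  rw [map_mul, map_mul, ei_map, ei_map]

variable [Fintype V]

/-- The two determinants on the torus. -/
lemma det_exm (s t : E → Option V) (x : E → C) (hx : ∀ e, IsUnit (x e)) :
    (exm s t x).det = (∏ e, x e) * (lapm s t fun e => Ring.inverse (x e)).det := by
  have h1 : diagonal x * diagonal (fun e => Ring.inverse (x e)) = 1 := by
    rw [diagonal_mul_diagonal, ← diagonal_one]
    congr 1
    funext e
    exact Ring.mul_inverse_cancel _ (hx e)
  let _ : Invertible (diagonal x) := invertibleOfRightInverse _ _ h1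
  have h2 : ⅟ (diagonal x) = diagonal (fun e => Ring.inverse (x e)) := rfl
  rw [exm, det_fromBlocks₁₁, det_diagonal, h2]
  congr 1
  rw [zero_sub, Matrix.neg_mul, Matrix.neg_mul, neg_neg]
  rfl

end

/-! ### The functors -/

section

variable {E V : Type} [DecidableEq V] [DecidableEq E] [Fintype E] [Fintype V]

/-- The points `x` with invertible coordinates in `U` and invertible first Symanzik polynomial. -/
def SF (s t : E → Option V) (U : Finset E) : PF where
  pts C _ := {x : E → C // (∀ e ∈ U, IsUnit (x e)) ∧ IsUnit (exm s t x).det}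
  map f x := ⟨fun e => f (x.1 e), fun e he => (x.2.1 e he).map f, by
    rw [exm_map, det_map]
    exact x.2.2.map f⟩
  map_id _ := rfl
  map_comp _ _ _ := rfl

/-- The points `x` with invertible coordinates in `U` and invertible Kirchhoff polynomial. -/
def KS (s t : E → Option V) (U : Finset E) : PF where
  pts C _ := {x : E → C // (∀ e ∈ U, IsUnit (x e)) ∧ IsUnit (lapm s t x).det}
  map f x := ⟨fun e => f (x.1 e), fun e he => (x.2.1 e he).map f, by
    rw [lapm_map, det_map]
    exact x.2.2.map f⟩
  map_id _ := rfl
  map_comp _ _ _ := rfl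

lemma rinv_rinv {C : Type} [CommRing C] {x : C} (h : IsUnit x) :
    Ring.inverse (Ring.inverse x) = x := by
  obtain ⟨u, rfl⟩ := h
  rw [Ring.inverse_unit, Ring.inverse_unit, inv_inv]

/-- The two polynomials on the torus. -/
noncomputable def crem (s t : E → Option V) : PIso (SF s t Finset.univ) (KS s t Finset.univ) where
  fwd x := ⟨fun e => Ring.inverse (x.1 e), fun e _ => rinv_unit (x.2.1 e (Finset.mem_univ e)), by
    have h := x.2.2
    rw [det_exm s t x.1 fun e => x.2.1 e (Finset.mem_univ e)] at h
    exact isUnit_of_mul_isUnit_right h⟩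
  bwd x := ⟨fun e => Ring.inverse (x.1 e), fun e _ => rinv_unit (x.2.1 e (Finset.mem_univ e)), by
    rw [det_exm s t _ fun e => rinv_unit (x.2.1 e (Finset.mem_univ e))]
    have h1 : (fun e => Ring.inverse (Ring.inverse (x.1 e))) = x.1 :=
      funext fun e => rinv_rinv (x.2.1 e (Finset.mem_univ e))
    rw [h1]
    refine IsUnit.mul ?_ x.2.2
    exact Finset.prod_induction _ IsUnit (fun _ _ => IsUnit.mul) isUnit_one fun e _ =>
      rinv_unit (x.2.1 e (Finset.mem_univ e))⟩
  left x := Subtype.ext (funext fun e => rinv_rinv (x.2.1 e (Finset.mem_univ e)))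
  right x := Subtype.ext (funext fun e => rinv_rinv (x.2.1 e (Finset.mem_univ e)))
  nat f x := Subtype.ext (funext fun e => rinv_map f (x.2.1 e (Finset.mem_univ e)))

end

/-! ### Contraction of an edge -/

section

variable {E V C : Type} [DecidableEq V] [DecidableEq E] [CommRing C]

/-- The expanded Laplacian matrix with an arbitrary block. -/
def exg (A : Matrix E E C) (s t : E → Option V) : Matrix (E ⊕ V) (E ⊕ V) C :=
  fromBlocks A (icm C s t) (-(icm C s t)ᵀ) 0

/-- The vertex `some none` is replaced by `w`. -/
def cm (w : Option V) : Option (Option V) → Option V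
  | none => none
  | some none => w
  | some (some u) => some u

omit [DecidableEq E] in
lemma cm_eq (w : Option V) (p : Option (Option V)) (u : V) :
    ((if p = some (some u) then 1 else 0 : C) + (if w = some u then 1 else 0) *
      (if p = some none then 1 else 0)) = if cm w p = some u then 1 else 0 := by
  rcases p with _ | _ | p
  · simp [cm]
  · simp only [cm]
    simp
    try congr
  · simp [cm]

lemma ei_cm (w : Option V) (a b : Option (Option V)) (u : V) :
    ei C (cm w a) (cm w b) u = ei C a b (some u) + (if w = some u then 1 else 0) *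
      ei C a b none := by
  rw [ei, ← cm_eq, ← cm_eq, ei, ei]
  ring

/-- the reindexing -/
def reE (E V : Type) : (E ⊕ V) ⊕ (Unit ⊕ Unit) ≃ Option E ⊕ Option V where
  toFun := Sum.elim (Sum.elim (fun e => Sum.inl (some e)) fun v => Sum.inr (some v))
    (Sum.elim (fun _ => Sum.inl none) fun _ => Sum.inr none)
  invFun := Sum.elim (fun e => e.elim (Sum.inr (Sum.inl ())) fun e => Sum.inl (Sum.inl e))
    fun v => v.elim (Sum.inr (Sum.inr ())) fun v => Sum.inl (Sum.inr v)
  left_inv := by rintro ((e | v) | (u | u)) <;> rfl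
  right_inv := by rintro ((_ | e) | (_ | v)) <;> rfl

variable [Fintype E] [Fintype V]

/-- Contraction of the edge `none` with the ends `none` and `w`. -/
lemma det_contract (s t : Option E → Option (Option V)) (w : Option V) (κ : C) (hκ : κ * κ = 1)
    (h1 : ei C (s none) (t none) none = κ)
    (h2 : ∀ u, ei C (s none) (t none) (some u) = -κ * (if w = some u then 1 else 0))
    (x : Option E → C) :
    (exm s t x).det = (exg (diagonal (fun e => x (some e)) + x none •
      vecMulVec (fun e => ei C (s (some e)) (t (some e)) none)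
        (fun e => ei C (s (some e)) (t (some e)) none))
      (fun e => cm w (s (some e))) (fun e => cm w (t (some e)))).det := by
  let D : Matrix (Unit ⊕ Unit) (Unit ⊕ Unit) C :=
    fromBlocks (of fun _ _ => x none) (of fun _ _ => κ) (of fun _ _ => -κ) 0
  let D' : Matrix (Unit ⊕ Unit) (Unit ⊕ Unit) C :=
    fromBlocks 0 (of fun _ _ => -κ) (of fun _ _ => κ) (of fun _ _ => x none)
  let B : Matrix (E ⊕ V) (Unit ⊕ Unit) C :=
    fromBlocks 0 (of fun e _ => ei C (s (some e)) (t (some e)) none)
      (of fun u _ => κ * (if w = some u then 1 else 0)) 0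
  let B' : Matrix (Unit ⊕ Unit) (E ⊕ V) C :=
    fromBlocks 0 (of fun _ u => -κ * (if w = some u then 1 else 0))
      (of fun _ e => -(ei C (s (some e)) (t (some e)) none)) 0
  let M₀ : Matrix (E ⊕ V) (E ⊕ V) C := fromBlocks (diagonal fun e => x (some e))
    (of fun e u => ei C (s (some e)) (t (some e)) (some u))
    (of fun u e => -ei C (s (some e)) (t (some e)) (some u)) 0
  have hD : D * D' = 1 := by
    simp only [D, D', fromBlocks_multiply]
    rw [← fromBlocks_one]
    congr 1
    · ext i j
      simp [mul_apply, hκ]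
    · ext i j
      simp [mul_apply]
      ring
    · ext i j
      simp [mul_apply]
    · ext i j
      simp [mul_apply, hκ]
  have hM : (exm s t x).submatrix (reE E V) (reE E V) = fromBlocks M₀ B B' D := by
    ext i j
    rcases i with (i | i) | (i | i) <;> rcases j with (j | j) | (j | j)
    · change diagonal x (some i) (some j) = diagonal (fun e => x (some e)) i j
      by_cases h : i = j
      · subst h
        rw [diagonal_apply_eq, diagonal_apply_eq]
      · rw [diagonal_apply_ne _ h, diagonal_apply_ne _ fun h' => h (Option.some_injective _ h')]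
    · rfl
    · change diagonal x (some i) none = 0
      rw [diagonal_apply_ne]
      simp
    · rfl
    · rfl
    · rfl
    · change -ei C (s none) (t none) (some i) = κ * _
      rw [h2]
      ring
    · rfl
    · change diagonal x none (some j) = 0
      rw [diagonal_apply_ne]
      simp
    · exact h2 j
    · exact diagonal_apply_eq x none
    · exact h1
    · rfl
    · rfl
    · change -ei C (s none) (t none) none = -κ
      rw [h1]
    · rfl
  let _ : Invertible D := invertibleOfRightInverse _ _ hD
  have h3 : ⅟ D = D' := rfl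
  have h4 : D.det = 1 := by
    have h5 : D = bd (of fun _ _ => x none) (fun _ => κ) (fun _ => -κ) 0 := by
      ext i j
      rcases i with i | i <;> rcases j with j | j <;> rfl
    rw [h5, det_bd]
    simp [adjugate_subsingleton, hκ]
  rw [← det_submatrix_equiv_self (reE E V), hM, det_fromBlocks₂₂, h3, h4, one_mul]
  congr 1
  have h6 : B * D' * B' = fromBlocks
      (-(x none • vecMulVec (fun e => ei C (s (some e)) (t (some e)) none)
        (fun e => ei C (s (some e)) (t (some e)) none)))
      (of fun e u => -((if w = some u then 1 else 0) * ei C (s (some e)) (t (some e)) none))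
      (of fun u e => (if w = some u then 1 else 0) * ei C (s (some e)) (t (some e)) none) 0 := by
    simp only [B, B', D', fromBlocks_multiply]
    congr 1
    · ext i j
      simp [mul_apply, vecMulVec_apply]
      ring
    · ext i j
      simp only [Matrix.add_apply, mul_apply, Matrix.zero_mul, Matrix.mul_zero, zero_add, add_zero,
        Matrix.zero_apply, of_apply, Finset.univ_unique, Finset.sum_singleton]
      split_ifs
      · linear_combination (-(ei C (s (some i)) (t (some i)) none)) * hκ
      · ring
    · ext i j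
      simp only [Matrix.add_apply, mul_apply, Matrix.zero_mul, Matrix.mul_zero, zero_add, add_zero,
        Matrix.zero_apply, of_apply, Finset.univ_unique, Finset.sum_singleton]
      split_ifs
      · linear_combination (ei C (s (some j)) (t (some j)) none) * hκ
      · ring
    · ext i j
      simp [mul_apply]
  rw [h6]
  ext i j
  rcases i with i | i <;> rcases j with j | j
  · simp [M₀, exg]
  · simp [M₀, exg, icm, ei_cm]
  · simp [M₀, exg, icm, ei_cm]
    ring
  · simp [M₀, exg]

end

/-! ### The induction -/

section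

variable {E V : Type} [DecidableEq V] [DecidableEq E] [Fintype E] [Fintype V]

/-- Renaming the edges and the vertices. -/
lemma exm_reindex {C : Type} [CommRing C] {E' V' : Type} [DecidableEq V'] [DecidableEq E']
    [Fintype E'] [Fintype V'] (e : E' ≃ E) (f : V' ≃ V) (s t : E → Option V) (x : E → C) :
    (exm (fun a => (s (e a)).map f.symm) (fun a => (t (e a)).map f.symm) (fun a => x (e a))).det =
      (exm s t x).det := by
  have h1 : ∀ (p : Option V) (v : V'), (p.map f.symm = some v) ↔ p = some (f v) := by
    intro p v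
    rcases p with _ | p
    · simp
    · simp [Equiv.symm_apply_eq]
  have h2 : ∀ (a : E') (v : V'), ei C ((s (e a)).map f.symm) ((t (e a)).map f.symm) v =
      ei C (s (e a)) (t (e a)) (f v) := by
    intro a v
    simp only [ei, h1]
  have h : exm (fun a => (s (e a)).map f.symm) (fun a => (t (e a)).map f.symm)
      (fun a => x (e a)) = (exm s t x).submatrix (Equiv.sumCongr e f) (Equiv.sumCongr e f) := by
    ext i j
    rcases i with i | i <;> rcases j with j | j
    · change diagonal (fun a => x (e a)) i j = diagonal x (e i) (e j)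
      by_cases h : i = j
      · subst h
        rw [diagonal_apply_eq, diagonal_apply_eq]
      · rw [diagonal_apply_ne _ h, diagonal_apply_ne _ fun h' => h (e.injective h')]
    · exact h2 _ _
    · change -ei C _ _ _ = -ei C _ _ _
      rw [h2]
    · rfl
  rw [h, det_submatrix_equiv_self]

/-- the other end of the edge -/
lemma ei_end {V₀ C : Type} [DecidableEq V₀] [CommRing C] (w : Option (Option V₀))
    (hw : w ≠ some none) : ei C (some none) w none = 1 ∧
      ∀ u, ei C (some none) w (some u) = -1 * (if w.join = some u then 1 else 0) := by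
  rcases w with _ | _ | w
  · refine ⟨by simp [ei], fun u => by simp [ei]⟩
  · exact absurd rfl hw
  · refine ⟨by simp [ei], fun u => ?_⟩
    simp only [ei, Option.join_some, Option.some.injEq]
    split_ifs <;> simp_all

lemma ei_swap {C : Type} [CommRing C] (a b : Option V) (v : V) : ei C a b v = -ei C b a v := by
  rw [ei, ei]
  ring

/-- Contraction of an edge which is not a loop. -/
lemma exists_contract (s t : E → Option V) (e : E) (he : s e ≠ t e) :
    ∃ (V₀ : Type) (_ : Fintype V₀) (_ : DecidableEq V₀) (s₀ t₀ : {f // f ≠ e} → Option V₀),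
      ∀ (C : Type) [CommRing C] (x : E → C), x e = 0 →
        (exm s t x).det = (exm s₀ t₀ fun f => x f.1).det := by
  have h0 : ∃ v, (s e = some v ∧ t e ≠ some v) ∨ (t e = some v ∧ s e ≠ some v) := by
    rcases h : s e with _ | v
    · rcases h' : t e with _ | v
      · rw [h, h'] at he
        exact absurd rfl he
      · exact ⟨v, Or.inr ⟨rfl, by simp⟩⟩
    · exact ⟨v, Or.inl ⟨rfl, fun h' => he (h.trans h'.symm)⟩⟩
  obtain ⟨v, hv⟩ := h0
  let V₀ := {u : V // u ≠ v}
  let eE : Option {f : E // f ≠ e} ≃ E := Equiv.optionSubtypeNe e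
  let eV : Option V₀ ≃ V := Equiv.optionSubtypeNe v
  let s' : Option {f : E // f ≠ e} → Option (Option V₀) := fun a => (s (eE a)).map eV.symm
  let t' : Option {f : E // f ≠ e} → Option (Option V₀) := fun a => (t (eE a)).map eV.symm
  have hn : eE none = e := Equiv.optionSubtypeNe_none e
  have hs : ∀ f, eE (some f) = f.1 := fun f => Equiv.optionSubtypeNe_some e f
  have hm : ∀ p : Option V, p.map eV.symm = some none ↔ p = some v := by
    intro p
    rcases p with _ | p
    · simp
    · simp only [Option.map_some, Option.some.injEq]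
      rw [Equiv.symm_apply_eq]
      have : eV none = v := Equiv.optionSubtypeNe_none v
      rw [this]
  have key : ∃ (w : Option V₀) (κ : ℤ), κ * κ = 1 ∧ ∀ (C : Type) [CommRing C],
      ei C (s' none) (t' none) none = κ ∧ ∀ u, ei C (s' none) (t' none) (some u) =
        -(κ : C) * (if w = some u then 1 else 0) := by
    rcases hv with ⟨h1, h2⟩ | ⟨h1, h2⟩
    · have h3 : s' none = some none := (hm _).2 (by rw [hn]; exact h1)
      have h4 : t' none ≠ some none := fun h => h2 (by
        have := (hm _).1 h
        rwa [hn] at this)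
      refine ⟨(t' none).join, 1, by norm_num, fun C _ => ?_⟩
      rw [h3]
      push_cast
      exact ei_end _ h4
    · have h3 : t' none = some none := (hm _).2 (by rw [hn]; exact h1)
      have h4 : s' none ≠ some none := fun h => h2 (by
        have := (hm _).1 h
        rwa [hn] at this)
      refine ⟨(s' none).join, -1, by norm_num, fun C _ => ?_⟩
      rw [h3]
      have h5 := ei_end (C := C) _ h4
      refine ⟨?_, fun u => ?_⟩
      · rw [ei_swap, h5.1]
        push_cast
        ring
      · rw [ei_swap, h5.2]
        push_cast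
        ring
  obtain ⟨w, κ, hκ, hk⟩ := key
  refine ⟨V₀, inferInstance, inferInstance, fun f => cm w (s' (some f)), fun f => cm w (t' (some f)),
    fun C _ x hx => ?_⟩
  have h1 := det_contract s' t' w (κ : C) (by exact_mod_cast congrArg (Int.cast : ℤ → C) hκ)
    (hk C).1 (hk C).2 (fun a => x (eE a))
  rw [exm_reindex eE eV s t x, hn, hx, zero_smul, add_zero] at h1
  rw [h1]
  simp only [hs]
  rfl

variable {R : Type} [CommRing R] {sep : Prop} {P : Sch R → Prop}

/-- the coordinate -/
def xF (s t : E → Option V) (U : Finset E) (e : E) : NF (SF s t U) := ⟨fun x => x.1 e, fun _ _ => rfl⟩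

/-- the points with vanishing coordinate `e`, for an edge `e` which is not a loop -/
def contractIso (s t : E → Option V) (U : Finset E) (e : E) (heU : e ∉ U) {V₀ : Type} [Fintype V₀]
    [DecidableEq V₀] (s₀ t₀ : {f // f ≠ e} → Option V₀)
    (h : ∀ (C : Type) [CommRing C] (x : E → C), x e = 0 →
        (exm s t x).det = (exm s₀ t₀ fun f => x f.1).det) :
    PIso ((SF s t U).zero (xF s t U e)) (SF s₀ t₀ (U.subtype fun f => f ≠ e)) where
  fwd {C} _ x := ⟨fun f => x.1.1 f.1, fun f hf => x.1.2.1 f.1 (Finset.mem_subtype.1 hf), by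
    rw [← h C x.1.1 x.2]
    exact x.1.2.2⟩
  bwd {C} _ y := ⟨⟨fun f => if hf : f = e then 0 else y.1 ⟨f, hf⟩, fun f hf => by
    have h1 : f ≠ e := fun h1 => heU (h1 ▸ hf)
    change IsUnit (if hf : f = e then 0 else y.1 ⟨f, hf⟩)
    rw [dif_neg h1]
    exact y.2.1 ⟨f, h1⟩ (Finset.mem_subtype.2 hf), by
    rw [h C _ (dif_pos rfl)]
    have h1 : (fun f : {f // f ≠ e} => if hf : f.1 = e then 0 else y.1 ⟨f.1, hf⟩) = y.1 := by
      funext f
      rw [dif_neg f.2]
    rw [h1]
    exact y.2.2⟩, dif_pos rfl⟩
  left x := by
    apply Subtype.ext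
    apply Subtype.ext
    funext f
    change (if hf : f = e then 0 else x.1.1 f) = x.1.1 f
    split_ifs with hf
    · rw [hf]
      exact x.2.symm
    · rfl
  right y := by
    apply Subtype.ext
    funext f
    exact dif_neg f.2
  nat _ _ := rfl

lemma det_loop {C : Type} [CommRing C] (s t : E → Option V) (e : E) (he : s e = t e) (x : E → C)
    (hx : x e = 0) : (exm s t x).det = 0 := by
  apply det_eq_zero_of_row_eq_zero (Sum.inl e)
  intro j
  rcases j with j | j
  · change diagonal x e j = 0
    by_cases h : e = j
    · subst h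
      rw [diagonal_apply_eq, hx]
    · exact diagonal_apply_ne _ h
  · change ei C (s e) (t e) j = 0
    rw [he, ei, sub_self]

/-- the empty functor -/
lemma holds_empty (hP : Mot sep P) {F G : PF} (hF : Holds P F) (ι : ∀ {C : Type} [CommRing C],
    G.pts C → F.pts C) (κ : ∀ {C : Type} [CommRing C] (_ : (0 : C) = 1), F.pts C → G.pts C)
    (h0 : ∀ {C : Type} [CommRing C] (_ : G.pts C), (0 : C) = 1)
    (h1 : ∀ {C : Type} [CommRing C] (h : (0 : C) = 1) (x : F.pts C), ι (κ h x) = x)
    (h2 : ∀ {C : Type} [CommRing C] (h : (0 : C) = 1) (x : G.pts C), κ h (ι x) = x)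
    (h3 : ∀ {C D : Type} [CommRing C] [CommRing D] (f : C →+* D) (p : G.pts C),
      ι (G.map f p) = F.map f (ι p)) : Holds P G := by
  let g : NF F := ⟨fun _ => 0, fun f _ => (map_zero f).symm⟩
  have h4 : Holds P (F.zero g) := hF.congr ⟨fun x => ⟨x, rfl⟩, fun x => x.1, fun _ => rfl,
    fun _ => rfl, fun _ _ => rfl⟩
  refine (hF.opened hP g h4).congr (PIso.symm ⟨fun x => ⟨ι x, ?_⟩, fun y => κ ?_ y.1,
    fun x => h2 _ x, fun y => Subtype.ext (h1 _ y.1), fun f x => Subtype.ext (h3 f x)⟩)
  · change IsUnit (0 : _)
    rw [h0 x]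
    exact isUnit_one
  · exact isUnit_zero_iff.1 y.2

/-- **From the affine space to the torus**, for the first Symanzik polynomial. -/
theorem holds_SF (hP : Mot sep P)
    (h : ∀ (E V : Type) [Fintype E] [DecidableEq E] [Fintype V] [DecidableEq V]
      (s t : E → Option V), Holds P (SF s t ∅)) (n : ℕ) :
    ∀ (E V : Type) [Fintype E] [DecidableEq E] [Fintype V] [DecidableEq V]
      (s t : E → Option V) (U : Finset E), U.card = n → Holds P (SF s t U) := by
  induction n with
  | zero =>
    intro E V _ _ _ _ s t U hU
    rw [Finset.card_eq_zero] at hU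
    subst hU
    exact h E V s t
  | succ n ih =>
    intro E V _ _ _ _ s t U' hU'
    obtain ⟨e, U, he, rfl, hn⟩ := Finset.card_eq_succ.1 hU'
    have h1 : Holds P ((SF s t U).zero (xF s t U e)) := by
      by_cases hl : s e = t e
      · have h0 : ∀ {C : Type} [CommRing C] (x : ((SF s t U).zero (xF s t U e)).pts C),
            (0 : C) = 1 := by
          intro C _ x
          have h2 := x.1.2.2
          rw [det_loop s t e hl x.1.1 x.2] at h2
          exact isUnit_zero_iff.1 h2
        refine holds_empty hP (ih E V s t U hn) (fun x => x.1) (fun h x => ⟨x, ?_⟩) h0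
          (fun _ _ => rfl) (fun _ _ => rfl) (fun _ _ => rfl)
        exact (eq_of_zero_eq_one h _ _ )
      · obtain ⟨V₀, i1, i2, s₀, t₀, h2⟩ := exists_contract s t e hl
        refine (ih _ _ s₀ t₀ (U.subtype fun f => f ≠ e) ?_).congr
          (contractIso s t U e he s₀ t₀ h2).symm
        rw [Finset.card_subtype, Finset.filter_true_of_mem, hn]
        intro f hf h3
        exact he (h3 ▸ hf)
    refine ((ih E V s t U hn).opened hP _ h1).congr ⟨fun x => ⟨x.1.1, fun f hf => ?_, x.1.2.2⟩,
      fun y => ⟨⟨y.1, fun f hf => y.2.1 f (Finset.mem_insert_of_mem hf), y.2.2⟩,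
        y.2.1 e (Finset.mem_insert_self e U)⟩, fun _ => rfl, fun _ => rfl, fun _ _ => rfl⟩
    rcases Finset.mem_insert.1 hf with rfl | hf
    · exact x.2
    · exact x.1.2.1 f hf

/-! ### From the torus to the affine space, for the Kirchhoff polynomial -/

/-- the coordinate -/
def xK (s t : E → Option V) (U : Finset E) (e : E) : NF (KS s t U) := ⟨fun x => x.1 e, fun _ _ => rfl⟩

omit [Fintype V] in
lemma lapm_del {C : Type} [CommRing C] (s t : E → Option V) (e : E) (x : E → C) (hx : x e = 0) :
    lapm s t x = lapm (fun f : {f // f ≠ e} => s f.1) (fun f => t f.1) fun f => x f.1 := by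
  ext v w
  rw [lapm_apply, lapm_apply, Fintype.sum_eq_add_sum_subtype_ne _ e, hx, mul_zero, zero_mul,
    zero_add]

/-- the points with vanishing coordinate `e` -/
def deleteIso (s t : E → Option V) (U : Finset E) (e : E) (heU : e ∉ U) :
    PIso ((KS s t U).zero (xK s t U e))
      (KS (fun f : {f // f ≠ e} => s f.1) (fun f => t f.1) (U.subtype fun f => f ≠ e)) where
  fwd {C} _ x := ⟨fun f => x.1.1 f.1, fun f hf => x.1.2.1 f.1 (Finset.mem_subtype.1 hf), by
    rw [← lapm_del s t e x.1.1 x.2]
    exact x.1.2.2⟩
  bwd {C} _ y := ⟨⟨fun f => if hf : f = e then 0 else y.1 ⟨f, hf⟩, fun f hf => by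
    have h1 : f ≠ e := fun h1 => heU (h1 ▸ hf)
    change IsUnit (if hf : f = e then 0 else y.1 ⟨f, hf⟩)
    rw [dif_neg h1]
    exact y.2.1 ⟨f, h1⟩ (Finset.mem_subtype.2 hf), by
    rw [lapm_del s t e _ (dif_pos rfl)]
    have h1 : (fun f : {f // f ≠ e} => if hf : f.1 = e then 0 else y.1 ⟨f.1, hf⟩) = y.1 := by
      funext f
      rw [dif_neg f.2]
    rw [h1]
    exact y.2.2⟩, dif_pos rfl⟩
  left x := by
    apply Subtype.ext
    apply Subtype.ext
    funext f
    change (if hf : f = e then 0 else x.1.1 f) = x.1.1 f
    split_ifs with hf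
    · rw [hf]
      exact x.2.symm
    · rfl
  right y := by
    apply Subtype.ext
    funext f
    exact dif_neg f.2
  nat _ _ := rfl

lemma hasRep_KS (s t : E → Option V) : HasRep R (KS s t ∅) := by
  let g : NF (PT.aff E) := ⟨fun p => (lapm s t p.2).det, fun f p => by
    change (lapm s t fun e => f (p.2 e)).det = _
    rw [lapm_map, det_map]⟩
  exact ((hasRep_PT.aff E).unit g).congr ⟨fun x => ⟨x.1.2, fun e he => absurd he (by simp), x.2⟩,
    fun y => ⟨((), y.1), y.2.2⟩, fun _ => rfl, fun _ => rfl, fun _ _ => rfl⟩

lemma hasRep_KS' (s t : E → Option V) (U : Finset E) : HasRep R (KS s t U) := by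
  induction U using Finset.induction_on with
  | empty => exact hasRep_KS s t
  | insert e U he ih =>
    refine (ih.unit (xK s t U e)).congr ⟨fun x => ⟨x.1.1, fun f hf => ?_, x.1.2.2⟩,
      fun y => ⟨⟨y.1, fun f hf => y.2.1 f (Finset.mem_insert_of_mem hf), y.2.2⟩,
        y.2.1 e (Finset.mem_insert_self e U)⟩, fun _ => rfl, fun _ => rfl, fun _ _ => rfl⟩
    rcases Finset.mem_insert.1 hf with rfl | hf
    · exact x.2
    · exact x.1.2.1 f hf

/-- **From the torus to the affine space**, for the Kirchhoff polynomial. -/
theorem holds_KS (hP : Mot sep P)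
    (h : ∀ (E V : Type) [Fintype E] [DecidableEq E] [Fintype V] [DecidableEq V]
      (s t : E → Option V), Holds P (KS s t Finset.univ)) (n : ℕ) :
    ∀ (E V : Type) [Fintype E] [DecidableEq E] [Fintype V] [DecidableEq V]
      (s t : E → Option V) (U : Finset E), Uᶜ.card = n → Holds P (KS s t U) := by
  induction n with
  | zero =>
    intro E V _ _ _ _ s t U hU
    rw [Finset.card_eq_zero, Finset.compl_eq_empty_iff] at hU
    subst hU
    exact h E V s t
  | succ n ih =>
    intro E V _ _ _ _ s t U hU
    obtain ⟨e, U', he, hU', hn⟩ := Finset.card_eq_succ.1 hU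
    have heU : e ∉ U := by
      have h1 : e ∈ Uᶜ := hU' ▸ Finset.mem_insert_self e U'
      exact Finset.mem_compl.1 h1
    have h2 : (insert e U)ᶜ = U' := by
      rw [Finset.compl_insert, ← hU', Finset.erase_insert he]
    refine Holds.total hP (hasRep_KS' s t U) (xK s t U e) ?_ ?_
    · refine (ih _ _ (fun f : {f // f ≠ e} => s f.1) (fun f => t f.1)
        (U.subtype fun f => f ≠ e) ?_).congr (deleteIso s t U e heU).symm
      have h3 := Fintype.card_congr (Equiv.optionSubtypeNe e)
      rw [Fintype.card_option] at h3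
      have h4 : (U.subtype fun f => f ≠ e).card = U.card := by
        rw [Finset.card_subtype, Finset.filter_true_of_mem]
        intro f hf h3
        exact heU (h3 ▸ hf)
      rw [Finset.card_compl] at hU ⊢
      rw [h4]
      omega
    · refine (ih E V s t (insert e U) (by rw [h2, hn])).congr (PIso.symm
        ⟨fun x => ⟨x.1.1, fun f hf => ?_, x.1.2.2⟩,
        fun y => ⟨⟨y.1, fun f hf => y.2.1 f (Finset.mem_insert_of_mem hf), y.2.2⟩,
          y.2.1 e (Finset.mem_insert_self e U)⟩, fun _ => rfl, fun _ => rfl, fun _ _ => rfl⟩)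
      rcases Finset.mem_insert.1 hf with rfl | hf
      · exact x.2
      · exact x.1.2.1 f hf

/-- From the first Symanzik polynomial to the Kirchhoff polynomial. -/
theorem holds_KS_of_SF (hP : Mot sep P)
    (h : ∀ (E V : Type) [Fintype E] [DecidableEq E] [Fintype V] [DecidableEq V]
      (s t : E → Option V), Holds P (SF s t ∅))
    (E V : Type) [Fintype E] [DecidableEq E] [Fintype V] [DecidableEq V]
      (s t : E → Option V) : Holds P (KS s t ∅) :=
  holds_KS hP (fun E V _ _ _ _ s t => (holds_SF hP h _ E V s t Finset.univ rfl).congr (crem s t)) _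
    E V s t ∅ rfl

end

/-! ### Sparse symmetric matrices are Laplacians of multigraphs -/

section

variable {V : Type} [Fintype V] [DecidableEq V] {n : ℕ} (q : Pat V PEmpty) (e : V ≃ Fin n)

/-- the edges between `a` and `b` -/
def Ed (p : V × V) : Prop := e p.1 < e p.2 ∧ q.adj p.1 p.2 ∧ q.adj p.2 p.1

/-- the first ends of the edges -/
def sE : {p : V × V // Ed q e p} ⊕ V → Option V := Sum.elim (fun p => some p.1.1) some

/-- the second ends of the edges -/
def tE : {p : V × V // Ed q e p} ⊕ V → Option V := Sum.elim (fun p => some p.1.2) fun _ => none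

open Classical in
/-- the weights -/
noncomputable def yE {C : Type} [CommRing C] (x : {p : V × V // Ed q e p} ⊕ V → C) (a b : V) : C :=
  ext0 (Ed q e) (fun p => x (Sum.inl p)) (a, b)

omit [Fintype V] in
lemma delta_mul {C : Type} [CommRing C] (a b v w : V) (z : C) :
    (((if a = v then 1 else 0) - (if b = v then 1 else 0)) *
      ((if a = w then 1 else 0) - (if b = w then 1 else 0))) * z =
    (if v = w then (if a = v then z else 0) else 0) + (if v = w then (if b = v then z else 0) else 0) -
      (if a = v then (if b = w then z else 0) else 0) - (if a = w then (if b = v then z else 0) else 0) := by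
  by_cases h1 : v = w
  · subst h1
    rw [if_pos rfl, if_pos rfl]
    by_cases h2 : a = v <;> by_cases h3 : b = v <;> simp only [h2, h3, if_true, if_false] <;> ring
  · rw [if_neg h1, if_neg h1]
    by_cases h2 : a = v
    · subst h2
      rw [if_pos rfl, if_neg h1, if_pos rfl, if_neg h1]
      by_cases h3 : b = a
      · subst h3
        rw [if_pos rfl, if_neg h1, if_neg h1]
        ring
      · rw [if_neg h3]
        by_cases h4 : b = w <;> simp only [h4, if_true, if_false] <;> ring
    · rw [if_neg h2, if_neg h2]
      by_cases h3 : a = w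
      · subst h3
        rw [if_pos rfl, if_pos rfl]
        by_cases h4 : b = v
        · subst h4
          rw [if_pos rfl, if_neg h1, if_pos rfl]
          ring
        · rw [if_neg h4, if_neg h4]
          ring
      · rw [if_neg h3, if_neg h3]
        by_cases h4 : b = v
        · subst h4
          rw [if_pos rfl, if_neg h1]
          ring
        · rw [if_neg h4]
          ring

lemma lapm_E {C : Type} [CommRing C] [Fintype {p : V × V // Ed q e p}]
    (x : {p : V × V // Ed q e p} ⊕ V → C) (v w : V) :
    lapm (sE q e) (tE q e) x v w = (if v = w then ∑ b, yE q e x v b + ∑ a, yE q e x a v +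
      x (Sum.inr v) else 0) - yE q e x v w - yE q e x w v := by
  rw [lapm_apply, Fintype.sum_sum_type]
  have h1 : ∑ a : V, ei C (sE q e (Sum.inr a)) (tE q e (Sum.inr a)) v * x (Sum.inr a) *
      ei C (sE q e (Sum.inr a)) (tE q e (Sum.inr a)) w = if v = w then x (Sum.inr v) else 0 := by
    rw [Finset.sum_eq_single v]
    · simp [ei, sE, tE]
    · intro a _ ha
      simp [ei, sE, tE, ha]
    · intro h
      exact absurd (Finset.mem_univ _) h
  have h2 : ∑ p : {p : V × V // Ed q e p}, ei C (sE q e (Sum.inl p)) (tE q e (Sum.inl p)) v *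
      x (Sum.inl p) * ei C (sE q e (Sum.inl p)) (tE q e (Sum.inl p)) w =
      ∑ p : V × V, (((if p.1 = v then 1 else 0) - (if p.2 = v then 1 else 0)) *
      ((if p.1 = w then 1 else 0) - (if p.2 = w then 1 else 0))) * yE q e x p.1 p.2 := by
    change _ = ∑ p : V × V, _ * ext0 (Ed q e) (fun p => x (Sum.inl p)) p
    rw [sum_ext0]
    apply Finset.sum_congr rfl
    intro p _
    simp only [ei, sE, tE, Sum.elim_inl, Option.some.injEq]
    ring
  rw [h1, h2, Fintype.sum_prod_type]
  simp only [delta_mul]
  simp only [Finset.sum_sub_distrib, Finset.sum_add_distrib]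
  have h3 : ∑ a, ∑ b, (if v = w then (if a = v then yE q e x a b else 0) else 0) =
      if v = w then ∑ b, yE q e x v b else 0 := by
    split_ifs
    · rw [Finset.sum_comm]
      apply Finset.sum_congr rfl
      intro b _
      rw [Finset.sum_ite_eq' Finset.univ v, if_pos (Finset.mem_univ _)]
    · simp
  have h4 : ∑ a, ∑ b, (if v = w then (if b = v then yE q e x a b else 0) else 0) =
      if v = w then ∑ a, yE q e x a v else 0 := by
    split_ifs
    · apply Finset.sum_congr rfl
      intro b _
      rw [Finset.sum_ite_eq' Finset.univ v, if_pos (Finset.mem_univ _)]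
    · simp
  have h5 : ∀ v w : V, ∑ a, ∑ b, (if a = v then (if b = w then yE q e x a b else 0) else 0) =
      yE q e x v w := by
    intro v w
    rw [Finset.sum_eq_single v]
    · rw [Finset.sum_eq_single w]
      · rw [if_pos rfl, if_pos rfl]
      · intro b _ hb
        rw [if_neg hb, ite_self]
      · intro h
        exact absurd (Finset.mem_univ _) h
    · intro a _ ha
      simp [ha]
    · intro h
      exact absurd (Finset.mem_univ _) h
  rw [h3, h4, h5, h5]
  split_ifs <;> ring

open Classical in
/-- the coordinates of a sparse symmetric matrix -/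
noncomputable def xE {C : Type} [CommRing C] (M : Matrix V V C) :
    {p : V × V // Ed q e p} ⊕ V → C :=
  Sum.elim (fun p => -M p.1.1 p.1.2) fun a => ∑ c, M a c

omit [Fintype V] [DecidableEq V] in
lemma yE_of {C : Type} [CommRing C] (x : {p : V × V // Ed q e p} ⊕ V → C)
    (p : {p : V × V // Ed q e p}) : yE q e x p.1.1 p.1.2 = x (Sum.inl p) :=
  ext0_of (J := Ed q e) (fun p => x (Sum.inl p)) p

omit [Fintype V] [DecidableEq V] in
lemma yE_not {C : Type} [CommRing C] (x : {p : V × V // Ed q e p} ⊕ V → C) (a b : V)
    (h : ¬ Ed q e (a, b)) : yE q e x a b = 0 :=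
  ext0_not (J := Ed q e) (fun p => x (Sum.inl p)) (a, b) h

omit [Fintype V] in
lemma ok_zero' {C : Type} [CommRing C] {M : Matrix V V C} (hs : ∀ a b, M a b = M b a)
    (hz : ∀ a b, a ≠ b → ¬ q.adj a b → M a b = 0) (a b : V) (hab : a ≠ b)
    (h : ¬ (q.adj a b ∧ q.adj b a)) : M a b = 0 := by
  by_cases h1 : q.adj a b
  · rw [hs]
    exact hz b a hab.symm fun h2 => h ⟨h1, h2⟩
  · exact hz a b hab h1

lemma y_add {C : Type} [CommRing C] {M : Matrix V V C} (hs : ∀ a b, M a b = M b a)
    (hz : ∀ a b, a ≠ b → ¬ q.adj a b → M a b = 0) (a b : V) :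
    yE q e (xE q e M) a b + yE q e (xE q e M) b a = if a = b then 0 else -M a b := by
  by_cases hab : a = b
  · subst hab
    have h1 : ¬ Ed q e (a, a) := fun h => lt_irrefl _ h.1
    rw [if_pos rfl, yE_not q e _ _ _ h1, add_zero]
  · rw [if_neg hab]
    by_cases h : q.adj a b ∧ q.adj b a
    · rcases lt_or_gt_of_ne fun h1 => hab (e.injective h1) with h1 | h1
      · have h2 : ¬ Ed q e (b, a) := fun h3 => lt_asymm h1 h3.1
        rw [yE_not q e _ _ _ h2, yE_of q e _ ⟨(a, b), h1, h.1, h.2⟩, add_zero]
        rfl
      · have h2 : ¬ Ed q e (a, b) := fun h3 => lt_asymm h1 h3.1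
        rw [yE_not q e _ _ _ h2, yE_of q e _ ⟨(b, a), h1, h.2, h.1⟩, zero_add]
        change -M b a = -M a b
        rw [hs]
    · have h2 : ¬ Ed q e (a, b) := fun h3 => h ⟨h3.2.1, h3.2.2⟩
      have h3 : ¬ Ed q e (b, a) := fun h3 => h ⟨h3.2.2, h3.2.1⟩
      rw [yE_not q e _ _ _ h2, yE_not q e _ _ _ h3, ok_zero' q hs hz a b hab h, add_zero, neg_zero]

lemma lapm_xE {C : Type} [CommRing C] [Fintype {p : V × V // Ed q e p}] {M : Matrix V V C}
    (hs : ∀ a b, M a b = M b a) (hz : ∀ a b, a ≠ b → ¬ q.adj a b → M a b = 0) :
    lapm (sE q e) (tE q e) (xE q e M) = M := by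
  ext v w
  rw [lapm_E]
  have h := y_add q e hs hz v w
  by_cases hvw : v = w
  · subst hvw
    rw [if_pos rfl] at h ⊢
    have h1 : ∑ b, yE q e (xE q e M) v b + ∑ a, yE q e (xE q e M) a v = M v v - ∑ b, M v b := by
      rw [← Finset.sum_add_distrib]
      simp only [y_add q e hs hz]
      have h2 : ∀ b, (if v = b then 0 else -M v b) = (if b = v then M v v else 0) - M v b := by
        intro b
        by_cases hb : v = b
        · subst hb
          rw [if_pos rfl, if_pos rfl, sub_self]
        · rw [if_neg hb, if_neg (Ne.symm hb), zero_sub]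
      simp only [h2]
      rw [Finset.sum_sub_distrib, Finset.sum_ite_eq' Finset.univ v, if_pos (Finset.mem_univ _)]
    rw [h1, sub_sub, h]
    change M v v - ∑ b, M v b + ∑ c, M v c - 0 = M v v
    ring
  · rw [if_neg hvw] at h ⊢
    linear_combination -h

lemma xE_lapm {C : Type} [CommRing C] [Fintype {p : V × V // Ed q e p}]
    (x : {p : V × V // Ed q e p} ⊕ V → C) : xE q e (lapm (sE q e) (tE q e) x) = x := by
  funext i
  rcases i with p | a
  · change -lapm (sE q e) (tE q e) x p.1.1 p.1.2 = _
    have h1 : p.1.1 ≠ p.1.2 := fun h => by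
      have := p.2.1
      rw [h] at this
      exact lt_irrefl _ this
    have h2 : ¬ Ed q e (p.1.2, p.1.1) := fun h => lt_asymm p.2.1 h.1
    rw [lapm_E, if_neg h1, yE_of q e x p, yE_not q e x _ _ h2]
    ring
  · change ∑ c, lapm (sE q e) (tE q e) x a c = _
    simp only [lapm_E]
    rw [Finset.sum_sub_distrib, Finset.sum_sub_distrib, Finset.sum_ite_eq,
      if_pos (Finset.mem_univ _)]
    ring

lemma lapm_symm {E C : Type} [Fintype E] [DecidableEq E] [CommRing C] (s t : E → Option V)
    (x : E → C) (v w : V) : lapm s t x v w = lapm s t x w v := by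
  rw [lapm_apply, lapm_apply]
  apply Finset.sum_congr rfl
  intro e _
  ring

/-- Sparse symmetric matrices are Laplacians of multigraphs. -/
noncomputable def lapIso [Fintype {p : V × V // Ed q e p}] :
    PIso (KS (sE q e) (tE q e) ∅) ((TT q).unit (matT q).det) where
  fwd x := ⟨⟨(lapm (sE q e) (tE q e) x.1, fun k => k.elim), fun a b => lapm_symm _ _ _ _ _,
    fun a b h1 h2 => by
      change lapm (sE q e) (tE q e) x.1 a b = 0
      have h3 : ¬ Ed q e (a, b) := fun h => h2 h.2.1
      have h4 : ¬ Ed q e (b, a) := fun h => h2 h.2.2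
      rw [lapm_E, if_neg h1, yE_not q e _ _ _ h3, yE_not q e _ _ _ h4]
      ring, fun k => k.elim, fun k => k.elim⟩, x.2.2⟩
  bwd y := ⟨xE q e y.1.1.1, fun e he => absurd he (by simp), by
    rw [lapm_xE q e y.1.2.symm y.1.2.zero]
    exact y.2⟩
  left x := Subtype.ext (xE_lapm q e x.1)
  right y := by
    apply Subtype.ext
    apply Subtype.ext
    apply Prod.ext
    · exact lapm_xE q e y.1.2.symm y.1.2.zero
    · funext k
      exact k.elim
  nat f x := by
    apply Subtype.ext
    apply Subtype.ext
    apply Prod.ext
    · exact lapm_map f _ _ _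
    · funext k
      exact k.elim

end

section

variable {R : Type} [CommRing R] {sep : Prop} {P : Sch R → Prop}

/-- Kirchhoff polynomials of multigraphs. -/
theorem base_of_KS
    (h : ∀ (E V : Type) [Fintype E] [DecidableEq E] [Fintype V] [DecidableEq V]
      (s t : E → Option V), Holds P (KS s t ∅)) : Base P := by
  classical
  intro V _ _ q
  exact (h _ _ _ _).congr (lapIso q (Fintype.equivFin V))

/-- First Symanzik polynomials of multigraphs. -/
theorem base_of_SF (hP : Mot sep P)
    (h : ∀ (E V : Type) [Fintype E] [DecidableEq E] [Fintype V] [DecidableEq V]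
      (s t : E → Option V), Holds P (SF s t ∅)) : Base P :=
  base_of_KS (holds_KS_of_SF hP h)

end

end Pool.Agent.Helper3.GU
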